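import Mathlib

open scoped Quaternion Matrix.Norms.L2Operator ENNReal
open Set MeasureTheory

noncomputable section

namespace HQ

/-- `c` is a `C¹` curve `[0,1] → A` with derivative `c'`, contained in the set `G`,
which starts at `g` and ends at `h`. -/
structure IsC1Curve {A : Type*} [NormedRing A] [NormedAlgebra ℝ A] (G : Set A) (g h : A)
    (c c' : ℝ → A) : Prop where
  mem : ∀ t ∈ Icc (0 : ℝ) 1, c t ∈ G
  deriv : ∀ t ∈ Icc (0 : ℝ) 1, HasDerivWithinAt c (c' t) (Icc 0 1) t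
  cont : ContinuousOn c' (Icc 0 1)
  source : c 0 = g
  target : c 1 = h

/-- Length of the curve `c` in a group of unitary elements of `A` (so that `star` is the inverse) for
the left invariant Riemannian metric whose value on the Lie algebra is the quadratic form `Q`. -/
def leftLength {A : Type*} [NormedRing A] [Star A] (Q : A → ℝ) (c c' : ℝ → A) : ℝ :=
  ∫ t in (0 : ℝ)..1, √(Q (star (c t) * c' t))

/-- Riemannian distance of the left invariant metric `Q` on the group `G`: infimum of the lengths of the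
`C¹` curves in `G` from `g` to `h` (`∞` if there is none). -/
def riemDist {A : Type*} [NormedRing A] [NormedAlgebra ℝ A] [Star A] (G : Set A) (Q : A → ℝ)
    (g h : A) : ℝ≥0∞ :=
  ⨅ (c : ℝ → A) (c' : ℝ → A) (_ : IsC1Curve G g h c c'), ENNReal.ofReal (leftLength Q c c')

/-- `Γ` acts by isometries on `(X, dX)`. -/
def IsIsometryGroup {X : Type*} (dX : X → X → ℝ≥0∞) (Γ : Subgroup (Equiv.Perm X)) : Prop :=
  ∀ γ ∈ Γ, ∀ x y, dX (γ x) (γ y) = dX x y

/-- `(R, dR)` is isometric to the quotient of `(X, dX)` by `Γ`, that is, to the space of closures of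
`Γ`-orbits with the distance `d(Γx, Γy) = inf_γ dX (x, γ y)`. -/
def IsQuotient {X R : Type*} (dX : X → X → ℝ≥0∞) (Γ : Subgroup (Equiv.Perm X))
    (dR : R → R → ℝ≥0∞) : Prop :=
  ∃ π : X → R, Function.Surjective π ∧ ∀ x y, dR (π x) (π y) = ⨅ γ ∈ Γ, dX x (γ y)

/-- `S³ × S³` as the set of pairs of unit quaternions. -/
def S33 : Set (ℍ × ℍ) := {q | ‖q.1‖ = 1 ∧ ‖q.2‖ = 1}

/-- The quadratic form defining the left invariant metric on `S³ × S³`. -/
def QM (ξ : ℍ × ℍ) : ℝ := ‖ξ.1‖ ^ 2 + ‖ξ.2‖ ^ 2 - (ξ.1.imI + √2 * ξ.2.imI) ^ 2 / 4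

/-- The Riemannian distance of `S³ × S³` with the left invariant metric `QM`. -/
def dM (p q : S33) : ℝ≥0∞ := riemDist S33 QM (p : ℍ × ℍ) (q : ℍ × ℍ)

/-- The underlying set of matrices of a group of unitary matrices. -/
def matSet {N : ℕ} (G : Subgroup (Matrix.unitaryGroup (Fin N) ℂ)) : Set (Matrix (Fin N) (Fin N) ℂ) :=
  {X | ∃ g ∈ G, (g : Matrix (Fin N) (Fin N) ℂ) = X}

/-- The Lie algebra of a closed group of unitary matrices. -/
def LieSet {N : ℕ} (G : Subgroup (Matrix.unitaryGroup (Fin N) ℂ)) : Set (Matrix (Fin N) (Fin N) ℂ) :=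
  {X | ∀ t : ℝ, NormedSpace.exp (t • X) ∈ matSet G}

/-- `B` is (on the Lie algebra of `G`) an `Ad`-invariant inner product. -/
structure IsBiinvariant {N : ℕ} (G : Subgroup (Matrix.unitaryGroup (Fin N) ℂ))
    (B : Matrix (Fin N) (Fin N) ℂ →ₗ[ℝ] Matrix (Fin N) (Fin N) ℂ →ₗ[ℝ] ℝ) : Prop where
  symm : ∀ X ∈ LieSet G, ∀ Y ∈ LieSet G, B X Y = B Y X
  pos : ∀ X ∈ LieSet G, X ≠ 0 → 0 < B X X
  inv : ∀ g ∈ matSet G, ∀ X ∈ LieSet G, ∀ Y ∈ LieSet G,
    B (g * X * star g) (g * Y * star g) = B X Y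

/-- The Riemannian distance of the bi-invariant metric on `G` given by `B`. -/
def dG {N : ℕ} (G : Subgroup (Matrix.unitaryGroup (Fin N) ℂ))
    (B : Matrix (Fin N) (Fin N) ℂ →ₗ[ℝ] Matrix (Fin N) (Fin N) ℂ →ₗ[ℝ] ℝ) (g h : G) : ℝ≥0∞ :=
  riemDist (matSet G) (fun X => B X X) ((g : Matrix.unitaryGroup (Fin N) ℂ) : Matrix (Fin N) (Fin N) ℂ)
    ((h : Matrix.unitaryGroup (Fin N) ℂ) : Matrix (Fin N) (Fin N) ℂ)

/-! ### auxiliary notions -/

/-- the unit complex number `e^{i a}` as a quaternion -/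
def E (a : ℝ) : ℍ := ⟨Real.cos a, Real.sin a, 0, 0⟩

/-- the quaternion `i` -/
def Iq : ℍ := ⟨0, 1, 0, 0⟩

/-- angle between quaternions -/
def ang (p q : ℍ) : ℝ := InnerProductGeometry.angle p q

/-- explicit formula for the distance of `S³ × S³` -/
def dF (p q : ℍ × ℍ) : ℝ :=
  ⨅ θ : ℝ, √(ang p.1 (q.1 * E θ) ^ 2 + ang p.2 (q.2 * E (√2 * θ)) ^ 2 + θ ^ 2)

/-- `⟨q i q⁻¹, i⟩` for a unit quaternion `q` -/
def hop (q : ℍ) : ℝ := q.re ^ 2 + q.imI ^ 2 - q.imJ ^ 2 - q.imK ^ 2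

/-- the action of `ℝ⁴` on `S³ × S³` -/
def Psi (a b c d : ℝ) (q : ℍ × ℍ) : ℍ × ℍ := (E a * q.1 * E c, E b * q.2 * E d)

/-- abstract properties of a compact group with bi-invariant metric -/
structure BiGrp {G : Type*} [Group G] (d : G → G → ℝ≥0∞) {V : Type*} [NormedAddCommGroup V]
    [InnerProductSpace ℝ V] (e : V → G) : Prop where
  e_add : ∀ (s t : ℝ) (x : V), e ((s + t) • x) = e (s • x) * e (t • x)
  d_exp : ∀ x y, d (e x) (e y) ≤ ENNReal.ofReal ‖x - y‖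
  tri : ∀ a b c, d a c ≤ d a b + d b c
  left : ∀ a b c, d (a * b) (a * c) = d b c
  right : ∀ a b c, d (b * a) (c * a) = d b c
  word : ∀ (g h : G) (r : ℝ), 0 < r → d g h < ENNReal.ofReal r → ∀ ε : ℝ, 0 < ε →
    ∃ (n : ℕ) (x : Fin n → V), 0 < n ∧ n * ∑ i, ‖x i‖ ^ 2 ≤ r ^ 2 ∧
      d (g * (List.ofFn (fun i => e (x i))).prod) h ≤ ENNReal.ofReal ε

/-- the skew-Hermitian matrix with eigenbasis `u` and eigenvalues `i l j` -/
def Xd {N : ℕ} (u : Matrix (Fin N) (Fin N) ℂ) (l : Fin N → ℝ) : Matrix (Fin N) (Fin N) ℂ :=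
  u * Matrix.diagonal (fun j => ((l j : ℂ) * Complex.I)) * star u

/-- controls: two continuous quaternion valued functions on `[0,1]` and a real number -/
def Ctrl : Type := C(Set.Icc (0 : ℝ) 1, ℍ) × C(Set.Icc (0 : ℝ) 1, ℍ) × ℝ

instance : AddCommGroup Ctrl :=
  inferInstanceAs (AddCommGroup (C(Set.Icc (0 : ℝ) 1, ℍ) × C(Set.Icc (0 : ℝ) 1, ℍ) × ℝ))
instance : Module ℝ Ctrl :=
  inferInstanceAs (Module ℝ (C(Set.Icc (0 : ℝ) 1, ℍ) × C(Set.Icc (0 : ℝ) 1, ℍ) × ℝ))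

/-- `∫₀¹ ⟨f, g⟩` -/
def ip (f g : C(Set.Icc (0 : ℝ) 1, ℍ)) : ℝ :=
  ∫ t in (0 : ℝ)..1, inner ℝ (f (projIcc 0 1 zero_le_one t)) (g (projIcc 0 1 zero_le_one t))

theorem ip_continuous (f g : C(Set.Icc (0 : ℝ) 1, ℍ)) :
    Continuous fun t : ℝ => inner ℝ (f (projIcc 0 1 zero_le_one t)) (g (projIcc 0 1 zero_le_one t)) :=
  (f.continuous.comp continuous_projIcc).inner (g.continuous.comp continuous_projIcc)

theorem ip_comm (f g : C(Set.Icc (0 : ℝ) 1, ℍ)) : ip f g = ip g f := by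
  unfold ip
  congr 1
  funext t
  exact real_inner_comm _ _

theorem ip_add_left (f g h : C(Set.Icc (0 : ℝ) 1, ℍ)) : ip (f + g) h = ip f h + ip g h := by
  unfold ip
  rw [← intervalIntegral.integral_add ((ip_continuous f h).intervalIntegrable _ _)
    ((ip_continuous g h).intervalIntegrable _ _)]
  congr 1
  funext t
  simp [inner_add_left]

theorem ip_smul_left (r : ℝ) (f h : C(Set.Icc (0 : ℝ) 1, ℍ)) : ip (r • f) h = r * ip f h := by
  unfold ip
  rw [← intervalIntegral.integral_const_mul]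
  congr 1
  funext t
  simp [real_inner_smul_left]

theorem ip_nonneg (f : C(Set.Icc (0 : ℝ) 1, ℍ)) : 0 ≤ ip f f := by
  unfold ip
  apply intervalIntegral.integral_nonneg zero_le_one
  intro t _
  exact real_inner_self_nonneg

theorem ip_eq_zero (f : C(Set.Icc (0 : ℝ) 1, ℍ)) (h : ip f f = 0) : f = 0 := by
  have h1 : ∀ t ∈ Icc (0 : ℝ) 1, inner ℝ (f (projIcc 0 1 zero_le_one t)) (f (projIcc 0 1 zero_le_one t)) = 0 := by
    intro t ht
    by_contra hne
    have hpos : 0 < inner ℝ (f (projIcc 0 1 zero_le_one t)) (f (projIcc 0 1 zero_le_one t)) :=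
      lt_of_le_of_ne real_inner_self_nonneg (Ne.symm hne)
    have : 0 < ip f f := by
      unfold ip
      exact intervalIntegral.integral_pos zero_lt_one (ip_continuous f f).continuousOn
        (fun x _ => real_inner_self_nonneg) ⟨t, ht, hpos⟩
    exact this.ne' h
  ext1 t
  have h2 := h1 t t.2
  rw [projIcc_val] at h2
  simpa using h2

/-- the inner product on the space of controls -/
@[reducible] def ctrlCore : InnerProductSpace.Core ℝ Ctrl where
  inner x y := ip x.1 y.1 + ip x.2.1 y.2.1 + x.2.2 * y.2.2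
  conj_inner_symm x y := by
    show ip y.1 x.1 + ip y.2.1 x.2.1 + y.2.2 * x.2.2 = ip x.1 y.1 + ip x.2.1 y.2.1 + x.2.2 * y.2.2
    rw [ip_comm y.1, ip_comm y.2.1, mul_comm y.2.2]
  re_inner_nonneg x := by
    show 0 ≤ ip x.1 x.1 + ip x.2.1 x.2.1 + x.2.2 * x.2.2
    have := ip_nonneg x.1
    have := ip_nonneg x.2.1
    nlinarith [mul_self_nonneg x.2.2]
  add_left x y z := by
    show ip (x.1 + y.1) z.1 + ip (x.2.1 + y.2.1) z.2.1 + (x.2.2 + y.2.2) * z.2.2 =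
      ip x.1 z.1 + ip x.2.1 z.2.1 + x.2.2 * z.2.2 + (ip y.1 z.1 + ip y.2.1 z.2.1 + y.2.2 * z.2.2)
    rw [ip_add_left, ip_add_left]
    ring
  smul_left x y r := by
    show ip (r • x.1) y.1 + ip (r • x.2.1) y.2.1 + (r * x.2.2) * y.2.2 =
      r * (ip x.1 y.1 + ip x.2.1 y.2.1 + x.2.2 * y.2.2)
    rw [ip_smul_left, ip_smul_left]
    ring
  definite x h := by
    have h' : ip x.1 x.1 + ip x.2.1 x.2.1 + x.2.2 * x.2.2 = 0 := h
    have h1 := ip_nonneg x.1
    have h2 := ip_nonneg x.2.1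
    have h3 := mul_self_nonneg x.2.2
    have e1 : x.1 = 0 := ip_eq_zero _ (by linarith)
    have e2 : x.2.1 = 0 := ip_eq_zero _ (by linarith)
    have e3 : x.2.2 = 0 := by
      have : x.2.2 * x.2.2 = 0 := by linarith
      simpa using this
    exact Prod.ext e1 (Prod.ext e2 e3)

instance : NormedAddCommGroup Ctrl := ctrlCore.toNormedAddCommGroup
instance : InnerProductSpace ℝ Ctrl := InnerProductSpace.ofCore ctrlCore.toCore

theorem ctrl_norm_sq (x : Ctrl) : ‖x‖ ^ 2 = ip x.1 x.1 + ip x.2.1 x.2.1 + x.2.2 ^ 2 := by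
  rw [← real_inner_self_eq_norm_sq]
  show ip x.1 x.1 + ip x.2.1 x.2.1 + x.2.2 * x.2.2 = _
  ring

/-- `c` solves `c' = c ξ`, `c(0) = 1`, for (the imaginary part of) the control `ξ` -/
def IsSol (ξ : C(Set.Icc (0 : ℝ) 1, ℍ)) (c : ℝ → ℍ) : Prop :=
  c 0 = 1 ∧ ∀ t ∈ Icc (0 : ℝ) 1,
    HasDerivWithinAt c (c t * (ξ (projIcc 0 1 zero_le_one t)).im) (Icc 0 1) t

/-- `q` is the endpoint of the control `x` -/
def IsEnd (x : Ctrl) (q : ℍ × ℍ) : Prop :=
  ∃ c₁ c₂ : ℝ → ℍ, IsSol x.1 c₁ ∧ IsSol x.2.1 c₂ ∧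
    q = (c₁ 1 * E (-x.2.2), c₂ 1 * E (-(√2 * x.2.2)))

end HQ
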