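import Pool.Agent.Helper831.HQ.Defs

open scoped Quaternion Matrix.Norms.L2Operator ENNReal
open Set MeasureTheory

noncomputable section

namespace HQ



theorem matSet_basic_norm {N : ℕ} (g : Matrix.unitaryGroup (Fin N) ℂ) :
    ‖(g : Matrix (Fin N) (Fin N) ℂ)‖ ≤ 1 := by
  rcases Nat.eq_zero_or_pos N with h | h
  · subst h
    have h0 : (g : Matrix (Fin 0) (Fin 0) ℂ) = 0 := by
      ext i
      exact i.elim0
    rw [h0, norm_zero]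
    exact zero_le_one
  · haveI : Nonempty (Fin N) := ⟨⟨0, h⟩⟩
    have h1 : ‖(g : Matrix (Fin N) (Fin N) ℂ)‖ = 1 := CStarRing.norm_coe_unitary g
    exact h1.le

theorem matSet_basic {N : ℕ} (G : Subgroup (Matrix.unitaryGroup (Fin N) ℂ)) : 1 ∈ matSet G ∧
    (∀ x ∈ matSet G, ∀ y ∈ matSet G, x * y ∈ matSet G) ∧ (∀ x ∈ matSet G, star x ∈ matSet G) ∧
    (∀ x ∈ matSet G, x * star x = 1 ∧ star x * x = 1 ∧ ‖x‖ ≤ 1) := by
  refine ⟨⟨1, G.one_mem, rfl⟩, ?_, ?_, ?_⟩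
  · rintro x ⟨g, hg, rfl⟩ y ⟨h, hh, rfl⟩
    exact ⟨g * h, G.mul_mem hg hh, rfl⟩
  · rintro x ⟨g, hg, rfl⟩
    exact ⟨g⁻¹, G.inv_mem hg, rfl⟩
  · rintro x ⟨g, hg, rfl⟩
    exact ⟨Unitary.coe_mul_star_self g, Unitary.coe_star_mul_self g, matSet_basic_norm g⟩

end HQ
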