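import Pool.Agent.Helper831.HQ.Defs
import Pool.Agent.Helper831.HQ.P_matSet_basic

open scoped Quaternion Matrix.Norms.L2Operator ENNReal
open Set MeasureTheory

noncomputable section

namespace HQ



theorem mem_LieSet_aux_pow {A : Type*} [NormedRing A] (a b : A) (M : ℝ) (ha : ‖a‖ ≤ 1) (n : ℕ)
    (hb : ∀ k ≤ n, ‖b ^ k‖ ≤ M) : ‖a ^ n - b ^ n‖ ≤ n * ‖a - b‖ * M := by
  induction n with
  | zero => simp
  | succ k ih =>
    have h1 : a ^ (k + 1) - b ^ (k + 1) = a * (a ^ k - b ^ k) + (a - b) * b ^ k := by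
      rw [pow_succ', pow_succ']
      noncomm_ring
    have h2 := ih (fun j hj => hb j (by omega))
    have h3 := hb k (by omega)
    rw [h1]
    calc ‖a * (a ^ k - b ^ k) + (a - b) * b ^ k‖
        ≤ ‖a * (a ^ k - b ^ k)‖ + ‖(a - b) * b ^ k‖ := norm_add_le _ _
      _ ≤ ‖a‖ * ‖a ^ k - b ^ k‖ + ‖a - b‖ * ‖b ^ k‖ := add_le_add (norm_mul_le _ _) (norm_mul_le _ _)
      _ ≤ 1 * (k * ‖a - b‖ * M) + ‖a - b‖ * M := by
          apply add_le_add
          · exact mul_le_mul ha h2 (norm_nonneg _) zero_le_one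
          · exact mul_le_mul_of_nonneg_left h3 (norm_nonneg _)
      _ = ((k + 1 : ℕ) : ℝ) * ‖a - b‖ * M := by push_cast; ring

theorem mem_LieSet_of_hasDerivAt {N : ℕ} (G : Subgroup (Matrix.unitaryGroup (Fin N) ℂ))
    (hG : IsClosed (matSet G)) (c : ℝ → Matrix (Fin N) (Fin N) ℂ) (X : Matrix (Fin N) (Fin N) ℂ)
    (hc : ∀ᶠ s in nhds (0 : ℝ), c s ∈ matSet G) (h0 : c 0 = 1) (hd : HasDerivAt c X 0) :
    X ∈ LieSet G := by
  intro t
  let _ : NormedAlgebra ℚ (Matrix (Fin N) (Fin N) ℂ) := NormedAlgebra.restrictScalars ℚ ℝ _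
  obtain ⟨g1, g2, g3, g4⟩ := matSet_basic G
  have hcont : Continuous fun s : ℝ => NormedSpace.exp (s • X) :=
    NormedSpace.exp_continuous.comp (continuous_id.smul continuous_const)
  obtain ⟨M, hM⟩ := (isCompact_Icc (a := -|t|) (b := |t|)).exists_bound_of_continuousOn
    hcont.continuousOn
  have hM0 : 0 ≤ M := (norm_nonneg _).trans (hM 0 ⟨by simp, by simp⟩)
  have hf : HasDerivAt (fun s : ℝ => c s - NormedSpace.exp (s • X)) 0 0 := by
    have h1 : HasDerivAt (fun s : ℝ => NormedSpace.exp (s • X)) X 0 := by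
      have := hasDerivAt_exp_smul_const (𝕂 := ℝ) X (0 : ℝ)
      simpa using this
    have h2 := hd.sub h1
    rw [sub_self] at h2
    exact h2
  have hlo := hf.isLittleO
  rw [Metric.mem_of_closed' hG]
  intro ε hε
  set δ : ℝ := ε / (2 * (|t| + 1) * (M + 1)) with hδ
  have hδpos : 0 < δ := by positivity
  have hev : ∀ᶠ s in nhds (0 : ℝ), ‖c s - NormedSpace.exp (s • X)‖ ≤ δ * ‖s‖ := by
    have := hlo.bound hδpos
    filter_upwards [this] with s hs
    simpa [h0] using hs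
  have htend : Filter.Tendsto (fun n : ℕ => t / ((n : ℝ) + 1)) Filter.atTop (nhds 0) :=
    tendsto_const_div_atTop_nhds_zero_nat t |>.comp (Filter.tendsto_add_atTop_nat 1) |>.congr
      (fun n => by simp)
  obtain ⟨n, hn1, hn2⟩ := ((htend.eventually hev).and (htend.eventually hc)).exists
  have hnpos : (0 : ℝ) < (n : ℝ) + 1 := by positivity
  set a := c (t / ((n : ℝ) + 1)) with ha
  set b := NormedSpace.exp ((t / ((n : ℝ) + 1)) • X) with hb
  have hbk : ∀ k : ℕ, b ^ k = NormedSpace.exp (((k : ℝ) * (t / ((n : ℝ) + 1))) • X) := by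
    intro k
    rw [hb, ← NormedSpace.exp_nsmul, ← Nat.cast_smul_eq_nsmul ℝ, smul_smul]
  have hapow : ∀ k : ℕ, a ^ k ∈ matSet G := by
    intro k
    induction k with
    | zero => simpa using g1
    | succ k ih => rw [pow_succ]; exact g2 _ ih _ hn2
  refine ⟨a ^ (n + 1), hapow _, ?_⟩
  have hbn : b ^ (n + 1) = NormedSpace.exp (t • X) := by
    rw [hbk]
    congr 2
    push_cast
    field_simp
  have hbound : ∀ k ≤ n + 1, ‖b ^ k‖ ≤ M := by
    intro k hk
    rw [hbk]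
    apply hM
    rw [mem_Icc, ← abs_le, abs_mul, abs_div, abs_of_pos hnpos, abs_of_nonneg (Nat.cast_nonneg k)]
    have hk' : (k : ℝ) ≤ (n : ℝ) + 1 := by exact_mod_cast hk
    calc (k : ℝ) * (|t| / ((n : ℝ) + 1)) ≤ ((n : ℝ) + 1) * (|t| / ((n : ℝ) + 1)) := by gcongr
      _ = |t| := by field_simp
  have hfin := mem_LieSet_aux_pow a b M (g4 _ hn2).2.2 (n + 1) hbound
  rw [← hbn, dist_comm, dist_eq_norm]
  refine lt_of_le_of_lt hfin ?_
  have h5 : ‖a - b‖ ≤ δ * (|t| / ((n : ℝ) + 1)) := by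
    refine hn1.trans ?_
    rw [Real.norm_eq_abs, abs_div, abs_of_pos hnpos]
  calc ((n + 1 : ℕ) : ℝ) * ‖a - b‖ * M
      ≤ ((n : ℝ) + 1) * (δ * (|t| / ((n : ℝ) + 1))) * M := by
        push_cast
        gcongr
    _ = δ * |t| * M := by field_simp
    _ ≤ δ * (|t| + 1) * (M + 1) := by gcongr <;> linarith
    _ = ε / 2 := by rw [hδ]; field_simp
    _ < ε := by linarith

end HQ
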