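import Pool.Agent.Helper831.HQ.Defs
import Pool.Agent.Helper831.HQ.P_matSet_basic
import Pool.Agent.Helper831.HQ.P_mem_LieSet_of_hasDerivAt

open scoped Quaternion Matrix.Norms.L2Operator ENNReal
open Set MeasureTheory

noncomputable section

namespace HQ



theorem hdProd986 {N : ℕ} (X Y : Matrix (Fin N) (Fin N) ℂ) :
    HasDerivAt (fun s : ℝ => NormedSpace.exp (s • X) * NormedSpace.exp (s • Y)) (X + Y) 0 := by
  have h1 := (hasDerivAt_exp_smul_const (𝕂 := ℝ) X (0:ℝ)).mul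
    (hasDerivAt_exp_smul_const (𝕂 := ℝ) Y (0:ℝ))
  have e : NormedSpace.exp ((0:ℝ) • X) * X * NormedSpace.exp ((0:ℝ) • Y) +
      NormedSpace.exp ((0:ℝ) • X) * (NormedSpace.exp ((0:ℝ) • Y) * Y) = X + Y := by
    simp [NormedSpace.exp_zero]
  rw [e] at h1
  exact h1

theorem LieSet_closed_ops {N : ℕ} (G : Subgroup (Matrix.unitaryGroup (Fin N) ℂ))
    (hG : IsClosed (matSet G)) : (0 : Matrix (Fin N) (Fin N) ℂ) ∈ LieSet G ∧
    (∀ (r : ℝ), ∀ X ∈ LieSet G, r • X ∈ LieSet G) ∧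
    (∀ X ∈ LieSet G, ∀ Y ∈ LieSet G, X + Y ∈ LieSet G) ∧
    (∀ g ∈ matSet G, ∀ X ∈ LieSet G, g * X * star g ∈ LieSet G) ∧
    (∀ g ∈ matSet G, ∀ X ∈ LieSet G, star g * X * g ∈ LieSet G) ∧
    IsClosed (LieSet G) ∧ (∀ X ∈ LieSet G, star X = -X) := by
  obtain ⟨hone, hmul, hstar, hun⟩ := matSet_basic G
  have hAd : ∀ g ∈ matSet G, ∀ X ∈ LieSet G, g * X * star g ∈ LieSet G := by
    intro g hg X hX t
    obtain ⟨h1, h2, -⟩ := hun g hg
    obtain ⟨u, hu⟩ : ∃ u : (Matrix (Fin N) (Fin N) ℂ)ˣ, u = ⟨g, star g, h1, h2⟩ := ⟨_, rfl⟩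
    have hu1 : (u : Matrix (Fin N) (Fin N) ℂ) = g := by rw [hu]
    have hu2 : ((u⁻¹ : (Matrix (Fin N) (Fin N) ℂ)ˣ) : Matrix (Fin N) (Fin N) ℂ) = star g := by
      rw [hu]; rfl
    have h3 : t • (g * X * star g) = (u : Matrix (Fin N) (Fin N) ℂ) * (t • X) *
        ((u⁻¹ : (Matrix (Fin N) (Fin N) ℂ)ˣ) : Matrix (Fin N) (Fin N) ℂ) := by
      rw [hu1, hu2, mul_smul_comm, smul_mul_assoc]
    rw [h3, Matrix.exp_units_conj, hu1, hu2]
    exact hmul _ (hmul _ hg _ (hX t)) _ (hstar g hg)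
  refine ⟨?_, ?_, ?_, hAd, ?_, ?_, ?_⟩
  · intro t
    rw [smul_zero, NormedSpace.exp_zero]
    exact hone
  · intro r X hX t
    rw [smul_smul]
    exact hX _
  · intro X hX Y hY
    refine mem_LieSet_of_hasDerivAt G hG
      (fun s => NormedSpace.exp (s • X) * NormedSpace.exp (s • Y)) (X + Y)
      (Filter.Eventually.of_forall fun s => hmul _ (hX s) _ (hY s)) ?_ (hdProd986 X Y)
    simp only [zero_smul, NormedSpace.exp_zero, mul_one]
  · intro g hg X hX
    have := hAd (star g) (hstar g hg) X hX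
    rwa [star_star] at this
  · have h1 : LieSet G = ⋂ t : ℝ, (fun X => NormedSpace.exp (t • X)) ⁻¹' matSet G := by
      ext X
      simp only [LieSet, Set.mem_ofPred_eq, Set.mem_iInter, Set.mem_preimage]
    rw [h1]
    refine isClosed_iInter fun t => hG.preimage ?_
    letI : NormedAlgebra ℚ (Matrix (Fin N) (Fin N) ℂ) := NormedAlgebra.restrictScalars ℚ ℝ _
    exact NormedSpace.exp_continuous.comp (continuous_const_smul t)
  · intro X hX
    have h1 : ∀ t : ℝ, NormedSpace.exp (t • star X) * NormedSpace.exp (t • X) = 1 := by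
      intro t
      have h2 : t • star X = star (t • X) := by
        rw [star_smul]
        simp
      rw [h2, ← NormedSpace.star_exp]
      exact (hun _ (hX t)).2.1
    have h2 := hdProd986 (star X) X
    have h3 : (fun s : ℝ => NormedSpace.exp (s • star X) * NormedSpace.exp (s • X)) =
        fun _ => (1 : Matrix (Fin N) (Fin N) ℂ) := funext h1
    rw [h3] at h2
    have h4 := h2.unique (hasDerivAt_const (0:ℝ) (1 : Matrix (Fin N) (Fin N) ℂ))
    exact eq_neg_of_add_eq_zero_left h4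

end HQ
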