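import Pool.Agent.Helper831.HQ.Defs
import Pool.Agent.Helper831.HQ.P_matSet_basic
import Pool.Agent.Helper831.HQ.P_LieSet_closed_ops

open scoped Quaternion Matrix.Norms.L2Operator ENNReal
open Set MeasureTheory

noncomputable section

namespace HQ



theorem LieSet_bracket {N : ℕ} (G : Subgroup (Matrix.unitaryGroup (Fin N) ℂ))
    (hG : IsClosed (matSet G)) (X Y : Matrix (Fin N) (Fin N) ℂ) (hX : X ∈ LieSet G)
    (hY : Y ∈ LieSet G) : X * Y - Y * X ∈ LieSet G := by
  obtain ⟨h0, hsmul, hadd, hconj, hconj', hcl, hstar⟩ := LieSet_closed_ops G hG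
  have hst : ∀ t : ℝ, star (NormedSpace.exp (t • X)) = NormedSpace.exp (t • (-X)) := by
    intro t
    rw [NormedSpace.star_exp, star_smul, hstar X hX]
    simp
  have hf : ∀ t : ℝ, NormedSpace.exp (t • X) * Y * NormedSpace.exp (t • (-X)) ∈ LieSet G := by
    intro t
    rw [← hst]
    exact hconj _ (hX t) Y hY
  have hd : HasDerivAt (fun t : ℝ => NormedSpace.exp (t • X) * Y * NormedSpace.exp (t • (-X)))
      (X * Y - Y * X) 0 := by
    have h1 := (hasDerivAt_exp_smul_const (𝕂 := ℝ) X (0 : ℝ)).mul_const Y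
    have h2 := hasDerivAt_exp_smul_const (𝕂 := ℝ) (-X) (0 : ℝ)
    have h3 := h1.mul h2
    have e : X * Y - Y * X = NormedSpace.exp ((0 : ℝ) • X) * X * Y * NormedSpace.exp ((0 : ℝ) • (-X))
        + NormedSpace.exp ((0 : ℝ) • X) * Y * (NormedSpace.exp ((0 : ℝ) • (-X)) * (-X)) := by
      simp only [zero_smul, NormedSpace.exp_zero, one_mul, mul_one, mul_neg]
      abel
    rw [e]
    exact h3
  have hlim := hd.tendsto_slope_zero
  refine hcl.mem_of_tendsto hlim (Filter.Eventually.of_forall fun t => ?_)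
  apply hsmul
  have h4 : NormedSpace.exp ((0 : ℝ) • X) * Y * NormedSpace.exp ((0 : ℝ) • (-X)) = Y := by
    simp only [zero_smul, NormedSpace.exp_zero, one_mul, mul_one]
  simp only [zero_add]
  rw [h4, sub_eq_add_neg]
  apply hadd _ (hf t)
  have h5 := hsmul (-1) Y hY
  rwa [neg_one_smul] at h5

end HQ
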