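import Pool.Agent.Helper831.HQ.Defs

open scoped Quaternion Matrix.Norms.L2Operator ENNReal
open Set MeasureTheory

noncomputable section

namespace HQ



theorem Xd_exp {N : ℕ} (u : Matrix (Fin N) (Fin N) ℂ) (hu : u ∈ Matrix.unitaryGroup (Fin N) ℂ)
    (l : Fin N → ℝ) (s : ℝ) : NormedSpace.exp (s • Xd u l) =
      u * Matrix.diagonal (fun j => Complex.exp (((s * l j : ℝ) : ℂ) * Complex.I)) * star u ∧
    s • Xd u l = Xd u (fun j => s * l j) ∧ (∀ l', Xd u l + Xd u l' = Xd u (fun j => l j + l' j)) := by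
  have h1 : s • Xd u l = Xd u (fun j => s * l j) := by
    unfold Xd
    rw [← Matrix.smul_mul, ← Matrix.mul_smul]
    congr 2
    ext i j
    by_cases hij : i = j
    · subst hij
      simp [mul_assoc]
    · simp [Matrix.diagonal_apply_ne _ hij]
  refine ⟨?_, h1, ?_⟩
  · rw [h1]
    unfold Xd
    have h2 : star u * u = 1 := (Matrix.mem_unitaryGroup_iff'.1 hu)
    have h3 : u * star u = 1 := (Matrix.mem_unitaryGroup_iff.1 hu)
    let U : (Matrix (Fin N) (Fin N) ℂ)ˣ := ⟨u, star u, h3, h2⟩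
    have h4 := Matrix.exp_units_conj U (Matrix.diagonal (fun j => (((s * l j : ℝ) : ℂ) * Complex.I)))
    have h5 : ((U : (Matrix (Fin N) (Fin N) ℂ)ˣ) : Matrix (Fin N) (Fin N) ℂ) = u := rfl
    have h6 : ((U⁻¹ : (Matrix (Fin N) (Fin N) ℂ)ˣ) : Matrix (Fin N) (Fin N) ℂ) = star u := rfl
    rw [h5, h6] at h4
    rw [h4, Matrix.exp_diagonal]
    congr 3
    funext j
    rw [Pi.coe_exp, Complex.exp_eq_exp_ℂ]
  · intro l'
    unfold Xd
    rw [← Matrix.add_mul, ← Matrix.mul_add, Matrix.diagonal_add]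
    congr 3
    funext j
    push_cast
    ring

end HQ
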