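import Pool.Agent.Helper831.HQ.Defs

open scoped Quaternion Matrix.Norms.L2Operator ENNReal
open Set MeasureTheory

noncomputable section

namespace HQ



namespace KronAux

open Finset Filter Topology

/-- The nonnegative kernel. -/
def ker (x : ℝ) : ℝ := (1 + Real.cos (2 * Real.pi * x)) / 2

lemma ker_nonneg (x : ℝ) : 0 ≤ ker x := by
  unfold ker
  have := Real.neg_one_le_cos (2 * Real.pi * x)
  linarith

lemma ker_le_one (x : ℝ) : ker x ≤ 1 := by
  unfold ker
  have := Real.cos_le_one (2 * Real.pi * x)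
  linarith

lemma ker_continuous : Continuous ker := by
  unfold ker
  fun_prop

lemma ker_le_of_far {x ε : ℝ} (hε : 0 < ε) (hε2 : ε ≤ 1 / 2)
    (h : ∀ n : ℤ, ε ≤ |x - n|) : ker x ≤ ker ε := by
  unfold ker
  have h1 : Real.cos (2 * Real.pi * x) = Real.cos (2 * Real.pi * |x - round x|) := by
    have e1 : Real.cos (2 * Real.pi * |x - round x|) = Real.cos (2 * Real.pi * (x - round x)) := by
      rw [← Real.cos_abs (2 * Real.pi * (x - round x)), abs_mul,
        abs_of_pos (by positivity : (0:ℝ) < 2 * Real.pi)]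
    rw [e1]
    have e2 : 2 * Real.pi * (x - round x) = 2 * Real.pi * x - (round x : ℤ) * (2 * Real.pi) := by
      ring
    rw [e2, Real.cos_sub_int_mul_two_pi]
  have h2 : |x - round x| ≤ 1 / 2 := abs_sub_round x
  have h3 : ε ≤ |x - round x| := h _
  have hpi := Real.pi_pos
  have : Real.cos (2 * Real.pi * |x - round x|) ≤ Real.cos (2 * Real.pi * ε) := by
    apply Real.cos_le_cos_of_nonneg_of_le_pi
    · positivity
    · nlinarith
    · nlinarith
  rw [h1]
  linarith

lemma ker_lt_one {ε : ℝ} (hε : 0 < ε) (hε2 : ε ≤ 1 / 2) : ker ε < 1 := by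
  unfold ker
  have hpi := Real.pi_pos
  have : Real.cos (2 * Real.pi * ε) < Real.cos 0 := by
    apply Real.cos_lt_cos_of_nonneg_of_le_pi
    · exact le_refl _
    · nlinarith
    · positivity
  rw [Real.cos_zero] at this
  linarith

lemma ker_pow_expand (x : ℝ) (N : ℕ) :
    ((ker x : ℝ) : ℂ) ^ N = ∑ k ∈ range (2 * N + 1),
      (((2 * N).choose k : ℝ) / 4 ^ N : ℝ) *
        Complex.exp (2 * Real.pi * Complex.I * (((k : ℝ) - N) * x : ℝ)) := by
  set z : ℂ := Complex.exp (2 * Real.pi * Complex.I * x) with hz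
  set w : ℂ := Complex.exp (-(2 * Real.pi * Complex.I * x)) with hw
  have hzw : z * w = 1 := by
    rw [hz, hw, ← Complex.exp_add]; simp
  have hker : ((ker x : ℝ) : ℂ) = w * (z + 1) ^ 2 / 4 := by
    unfold ker
    push_cast
    rw [Complex.cos]
    have e1 : Complex.exp (2 * ↑Real.pi * ↑x * Complex.I) = z := by
      rw [hz]; congr 1; ring
    have e2 : Complex.exp (-(2 * ↑Real.pi * ↑x) * Complex.I) = w := by
      rw [hw]; congr 1; ring
    rw [e1, e2]
    have : w * (z + 1) ^ 2 = (z * w) * z + 2 * (z * w) + w := by ring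
    rw [this, hzw]
    ring
  rw [hker, div_pow, mul_pow, ← pow_mul, add_pow]
  rw [Finset.mul_sum, Finset.sum_div]
  refine Finset.sum_congr rfl ?_
  intro k _
  rw [one_pow, mul_one]
  have e3 : w ^ N * z ^ k = Complex.exp (2 * Real.pi * Complex.I * (((k : ℝ) - N) * x : ℝ)) := by
    rw [hw, hz, ← Complex.exp_nat_mul, ← Complex.exp_nat_mul, ← Complex.exp_add]
    congr 1
    push_cast
    ring
  rw [← mul_assoc, e3]
  push_cast
  ring

theorem kronecker {ι : Type*} [Fintype ι] [DecidableEq ι] (ω β : ι → ℝ)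
    (h : ∀ c : ι → ℤ, ∑ i, (c i : ℝ) * ω i = 0 → ∃ n : ℤ, ∑ i, (c i : ℝ) * β i = n)
    (ε : ℝ) (hε : 0 < ε) (T0 : ℝ) :
    ∃ t > T0, ∀ i, ∃ n : ℤ, |t * ω i - β i - n| < ε := by
  by_contra hcon
  push Not at hcon
  -- the case of a huge ε
  have hε2 : ε ≤ 1 / 2 := by
    obtain ⟨i, hi⟩ := hcon (T0 + 1) (by linarith)
    exact (hi (round ((T0 + 1) * ω i - β i))).trans (abs_sub_round _)
  set ρ := ker ε with hρ
  have hρ1 : ρ < 1 := ker_lt_one hε hε2
  have hρ0 : 0 ≤ ρ := ker_nonneg ε
  set r := Fintype.card ι with hr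
  -- pointwise bound
  have hpt : ∀ N : ℕ, ∀ t > T0, ∏ i, ker (t * ω i - β i) ^ N ≤ ρ ^ N := by
    intro N t ht
    obtain ⟨i, hi⟩ := hcon t ht
    rw [← Finset.mul_prod_erase univ _ (Finset.mem_univ i)]
    calc ker (t * ω i - β i) ^ N * ∏ x ∈ univ.erase i, ker (t * ω x - β x) ^ N
        ≤ ρ ^ N * 1 := by
          apply mul_le_mul
          · exact pow_le_pow_left₀ (ker_nonneg _) (ker_le_of_far hε hε2 hi) N
          · apply Finset.prod_le_one
            · intro j _; exact pow_nonneg (ker_nonneg _) N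
            · intro j _; exact pow_le_one₀ (ker_nonneg _) (ker_le_one _)
          · apply Finset.prod_nonneg
            intro j _; exact pow_nonneg (ker_nonneg _) N
          · exact pow_nonneg hρ0 N
      _ = ρ ^ N := mul_one _
  -- main inequality
  have hmain : ∀ N : ℕ, (((2 * N).choose N : ℝ) / 4 ^ N) ^ r ≤ ρ ^ N := by
    intro N
    let P : Finset (ι → ℕ) := Fintype.piFinset (fun _ : ι => range (2 * N + 1))
    let C : (ι → ℕ) → ℝ := fun k => ∏ i, (((2 * N).choose (k i) : ℝ) / 4 ^ N)
    let Φ : (ι → ℕ) → ℝ := fun k => ∑ i, ((k i : ℝ) - N) * ω i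
    let Ψ : (ι → ℕ) → ℝ := fun k => ∑ i, ((k i : ℝ) - N) * β i
    let D : (ι → ℕ) → ℂ := fun k => (C k : ℂ) * Complex.exp (-(2 * Real.pi * Complex.I * Ψ k))
    let c : (ι → ℕ) → ℂ := fun k => 2 * Real.pi * Complex.I * Φ k
    have hexp : ∀ t : ℝ, ((∏ i, ker (t * ω i - β i) ^ N : ℝ) : ℂ)
        = ∑ k ∈ P, D k * Complex.exp (c k * t) := by
      intro t
      push_cast
      have : ∀ i, ((ker (t * ω i - β i) : ℝ) : ℂ) ^ N = _ := fun i =>
        ker_pow_expand (t * ω i - β i) N
      rw [Finset.prod_congr rfl (fun i _ => this i), Finset.prod_univ_sum]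
      refine Finset.sum_congr rfl ?_
      intro k _
      rw [Finset.prod_mul_distrib, ← Complex.exp_sum, ← Finset.mul_sum]
      simp only [D, C, c]
      conv_rhs => rw [mul_assoc, ← Complex.exp_add]
      push_cast
      congr 2
      simp only [Φ, Ψ]
      push_cast
      rw [← mul_neg, mul_assoc (2 * (Real.pi : ℂ) * Complex.I), ← mul_add]
      congr 1
      rw [Finset.sum_mul, ← Finset.sum_neg_distrib, ← Finset.sum_add_distrib]
      refine Finset.sum_congr rfl ?_
      intro i _
      ring
    -- mean values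
    let J : (ι → ℕ) → ℝ → ℂ := fun k T => (∫ t in T0..(T0 + T), Complex.exp (c k * t)) / T
    have hJ : ∀ k, Tendsto (J k) atTop (𝓝 (if Φ k = 0 then 1 else 0)) := by
      intro k
      by_cases hk : Φ k = 0
      · rw [if_pos hk]
        refine Tendsto.congr' ?_ tendsto_const_nhds
        filter_upwards [eventually_gt_atTop 0] with T hT
        have hc0 : c k = 0 := by simp only [c]; rw [hk]; simp
        simp only [J]
        rw [hc0]
        simp only [zero_mul, Complex.exp_zero, intervalIntegral.integral_const]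
        rw [add_sub_cancel_left, Complex.real_smul, mul_one]
        rw [div_self]
        exact_mod_cast hT.ne'
      · rw [if_neg hk]
        have hck : c k ≠ 0 := by
          simp only [c]
          have : (Φ k : ℂ) ≠ 0 := by exact_mod_cast hk
          have hpi : (Real.pi : ℂ) ≠ 0 := by exact_mod_cast Real.pi_ne_zero
          simp [hpi, this, Complex.I_ne_zero]
        have hnorm : ∀ s : ℝ, ‖Complex.exp (c k * s)‖ = 1 := by
          intro s
          rw [Complex.norm_exp]
          simp [c]
        rw [tendsto_zero_iff_norm_tendsto_zero]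
        have hb : ∀ᶠ T : ℝ in atTop, ‖J k T‖ ≤ (2 / ‖c k‖) / T := by
          filter_upwards [eventually_gt_atTop 0] with T hT
          simp only [J]
          rw [integral_exp_mul_complex hck, norm_div, norm_div]
          have hT' : ‖(T : ℂ)‖ = T := by
            rw [Complex.norm_real, Real.norm_eq_abs, abs_of_pos hT]
          rw [hT']
          apply div_le_div_of_nonneg_right _ hT.le
          apply div_le_div_of_nonneg_right _ (norm_nonneg _)
          calc ‖Complex.exp (c k * ((T0 + T : ℝ) : ℂ)) - Complex.exp (c k * (T0 : ℂ))‖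
              ≤ ‖Complex.exp (c k * ((T0 + T : ℝ) : ℂ))‖ + ‖Complex.exp (c k * (T0 : ℂ))‖ :=
                norm_sub_le _ _
            _ = 2 := by rw [hnorm, hnorm]; norm_num
        refine squeeze_zero' (Eventually.of_forall fun T => norm_nonneg _) hb ?_
        exact tendsto_const_nhds.div_atTop tendsto_id
    have hsum : Tendsto (fun T => ∑ k ∈ P, D k * J k T) atTop
        (𝓝 (∑ k ∈ P, D k * (if Φ k = 0 then 1 else 0))) :=
      tendsto_finsetSum _ (fun k _ => (hJ k).const_mul (D k))
    have hre : Tendsto (fun T => (∑ k ∈ P, D k * J k T).re) atTop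
        (𝓝 (∑ k ∈ P, D k * (if Φ k = 0 then 1 else 0)).re) :=
      (Complex.continuous_re.tendsto _).comp hsum
    -- identity with the real integral
    have hid : ∀ T : ℝ, 0 < T → (∑ k ∈ P, D k * J k T).re
        = (∫ t in T0..(T0 + T), ∏ i, ker (t * ω i - β i) ^ N) / T := by
      intro T hT
      have e1 : (∑ k ∈ P, D k * J k T)
          = (((∫ t in T0..(T0 + T), ∏ i, ker (t * ω i - β i) ^ N) / T : ℝ) : ℂ) := by
        push_cast
        rw [← intervalIntegral.integral_ofReal]
        have : ∀ t : ℝ, ((∏ i, ker (t * ω i - β i) ^ N : ℝ) : ℂ)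
            = ∑ k ∈ P, D k * Complex.exp (c k * t) := hexp
        rw [intervalIntegral.integral_congr (g := fun t : ℝ => ∑ k ∈ P, D k * Complex.exp (c k * t))
          (fun t _ => this t)]
        rw [intervalIntegral.integral_finsetSum]
        · rw [Finset.sum_div]
          refine Finset.sum_congr rfl ?_
          intro k _
          rw [intervalIntegral.integral_const_mul]
          simp only [J]
          ring
        · intro k _
          apply Continuous.intervalIntegrable
          fun_prop
      rw [e1, Complex.ofReal_re]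
    have hle : (∑ k ∈ P, D k * (if Φ k = 0 then 1 else 0)).re ≤ ρ ^ N := by
      refine le_of_tendsto hre ?_
      filter_upwards [eventually_gt_atTop 0] with T hT
      rw [hid T hT, div_le_iff₀ hT]
      calc (∫ t in T0..(T0 + T), ∏ i, ker (t * ω i - β i) ^ N)
          ≤ ∫ t in T0..(T0 + T), ρ ^ N := by
            apply intervalIntegral.integral_mono_on_of_le_Ioo (by linarith)
            · apply Continuous.intervalIntegrable
              have := ker_continuous
              fun_prop
            · exact intervalIntegrable_const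
            · intro t ht
              exact hpt N t ht.1
        _ = ρ ^ N * T := by
            rw [intervalIntegral.integral_const, smul_eq_mul]
            ring
    refine le_trans ?_ hle
    rw [Complex.re_sum]
    have hterm : ∀ k ∈ P, 0 ≤ (D k * (if Φ k = 0 then 1 else 0)).re := by
      intro k _
      by_cases hk : Φ k = 0
      · rw [if_pos hk, mul_one]
        obtain ⟨n, hn⟩ := h (fun i => (k i : ℤ) - N) (by push_cast; exact hk)
        push_cast at hn
        have hΨ : Ψ k = n := hn
        simp only [D]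
        have : Complex.exp (-(2 * Real.pi * Complex.I * Ψ k)) = 1 := by
          rw [hΨ, Complex.exp_neg, inv_eq_one]
          rw [Complex.exp_eq_one_iff]
          exact ⟨n, by push_cast; ring⟩
        rw [this, mul_one, Complex.ofReal_re]
        apply Finset.prod_nonneg
        intro i _
        positivity
      · rw [if_neg hk, mul_zero, Complex.zero_re]
    have hmem : (fun _ : ι => N) ∈ P := by
      rw [Fintype.mem_piFinset]
      intro i
      rw [Finset.mem_range]
      omega
    refine le_trans ?_ (Finset.single_le_sum hterm hmem)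
    have hΦ : Φ (fun _ : ι => N) = 0 := by simp [Φ]
    have hΨ : Ψ (fun _ : ι => N) = 0 := by simp [Ψ]
    rw [if_pos hΦ, mul_one]
    simp only [D]
    rw [hΨ]
    simp only [Complex.ofReal_zero, mul_zero, neg_zero, Complex.exp_zero, mul_one,
      Complex.ofReal_re, C]
    rw [Finset.prod_const, Finset.card_univ]
  -- contradiction as N tends to infinity
  have hfin : ∀ N : ℕ, 0 < N → (1 : ℝ) ≤ (2 * N : ℝ) ^ r * ρ ^ N := by
    intro N hN
    have h1 := Nat.four_pow_le_two_mul_self_mul_centralBinom N hN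
    have h2 : (4 : ℝ) ^ N ≤ (2 * N) * ((2 * N).choose N : ℝ) := by
      have := h1
      rw [Nat.centralBinom_eq_two_mul_choose] at this
      exact_mod_cast this
    have hN' : (0 : ℝ) < 2 * N := by positivity
    have h3 : 1 ≤ (2 * N : ℝ) * (((2 * N).choose N : ℝ) / 4 ^ N) := by
      rw [← mul_div_assoc, le_div_iff₀ (by positivity), one_mul]
      exact h2
    calc (1 : ℝ) = 1 ^ r := (one_pow r).symm
      _ ≤ ((2 * N : ℝ) * (((2 * N).choose N : ℝ) / 4 ^ N)) ^ r :=
          pow_le_pow_left₀ zero_le_one h3 r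
      _ = (2 * N : ℝ) ^ r * (((2 * N).choose N : ℝ) / 4 ^ N) ^ r := mul_pow _ _ _
      _ ≤ (2 * N : ℝ) ^ r * ρ ^ N :=
          mul_le_mul_of_nonneg_left (hmain N) (by positivity)
  have hlim : Tendsto (fun N : ℕ => (2 * N : ℝ) ^ r * ρ ^ N) atTop (𝓝 0) := by
    have := tendsto_pow_const_mul_const_pow_of_abs_lt_one r (r := ρ)
      (by rw [abs_of_nonneg hρ0]; exact hρ1)
    have h2 := this.const_mul ((2 : ℝ) ^ r)
    rw [mul_zero] at h2
    refine h2.congr ?_
    intro N
    rw [mul_pow]; ring
  have := ge_of_tendsto hlim (by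
    filter_upwards [eventually_gt_atTop 0] with N hN using hfin N hN)
  linarith

end KronAux

theorem kron (n : ℕ) (v w : Fin n → ℝ)
    (h : ∀ m : Fin n → ℤ, ∑ j, (m j : ℝ) * v j = 0 → ∑ j, (m j : ℝ) * w j = 0) (ε : ℝ) (hε : 0 < ε) :
    ∃ t : ℝ, ∀ j, ‖Complex.exp (((t * v j - w j : ℝ) : ℂ) * Complex.I) - 1‖ < ε := by
  have hpi := Real.pi_pos
  have h2pi : (0:ℝ) < 2 * Real.pi := by positivity
  obtain ⟨t, -, ht⟩ := KronAux.kronecker (fun j => v j / (2 * Real.pi)) (fun j => w j / (2 * Real.pi))
    (by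
      intro c hc
      refine ⟨0, ?_⟩
      have e1 : ∑ i, (c i : ℝ) * (v i / (2 * Real.pi)) = (∑ i, (c i : ℝ) * v i) / (2 * Real.pi) := by
        rw [Finset.sum_div]
        exact Finset.sum_congr rfl (fun i _ => by ring)
      have e2 : ∑ i, (c i : ℝ) * (w i / (2 * Real.pi)) = (∑ i, (c i : ℝ) * w i) / (2 * Real.pi) := by
        rw [Finset.sum_div]
        exact Finset.sum_congr rfl (fun i _ => by ring)
      rw [e1] at hc
      have hc' : ∑ i, (c i : ℝ) * v i = 0 := by
        rcases div_eq_zero_iff.mp hc with h0 | h0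
        · exact h0
        · exact absurd h0 h2pi.ne'
      rw [e2, h c hc']
      simp) (ε / (2 * Real.pi)) (by positivity) 0
  refine ⟨t, fun j => ?_⟩
  obtain ⟨n, hn⟩ := ht j
  have e3 : (((t * v j - w j : ℝ) : ℂ) * Complex.I) =
      (((2 * Real.pi * (t * (v j / (2 * Real.pi)) - w j / (2 * Real.pi) - n) : ℝ) : ℂ) * Complex.I)
        + n * (2 * Real.pi * Complex.I) := by
    have : t * v j - w j = 2 * Real.pi * (t * (v j / (2 * Real.pi)) - w j / (2 * Real.pi) - n)
        + n * (2 * Real.pi) := by
      field_simp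
      ring
    rw [this]
    push_cast
    ring
  rw [e3, Complex.exp_add, Complex.exp_int_mul_two_pi_mul_I, mul_one]
  have e4 : ‖Complex.exp (((2 * Real.pi * (t * (v j / (2 * Real.pi)) - w j / (2 * Real.pi) - n) : ℝ) : ℂ) * Complex.I) - 1‖
      ≤ |2 * Real.pi * (t * (v j / (2 * Real.pi)) - w j / (2 * Real.pi) - n)| := by
    have := Real.norm_exp_I_mul_ofReal_sub_one_le (x := 2 * Real.pi * (t * (v j / (2 * Real.pi)) - w j / (2 * Real.pi) - n))
    rw [mul_comm] at this
    simpa [Real.norm_eq_abs] using this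
  refine e4.trans_lt ?_
  rw [abs_mul, abs_of_pos h2pi]
  have := mul_lt_mul_of_pos_left hn h2pi
  rwa [mul_div_cancel₀ _ h2pi.ne'] at this

end HQ
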