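import Pool.Agent.Helper831.HQ.Defs
import Pool.Agent.Helper831.HQ.P_kron
import Pool.Agent.Helper831.HQ.P_Xd_exp

open scoped Quaternion Matrix.Norms.L2Operator ENNReal
open Set MeasureTheory

noncomputable section

namespace HQ



theorem Xd_mem {N : ℕ} (G : Subgroup (Matrix.unitaryGroup (Fin N) ℂ))
    (hG : IsClosed (matSet G)) (u : Matrix (Fin N) (Fin N) ℂ) (hu : u ∈ Matrix.unitaryGroup (Fin N) ℂ)
    (l w : Fin N → ℝ) (hl : Xd u l ∈ LieSet G)
    (hw : ∀ m : Fin N → ℤ, ∑ j, (m j : ℝ) * l j = 0 → ∑ j, (m j : ℝ) * w j = 0) :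
    Xd u w ∈ LieSet G := by
  show ∀ s : ℝ, NormedSpace.exp (s • Xd u w) ∈ matSet G
  intro s
  have hmem : NormedSpace.exp (s • Xd u w) ∈ closure (matSet G) := by
    rw [Metric.mem_closure_iff]
    intro ε hε
    obtain ⟨t, ht⟩ := kron N l (fun j => s * w j) (by
      intro m hm
      have h1 := hw m hm
      calc ∑ j, (m j : ℝ) * (s * w j) = s * ∑ j, (m j : ℝ) * w j := by
            rw [Finset.mul_sum]
            apply Finset.sum_congr rfl
            intro j _
            ring
        _ = 0 := by rw [h1, mul_zero]) ε hε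
    refine ⟨NormedSpace.exp (t • Xd u l), hl t, ?_⟩
    have hu' : star u ∈ unitary (Matrix (Fin N) (Fin N) ℂ) := Unitary.star_mem hu
    rw [(Xd_exp u hu w s).1, (Xd_exp u hu l t).1, dist_eq_norm, ← sub_mul, ← mul_sub,
      CStarRing.norm_mul_mem_unitary _ hu', CStarRing.norm_mem_unitary_mul _ hu,
      Matrix.diagonal_sub, Matrix.l2_opNorm_diagonal, pi_norm_lt_iff hε]
    intro j
    have h2 : Complex.exp (((s * w j : ℝ) : ℂ) * Complex.I) - Complex.exp (((t * l j : ℝ) : ℂ) * Complex.I)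
        = -(Complex.exp (((s * w j : ℝ) : ℂ) * Complex.I) *
          (Complex.exp (((t * l j - s * w j : ℝ) : ℂ) * Complex.I) - 1)) := by
      rw [mul_sub, mul_one, ← Complex.exp_add]
      have : (((s * w j : ℝ) : ℂ) * Complex.I) + (((t * l j - s * w j : ℝ) : ℂ) * Complex.I)
          = (((t * l j : ℝ) : ℂ) * Complex.I) := by
        push_cast
        ring
      rw [this]
      ring
    rw [h2, norm_neg, norm_mul, Complex.norm_exp_ofReal_mul_I, one_mul]
    exact ht j
  rwa [hG.closure_eq] at hmem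

end HQ
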