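import Pool.Agent.Helper831.HQ.Defs
import Pool.Agent.Helper831.HQ.P_matSet_basic
import Pool.Agent.Helper831.HQ.P_LieSet_closed_ops

open scoped Quaternion Matrix.Norms.L2Operator ENNReal
open Set MeasureTheory

noncomputable section

namespace HQ



theorem ad_inv_bil {M : Type*} [NormedAddCommGroup M] [NormedSpace ℝ M] [FiniteDimensional ℝ M]
    (B : M →ₗ[ℝ] M →ₗ[ℝ] ℝ) {a c : ℝ → M} {a' c' : M} (ha : HasDerivAt a a' 0)
    (hc : HasDerivAt c c' 0) (k : ℝ) (hk : ∀ t, B (a t) (c t) = k) :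
    B a' (c 0) + B (a 0) c' = 0 := by
  let Bc : M →L[ℝ] M →L[ℝ] ℝ :=
    LinearMap.toContinuousLinearMap
      ((LinearMap.toContinuousLinearMap : (M →ₗ[ℝ] ℝ) ≃ₗ[ℝ] (M →L[ℝ] ℝ)).toLinearMap ∘ₗ B)
  have hBc : ∀ x y, Bc x y = B x y := fun x y => rfl
  have hA : HasDerivAt (fun t => Bc (a t)) (Bc a') 0 := Bc.hasFDerivAt.comp_hasDerivAt (0 : ℝ) ha
  have hF := hA.clm_apply hc
  have hF2 : HasDerivAt (fun _ : ℝ => k) 0 0 := hasDerivAt_const _ _
  have hF3 : HasDerivAt (fun t : ℝ => Bc (a t) (c t)) 0 0 := by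
    have : (fun t : ℝ => Bc (a t) (c t)) = fun _ => k := by
      funext t; exact hk t
    rw [this]; exact hF2
  have h4 := hF.unique hF3
  rw [hBc, hBc] at h4
  exact h4

theorem ad_inv_key {N : ℕ} (Z : Matrix (Fin N) (Fin N) ℂ) (hZs : star Z = -Z)
    (W : Matrix (Fin N) (Fin N) ℂ) : HasDerivAt
      (fun t : ℝ => NormedSpace.exp (t • Z) * W * star (NormedSpace.exp (t • Z)))
      (Z * W - W * Z) 0 := by
  have hu : HasDerivAt (fun t : ℝ => NormedSpace.exp (t • Z)) Z 0 := by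
    have h := hasDerivAt_exp_smul_const (𝕂 := ℝ) Z 0
    rw [zero_smul, NormedSpace.exp_zero, one_mul] at h
    exact h
  have hv : HasDerivAt (fun t : ℝ => star (NormedSpace.exp (t • Z))) (-Z) 0 := by
    have h := hu.star
    rw [hZs] at h
    exact h
  have h := (hu.mul_const W).mul hv
  rw [zero_smul, NormedSpace.exp_zero, star_one, one_mul, mul_one, mul_neg, ← sub_eq_add_neg] at h
  exact h

theorem ad_inv {N : ℕ} (G : Subgroup (Matrix.unitaryGroup (Fin N) ℂ))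
    (hG : IsClosed (matSet G))
    (B : Matrix (Fin N) (Fin N) ℂ →ₗ[ℝ] Matrix (Fin N) (Fin N) ℂ →ₗ[ℝ] ℝ) (hB : IsBiinvariant G B)
    (X Y Z : Matrix (Fin N) (Fin N) ℂ) (hX : X ∈ LieSet G) (hY : Y ∈ LieSet G) (hZ : Z ∈ LieSet G) :
    B (Z * X - X * Z) Y + B X (Z * Y - Y * Z) = 0 := by
  obtain ⟨-, -, -, -, -, -, hskew⟩ := LieSet_closed_ops G hG
  have hZs : star Z = -Z := hskew Z hZ
  have h4 := ad_inv_bil B (ad_inv_key Z hZs X) (ad_inv_key Z hZs Y) (B X Y)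
    (fun t => hB.inv _ (hZ t) X hX Y hY)
  rw [zero_smul, NormedSpace.exp_zero, star_one, one_mul, mul_one, one_mul, mul_one] at h4
  exact h4

end HQ
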