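import Pool.Agent.Helper831.HQ.Defs

open scoped Quaternion Matrix.Norms.L2Operator ENNReal
open Set MeasureTheory

noncomputable section

namespace HQ



theorem ang_inv (u p q : ℍ) (hu : ‖u‖ = 1) : ang (u * p) (u * q) = ang p q ∧
    ang (p * u) (q * u) = ang p q := by
  constructor
  · unfold ang InnerProductGeometry.angle
    have h1 : ‖u * p‖ = ‖p‖ := by rw [norm_mul, hu, one_mul]
    have h2 : ‖u * q‖ = ‖q‖ := by rw [norm_mul, hu, one_mul]
    have h3 : ‖u * p - u * q‖ = ‖p - q‖ := by rw [← mul_sub, norm_mul, hu, one_mul]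
    rw [real_inner_eq_norm_mul_self_add_norm_mul_self_sub_norm_sub_mul_self_div_two,
      real_inner_eq_norm_mul_self_add_norm_mul_self_sub_norm_sub_mul_self_div_two, h1, h2, h3]
  · unfold ang InnerProductGeometry.angle
    have h1 : ‖p * u‖ = ‖p‖ := by rw [norm_mul, hu, mul_one]
    have h2 : ‖q * u‖ = ‖q‖ := by rw [norm_mul, hu, mul_one]
    have h3 : ‖p * u - q * u‖ = ‖p - q‖ := by rw [← sub_mul, norm_mul, hu, mul_one]
    rw [real_inner_eq_norm_mul_self_add_norm_mul_self_sub_norm_sub_mul_self_div_two,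
      real_inner_eq_norm_mul_self_add_norm_mul_self_sub_norm_sub_mul_self_div_two, h1, h2, h3]

end HQ
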