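import Pool.Agent.Helper831.HQ.Defs

open scoped Quaternion Matrix.Norms.L2Operator ENNReal
open Set MeasureTheory

noncomputable section

namespace HQ



theorem E_re' (a : ℝ) : (E a).re = Real.cos a := rfl
theorem E_imI' (a : ℝ) : (E a).imI = Real.sin a := rfl
theorem E_imJ' (a : ℝ) : (E a).imJ = 0 := rfl
theorem E_imK' (a : ℝ) : (E a).imK = 0 := rfl

theorem nq_sum (q : ℍ) (hq : ‖q‖ = 1) : q.re ^ 2 + q.imI ^ 2 + q.imJ ^ 2 + q.imK ^ 2 = 1 := by
  have h1 : Quaternion.normSq q = 1 := by rw [Quaternion.normSq_eq_norm_mul_self, hq]; norm_num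
  rwa [Quaternion.normSq_def'] at h1

theorem norm_E (a : ℝ) : ‖E a‖ = 1 := by
  have h1 : ‖E a‖ * ‖E a‖ = 1 := by
    rw [← Quaternion.normSq_eq_norm_mul_self, Quaternion.normSq_def', E_re', E_imI', E_imJ', E_imK']
    have := Real.cos_sq_add_sin_sq a
    linarith
  nlinarith [norm_nonneg (E a)]

theorem inner_E (q : ℍ) (hq : ‖q‖ = 1) (a b : ℝ) :
    inner ℝ q (E a * q * E b) = Real.cos a * Real.cos b - hop q * (Real.sin a * Real.sin b) := by
  have hn := nq_sum q hq
  rw [Quaternion.inner_def]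
  simp only [hop, Quaternion.re_mul, Quaternion.imI_mul, Quaternion.imJ_mul, Quaternion.imK_mul,
    Quaternion.re_star, Quaternion.imI_star, Quaternion.imJ_star, Quaternion.imK_star,
    E_re', E_imI', E_imJ', E_imK']
  linear_combination (Real.cos a * Real.cos b) * hn

theorem ang_jensen (q : ℍ) (hq : ‖q‖ = 1) (a b : ℝ) (hab : |a| + |b| ≤ Real.pi / 2) :
    |a + hop q * b| ≤ ang q (E a * q * E b) := by
  have hn := nq_sum q hq
  have hpi := Real.pi_pos
  set h := hop q with hh
  have hh1 : h ≤ 1 := by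
    rw [hh]; unfold hop
    nlinarith [sq_nonneg q.imJ, sq_nonneg q.imK]
  have hh2 : -1 ≤ h := by
    rw [hh]; unfold hop
    nlinarith [sq_nonneg q.re, sq_nonneg q.imI]
  have ha1 := le_abs_self a
  have ha2 := neg_abs_le a
  have hb1 := le_abs_self b
  have hb2 := neg_abs_le b
  have hin : inner ℝ q (E a * q * E b) = (1 + h) / 2 * Real.cos (a + b) +
      (1 - h) / 2 * Real.cos (a - b) := by
    rw [inner_E q hq, Real.cos_add, Real.cos_sub]
    ring
  have hconc := strictConcaveOn_cos_Icc.concaveOn.2 (x := a + b) (y := a - b)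
    ⟨by linarith, by linarith⟩ ⟨by linarith, by linarith⟩
    (show 0 ≤ (1 + h) / 2 by linarith) (show 0 ≤ (1 - h) / 2 by linarith) (by ring)
  simp only [smul_eq_mul] at hconc
  rw [← hin, show (1 + h) / 2 * (a + b) + (1 - h) / 2 * (a - b) = a + h * b by ring] at hconc
  have hE : ‖E a * q * E b‖ = 1 := by rw [norm_mul, norm_mul, norm_E, norm_E, hq]; norm_num
  unfold ang InnerProductGeometry.angle
  rw [hq, hE, mul_one, div_one]
  have habs : |a + h * b| ≤ Real.pi := by
    have h1 : |a + h * b| ≤ |a| + |h * b| := abs_add_le _ _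
    have h2 : |h * b| ≤ |b| := by
      rw [abs_mul]
      exact mul_le_of_le_one_left (abs_nonneg _) (abs_le.2 ⟨hh2, hh1⟩)
    linarith
  calc |a + h * b| = Real.arccos (Real.cos |a + h * b|) :=
        (Real.arccos_cos (abs_nonneg _) habs).symm
    _ = Real.arccos (Real.cos (a + h * b)) := by rw [Real.cos_abs]
    _ ≤ _ := Real.arccos_le_arccos hconc

end HQ
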