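import Pool.Agent.Helper831.HQ.Defs

open scoped Quaternion Matrix.Norms.L2Operator ENNReal
open Set MeasureTheory

noncomputable section

namespace HQ



theorem ai_angle_le {V : Type*} [NormedAddCommGroup V] [InnerProductSpace ℝ V] {p q : V}
    (hp : ‖p‖ = 1) (hq : ‖q‖ = 1) (hd : ‖q - p‖ ≤ 1) :
    InnerProductGeometry.angle p q * (1 - ‖q - p‖ ^ 2 / 4) ≤ ‖q - p‖ := by
  set θ := InnerProductGeometry.angle p q with hθ
  have hθ0 : 0 ≤ θ := InnerProductGeometry.angle_nonneg p q
  have hθπ : θ ≤ Real.pi := InnerProductGeometry.angle_le_pi p q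
  have hcos : inner ℝ p q = Real.cos θ := by
    rw [hθ, InnerProductGeometry.cos_angle, hp, hq]
    simp
  have hsin0 : 0 ≤ Real.sin (θ / 2) :=
    Real.sin_nonneg_of_nonneg_of_le_pi (by linarith) (by linarith)
  have hdist : ‖q - p‖ = 2 * Real.sin (θ / 2) := by
    have h1 : ‖q - p‖ ^ 2 = (2 * Real.sin (θ / 2)) ^ 2 := by
      rw [norm_sub_sq_real, real_inner_comm, hcos, hp, hq]
      have h2 : Real.cos θ = 1 - 2 * Real.sin (θ / 2) ^ 2 := by
        have h3 : θ = 2 * (θ / 2) := by ring
        conv_lhs => rw [h3, Real.cos_two_mul, Real.cos_sq']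
        ring
      rw [h2]
      ring
    have h4 : 0 ≤ 2 * Real.sin (θ / 2) := by linarith
    exact (sq_eq_sq₀ (norm_nonneg _) h4).1 h1
  have hj : 2 / Real.pi * (θ / 2) ≤ Real.sin (θ / 2) :=
    Real.mul_le_sin (by linarith) (by linarith)
  have hθ2 : θ ≤ 2 * ‖q - p‖ := by
    rw [hdist]
    have hpi : 0 < Real.pi := Real.pi_pos
    have hpi4 : Real.pi ≤ 4 := Real.pi_le_four
    have h5 : θ ≤ Real.pi * Real.sin (θ / 2) := by
      have h6 : Real.pi * (2 / Real.pi * (θ / 2)) ≤ Real.pi * Real.sin (θ / 2) :=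
        mul_le_mul_of_nonneg_left hj hpi.le
      have h7 : Real.pi * (2 / Real.pi * (θ / 2)) = θ := by field_simp
      linarith
    nlinarith
  rcases hθ0.lt_or_eq with hpos | h0
  · have hx1 : θ / 2 ≤ 1 := by linarith
    have h8 := Real.sin_gt_sub_cube (by linarith : 0 < θ / 2)
    have h9 : θ * (1 - θ ^ 2 / 16) ≤ ‖q - p‖ := by
      rw [hdist]
      nlinarith
    have h10 : θ ^ 2 / 16 ≤ ‖q - p‖ ^ 2 / 4 := by nlinarith
    nlinarith
  · rw [← h0, zero_mul]
    exact norm_nonneg _

theorem ang_le_integral (c c' : ℝ → ℍ) (a b : ℝ) (hab : a ≤ b)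
    (hc : ∀ t ∈ Icc a b, HasDerivWithinAt c (c' t) (Icc a b) t) (hc' : ContinuousOn c' (Icc a b))
    (h1 : ∀ t ∈ Icc a b, ‖c t‖ = 1) : ang (c a) (c b) ≤ ∫ t in a..b, ‖c' t‖ := by
  have hcc : ContinuousOn c (Icc a b) := fun t ht => (hc t ht).continuousWithinAt
  let G : ℝ → ℝ := Set.IccExtend hab (fun t : Icc a b => ‖c' t‖)
  have hG : Continuous G := by
    apply Continuous.Icc_extend'
    have h2 := (continuousOn_iff_continuous_domRestrict.1 hc').norm
    exact h2
  have hGv : ∀ t ∈ Icc a b, G t = ‖c' t‖ := by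
    intro t ht
    exact Set.IccExtend_of_mem hab _ ht
  have hne : ∀ t ∈ Icc a b, c t ≠ 0 := by
    intro t ht h0
    have := h1 t ht
    rw [h0, norm_zero] at this
    norm_num at this
  have haI : a ∈ Icc a b := ⟨le_rfl, hab⟩
  have hbI : b ∈ Icc a b := ⟨hab, le_rfl⟩
  have key := image_le_of_liminf_slope_right_le_deriv_boundary
    (f := fun t => InnerProductGeometry.angle (c a) (c t)) (a := a) (b := b)
    (B := fun t => ∫ s in a..t, G s) (B' := G) ?_ ?_ ?_ ?_ ?_
  · have h3 := key hbI
    have h4 : (∫ s in a..b, G s) = ∫ s in a..b, ‖c' s‖ := by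
      apply intervalIntegral.integral_congr
      intro t ht
      rw [Set.uIcc_of_le hab] at ht
      exact hGv t ht
    rw [← h4]
    exact h3
  · intro t ht
    have h5 : ContinuousAt (fun y : ℍ × ℍ => InnerProductGeometry.angle y.1 y.2) (c a, c t) :=
      InnerProductGeometry.continuousAt_angle (hne a haI) (hne t ht)
    have h6 : ContinuousWithinAt (fun s => (c a, c s)) (Icc a b) t :=
      continuousWithinAt_const.prodMk (hcc t ht)
    exact ContinuousAt.comp_continuousWithinAt (f := fun s => (c a, c s))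
      (g := fun y : ℍ × ℍ => InnerProductGeometry.angle y.1 y.2) h5 h6
  · simp only [intervalIntegral.integral_same]
    rw [InnerProductGeometry.angle_self (hne a haI)]
  · intro t _
    exact (hG.integral_hasStrictDerivAt a t).hasDerivAt.continuousAt.continuousWithinAt
  · intro t _
    exact (hG.integral_hasStrictDerivAt a t).hasDerivAt.hasDerivWithinAt
  · intro x hx r hr
    have hxI : x ∈ Icc a b := ⟨hx.1, hx.2.le⟩
    rw [hGv x hxI] at hr
    have hmem : Icc a b ∈ nhdsWithin x (Ioi x) := Icc_mem_nhdsGT_of_mem hx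
    have hder : HasDerivWithinAt c (c' x) (Ioi x) x := (hc x hxI).mono_of_mem_nhdsWithin hmem
    have hsl : Filter.Tendsto (slope c x) (nhdsWithin x (Ioi x)) (nhds (c' x)) := by
      rw [← hasDerivWithinAt_iff_tendsto_slope' (by simp)]
      exact hder
    have hcx : Filter.Tendsto c (nhdsWithin x (Ioi x)) (nhds (c x)) := hder.continuousWithinAt
    have hd0 : Filter.Tendsto (fun z => ‖c z - c x‖) (nhdsWithin x (Ioi x)) (nhds 0) := by
      have h7 := (hcx.sub_const (c x)).norm
      rw [sub_self, norm_zero] at h7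
      exact h7
    have hlim : Filter.Tendsto (fun z => ‖slope c x z‖ / (1 - ‖c z - c x‖ ^ 2 / 4))
        (nhdsWithin x (Ioi x)) (nhds (‖c' x‖ / (1 - 0 ^ 2 / 4))) := by
      apply Filter.Tendsto.div hsl.norm
      · exact ((hd0.pow 2).div_const 4).const_sub 1
      · norm_num
    have hlim' : Filter.Tendsto (fun z => ‖slope c x z‖ / (1 - ‖c z - c x‖ ^ 2 / 4))
        (nhdsWithin x (Ioi x)) (nhds ‖c' x‖) := by
      convert hlim using 2
      norm_num
    have hev1 := hlim'.eventually_lt_const hr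
    have hev2 : ∀ᶠ z in nhdsWithin x (Ioi x), ‖c z - c x‖ < 1 :=
      hd0.eventually_lt_const (by norm_num)
    apply Filter.Eventually.frequently
    filter_upwards [hev1, hev2, hmem, self_mem_nhdsWithin] with z hz1 hz2 hz3 hz4
    have hzx : 0 < z - x := sub_pos.2 hz4
    refine lt_of_le_of_lt ?_ hz1
    have h8 : InnerProductGeometry.angle (c a) (c z) ≤
        InnerProductGeometry.angle (c a) (c x) + InnerProductGeometry.angle (c x) (c z) :=
      InnerProductGeometry.angle_le_angle_add_angle _ _ _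
    have h9 := ai_angle_le (h1 x hxI) (h1 z hz3) hz2.le
    have h10 : 0 < 1 - ‖c z - c x‖ ^ 2 / 4 := by
      have := norm_nonneg (c z - c x)
      nlinarith
    have h11 : ‖slope c x z‖ = ‖c z - c x‖ / (z - x) := by
      rw [slope_def_module, norm_smul, norm_inv, Real.norm_eq_abs, abs_of_pos hzx]
      field_simp
    rw [h11, slope_def_field]
    rw [div_div, div_le_div_iff₀ hzx (by positivity)]
    have h12 : (InnerProductGeometry.angle (c a) (c z) - InnerProductGeometry.angle (c a) (c x)) *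
        (1 - ‖c z - c x‖ ^ 2 / 4) ≤ ‖c z - c x‖ := by
      refine le_trans ?_ h9
      apply mul_le_mul_of_nonneg_right _ h10.le
      linarith
    nlinarith

end HQ
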