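import Pool.Agent.Helper831.HQ.Defs
import Pool.Agent.Helper831.HQ.P_ang_inv

open scoped Quaternion Matrix.Norms.L2Operator ENNReal
open Set MeasureTheory

noncomputable section

namespace HQ



theorem ang_upper_normE (a : ℝ) : ‖E a‖ = 1 := by
  have h : ‖E a‖ * ‖E a‖ = 1 := by
    rw [← Quaternion.normSq_eq_norm_mul_self, Quaternion.normSq_def']
    show Real.cos a ^ 2 + Real.sin a ^ 2 + 0 ^ 2 + 0 ^ 2 = 1
    have := Real.cos_sq_add_sin_sq a
    linarith
  have h0 := norm_nonneg (E a)
  nlinarith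

theorem ang_upper_one (a : ℝ) : ang 1 (E a) ≤ |a| := by
  unfold ang InnerProductGeometry.angle
  rw [ang_upper_normE, norm_one, mul_one, div_one]
  have h1 : inner ℝ (1 : ℍ) (E a) = Real.cos a := by
    rw [Quaternion.inner_def, one_mul, Quaternion.re_star]
    rfl
  rw [h1]
  rcases le_or_gt |a| Real.pi with h | h
  · rw [← Real.cos_abs a, Real.arccos_cos (abs_nonneg a) h]
  · exact (Real.arccos_le_pi _).trans h.le

theorem ang_upper (q : ℍ) (hq : ‖q‖ = 1) (a b : ℝ) : ang q (E a * q * E b) ≤ |a| + |b| ∧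
    ang q (E a * q) ≤ |a| := by
  have h1 : ang q (E a * q) ≤ |a| := by
    have h := (ang_inv q 1 (E a) hq).2
    rw [one_mul] at h
    rw [h]
    exact ang_upper_one a
  have hu : ‖E a * q‖ = 1 := by rw [norm_mul, ang_upper_normE, hq, one_mul]
  have h2 : ang (E a * q) (E a * q * E b) ≤ |b| := by
    have h := (ang_inv (E a * q) 1 (E b) hu).1
    rw [mul_one] at h
    rw [h]
    exact ang_upper_one b
  refine ⟨?_, h1⟩
  have h3 := InnerProductGeometry.angle_le_angle_add_angle q (E a * q) (E a * q * E b)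
  unfold ang at h1 h2 ⊢
  linarith

end HQ
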