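import Pool.Agent.Helper831.HQ.Defs

open scoped Quaternion Matrix.Norms.L2Operator ENNReal
open Set MeasureTheory

noncomputable section

namespace HQ



/-- polynomials as controls -/
def polyFun (p : Polynomial ℝ) : C(Set.Icc (0 : ℝ) 1, ℍ) :=
  ⟨fun t => ((p.eval (t : ℝ) : ℝ) : ℍ),
    Quaternion.continuous_coe.comp (p.continuous.comp continuous_subtype_val)⟩

/-- polynomials as controls, linear map -/
def polyL : Polynomial ℝ →ₗ[ℝ] Ctrl where
  toFun p := (polyFun p, 0, 0)
  map_add' p q := by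
    refine Prod.ext ?_ (Prod.ext ?_ ?_)
    · show polyFun (p + q) = polyFun p + polyFun q
      apply ContinuousMap.ext
      intro t
      show (((p + q).eval (t : ℝ) : ℝ) : ℍ) = ((p.eval (t : ℝ) : ℝ) : ℍ) + ((q.eval (t : ℝ) : ℝ) : ℍ)
      rw [Polynomial.eval_add, Quaternion.coe_add]
    · show (0 : C(Set.Icc (0 : ℝ) 1, ℍ)) = 0 + 0
      rw [add_zero]
    · show (0 : ℝ) = 0 + 0
      rw [add_zero]
  map_smul' r p := by
    refine Prod.ext ?_ (Prod.ext ?_ ?_)
    · show polyFun (r • p) = r • polyFun p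
      apply ContinuousMap.ext
      intro t
      show (((r • p).eval (t : ℝ) : ℝ) : ℍ) = r • ((p.eval (t : ℝ) : ℝ) : ℍ)
      rw [Polynomial.eval_smul, smul_eq_mul, Quaternion.coe_mul, Quaternion.coe_mul_eq_smul]
    · show (0 : C(Set.Icc (0 : ℝ) 1, ℍ)) = r • 0
      rw [smul_zero]
    · show (0 : ℝ) = r • 0
      rw [smul_zero]

theorem polyL_inj : Function.Injective polyL := by
  rw [← LinearMap.ker_eq_bot, LinearMap.ker_eq_bot']
  intro p hp
  have h1 : polyFun p = 0 := congrArg Prod.fst hp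
  apply Polynomial.eq_zero_of_infinite_isRoot
  refine (Set.Icc_infinite (zero_lt_one : (0 : ℝ) < 1)).mono ?_
  intro t ht
  have h2 : polyFun p ⟨t, ht⟩ = 0 := by
    rw [h1]
    rfl
  have h3 : ((p.eval t : ℝ) : ℍ) = ((0 : ℝ) : ℍ) := by
    rw [Quaternion.coe_zero]
    exact h2
  exact Quaternion.coe_injective h3

theorem ctrl_infinite : ¬ FiniteDimensional ℝ (UniformSpace.Completion Ctrl) := by
  intro h
  have hinj : Function.Injective
      ((UniformSpace.Completion.toComplₗᵢ (𝕜 := ℝ) (E := Ctrl)).toLinearMap.comp polyL) :=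
    (UniformSpace.Completion.toComplₗᵢ (𝕜 := ℝ) (E := Ctrl)).injective.comp polyL_inj
  have hfin : Module.Finite ℝ (Polynomial ℝ) := Module.Finite.of_injective _ hinj
  exact Polynomial.not_finite hfin

end HQ
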