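import Pool.Agent.Helper831.HQ.Defs

open scoped Quaternion Matrix.Norms.L2Operator ENNReal
open Set MeasureTheory

noncomputable section

namespace HQ



theorem E_re (a : ℝ) : (E a).re = Real.cos a := rfl
theorem E_imI (a : ℝ) : (E a).imI = Real.sin a := rfl
theorem E_imJ (a : ℝ) : (E a).imJ = 0 := rfl
theorem E_imK (a : ℝ) : (E a).imK = 0 := rfl
theorem Iq_re : Iq.re = 0 := rfl
theorem Iq_imI : Iq.imI = 1 := rfl
theorem Iq_imJ : Iq.imJ = 0 := rfl
theorem Iq_imK : Iq.imK = 0 := rfl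

theorem E_eq (a : ℝ) : E a = Real.cos a • (1 : ℍ) + Real.sin a • Iq := by
  apply Quaternion.ext <;> simp [E_re, E_imI, E_imJ, E_imK, Iq_re, Iq_imI, Iq_imJ, Iq_imK]

theorem norm_sq_E_sub (a b : ℝ) :
    ‖E a - E b‖ * ‖E a - E b‖ = (Real.cos a - Real.cos b) ^ 2 + (Real.sin a - Real.sin b) ^ 2 := by
  rw [← Quaternion.normSq_eq_norm_mul_self, Quaternion.normSq_def']
  simp [E_re, E_imI, E_imJ, E_imK, Iq_re, Iq_imI, Iq_imJ, Iq_imK]

theorem E_basic : (∀ a b : ℝ, E (a + b) = E a * E b) ∧ (∀ a, ‖E a‖ = 1) ∧ E 0 = 1 ∧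
    (∀ a, star (E a) = E (-a)) ∧ (∀ n : ℤ, E (2 * Real.pi * n) = 1) ∧ Continuous E ∧
    (∀ (k t : ℝ), HasDerivAt (fun s : ℝ => E (k * s)) (k • (E (k * t) * Iq)) t) ∧
    (∀ a b, ‖E a - E b‖ ≤ |a - b|) := by
  refine ⟨?_, ?_, ?_, ?_, ?_, ?_, ?_, ?_⟩
  · intro a b
    apply Quaternion.ext <;> simp [E_re, E_imI, E_imJ, E_imK, Iq_re, Iq_imI, Iq_imJ, Iq_imK, Real.cos_add, Real.sin_add] <;> ring
  · intro a
    have h : ‖E a‖ * ‖E a‖ = 1 := by
      rw [← Quaternion.normSq_eq_norm_mul_self, Quaternion.normSq_def']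
      simp [E_re, E_imI, E_imJ, E_imK, Iq_re, Iq_imI, Iq_imJ, Iq_imK]
    nlinarith [norm_nonneg (E a)]
  · apply Quaternion.ext <;> simp [E_re, E_imI, E_imJ, E_imK, Iq_re, Iq_imI, Iq_imJ, Iq_imK]
  · intro a
    apply Quaternion.ext <;> simp [E_re, E_imI, E_imJ, E_imK, Iq_re, Iq_imI, Iq_imJ, Iq_imK]
  · intro n
    have h1 : Real.cos (2 * Real.pi * n) = 1 := by
      rw [mul_comm]
      exact Real.cos_int_mul_two_pi n
    have h2 : Real.sin (2 * Real.pi * n) = 0 := by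
      have := Real.sin_int_mul_pi (2 * n)
      push_cast at this
      rw [← this]
      ring_nf
    apply Quaternion.ext <;> simp [E_re, E_imI, E_imJ, E_imK, Iq_re, Iq_imI, Iq_imJ, Iq_imK, h1, h2]
  · have : E = fun a => Real.cos a • (1 : ℍ) + Real.sin a • Iq := by
      funext a
      exact E_eq a
    rw [this]
    exact (Real.continuous_cos.smul continuous_const).add (Real.continuous_sin.smul continuous_const)
  · intro k t
    have h0 : HasDerivAt (fun s : ℝ => k * s) k t := by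
      simpa using (hasDerivAt_id t).const_mul k
    have hc : HasDerivAt (fun s : ℝ => Real.cos (k * s)) (-Real.sin (k * t) * k) t := h0.cos
    have hs : HasDerivAt (fun s : ℝ => Real.sin (k * s)) (Real.cos (k * t) * k) t := h0.sin
    have h := (hc.smul_const (1 : ℍ)).add (hs.smul_const Iq)
    have e1 : (fun s : ℝ => E (k * s)) =
        (fun s : ℝ => Real.cos (k * s) • (1 : ℍ)) + (fun s : ℝ => Real.sin (k * s) • Iq) := by
      funext s
      exact E_eq (k * s)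
    have e2 : k • (E (k * t) * Iq) = (-Real.sin (k * t) * k) • (1 : ℍ) + (Real.cos (k * t) * k) • Iq := by
      apply Quaternion.ext <;> simp [E_re, E_imI, E_imJ, E_imK, Iq_re, Iq_imI, Iq_imJ, Iq_imK] <;> ring
    rw [e1, e2]
    exact h
  · intro a b
    have h1 := norm_sq_E_sub a b
    have h2 : (Real.cos a - Real.cos b) ^ 2 + (Real.sin a - Real.sin b) ^ 2 = 2 - 2 * Real.cos (a - b) := by
      rw [Real.cos_sub]
      nlinarith [Real.sin_sq_add_cos_sq a, Real.sin_sq_add_cos_sq b]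
    have h3 := Real.one_sub_sq_div_two_le_cos (x := a - b)
    have h4 : ‖E a - E b‖ ^ 2 ≤ |a - b| ^ 2 := by
      rw [sq_abs]
      nlinarith
    exact (abs_le_of_sq_le_sq' h4 (abs_nonneg _)).2

end HQ
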