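import Pool.Agent.Helper831.HQ.Defs
import Pool.Agent.Helper831.HQ.P_ang_inv

open scoped Quaternion Matrix.Norms.L2Operator ENNReal
open Set MeasureTheory

noncomputable section

namespace HQ



theorem log_one_aux (r : ℍ) (hr : ‖r‖ = 1) :
    ∃ Z : ℍ, Z.re = 0 ∧ ‖Z‖ = ang 1 r ∧ NormedSpace.exp Z = r := by
  obtain ⟨θ, hθ⟩ : ∃ θ, θ = Real.arccos r.re := ⟨_, rfl⟩
  have hang : ang 1 r = θ := by
    unfold ang InnerProductGeometry.angle
    rw [Quaternion.inner_def, one_mul, Quaternion.re_star, norm_one, hr, one_mul, div_one, hθ]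
  have hsq : r.re ^ 2 + ‖r.im‖ ^ 2 = 1 := by
    have h1 : Quaternion.normSq r = 1 := by
      rw [Quaternion.normSq_eq_norm_mul_self, hr, mul_one]
    have h2 : Quaternion.normSq r.im = ‖r.im‖ ^ 2 := by
      rw [Quaternion.normSq_eq_norm_mul_self, sq]
    rw [← h2]
    refine Eq.trans ?_ h1
    rw [Quaternion.normSq_def', Quaternion.normSq_def']
    simp
    ring
  have h1 : -1 ≤ r.re := by nlinarith [sq_nonneg ‖r.im‖]
  have h2 : r.re ≤ 1 := by nlinarith [sq_nonneg ‖r.im‖]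
  have hcos : Real.cos θ = r.re := by rw [hθ, Real.cos_arccos h1 h2]
  have hsin : Real.sin θ = ‖r.im‖ := by
    rw [hθ, Real.sin_arccos, show 1 - r.re ^ 2 = ‖r.im‖ ^ 2 by linarith,
      Real.sqrt_sq (norm_nonneg _)]
  have hθ0 : 0 ≤ θ := by rw [hθ]; exact Real.arccos_nonneg _
  obtain ⟨u, hu0, hu1, hu2⟩ : ∃ u : ℍ, u.re = 0 ∧ ‖u‖ = 1 ∧ r.im = Real.sin θ • u := by
    by_cases h : r.im = 0
    · refine ⟨Iq, rfl, ?_, ?_⟩
      · have h3 : Quaternion.normSq Iq = 1 := by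
          rw [Quaternion.normSq_def']
          simp [Iq]
        rw [Quaternion.normSq_eq_norm_mul_self] at h3
        nlinarith [norm_nonneg Iq]
      · rw [hsin, h, norm_zero, zero_smul]
    · have h3 : ‖r.im‖ ≠ 0 := norm_ne_zero_iff.2 h
      refine ⟨‖r.im‖⁻¹ • r.im, ?_, ?_, ?_⟩
      · simp
      · rw [norm_smul, norm_inv, norm_norm, inv_mul_cancel₀ h3]
      · rw [hsin, smul_smul, mul_inv_cancel₀ h3, one_smul]
  have hn : ‖θ • u‖ = θ := by
    rw [norm_smul, hu1, mul_one, Real.norm_of_nonneg hθ0]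
  refine ⟨θ • u, ?_, ?_, ?_⟩
  · simp [hu0]
  · rw [hn, hang]
  · rw [Quaternion.exp_of_re_eq_zero _ (by simp [hu0]), hn, smul_smul]
    have h4 : Real.sin θ / θ * θ = Real.sin θ := by
      by_cases h5 : θ = 0
      · rw [h5]; simp
      · rw [div_mul_cancel₀ _ h5]
    rw [h4, ← hu2, hcos]
    exact Quaternion.re_add_im r

theorem exists_log (p q : ℍ) (hp : ‖p‖ = 1) (hq : ‖q‖ = 1) :
    (∃ Z : ℍ, Z.re = 0 ∧ ‖Z‖ = ang p q ∧ p * NormedSpace.exp Z = q) ∧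
    (∃ Z : ℍ, Z.re = 0 ∧ ‖Z‖ = ang p q ∧ NormedSpace.exp Z * p = q) := by
  have hsp : star p * p = 1 := by
    rw [Quaternion.star_mul_self, Quaternion.normSq_eq_norm_mul_self, hp, mul_one]
    simp
  have hps : p * star p = 1 := by
    rw [Quaternion.self_mul_star, Quaternion.normSq_eq_norm_mul_self, hp, mul_one]
    simp
  have hsn : ‖star p‖ = 1 := by rw [norm_star, hp]
  obtain ⟨a1, a2⟩ := ang_inv (star p) p q hsn
  rw [hsp] at a1
  rw [hps] at a2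
  constructor
  · obtain ⟨Z, hZ1, hZ2, hZ3⟩ := log_one_aux (star p * q) (by rw [norm_mul, hsn, hq, one_mul])
    refine ⟨Z, hZ1, by rw [hZ2, a1], ?_⟩
    rw [hZ3, ← mul_assoc, hps, one_mul]
  · obtain ⟨Z, hZ1, hZ2, hZ3⟩ := log_one_aux (q * star p) (by rw [norm_mul, hsn, hq, one_mul])
    refine ⟨Z, hZ1, by rw [hZ2, a2], ?_⟩
    rw [hZ3, mul_assoc, hsp, mul_one]

end HQ
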