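import Pool.Agent.Helper831.HQ.Defs

open scoped Quaternion Matrix.Norms.L2Operator ENNReal
open Set MeasureTheory

noncomputable section

namespace HQ



theorem gauge_mul_star {q : ℍ} (h : ‖q‖ = 1) : q * star q = 1 := by
  rw [Quaternion.self_mul_star, Quaternion.normSq_eq_norm_mul_self, h, mul_one]
  rfl

theorem gauge_star_mul {q : ℍ} (h : ‖q‖ = 1) : star q * q = 1 := by
  rw [Quaternion.star_mul_self, Quaternion.normSq_eq_norm_mul_self, h, mul_one]
  rfl

theorem gauge_im (q p w : ℍ) (r : ℝ) (hq : star q * q = 1) (hw : (star q * w).re = 0) :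
    (star q * p * q + star q * w + (r : ℍ)).im = star q * p.im * q + star q * w := by
  have h1 : star q * p * q = (p.re : ℍ) + star q * p.im * q := by
    have h2 : p = (p.re : ℍ) + p.im := (Quaternion.re_add_im p).symm
    calc star q * p * q = star q * ((p.re : ℍ) + p.im) * q := by rw [← h2]
      _ = star q * (p.re : ℍ) * q + star q * p.im * q := by rw [mul_add, add_mul]
      _ = (p.re : ℍ) + star q * p.im * q := by
        rw [← Quaternion.coe_commutes, mul_assoc, hq, mul_one]
  have h3 : (star q * p.im * q).re = 0 := by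
    simp only [Quaternion.re_mul, Quaternion.imI_mul, Quaternion.imJ_mul, Quaternion.imK_mul,
      Quaternion.re_star, Quaternion.imI_star, Quaternion.imJ_star, Quaternion.imK_star,
      Quaternion.re_im, Quaternion.imI_im, Quaternion.imJ_im, Quaternion.imK_im]
    ring
  have h4 : star q * p * q + star q * w + (r : ℍ) =
      ((p.re + r : ℝ) : ℍ) + (star q * p.im * q + star q * w) := by
    rw [h1, Quaternion.coe_add]
    abel
  have h5 : (star q * p.im * q + star q * w).re = 0 := by
    rw [Quaternion.re_add, h3, hw, add_zero]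
  rw [h4]
  ext
  · rw [Quaternion.re_im, h5]
  · rw [Quaternion.imI_im, Quaternion.imI_add, Quaternion.imI_coe, zero_add]
  · rw [Quaternion.imJ_im, Quaternion.imJ_add, Quaternion.imJ_coe, zero_add]
  · rw [Quaternion.imK_im, Quaternion.imK_add, Quaternion.imK_coe, zero_add]

theorem gauge_re (a a' : ℝ → ℍ)
    (ha : ∀ t ∈ Icc (0 : ℝ) 1, HasDerivWithinAt a (a' t) (Icc 0 1) t)
    (h1 : ∀ t ∈ Icc (0 : ℝ) 1, ‖a t‖ = 1) (t : ℝ) (ht : t ∈ Icc (0 : ℝ) 1) :
    (star (a t) * a' t).re = 0 := by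
  have h2 := (ha t ht).norm_sq
  have h3 : HasDerivWithinAt (fun _ : ℝ => (1 : ℝ)) (2 * inner ℝ (a t) (a' t)) (Icc 0 1) t := by
    refine h2.congr (fun s hs => ?_) ?_
    · simp [h1 s hs]
    · simp [h1 t ht]
  have h4 := (uniqueDiffOn_Icc (zero_lt_one' ℝ) t ht).eq_deriv _ h3
    (hasDerivWithinAt_const t (Icc (0 : ℝ) 1) (1 : ℝ))
  rw [Quaternion.inner_def] at h4
  simp only [Quaternion.re_mul, Quaternion.re_star, Quaternion.imI_star, Quaternion.imJ_star,
    Quaternion.imK_star] at h4 ⊢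
  linarith

theorem gauge (a a' : ℝ → ℍ) (ρ : C(Set.Icc (0 : ℝ) 1, ℝ)) (h0 : a 0 = 1)
    (ha : ∀ t ∈ Icc (0 : ℝ) 1, HasDerivWithinAt a (a' t) (Icc 0 1) t)
    (ha' : ContinuousOn a' (Icc 0 1)) (h1 : ∀ t ∈ Icc (0 : ℝ) 1, ‖a t‖ = 1) :
    ∃ g : C(Set.Icc (0 : ℝ) 1, ℍ) ≃ C(Set.Icc (0 : ℝ) 1, ℍ),
      (∀ ζ (t : Set.Icc (0 : ℝ) 1), g ζ t = star (a t) * ζ t * a t + star (a t) * a' t + (ρ t : ℍ)) ∧
      (∀ ζ η, ip (g ζ - g η) (g ζ - g η) = ip (ζ - η) (ζ - η)) ∧
      (∀ ζ c, IsSol ζ c → IsSol (g ζ) (fun t => c t * a t)) := by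
  have hac : ContinuousOn a (Icc 0 1) := fun t ht => (ha t ht).continuousWithinAt
  have hA : Continuous fun t : Icc (0 : ℝ) 1 => a t :=
    hac.comp_continuous continuous_subtype_val (fun t => t.2)
  have hA' : Continuous fun t : Icc (0 : ℝ) 1 => a' t :=
    ha'.comp_continuous continuous_subtype_val (fun t => t.2)
  have hρ : Continuous fun t : Icc (0 : ℝ) 1 => ((ρ t : ℝ) : ℍ) :=
    Quaternion.continuous_coe.comp ρ.continuous
  have hSA : Continuous fun t : Icc (0 : ℝ) 1 => star (a t) := hA.star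
  have hms : ∀ t : Icc (0 : ℝ) 1, a t * star (a t) = 1 := fun t => gauge_mul_star (h1 t t.2)
  have hsm : ∀ t : Icc (0 : ℝ) 1, star (a t) * a t = 1 := fun t => gauge_star_mul (h1 t t.2)
  let g : C(Set.Icc (0 : ℝ) 1, ℍ) ≃ C(Set.Icc (0 : ℝ) 1, ℍ) :=
    { toFun := fun ζ => ⟨fun t => star (a t) * ζ t * a t + star (a t) * a' t + (ρ t : ℍ),
        (((hSA.mul ζ.continuous).mul hA).add (hSA.mul hA')).add hρ⟩
      invFun := fun η => ⟨fun t => a t * (η t - star (a t) * a' t - (ρ t : ℍ)) * star (a t),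
        (hA.mul ((η.continuous.sub (hSA.mul hA')).sub hρ)).mul hSA⟩
      left_inv := fun ζ => by
        ext1 t
        show a t * ((star (a t) * ζ t * a t + star (a t) * a' t + (ρ t : ℍ)) -
          star (a t) * a' t - (ρ t : ℍ)) * star (a t) = ζ t
        have e1 : (star (a t) * ζ t * a t + star (a t) * a' t + (ρ t : ℍ)) -
          star (a t) * a' t - (ρ t : ℍ) = star (a t) * ζ t * a t := by abel
        rw [e1]
        calc a t * (star (a t) * ζ t * a t) * star (a t)
            = (a t * star (a t)) * ζ t * (a t * star (a t)) := by simp only [mul_assoc]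
          _ = ζ t := by rw [hms t, one_mul, mul_one]
      right_inv := fun η => by
        ext1 t
        show star (a t) * (a t * (η t - star (a t) * a' t - (ρ t : ℍ)) * star (a t)) * a t +
          star (a t) * a' t + (ρ t : ℍ) = η t
        have e1 : star (a t) * (a t * (η t - star (a t) * a' t - (ρ t : ℍ)) * star (a t)) * a t =
            (star (a t) * a t) * (η t - star (a t) * a' t - (ρ t : ℍ)) * (star (a t) * a t) := by
          simp only [mul_assoc]
        rw [e1, hsm t, one_mul, mul_one]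
        abel }
  have hg : ∀ ζ (t : Set.Icc (0 : ℝ) 1),
      g ζ t = star (a t) * ζ t * a t + star (a t) * a' t + (ρ t : ℍ) := fun ζ t => rfl
  refine ⟨g, hg, ?_, ?_⟩
  · intro ζ η
    unfold ip
    congr 1
    funext t
    rw [real_inner_self_eq_norm_sq, real_inner_self_eq_norm_sq]
    obtain ⟨s, hs⟩ : ∃ s, s = projIcc (0 : ℝ) 1 zero_le_one t := ⟨_, rfl⟩
    rw [← hs]
    have e1 : (g ζ - g η) s = star (a s) * ((ζ - η) s) * a s := by
      rw [ContinuousMap.sub_apply, ContinuousMap.sub_apply, hg, hg, mul_sub, sub_mul]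
      abel
    rw [e1, norm_mul, norm_mul, Quaternion.norm_star, h1 s s.2, one_mul, mul_one]
  · intro ζ c hc
    obtain ⟨hc0, hc1⟩ := hc
    refine ⟨?_, fun t ht => ?_⟩
    · show c 0 * a 0 = 1
      rw [hc0, h0, one_mul]
    · have h2 := (hc1 t ht).mul (ha t ht)
      obtain ⟨s, hs⟩ : ∃ s : Icc (0 : ℝ) 1, s = projIcc (0 : ℝ) 1 zero_le_one t := ⟨_, rfl⟩
      have hst : (s : ℝ) = t := by rw [hs, projIcc_of_mem zero_le_one ht]
      rw [← hs] at h2 ⊢
      have e1 : (g ζ s).im = star (a t) * (ζ s).im * a t + star (a t) * a' t := by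
        rw [hg, hst]
        exact gauge_im (a t) (ζ s) (a' t) (ρ s) (gauge_star_mul (h1 t ht))
          (gauge_re a a' ha h1 t ht)
      show HasDerivWithinAt (fun t => c t * a t) (c t * a t * (g ζ s).im) (Icc 0 1) t
      have e2 : c t * a t * (g ζ s).im = c t * (ζ s).im * a t + c t * a' t := by
        rw [e1]
        calc c t * a t * (star (a t) * (ζ s).im * a t + star (a t) * a' t)
            = c t * (a t * star (a t)) * (ζ s).im * a t + c t * (a t * star (a t)) * a' t := by
              simp only [mul_add, mul_assoc]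
          _ = c t * (ζ s).im * a t + c t * a' t := by
              rw [gauge_mul_star (h1 t ht), mul_one]
      rw [e2]
      exact h2

end HQ
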