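import Pool.Agent.Helper831.HQ.Defs

open scoped Quaternion Matrix.Norms.L2Operator ENNReal
open Set MeasureTheory

noncomputable section

namespace HQ



theorem sol_norm_inner (c w : ℍ) (hw : w.re = 0) : inner ℝ c (c * w) = 0 := by
  rw [Quaternion.inner_def]
  simp only [star_mul, Quaternion.re_mul, Quaternion.imI_mul, Quaternion.imJ_mul,
    Quaternion.imK_mul, Quaternion.re_star, Quaternion.imI_star, Quaternion.imJ_star,
    Quaternion.imK_star, hw]
  ring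

theorem sol_norm (ξ : C(Set.Icc (0 : ℝ) 1, ℍ)) (c : ℝ → ℍ) (h : IsSol ξ c) :
    ∀ t ∈ Icc (0 : ℝ) 1, ‖c t‖ = 1 := by
  have hd : ∀ t ∈ Icc (0 : ℝ) 1, HasDerivWithinAt (fun s => ‖c s‖ ^ 2) 0 (Icc 0 1) t := by
    intro t ht
    have h1 := (h.2 t ht).norm_sq
    rw [sol_norm_inner _ _ (by simp), mul_zero] at h1
    exact h1
  have h2 := constant_of_derivWithin_zero (f := fun s => ‖c s‖ ^ 2) (a := 0) (b := 1)
    (fun t ht => (hd t ht).differentiableWithinAt)
    (fun t ht => (hd t ⟨ht.1, ht.2.le⟩).derivWithin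
      ((uniqueDiffOn_Icc zero_lt_one) t ⟨ht.1, ht.2.le⟩))
  intro t ht
  have h3 : ‖c t‖ ^ 2 = ‖c 0‖ ^ 2 := h2 t ht
  rw [h.1, norm_one, one_pow] at h3
  have h4 := norm_nonneg (c t)
  nlinarith

end HQ
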