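import Pool.Agent.Helper831.HQ.Defs
import Pool.Agent.Helper831.HQ.P_sol_norm
import Pool.Agent.Helper831.HQ.P_gauge

open scoped Quaternion Matrix.Norms.L2Operator ENNReal
open Set MeasureTheory

noncomputable section

namespace HQ



theorem gauge_move_unit {b : ℍ} (hb : ‖b‖ = 1) : star b * b = 1 ∧ b * star b = 1 := by
  constructor
  · rw [Quaternion.star_mul_self, Quaternion.normSq_eq_norm_mul_self, hb]; simp
  · rw [Quaternion.self_mul_star, Quaternion.normSq_eq_norm_mul_self, hb]; simp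

theorem gauge_move_alg (d b η ξ Z : ℍ) (hd : ‖d‖ = 1) (hb : ‖b‖ = 1) :
    star (star d * b) * η * (star d * b) + star (star d * b) *
      (star (d * η.im) * b + star d * (Z * b + b * ξ.im)) + ((ξ.re - η.re : ℝ) : ℍ)
      = ξ + star b * Z * b := by
  obtain ⟨-, hdd⟩ := gauge_move_unit hd
  obtain ⟨hbb, -⟩ := gauge_move_unit hb
  have e1 : star b * d * η * (star d * b) = (η.re : ℍ) + star b * d * η.im * (star d * b) := by
    have h1 : star b * d * η * (star d * b) =
        star b * d * (η.re : ℍ) * (star d * b) + star b * d * η.im * (star d * b) := by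
      conv_lhs => rw [← Quaternion.re_add_im η]
      rw [mul_add, add_mul]
    rw [h1]
    congr 1
    rw [← Quaternion.coe_commutes, mul_assoc (η.re : ℍ)]
    have h2 : star b * d * (star d * b) = 1 := by
      rw [mul_assoc, ← mul_assoc d, hdd, one_mul, hbb]
    rw [h2, mul_one]
  have e2 : star b * d * (star d * (Z * b + b * ξ.im)) = star b * Z * b + ξ.im := by
    rw [← mul_assoc (star b * d), mul_assoc (star b) d, hdd, mul_one, mul_add, ← mul_assoc,
      ← mul_assoc (star b) b, hbb, one_mul]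
  have e3 : star b * d * (star (d * η.im) * b) = - (star b * d * η.im * (star d * b)) := by
    rw [star_mul, Quaternion.star_im]
    noncomm_ring
  rw [star_mul, star_star, e1, mul_add, e2, e3]
  have e4 : ((ξ.re - η.re : ℝ) : ℍ) = (ξ.re : ℍ) - (η.re : ℍ) := by push_cast; rfl
  have e5 : ξ = (ξ.re : ℍ) + ξ.im := (Quaternion.re_add_im ξ).symm
  rw [e4]
  conv_rhs => rw [e5]
  abel

theorem gauge_move_exp {Z : ℍ} (hZ : Z.re = 0) (t : ℝ) : ‖NormedSpace.exp (t • Z)‖ = 1 := by
  rw [Quaternion.norm_exp]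
  simp [hZ]

theorem gauge_move (ξ η : C(Set.Icc (0 : ℝ) 1, ℍ)) (c d : ℝ → ℍ) (hc : IsSol ξ c) (hd : IsSol η d)
    (Z : ℍ) (hZ : Z.re = 0) :
    ∃ g : C(Set.Icc (0 : ℝ) 1, ℍ) ≃ C(Set.Icc (0 : ℝ) 1, ℍ),
      (∀ ζ θ, ip (g ζ - g θ) (g ζ - g θ) = ip (ζ - θ) (ζ - θ)) ∧
      ip (ξ - g η) (ξ - g η) = ‖Z‖ ^ 2 ∧
      (∀ ζ e, IsSol ζ e → ∃ e', IsSol (g ζ) e' ∧
        e' 1 = e 1 * (star (d 1) * (NormedSpace.exp Z * c 1))) := by
  have hcn := sol_norm ξ c hc
  have hdn := sol_norm η d hd
  have hcc : ContinuousOn c (Icc 0 1) := fun t ht => (hc.2 t ht).continuousWithinAt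
  have hdc : ContinuousOn d (Icc 0 1) := fun t ht => (hd.2 t ht).continuousWithinAt
  have him : Continuous (fun q : ℍ => q.im) := Quaternion.continuous_im
  have hexpd : ∀ t : ℝ, HasDerivAt (fun u : ℝ => NormedSpace.exp (u • Z))
      (Z * NormedSpace.exp (t • Z)) t := fun t => hasDerivAt_exp_smul_const' Z t
  have hexpc : Continuous (fun u : ℝ => NormedSpace.exp (u • Z)) :=
    continuous_iff_continuousAt.2 (fun t => (hexpd t).continuousAt)
  set a : ℝ → ℍ := fun t => star (d t) * (NormedSpace.exp (t • Z) * c t) with ha_def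
  set a' : ℝ → ℍ := fun t => star (d t * (η (projIcc 0 1 zero_le_one t)).im) *
      (NormedSpace.exp (t • Z) * c t) + star (d t) * (Z * (NormedSpace.exp (t • Z) * c t) +
      (NormedSpace.exp (t • Z) * c t) * (ξ (projIcc 0 1 zero_le_one t)).im) with ha'_def
  have ha0 : a 0 = 1 := by
    simp only [ha_def]
    rw [hc.1, hd.1, zero_smul, NormedSpace.exp_zero, star_one]
    simp
  have hda : ∀ t ∈ Icc (0 : ℝ) 1, HasDerivWithinAt a (a' t) (Icc 0 1) t := by
    intro t ht
    haveI : StarModule ℝ ℍ := ⟨fun r q => by simp [Quaternion.star_smul]⟩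
    have h1 := (hd.2 t ht).star
    have h2 := ((hexpd t).hasDerivWithinAt (s := Icc 0 1)).mul (hc.2 t ht)
    have h3 := h1.mul h2
    refine h3.congr_deriv ?_
    simp only [ha'_def, Pi.mul_apply]
    noncomm_ring
  have hξc : Continuous (fun t : ℝ => (ξ (projIcc 0 1 zero_le_one t)).im) :=
    him.comp (ξ.continuous.comp continuous_projIcc)
  have hηc : Continuous (fun t : ℝ => (η (projIcc 0 1 zero_le_one t)).im) :=
    him.comp (η.continuous.comp continuous_projIcc)
  have hca' : ContinuousOn a' (Icc 0 1) := by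
    have hb : ContinuousOn (fun t => NormedSpace.exp (t • Z) * c t) (Icc 0 1) :=
      hexpc.continuousOn.mul hcc
    apply ContinuousOn.add
    · exact ((hdc.mul hηc.continuousOn).star).mul hb
    · exact hdc.star.mul ((continuousOn_const.mul hb).add (hb.mul hξc.continuousOn))
  have hbn : ∀ t ∈ Icc (0 : ℝ) 1, ‖NormedSpace.exp (t • Z) * c t‖ = 1 := by
    intro t ht
    rw [norm_mul, gauge_move_exp hZ, hcn t ht, one_mul]
  have han : ∀ t ∈ Icc (0 : ℝ) 1, ‖a t‖ = 1 := by
    intro t ht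
    simp only [ha_def]
    rw [norm_mul, norm_star, hdn t ht, hbn t ht, one_mul]
  have hre : Continuous (fun q : ℍ => q.re) := Quaternion.continuous_re
  obtain ⟨g, hg1, hg2, hg3⟩ := gauge a a' ⟨fun t => (ξ t).re - (η t).re,
    (hre.comp ξ.continuous).sub (hre.comp η.continuous)⟩ ha0 hda hca' han
  refine ⟨g, hg2, ?_, ?_⟩
  · have hpt : ∀ t : Set.Icc (0 : ℝ) 1, ‖(ξ - g η) t‖ = ‖Z‖ := by
      intro t
      have ht := t.2
      have h5 : g η t = ξ t + star (NormedSpace.exp ((t : ℝ) • Z) * c t) * Z *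
          (NormedSpace.exp ((t : ℝ) • Z) * c t) := by
        rw [hg1]
        simp only [ha_def, ha'_def, projIcc_val]
        exact gauge_move_alg (d t) _ (η t) (ξ t) Z (hdn t ht) (hbn t ht)
      rw [ContinuousMap.sub_apply, h5, sub_add_cancel_left, norm_neg, norm_mul, norm_mul,
        norm_star, hbn t ht, one_mul, mul_one]
    unfold ip
    have h6 : ∀ t : ℝ, inner ℝ ((ξ - g η) (projIcc 0 1 zero_le_one t))
        ((ξ - g η) (projIcc 0 1 zero_le_one t)) = ‖Z‖ ^ 2 := by
      intro t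
      rw [real_inner_self_eq_norm_sq, hpt]
    simp only [h6]
    simp
  · intro ζ e he
    refine ⟨_, hg3 ζ e he, ?_⟩
    simp only [ha_def, one_smul]

end HQ
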