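import Pool.Agent.Helper831.HQ.Defs
import Pool.Agent.Helper831.HQ.P_E_basic
import Pool.Agent.Helper831.HQ.P_ang_inv
import Pool.Agent.Helper831.HQ.P_exists_log
import Pool.Agent.Helper831.HQ.P_sol_norm
import Pool.Agent.Helper831.HQ.P_gauge_move

open scoped Quaternion Matrix.Norms.L2Operator ENNReal
open Set MeasureTheory

noncomputable section

namespace HQ



theorem star_mul_one {d : ℍ} (hd : ‖d‖ = 1) : star d * d = 1 := by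
  rw [Quaternion.star_mul_self, Quaternion.normSq_eq_norm_mul_self, hd]
  norm_num

theorem end_calc {e d : ℍ} (hd : ‖d‖ = 1) (s t a b : ℝ) (h : s + t + a = b) :
    e * (star d * (d * E s * E t)) * E a = e * E b := by
  have hE := E_basic.1
  have h1 := star_mul_one hd
  rw [← h, hE, hE]
  calc e * (star d * (d * E s * E t)) * E a = e * (star d * d) * (E s * E t * E a) := by
        simp only [mul_assoc]
    _ = _ := by rw [h1, mul_one]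

theorem ctrl_move (x y : Ctrl) (p q : ℍ × ℍ) (hp : IsEnd x p) (hq : IsEnd y q) (ε : ℝ) (hε : 0 < ε) :
    ∃ γ : Ctrl ≃ Ctrl, (∀ u v, ‖γ u - γ v‖ = ‖u - v‖) ∧ (∀ u r, IsEnd u r → IsEnd (γ u) r) ∧
      ‖x - γ y‖ ≤ dF p q + ε := by
  obtain ⟨c1, c2, hc1, hc2, hpe⟩ := hp
  obtain ⟨d1, d2, hd1, hd2, hqe⟩ := hq
  have hE := E_basic.1
  have hEn := E_basic.2.1
  have one_mem : (1 : ℝ) ∈ Icc (0 : ℝ) 1 := ⟨zero_le_one, le_rfl⟩
  have nc1 := sol_norm _ _ hc1 1 one_mem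
  have nc2 := sol_norm _ _ hc2 1 one_mem
  have nd1 := sol_norm _ _ hd1 1 one_mem
  have nd2 := sol_norm _ _ hd2 1 one_mem
  obtain ⟨θ, hθ⟩ := exists_lt_of_ciInf_lt
    (show (⨅ θ : ℝ, √(ang p.1 (q.1 * E θ) ^ 2 + ang p.2 (q.2 * E (√2 * θ)) ^ 2 + θ ^ 2)) <
      dF p q + ε from by
        show dF p q < dF p q + ε
        linarith)
  set T1 : ℍ := d1 1 * E (-y.2.2) * E (x.2.2 + θ) with hT1
  set T2 : ℍ := d2 1 * E (-(√2 * y.2.2)) * E (√2 * (x.2.2 + θ)) with hT2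
  have nT1 : ‖T1‖ = 1 := by rw [hT1, norm_mul, norm_mul, hEn, hEn, nd1]; norm_num
  have nT2 : ‖T2‖ = 1 := by rw [hT2, norm_mul, norm_mul, hEn, hEn, nd2]; norm_num
  have a1 : ang (c1 1) T1 = ang p.1 (q.1 * E θ) := by
    rw [← (ang_inv (E x.2.2) p.1 (q.1 * E θ) (hEn _)).2]
    congr 1
    · rw [hpe]
      show c1 1 = c1 1 * E (-x.2.2) * E x.2.2
      rw [mul_assoc, ← hE, neg_add_cancel, E_basic.2.2.1, mul_one]
    · rw [hqe, hT1]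
      show d1 1 * E (-y.2.2) * E (x.2.2 + θ) = d1 1 * E (-y.2.2) * E θ * E x.2.2
      rw [add_comm, hE]
      simp only [mul_assoc]
  have a2 : ang (c2 1) T2 = ang p.2 (q.2 * E (√2 * θ)) := by
    rw [← (ang_inv (E (√2 * x.2.2)) p.2 (q.2 * E (√2 * θ)) (hEn _)).2]
    congr 1
    · rw [hpe]
      show c2 1 = c2 1 * E (-(√2 * x.2.2)) * E (√2 * x.2.2)
      rw [mul_assoc, ← hE, neg_add_cancel, E_basic.2.2.1, mul_one]
    · rw [hqe, hT2]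
      show d2 1 * E (-(√2 * y.2.2)) * E (√2 * (x.2.2 + θ))
        = d2 1 * E (-(√2 * y.2.2)) * E (√2 * θ) * E (√2 * x.2.2)
      rw [add_comm, mul_add, hE]
      simp only [mul_assoc]
  obtain ⟨Z1, hZ1, nZ1, eZ1⟩ := (exists_log (c1 1) T1 nc1 nT1).2
  obtain ⟨Z2, hZ2, nZ2, eZ2⟩ := (exists_log (c2 1) T2 nc2 nT2).2
  obtain ⟨g1, g1i, g1d, g1s⟩ := gauge_move x.1 y.1 c1 d1 hc1 hd1 Z1 hZ1
  obtain ⟨g2, g2i, g2d, g2s⟩ := gauge_move x.2.1 y.2.1 c2 d2 hc2 hd2 Z2 hZ2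
  set k : ℝ := x.2.2 + θ - y.2.2 with hk
  let γ : Ctrl ≃ Ctrl := Equiv.prodCongr g1 (Equiv.prodCongr g2 (Equiv.addRight k))
  have hγ1 : ∀ u, (γ u).1 = g1 u.1 := fun u => rfl
  have hγ2 : ∀ u, (γ u).2.1 = g2 u.2.1 := fun u => rfl
  have hγ3 : ∀ u, (γ u).2.2 = u.2.2 + k := fun u => rfl
  have sub1 : ∀ u v : Ctrl, (u - v).1 = u.1 - v.1 := fun _ _ => rfl
  have sub2 : ∀ u v : Ctrl, (u - v).2.1 = u.2.1 - v.2.1 := fun _ _ => rfl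
  have sub3 : ∀ u v : Ctrl, (u - v).2.2 = u.2.2 - v.2.2 := fun _ _ => rfl
  refine ⟨γ, ?_, ?_, ?_⟩
  · intro u v
    have h : ‖γ u - γ v‖ ^ 2 = ‖u - v‖ ^ 2 := by
      rw [ctrl_norm_sq, ctrl_norm_sq, sub1, sub2, sub3, sub1, sub2, sub3, hγ1, hγ1, hγ2, hγ2,
        hγ3, hγ3, g1i, g2i]
      ring
    exact (pow_left_inj₀ (norm_nonneg _) (norm_nonneg _) two_ne_zero).1 h
  · rintro u r ⟨e1, e2, he1, he2, hr⟩
    obtain ⟨e1', he1', v1⟩ := g1s _ _ he1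
    obtain ⟨e2', he2', v2⟩ := g2s _ _ he2
    refine ⟨e1', e2', he1', he2', ?_⟩
    rw [hr, v1, v2, eZ1, eZ2, hγ3]
    refine Prod.ext ?_ ?_
    · show e1 1 * E (-u.2.2) = _
      exact (end_calc nd1 _ _ _ _ (by rw [hk]; ring)).symm
    · show e2 1 * E (-(√2 * u.2.2)) = _
      exact (end_calc nd2 _ _ _ _ (by rw [hk]; ring)).symm
  · have h : ‖x - γ y‖ ^ 2 = ang p.1 (q.1 * E θ) ^ 2 + ang p.2 (q.2 * E (√2 * θ)) ^ 2 + θ ^ 2 := by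
      rw [ctrl_norm_sq, sub1, sub2, sub3, hγ1, hγ2, hγ3, g1d, g2d, nZ1, nZ2, a1, a2, hk]
      ring
    have h2 : ‖x - γ y‖ = √(ang p.1 (q.1 * E θ) ^ 2 + ang p.2 (q.2 * E (√2 * θ)) ^ 2 + θ ^ 2) := by
      rw [← h, Real.sqrt_sq (norm_nonneg _)]
    rw [h2]
    exact hθ.le

end HQ
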