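import Pool.Agent.Helper831.HQ.Defs
import Pool.Agent.Helper831.HQ.P_E_basic
import Pool.Agent.Helper831.HQ.P_ang_inv
import Pool.Agent.Helper831.HQ.P_ang_upper

open scoped Quaternion Matrix.Norms.L2Operator ENNReal
open Set MeasureTheory

noncomputable section

namespace HQ



theorem dF_Psi_aux (a c θ : ℝ) (p q : ℍ) :
    ang (E a * p * E c) (E a * q * E c * E θ) = ang p (q * E θ) := by
  obtain ⟨hadd, hn, -⟩ := E_basic
  have e1 : E a * q * E c * E θ = E a * (q * E θ) * E c := by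
    have e2 : E c * E θ = E θ * E c := by rw [← hadd, ← hadd, add_comm]
    rw [mul_assoc (E a * q), e2]
    simp only [mul_assoc]
  rw [e1, (ang_inv (E c) (E a * p) (E a * (q * E θ)) (hn c)).2,
    (ang_inv (E a) p (q * E θ) (hn a)).1]

theorem dF_Psi (a b c d : ℝ) (p q : ℍ × ℍ) (hp : p ∈ S33) (hq : q ∈ S33) :
    dF (Psi a b c d p) (Psi a b c d q) = dF p q ∧ Psi a b c d p ∈ S33 ∧
    (∀ a' b' c' d' : ℝ, Psi a b c d (Psi a' b' c' d' p) = Psi (a + a') (b + b') (c + c') (d + d') p) ∧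
    dF p (Psi a b c d p) ≤ |a| + |b| + |c| + |d| := by
  obtain ⟨hadd, hn, h0, -⟩ := E_basic
  refine ⟨?_, ?_, ?_, ?_⟩
  · unfold dF Psi
    simp only [dF_Psi_aux]
  · refine ⟨?_, ?_⟩
    · show ‖E a * p.1 * E c‖ = 1
      rw [norm_mul, norm_mul, hn, hn, hp.1, one_mul, one_mul]
    · show ‖E b * p.2 * E d‖ = 1
      rw [norm_mul, norm_mul, hn, hn, hp.2, one_mul, one_mul]
  · intro a' b' c' d'
    unfold Psi
    simp only
    rw [hadd a a', hadd b b', add_comm c c', add_comm d d', hadd c' c, hadd d' d]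
    simp only [mul_assoc]
  · have hbdd : BddBelow (Set.range fun θ : ℝ =>
        √(ang p.1 ((Psi a b c d p).1 * E θ) ^ 2 + ang p.2 ((Psi a b c d p).2 * E (√2 * θ)) ^ 2 +
          θ ^ 2)) := ⟨0, by
      rintro _ ⟨θ, rfl⟩
      exact Real.sqrt_nonneg _⟩
    refine (ciInf_le hbdd 0).trans ?_
    have hA := (ang_upper p.1 hp.1 a c).1
    have hB := (ang_upper p.2 hp.2 b d).1
    have hA0 : 0 ≤ ang p.1 (E a * p.1 * E c) := InnerProductGeometry.angle_nonneg _ _
    have hB0 : 0 ≤ ang p.2 (E b * p.2 * E d) := InnerProductGeometry.angle_nonneg _ _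
    show √(ang p.1 ((E a * p.1 * E c) * E 0) ^ 2 + ang p.2 ((E b * p.2 * E d) * E (√2 * 0)) ^ 2 +
          0 ^ 2) ≤ _
    rw [mul_zero, h0, mul_one, mul_one]
    refine (Real.sqrt_le_sqrt (y := (ang p.1 (E a * p.1 * E c) + ang p.2 (E b * p.2 * E d)) ^ 2)
      ?_).trans ?_
    · nlinarith [mul_nonneg hA0 hB0]
    · rw [Real.sqrt_sq (add_nonneg hA0 hB0)]
      linarith

end HQ
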