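import Pool.Agent.Helper831.HQ.Defs
import Pool.Agent.Helper831.HQ.P_E_basic
import Pool.Agent.Helper831.HQ.P_ang_upper

open scoped Quaternion Matrix.Norms.L2Operator ENNReal
open Set MeasureTheory

noncomputable section

namespace HQ



theorem dF_geod (q : ℍ × ℍ) (hq : q ∈ S33) (w₁ w₂ κ t : ℝ) :
    dF q (Psi (t * w₁) (t * w₂) (t * κ) (t * (√2 * κ)) q) ≤ |t| * √(w₁ ^ 2 + w₂ ^ 2 + κ ^ 2) := by
  obtain ⟨hadd, -, hE0, -⟩ := E_basic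
  have hbdd : BddBelow (Set.range fun θ : ℝ =>
      √(ang q.1 ((Psi (t * w₁) (t * w₂) (t * κ) (t * (√2 * κ)) q).1 * E θ) ^ 2 +
        ang q.2 ((Psi (t * w₁) (t * w₂) (t * κ) (t * (√2 * κ)) q).2 * E (√2 * θ)) ^ 2 + θ ^ 2)) := by
    refine ⟨0, ?_⟩
    rintro _ ⟨θ, rfl⟩
    exact Real.sqrt_nonneg _
  unfold dF
  refine (ciInf_le hbdd (-(t * κ))).trans ?_
  have e1 : (Psi (t * w₁) (t * w₂) (t * κ) (t * (√2 * κ)) q).1 * E (-(t * κ)) =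
      E (t * w₁) * q.1 := by
    show E (t * w₁) * q.1 * E (t * κ) * E (-(t * κ)) = E (t * w₁) * q.1
    rw [mul_assoc _ (E (t * κ)), ← hadd, add_neg_cancel, hE0, mul_one]
  have e2 : (Psi (t * w₁) (t * w₂) (t * κ) (t * (√2 * κ)) q).2 * E (√2 * -(t * κ)) =
      E (t * w₂) * q.2 := by
    show E (t * w₂) * q.2 * E (t * (√2 * κ)) * E (√2 * -(t * κ)) = E (t * w₂) * q.2
    rw [mul_assoc _ (E (t * (√2 * κ))), ← hadd,
      show t * (√2 * κ) + √2 * -(t * κ) = 0 by ring, hE0, mul_one]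
  rw [e1, e2]
  have a1 : ang q.1 (E (t * w₁) * q.1) ≤ |t * w₁| := (ang_upper q.1 hq.1 (t * w₁) 0).2
  have a2 : ang q.2 (E (t * w₂) * q.2) ≤ |t * w₂| := (ang_upper q.2 hq.2 (t * w₂) 0).2
  have n1 : 0 ≤ ang q.1 (E (t * w₁) * q.1) := InnerProductGeometry.angle_nonneg _ _
  have n2 : 0 ≤ ang q.2 (E (t * w₂) * q.2) := InnerProductGeometry.angle_nonneg _ _
  have b1 : ang q.1 (E (t * w₁) * q.1) ^ 2 ≤ (t * w₁) ^ 2 := by
    rw [← sq_abs (t * w₁)]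
    exact pow_le_pow_left₀ n1 a1 2
  have b2 : ang q.2 (E (t * w₂) * q.2) ^ 2 ≤ (t * w₂) ^ 2 := by
    rw [← sq_abs (t * w₂)]
    exact pow_le_pow_left₀ n2 a2 2
  have e3 : |t| * √(w₁ ^ 2 + w₂ ^ 2 + κ ^ 2) = √((t * w₁) ^ 2 + (t * w₂) ^ 2 + (-(t * κ)) ^ 2) := by
    rw [← Real.sqrt_sq_eq_abs, ← Real.sqrt_mul (sq_nonneg t)]
    congr 1
    ring
  rw [e3]
  apply Real.sqrt_le_sqrt
  linarith

end HQ
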