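import Pool.Agent.Helper831.HQ.Defs
import Pool.Agent.Helper831.HQ.P_E_basic
import Pool.Agent.Helper831.HQ.P_ang_inv
import Pool.Agent.Helper831.HQ.P_ang_le_integral

open scoped Quaternion Matrix.Norms.L2Operator ENNReal
open Set MeasureTheory

noncomputable section

namespace HQ



theorem E_comm_Iq (a : ℝ) : E a * Iq = Iq * E a := by
  ext <;> simp [E, Iq]

theorem normsq_eq (a : ℍ) : ‖a‖ ^ 2 = a.re ^ 2 + a.imI ^ 2 + a.imJ ^ 2 + a.imK ^ 2 := by
  rw [pow_two, ← Quaternion.normSq_eq_norm_mul_self, Quaternion.normSq_def']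

theorem minkowski3 (f1 f2 f3 : ℝ → ℝ) (h1 : ContinuousOn f1 (Icc 0 1)) (h2 : ContinuousOn f2 (Icc 0 1))
    (h3 : ContinuousOn f3 (Icc 0 1)) :
    √((∫ t in (0:ℝ)..1, f1 t) ^ 2 + (∫ t in (0:ℝ)..1, f2 t) ^ 2 + (∫ t in (0:ℝ)..1, f3 t) ^ 2) ≤
      ∫ t in (0:ℝ)..1, √(f1 t ^ 2 + f2 t ^ 2 + f3 t ^ 2) := by
  set a := ∫ t in (0:ℝ)..1, f1 t with ha
  set b := ∫ t in (0:ℝ)..1, f2 t with hb
  set c := ∫ t in (0:ℝ)..1, f3 t with hc
  set N := √(a ^ 2 + b ^ 2 + c ^ 2) with hN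
  have hN2 : N ^ 2 = a ^ 2 + b ^ 2 + c ^ 2 := Real.sq_sqrt (by positivity)
  have huIcc : Set.uIcc (0:ℝ) 1 = Icc 0 1 := Set.uIcc_of_le zero_le_one
  have i1 : IntervalIntegrable f1 volume 0 1 := ContinuousOn.intervalIntegrable (by rwa [huIcc])
  have i2 : IntervalIntegrable f2 volume 0 1 := ContinuousOn.intervalIntegrable (by rwa [huIcc])
  have i3 : IntervalIntegrable f3 volume 0 1 := ContinuousOn.intervalIntegrable (by rwa [huIcc])
  have hcs : ContinuousOn (fun t => √(f1 t ^ 2 + f2 t ^ 2 + f3 t ^ 2)) (Icc 0 1) :=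
    (((h1.pow 2).add (h2.pow 2)).add (h3.pow 2)).sqrt
  have is : IntervalIntegrable (fun t => √(f1 t ^ 2 + f2 t ^ 2 + f3 t ^ 2)) volume 0 1 :=
    ContinuousOn.intervalIntegrable (by rwa [huIcc])
  rcases (Real.sqrt_nonneg (a ^ 2 + b ^ 2 + c ^ 2)).eq_or_lt with h0 | hpos
  · rw [hN, ← h0]
    apply intervalIntegral.integral_nonneg zero_le_one
    intro t _
    exact Real.sqrt_nonneg _
  · have hmono : ∫ t in (0:ℝ)..1, (a * f1 t + b * f2 t + c * f3 t) ≤
        ∫ t in (0:ℝ)..1, N * √(f1 t ^ 2 + f2 t ^ 2 + f3 t ^ 2) := by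
      apply intervalIntegral.integral_mono_on zero_le_one
        (((i1.const_mul a).add (i2.const_mul b)).add (i3.const_mul c)) (is.const_mul N)
      intro t _
      have hs0 := Real.sqrt_nonneg (f1 t ^ 2 + f2 t ^ 2 + f3 t ^ 2)
      have hs2 : √(f1 t ^ 2 + f2 t ^ 2 + f3 t ^ 2) ^ 2 = f1 t ^ 2 + f2 t ^ 2 + f3 t ^ 2 :=
        Real.sq_sqrt (by positivity)
      apply abs_le_of_sq_le_sq' _ (by positivity) |>.2
      rw [mul_pow, hN2, hs2]
      nlinarith [sq_nonneg (a * f2 t - b * f1 t), sq_nonneg (a * f3 t - c * f1 t),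
        sq_nonneg (b * f3 t - c * f2 t)]
    rw [intervalIntegral.integral_const_mul,
      intervalIntegral.integral_add ((i1.const_mul a).add (i2.const_mul b)) (i3.const_mul c),
      intervalIntegral.integral_add (i1.const_mul a) (i2.const_mul b),
      intervalIntegral.integral_const_mul, intervalIntegral.integral_const_mul,
      intervalIntegral.integral_const_mul, ← ha, ← hb, ← hc] at hmono
    have h4 : N * N ≤ N * ∫ t in (0:ℝ)..1, √(f1 t ^ 2 + f2 t ^ 2 + f3 t ^ 2) := by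
      calc N * N = N ^ 2 := by ring
        _ = a * a + b * b + c * c := by rw [hN2]; ring
        _ ≤ _ := hmono
    exact le_of_mul_le_mul_left h4 hpos

theorem rot_curve (c c' : ℝ → ℍ) (v Th : ℝ → ℝ) (k : ℝ)
    (hc : ∀ t ∈ Icc (0:ℝ) 1, HasDerivWithinAt c (c' t) (Icc 0 1) t)
    (hc' : ContinuousOn c' (Icc 0 1)) (h1 : ∀ t ∈ Icc (0:ℝ) 1, ‖c t‖ = 1)
    (hv : Continuous v) (hTh : ∀ t, HasDerivAt Th (v t) t) :
    ∃ f : ℝ → ℝ, ContinuousOn f (Icc 0 1) ∧
      (∀ t ∈ Icc (0:ℝ) 1, f t ^ 2 = ‖star (c t) * c' t‖ ^ 2 + 2 * (k * v t) * (star (c t) * c' t).imI +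
        (k * v t) ^ 2) ∧
      ang (c 0 * E (k * Th 0)) (c 1 * E (k * Th 1)) ≤ ∫ t in (0:ℝ)..1, f t := by
  obtain ⟨hE1, hE2, hE3, hE4, hE5, hE6, hE7, hE8⟩ := E_basic
  have hcc : ContinuousOn c (Icc 0 1) := fun t ht => (hc t ht).continuousWithinAt
  have hThc : Continuous Th := continuous_iff_continuousAt.2 fun t => (hTh t).continuousAt
  set g : ℝ → ℍ := fun t => c t * E (k * Th t) with hg
  set g' : ℝ → ℍ := fun t => c t * (star (c t) * c' t + (k * v t) • Iq) * E (k * Th t) with hg'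
  have hcs : ∀ t ∈ Icc (0:ℝ) 1, c t * star (c t) = 1 := by
    intro t ht
    rw [Quaternion.self_mul_star, Quaternion.normSq_eq_norm_mul_self, h1 t ht]
    simp
  have hd : ∀ t ∈ Icc (0:ℝ) 1, HasDerivWithinAt g (g' t) (Icc 0 1) t := by
    intro t ht
    have e1 : HasDerivAt (fun s => E (k * Th s)) (v t • (k • (E (k * Th t) * Iq))) t :=
      HasDerivAt.scomp t (hE7 k (Th t)) (hTh t)
    have e2 := (hc t ht).mul e1.hasDerivWithinAt
    have e3 : c' t * E (k * Th t) + c t * (v t • (k • (E (k * Th t) * Iq))) = g' t := by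
      simp only [hg']
      rw [mul_add, add_mul, ← mul_assoc, hcs t ht, one_mul, E_comm_Iq]
      congr 1
      simp only [mul_smul_comm, smul_mul_assoc, smul_smul, mul_assoc]
      rw [mul_comm]
    rw [e3] at e2
    exact e2
  have hg'c : ContinuousOn g' (Icc 0 1) := by
    have hEc : Continuous fun t => E (k * Th t) := hE6.comp (continuous_const.mul hThc)
    have hvc : Continuous fun t => (k * v t) • Iq := (continuous_const.mul hv).smul continuous_const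
    exact (hcc.mul ((hcc.star.mul hc').add hvc.continuousOn)).mul hEc.continuousOn
  have hn : ∀ t ∈ Icc (0:ℝ) 1, ‖g' t‖ = ‖star (c t) * c' t + (k * v t) • Iq‖ := by
    intro t ht
    simp only [hg']
    rw [norm_mul, norm_mul, h1 t ht, hE2, one_mul, mul_one]
  refine ⟨fun t => ‖g' t‖, hg'c.norm, ?_, ?_⟩
  · intro t ht
    simp only
    rw [hn t ht, normsq_eq, normsq_eq]
    simp only [Quaternion.re_add, Quaternion.imI_add, Quaternion.imJ_add, Quaternion.imK_add,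
      Quaternion.re_smul, Quaternion.imI_smul, Quaternion.imJ_smul, Quaternion.imK_smul, Iq,
      smul_eq_mul]
    ring
  · have hg1 : ∀ t ∈ Icc (0:ℝ) 1, ‖g t‖ = 1 := by
      intro t ht
      simp only [hg]
      rw [norm_mul, h1 t ht, hE2, one_mul]
    exact ang_le_integral g g' 0 1 zero_le_one hd hg'c hg1

theorem dF_le_length (p q : ℍ × ℍ) (c c' : ℝ → ℍ × ℍ) (h : IsC1Curve S33 p q c c') :
    dF p q ≤ leftLength QM c c' := by
  have hd1 : ∀ t ∈ Icc (0:ℝ) 1, HasDerivWithinAt (fun t => (c t).1) (c' t).1 (Icc 0 1) t :=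
    fun t ht => (ContinuousLinearMap.fst ℝ ℍ ℍ).hasFDerivAt.comp_hasDerivWithinAt t (h.deriv t ht)
  have hd2 : ∀ t ∈ Icc (0:ℝ) 1, HasDerivWithinAt (fun t => (c t).2) (c' t).2 (Icc 0 1) t :=
    fun t ht => (ContinuousLinearMap.snd ℝ ℍ ℍ).hasFDerivAt.comp_hasDerivWithinAt t (h.deriv t ht)
  have hc1' : ContinuousOn (fun t => (c' t).1) (Icc 0 1) := continuous_fst.comp_continuousOn h.cont
  have hc2' : ContinuousOn (fun t => (c' t).2) (Icc 0 1) := continuous_snd.comp_continuousOn h.cont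
  have hc1 : ContinuousOn (fun t => (c t).1) (Icc 0 1) := fun t ht => (hd1 t ht).continuousWithinAt
  have hc2 : ContinuousOn (fun t => (c t).2) (Icc 0 1) := fun t ht => (hd2 t ht).continuousWithinAt
  have hu1 : ∀ t ∈ Icc (0:ℝ) 1, ‖(c t).1‖ = 1 := fun t ht => (h.mem t ht).1
  have hu2 : ∀ t ∈ Icc (0:ℝ) 1, ‖(c t).2‖ = 1 := fun t ht => (h.mem t ht).2
  set v0 : ℝ → ℝ := fun t => ((star (c t).1 * (c' t).1).imI + √2 * (star (c t).2 * (c' t).2).imI) / 4
    with hv0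
  have hv0c : ContinuousOn v0 (Icc 0 1) := by
    have a1 : ContinuousOn (fun t => (star (c t).1 * (c' t).1).imI) (Icc 0 1) :=
      Quaternion.continuous_imI.comp_continuousOn (hc1.star.mul hc1')
    have a2 : ContinuousOn (fun t => (star (c t).2 * (c' t).2).imI) (Icc 0 1) :=
      Quaternion.continuous_imI.comp_continuousOn (hc2.star.mul hc2')
    exact (a1.add (continuousOn_const.mul a2)).div_const 4
  set v : ℝ → ℝ := fun t => v0 (projIcc 0 1 zero_le_one t : Icc (0:ℝ) 1) with hv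
  have hvc : Continuous v :=
    hv0c.comp_continuous (continuous_subtype_val.comp continuous_projIcc) (fun t => (projIcc _ _ _ t).2)
  have hvv : ∀ t ∈ Icc (0:ℝ) 1, v t = v0 t := by
    intro t ht
    simp only [hv]
    rw [projIcc_of_mem zero_le_one ht]
  set Th : ℝ → ℝ := fun t => ∫ s in (0:ℝ)..t, v s with hTh
  have hThd : ∀ t, HasDerivAt Th (v t) t := fun t => (hvc.integral_hasStrictDerivAt 0 t).hasDerivAt
  have hTh0 : Th 0 = 0 := by simp [hTh]
  obtain ⟨f1, hf1c, hf1, hA1⟩ := rot_curve (fun t => (c t).1) (fun t => (c' t).1) v Th (-1) hd1 hc1'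
    hu1 hvc hThd
  obtain ⟨f2, hf2c, hf2, hA2⟩ := rot_curve (fun t => (c t).2) (fun t => (c' t).2) v Th (-√2) hd2 hc2'
    hu2 hvc hThd
  obtain ⟨hE1, hE2, hE3, hE4, hE5, hE6, hE7, hE8⟩ := E_basic
  simp only [hTh0, mul_zero, hE3, mul_one] at hA1 hA2
  rw [h.source, h.target] at hA1 hA2
  have hle : dF p q ≤ √(ang p.1 (q.1 * E (-Th 1)) ^ 2 + ang p.2 (q.2 * E (√2 * (-Th 1))) ^ 2 +
      (-Th 1) ^ 2) := by
    unfold dF
    exact ciInf_le ⟨0, by rintro _ ⟨θ, rfl⟩; exact Real.sqrt_nonneg _⟩ (-Th 1)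
  refine hle.trans ?_
  have e1 : (-1 : ℝ) * Th 1 = -Th 1 := by ring
  have e2 : -√2 * Th 1 = √2 * (-Th 1) := by ring
  rw [e1] at hA1
  rw [e2] at hA2
  have hang : ∀ x y : ℍ, 0 ≤ ang x y := fun x y => InnerProductGeometry.angle_nonneg x y
  have hA3 : |(-Th 1)| ≤ ∫ t in (0:ℝ)..1, |v t| := by
    rw [abs_neg]
    exact intervalIntegral.abs_integral_le_integral_abs zero_le_one
  have hstep : √(ang p.1 (q.1 * E (-Th 1)) ^ 2 + ang p.2 (q.2 * E (√2 * (-Th 1))) ^ 2 +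
      (-Th 1) ^ 2) ≤ √((∫ t in (0:ℝ)..1, f1 t) ^ 2 + (∫ t in (0:ℝ)..1, f2 t) ^ 2 +
        (∫ t in (0:ℝ)..1, |v t|) ^ 2) := by
    apply Real.sqrt_le_sqrt
    have b1 := pow_le_pow_left₀ (hang _ _) hA1 2
    have b2 := pow_le_pow_left₀ (hang _ _) hA2 2
    have b3 := pow_le_pow_left₀ (abs_nonneg _) hA3 2
    rw [sq_abs] at b3
    linarith
  refine hstep.trans ?_
  refine (minkowski3 f1 f2 (fun t => |v t|) hf1c hf2c hvc.abs.continuousOn).trans ?_
  unfold leftLength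
  apply le_of_eq
  apply intervalIntegral.integral_congr
  intro t ht
  rw [Set.uIcc_of_le zero_le_one] at ht
  change √(f1 t ^ 2 + f2 t ^ 2 + |v t| ^ 2) = √(QM (star (c t) * c' t))
  congr 1
  have g1 := hf1 t ht
  have g2 := hf2 t ht
  rw [g1, g2, sq_abs, hvv t ht]
  unfold QM
  simp only [Prod.fst_mul, Prod.snd_mul, Prod.fst_star, Prod.snd_star]
  have hs2 : √(2:ℝ) ^ 2 = 2 := Real.sq_sqrt (by norm_num)
  have hv4 : (star (c t).1 * (c' t).1).imI + √2 * (star (c t).2 * (c' t).2).imI = 4 * v0 t := by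
    simp only [hv0]; ring
  rw [hv4]
  have h5 : (star (c t).1 * (c' t).1).imI = 4 * v0 t - √2 * (star (c t).2 * (c' t).2).imI := by
    linarith
  rw [h5]
  linear_combination (v0 t) ^ 2 * hs2

end HQ
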