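import Pool.Agent.Helper831.HQ.Defs

open scoped Quaternion Matrix.Norms.L2Operator ENNReal
open Set MeasureTheory

noncomputable section

namespace HQ



theorem norm_sq_aux15849 (q : ℍ) :
    ‖q‖ * ‖q‖ = q.re ^ 2 + q.imI ^ 2 + q.imJ ^ 2 + q.imK ^ 2 := by
  rw [← Quaternion.normSq_eq_norm_mul_self, Quaternion.normSq_def']

theorem norm_one_aux15849 (q : ℍ)
    (h : q.re ^ 2 + q.imI ^ 2 + q.imJ ^ 2 + q.imK ^ 2 = 1) : ‖q‖ = 1 := by
  have h1 := norm_sq_aux15849 q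
  rw [h] at h1
  nlinarith [norm_nonneg q]

theorem hop_abs_le (q : ℍ) (hq : ‖q‖ = 1) : |hop q| ≤ 1 ∧
    (∀ h : ℝ, |h| ≤ 1 → ∃ p : ℍ, ‖p‖ = 1 ∧ hop p = h) := by
  constructor
  · have h1 := norm_sq_aux15849 q
    rw [hq] at h1
    rw [abs_le]
    unfold hop
    constructor <;> nlinarith [sq_nonneg q.re, sq_nonneg q.imI, sq_nonneg q.imJ, sq_nonneg q.imK]
  · intro h hh
    rw [abs_le] at hh
    have e1 : √((1 + h) / 2) ^ 2 = (1 + h) / 2 := Real.sq_sqrt (by linarith)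
    have e2 : √((1 - h) / 2) ^ 2 = (1 - h) / 2 := Real.sq_sqrt (by linarith)
    refine ⟨⟨√((1 + h) / 2), 0, √((1 - h) / 2), 0⟩, ?_, ?_⟩
    · refine norm_one_aux15849 _ ?_
      simp only [e1, e2]
      ring
    · unfold hop
      simp only [e1, e2]
      ring

end HQ
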