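import Pool.Agent.Helper831.HQ.Defs
import Pool.Agent.Helper831.HQ.P_E_basic
import Pool.Agent.Helper831.HQ.P_ang_jensen
import Pool.Agent.Helper831.HQ.P_hop_abs_le

open scoped Quaternion Matrix.Norms.L2Operator ENNReal
open Set MeasureTheory

noncomputable section

namespace HQ



theorem cs_aux (w₁ w₂ κ x y θ : ℝ) :
    (w₁ * x + w₂ * y - κ * θ) ^ 2 ≤ (w₁ ^ 2 + w₂ ^ 2 + κ ^ 2) * (x ^ 2 + y ^ 2 + θ ^ 2) := by
  nlinarith [sq_nonneg (w₁ * y - w₂ * x), sq_nonneg (w₁ * θ + κ * x), sq_nonneg (w₂ * θ + κ * y)]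

theorem dF_lower (q : ℍ × ℍ) (hq : q ∈ S33) (w₁ w₂ a b c d : ℝ)
    (hS : |a| + |b| + |c| + |d| ≤ 1 / 10) :
    w₁ * a + w₂ * b + w₁ * hop q.1 * c + w₂ * hop q.2 * d ≤
      √(w₁ ^ 2 + w₂ ^ 2 + (w₁ * hop q.1 + √2 * (w₂ * hop q.2)) ^ 2) * dF q (Psi a b c d q) := by
  obtain ⟨hq1, hq2⟩ := hq
  set h1 := hop q.1 with hh1
  set h2 := hop q.2 with hh2
  set κ := w₁ * h1 + √2 * (w₂ * h2) with hκ
  set N := √(w₁ ^ 2 + w₂ ^ 2 + κ ^ 2) with hN
  have hN0 : 0 ≤ N := Real.sqrt_nonneg _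
  have hsum0 : 0 ≤ w₁ ^ 2 + w₂ ^ 2 + κ ^ 2 := by positivity
  have hNsq : N ^ 2 = w₁ ^ 2 + w₂ ^ 2 + κ ^ 2 := Real.sq_sqrt hsum0
  have hw1 : |w₁| ≤ N := by
    apply abs_le_of_sq_le_sq _ hN0
    rw [hNsq]; nlinarith [sq_nonneg w₂, sq_nonneg κ]
  have hw2 : |w₂| ≤ N := by
    apply abs_le_of_sq_le_sq _ hN0
    rw [hNsq]; nlinarith [sq_nonneg w₁, sq_nonneg κ]
  have hb1 : |h1| ≤ 1 := (hop_abs_le q.1 hq1).1
  have hb2 : |h2| ≤ 1 := (hop_abs_le q.2 hq2).1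
  have hs2 : √2 ≤ 3 / 2 := by
    rw [Real.sqrt_le_left (by norm_num)]; norm_num
  have hs20 : 0 ≤ √2 := Real.sqrt_nonneg _
  have hpi : (3 : ℝ) < Real.pi := Real.pi_gt_three
  have ha0 := abs_nonneg a
  have hb0 := abs_nonneg b
  have hc0 := abs_nonneg c
  have hd0 := abs_nonneg d
  unfold dF
  rw [Real.mul_iInf_of_nonneg hN0]
  apply le_ciInf
  intro θ
  simp only [Psi]
  have e1 : E a * q.1 * E c * E θ = E a * q.1 * E (c + θ) := by
    rw [mul_assoc _ (E c), ← E_basic.1]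
  have e2 : E b * q.2 * E d * E (√2 * θ) = E b * q.2 * E (d + √2 * θ) := by
    rw [mul_assoc _ (E d), ← E_basic.1]
  rw [e1, e2]
  by_cases hθ : |θ| ≤ 1 / 2
  · have k1 : |a| + |c + θ| ≤ Real.pi / 2 := by
      have := abs_add_le c θ
      linarith
    have k2 : |b| + |d + √2 * θ| ≤ Real.pi / 2 := by
      have h3 := abs_add_le d (√2 * θ)
      rw [abs_mul, abs_of_nonneg hs20] at h3
      have h4 : √2 * |θ| ≤ 3 / 2 * (1 / 2) := mul_le_mul hs2 hθ (abs_nonneg _) (by norm_num)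
      linarith
    have j1 := ang_jensen q.1 hq1 a (c + θ) k1
    have j2 := ang_jensen q.2 hq2 b (d + √2 * θ) k2
    rw [← hh1] at j1
    rw [← hh2] at j2
    set x := a + h1 * (c + θ) with hx
    set y := b + h2 * (d + √2 * θ) with hy
    have m1 : x ^ 2 ≤ ang q.1 (E a * q.1 * E (c + θ)) ^ 2 := by
      rw [← sq_abs x]
      exact pow_le_pow_left₀ (abs_nonneg _) j1 2
    have m2 : y ^ 2 ≤ ang q.2 (E b * q.2 * E (d + √2 * θ)) ^ 2 := by
      rw [← sq_abs y]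
      exact pow_le_pow_left₀ (abs_nonneg _) j2 2
    have hL : w₁ * a + w₂ * b + w₁ * h1 * c + w₂ * h2 * d = w₁ * x + w₂ * y - κ * θ := by
      rw [hx, hy, hκ]; ring
    rw [hL]
    have cs : w₁ * x + w₂ * y - κ * θ ≤ N * √(x ^ 2 + y ^ 2 + θ ^ 2) := by
      rw [hN, ← Real.sqrt_mul hsum0]
      exact Real.le_sqrt_of_sq_le (cs_aux _ _ _ _ _ _)
    refine cs.trans (mul_le_mul_of_nonneg_left ?_ hN0)
    apply Real.sqrt_le_sqrt
    linarith
  · push Not at hθ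
    have t1 : w₁ * a ≤ N * |a| :=
      (le_abs_self _).trans (by rw [abs_mul]; exact mul_le_mul_of_nonneg_right hw1 ha0)
    have t2 : w₂ * b ≤ N * |b| :=
      (le_abs_self _).trans (by rw [abs_mul]; exact mul_le_mul_of_nonneg_right hw2 hb0)
    have t3 : w₁ * h1 * c ≤ N * |c| := by
      refine (le_abs_self _).trans ?_
      rw [abs_mul, abs_mul]
      refine mul_le_mul_of_nonneg_right ?_ hc0
      calc |w₁| * |h1| ≤ N * 1 := mul_le_mul hw1 hb1 (abs_nonneg _) hN0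
        _ = N := mul_one N
    have t4 : w₂ * h2 * d ≤ N * |d| := by
      refine (le_abs_self _).trans ?_
      rw [abs_mul, abs_mul]
      refine mul_le_mul_of_nonneg_right ?_ hd0
      calc |w₂| * |h2| ≤ N * 1 := mul_le_mul hw2 hb2 (abs_nonneg _) hN0
        _ = N := mul_one N
    have t5 : w₁ * a + w₂ * b + w₁ * h1 * c + w₂ * h2 * d ≤ N * |θ| := by
      have : N * (|a| + |b| + |c| + |d|) ≤ N * |θ| :=
        mul_le_mul_of_nonneg_left (by linarith) hN0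
      linarith
    refine t5.trans (mul_le_mul_of_nonneg_left ?_ hN0)
    apply Real.le_sqrt_of_sq_le
    rw [sq_abs]
    nlinarith [sq_nonneg (ang q.1 (E a * q.1 * E (c + θ))), sq_nonneg (ang q.2 (E b * q.2 * E (d + √2 * θ)))]

end HQ
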