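import Pool.Agent.Helper831.HQ.Defs

open scoped Quaternion Matrix.Norms.L2Operator ENNReal
open Set MeasureTheory

noncomputable section

namespace HQ



theorem chord_le_ang (p q : ℍ) (hp : ‖p‖ = 1) (hq : ‖q‖ = 1) : ‖p - q‖ ≤ ang p q := by
  have h0 : 0 ≤ ang p q := InnerProductGeometry.angle_nonneg p q
  have h1 := InnerProductGeometry.cos_angle_mul_norm_mul_norm p q
  rw [hp, hq, one_mul, mul_one] at h1
  have h2 : ‖p - q‖ ^ 2 = 2 - 2 * Real.cos (ang p q) := by
    have h3 := norm_sub_sq_real p q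
    rw [hp, hq, ← h1] at h3
    unfold ang
    linarith
  have h4 := Real.one_sub_sq_div_two_le_cos (x := ang p q)
  apply le_of_sq_le_sq _ h0
  rw [h2]
  linarith

end HQ
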