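import Pool.Agent.Helper831.HQ.Defs
import Pool.Agent.Helper831.HQ.P_E_basic
import Pool.Agent.Helper831.HQ.P_ang_inv
import Pool.Agent.Helper831.HQ.P_chord_le_ang

open scoped Quaternion Matrix.Norms.L2Operator ENNReal
open Set MeasureTheory

noncomputable section

namespace HQ



theorem dF_aux_bdd (p q : ℍ × ℍ) : BddBelow (Set.range fun θ : ℝ =>
    √(ang p.1 (q.1 * E θ) ^ 2 + ang p.2 (q.2 * E (√2 * θ)) ^ 2 + θ ^ 2)) :=
  ⟨0, by rintro _ ⟨θ, rfl⟩; exact Real.sqrt_nonneg _⟩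

theorem dF_aux_le (p q : ℍ × ℍ) (θ : ℝ) : dF p q ≤
    √(ang p.1 (q.1 * E θ) ^ 2 + ang p.2 (q.2 * E (√2 * θ)) ^ 2 + θ ^ 2) :=
  ciInf_le (dF_aux_bdd p q) θ

theorem ang_flip (p q : ℍ) (θ : ℝ) : ang p (q * E θ) = ang q (p * E (-θ)) := by
  obtain ⟨hadd, hn, h0, -⟩ := E_basic
  have h1 := (ang_inv (E (-θ)) p (q * E θ) (hn _)).2
  rw [mul_assoc, ← hadd, add_neg_cancel, h0, mul_one] at h1
  rw [← h1]
  unfold ang
  exact InnerProductGeometry.angle_comm _ _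

theorem ang_tri (p q r : ℍ) (θ₁ θ₂ : ℝ) :
    ang p (r * E (θ₁ + θ₂)) ≤ ang p (q * E θ₁) + ang q (r * E θ₂) := by
  obtain ⟨hadd, hn, h0, -⟩ := E_basic
  have h1 := (ang_inv (E θ₁) q (r * E θ₂) (hn _)).2
  rw [← h1, add_comm θ₁ θ₂, hadd, ← mul_assoc]
  unfold ang
  exact InnerProductGeometry.angle_le_angle_add_angle _ _ _

theorem mink3 (a b c a' b' c' x y : ℝ) (ha : 0 ≤ x) (hy : 0 ≤ y)
    (hx : x ≤ a + a') (hyb : y ≤ b + b') :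
    √(x ^ 2 + y ^ 2 + (c + c') ^ 2) ≤ √(a ^ 2 + b ^ 2 + c ^ 2) + √(a' ^ 2 + b' ^ 2 + c' ^ 2) := by
  have h := norm_add_le (!₂[a, b, c] : EuclideanSpace ℝ (Fin 3)) (!₂[a', b', c'])
  simp only [EuclideanSpace.norm_eq, Fin.sum_univ_three, Real.norm_eq_abs, sq_abs] at h
  simp at h
  refine le_trans (Real.sqrt_le_sqrt ?_) h
  have h1 : x ^ 2 ≤ (a + a') ^ 2 := pow_le_pow_left₀ ha hx 2
  have h2 : y ^ 2 ≤ (b + b') ^ 2 := pow_le_pow_left₀ hy hyb 2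
  linarith

theorem chord_aux (p q : ℍ) (hp : ‖p‖ = 1) (hq : ‖q‖ = 1) (θ : ℝ) :
    ‖p - q‖ ≤ ang p (q * E θ) + |θ| := by
  obtain ⟨hadd, hn, h0, -, -, -, -, hE⟩ := E_basic
  have h1 : ‖p - q * E θ‖ ≤ ang p (q * E θ) :=
    chord_le_ang p (q * E θ) hp (by rw [norm_mul, hq, hn, one_mul])
  have h2 : ‖q * E θ - q‖ ≤ |θ| := by
    have : q * E θ - q = q * (E θ - E 0) := by rw [h0, mul_sub, mul_one]
    rw [this, norm_mul, hq, one_mul]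
    simpa using hE θ 0
  calc ‖p - q‖ = ‖(p - q * E θ) + (q * E θ - q)‖ := by congr 1; abel
    _ ≤ _ := norm_add_le _ _
    _ ≤ _ := add_le_add h1 h2

theorem dF_metric (p q r : ℍ × ℍ) (hp : p ∈ S33) (hq : q ∈ S33) (hr : r ∈ S33) :
    0 ≤ dF p q ∧ dF p p = 0 ∧ dF p q = dF q p ∧ dF p r ≤ dF p q + dF q r ∧
    ‖p.1 - q.1‖ ≤ 3 * dF p q ∧ ‖p.2 - q.2‖ ≤ 3 * dF p q := by
  obtain ⟨hadd, hn, h0, -, -, -, -, hE⟩ := E_basic
  have hp0 : p.1 ≠ 0 := by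
    intro h; have := hp.1; rw [h] at this; simp at this
  have hp0' : p.2 ≠ 0 := by
    intro h; have := hp.2; rw [h] at this; simp at this
  have hnn : ∀ p q : ℍ × ℍ, 0 ≤ dF p q := fun p q => Real.iInf_nonneg fun θ => Real.sqrt_nonneg _
  refine ⟨hnn p q, ?_, ?_, ?_, ?_, ?_⟩
  · apply le_antisymm _ (hnn p p)
    refine (dF_aux_le p p 0).trans ?_
    have e1 : ang p.1 (p.1 * E 0) = 0 := by
      rw [h0, mul_one]; exact InnerProductGeometry.angle_self hp0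
    have e2 : ang p.2 (p.2 * E (√2 * 0)) = 0 := by
      rw [mul_zero, h0, mul_one]; exact InnerProductGeometry.angle_self hp0'
    rw [e1, e2]
    simp
  · unfold dF
    rw [← (Equiv.neg ℝ).iInf_comp]
    congr 1
    funext θ
    simp only [Equiv.neg_apply]
    rw [ang_flip p.1 q.1, ang_flip p.2 q.2, neg_neg, mul_neg, neg_neg, neg_sq]
  · have key : ∀ θ₁ θ₂ : ℝ, dF p r ≤
        √(ang p.1 (q.1 * E θ₁) ^ 2 + ang p.2 (q.2 * E (√2 * θ₁)) ^ 2 + θ₁ ^ 2) +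
        √(ang q.1 (r.1 * E θ₂) ^ 2 + ang q.2 (r.2 * E (√2 * θ₂)) ^ 2 + θ₂ ^ 2) := by
      intro θ₁ θ₂
      refine (dF_aux_le p r (θ₁ + θ₂)).trans ?_
      apply mink3
      · exact InnerProductGeometry.angle_nonneg _ _
      · exact InnerProductGeometry.angle_nonneg _ _
      · exact ang_tri _ _ _ _ _
      · rw [mul_add]; exact ang_tri _ _ _ _ _
    have k2 : ∀ θ₁ : ℝ, dF p r -
        √(ang p.1 (q.1 * E θ₁) ^ 2 + ang p.2 (q.2 * E (√2 * θ₁)) ^ 2 + θ₁ ^ 2) ≤ dF q r := by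
      intro θ₁
      apply le_ciInf
      intro θ₂
      linarith [key θ₁ θ₂]
    have k3 : dF p r - dF q r ≤ dF p q := by
      apply le_ciInf
      intro θ₁
      linarith [k2 θ₁]
    linarith
  · have : ∀ θ : ℝ, ‖p.1 - q.1‖ / 3 ≤
        √(ang p.1 (q.1 * E θ) ^ 2 + ang p.2 (q.2 * E (√2 * θ)) ^ 2 + θ ^ 2) := by
      intro θ
      have h1 := chord_aux p.1 q.1 hp.1 hq.1 θ
      have h2 : ang p.1 (q.1 * E θ) ≤
          √(ang p.1 (q.1 * E θ) ^ 2 + ang p.2 (q.2 * E (√2 * θ)) ^ 2 + θ ^ 2) := by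
        apply Real.le_sqrt_of_sq_le; nlinarith [sq_nonneg (ang p.2 (q.2 * E (√2 * θ))), sq_nonneg θ]
      have h3 : |θ| ≤
          √(ang p.1 (q.1 * E θ) ^ 2 + ang p.2 (q.2 * E (√2 * θ)) ^ 2 + θ ^ 2) := by
        apply Real.le_sqrt_of_sq_le; rw [sq_abs]
        nlinarith [sq_nonneg (ang p.2 (q.2 * E (√2 * θ))), sq_nonneg (ang p.1 (q.1 * E θ))]
      have h4 := Real.sqrt_nonneg (ang p.1 (q.1 * E θ) ^ 2 + ang p.2 (q.2 * E (√2 * θ)) ^ 2 + θ ^ 2)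
      linarith
    have : ‖p.1 - q.1‖ / 3 ≤ dF p q := le_ciInf this
    linarith
  · have : ∀ θ : ℝ, ‖p.2 - q.2‖ / 3 ≤
        √(ang p.1 (q.1 * E θ) ^ 2 + ang p.2 (q.2 * E (√2 * θ)) ^ 2 + θ ^ 2) := by
      intro θ
      have h1 := chord_aux p.2 q.2 hp.2 hq.2 (√2 * θ)
      have h2 : ang p.2 (q.2 * E (√2 * θ)) ≤
          √(ang p.1 (q.1 * E θ) ^ 2 + ang p.2 (q.2 * E (√2 * θ)) ^ 2 + θ ^ 2) := by
        apply Real.le_sqrt_of_sq_le; nlinarith [sq_nonneg (ang p.1 (q.1 * E θ)), sq_nonneg θ]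
      have h3 : |θ| ≤
          √(ang p.1 (q.1 * E θ) ^ 2 + ang p.2 (q.2 * E (√2 * θ)) ^ 2 + θ ^ 2) := by
        apply Real.le_sqrt_of_sq_le; rw [sq_abs]
        nlinarith [sq_nonneg (ang p.2 (q.2 * E (√2 * θ))), sq_nonneg (ang p.1 (q.1 * E θ))]
      have h4 : |√2 * θ| ≤ 2 * |θ| := by
        rw [abs_mul, abs_of_nonneg (Real.sqrt_nonneg 2)]
        apply mul_le_mul_of_nonneg_right _ (abs_nonneg θ)
        rw [Real.sqrt_le_left (by norm_num)]; norm_num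
      linarith
    have : ‖p.2 - q.2‖ / 3 ≤ dF p q := le_ciInf this
    linarith

end HQ
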