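import Pool.Agent.Helper831.HQ.Defs

open scoped Quaternion Matrix.Norms.L2Operator ENNReal
open Set MeasureTheory

noncomputable section

namespace HQ



/-- reparametrisation -/
def rdt_s (x : ℝ) : ℝ := 3 * x ^ 2 - 2 * x ^ 3

/-- its derivative -/
def rdt_d (x : ℝ) : ℝ := 6 * x * (1 - x)

theorem rdt_s_deriv (k t : ℝ) :
    HasDerivAt (fun t => rdt_s (2 * t + k)) (2 * rdt_d (2 * t + k)) t := by
  unfold rdt_s rdt_d
  have h0 : HasDerivAt (fun t : ℝ => 2 * t + k) 2 t := by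
    simpa using ((hasDerivAt_id t).const_mul 2).add_const k
  have h := ((h0.pow 2).const_mul 3).sub ((h0.pow 3).const_mul 2)
  have e : 2 * (6 * (2 * t + k) * (1 - (2 * t + k))) =
      3 * (((2 : ℕ) : ℝ) * (2 * t + k) ^ (2 - 1) * 2) - 2 * (((3 : ℕ) : ℝ) * (2 * t + k) ^ (3 - 1) * 2) := by
    push_cast
    norm_num
    ring
  rw [e]
  exact h

theorem rdt_s_mem {x : ℝ} (h : x ∈ Icc (0:ℝ) 1) : rdt_s x ∈ Icc (0:ℝ) 1 := by
  obtain ⟨h0, h1⟩ := h
  unfold rdt_s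
  constructor
  · have : 3 * x ^ 2 - 2 * x ^ 3 = x ^ 2 * (3 - 2 * x) := by ring
    rw [this]
    have : 0 ≤ 3 - 2 * x := by linarith
    positivity
  · have : 1 - (3 * x ^ 2 - 2 * x ^ 3) = (1 - x) ^ 2 * (1 + 2 * x) := by ring
    have h2 : 0 ≤ (1 - x) ^ 2 * (1 + 2 * x) := by positivity
    linarith

theorem rdt_d_nonneg {x : ℝ} (h : x ∈ Icc (0:ℝ) 1) : 0 ≤ rdt_d x := by
  obtain ⟨h0, h1⟩ := h
  unfold rdt_d
  have : 0 ≤ 1 - x := by linarith
  positivity

theorem rdt_s_zero : rdt_s 0 = 0 := by unfold rdt_s; norm_num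
theorem rdt_s_one : rdt_s 1 = 1 := by unfold rdt_s; norm_num
theorem rdt_d_zero : rdt_d 0 = 0 := by unfold rdt_d; norm_num
theorem rdt_d_one : rdt_d 1 = 0 := by unfold rdt_d; norm_num

theorem rdt_mem {k p q t : ℝ} (hp : 2 * p + k = 0) (hq : 2 * q + k = 1) (ht : t ∈ Icc p q) :
    2 * t + k ∈ Icc (0:ℝ) 1 := by
  obtain ⟨h0, h1⟩ := ht
  constructor <;> linarith

theorem rdt_scont (k : ℝ) : Continuous (fun t => rdt_s (2 * t + k)) := by
  unfold rdt_s; fun_prop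

theorem rdt_dcont (k : ℝ) : Continuous (fun t => 2 * rdt_d (2 * t + k)) := by
  unfold rdt_d; fun_prop

theorem rdt_gcont {A : Type*} [NormedRing A] [NormedAlgebra ℝ A] [StarRing A]
    [NormedStarGroup A] {G : Set A} {Q : A → ℝ} (hQ : Continuous Q) {g h : A} {c c' : ℝ → A}
    (H : IsC1Curve G g h c c') :
    ContinuousOn (fun t => √(Q (star (c t) * c' t))) (Icc 0 1) := by
  have hc : ContinuousOn c (Icc 0 1) := fun t ht => (H.deriv t ht).continuousWithinAt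
  have h1 : ContinuousOn (fun t => star (c t) * c' t) (Icc 0 1) :=
    (continuous_star.comp_continuousOn hc).mul H.cont
  exact Real.continuous_sqrt.comp_continuousOn (hQ.comp_continuousOn h1)

theorem rdt_piece {A : Type*} [NormedRing A] [NormedAlgebra ℝ A] [StarRing A]
    [NormedStarGroup A] {G : Set A} {Q : A → ℝ} (hQ : Continuous Q)
    (hQ2 : ∀ (r : ℝ) X, Q (r • X) = r ^ 2 * Q X) {g h : A} {c c' : ℝ → A}
    (H : IsC1Curve G g h c c') (k p q : ℝ) (hp : 2 * p + k = 0) (hq : 2 * q + k = 1) :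
    (∀ t ∈ Icc p q, c (rdt_s (2 * t + k)) ∈ G) ∧
    (∀ t ∈ Icc p q, HasDerivWithinAt (fun t => c (rdt_s (2 * t + k)))
      ((2 * rdt_d (2 * t + k)) • c' (rdt_s (2 * t + k))) (Icc p q) t) ∧
    ContinuousOn (fun t => (2 * rdt_d (2 * t + k)) • c' (rdt_s (2 * t + k))) (Icc p q) ∧
    ∫ t in p..q, √(Q (star (c (rdt_s (2 * t + k))) *
      ((2 * rdt_d (2 * t + k)) • c' (rdt_s (2 * t + k))))) = leftLength Q c c' := by
  have hpq : p ≤ q := by linarith
  have hmaps : MapsTo (fun t => rdt_s (2 * t + k)) (Icc p q) (Icc 0 1) :=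
    fun t ht => rdt_s_mem (rdt_mem hp hq ht)
  refine ⟨fun t ht => H.mem _ (hmaps ht), ?_, ?_, ?_⟩
  · intro t ht
    exact HasDerivWithinAt.scomp t (H.deriv _ (hmaps ht)) (rdt_s_deriv k t).hasDerivWithinAt hmaps
  · exact (rdt_dcont k).continuousOn.smul (H.cont.comp (rdt_scont k).continuousOn hmaps)
  · have h1 : ∫ t in p..q, √(Q (star (c (rdt_s (2 * t + k))) *
      ((2 * rdt_d (2 * t + k)) • c' (rdt_s (2 * t + k))))) =
      ∫ t in p..q, ((fun t => √(Q (star (c t) * c' t))) ∘ (fun t => rdt_s (2 * t + k))) t *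
        (2 * rdt_d (2 * t + k)) := by
      apply intervalIntegral.integral_congr
      intro t ht
      rw [uIcc_of_le hpq] at ht
      simp only [Function.comp]
      rw [mul_smul_comm, hQ2, Real.sqrt_mul (sq_nonneg _), Real.sqrt_sq, mul_comm]
      have := rdt_d_nonneg (rdt_mem hp hq ht)
      positivity
    rw [h1, intervalIntegral.integral_comp_mul_deriv'' (rdt_scont k).continuousOn
      (fun x _ => (rdt_s_deriv k x).hasDerivWithinAt) (rdt_dcont k).continuousOn]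
    · simp only [hp, hq, rdt_s_zero, rdt_s_one]
      rfl
    · apply (rdt_gcont hQ H).mono
      rintro _ ⟨x, hx, rfl⟩
      rw [uIcc_of_le hpq] at hx
      exact hmaps hx

theorem rdt_concat {A : Type*} [NormedRing A] [NormedAlgebra ℝ A] [StarRing A]
    [NormedStarGroup A] {G : Set A} {Q : A → ℝ} (hQ : Continuous Q)
    (hQ2 : ∀ (r : ℝ) X, Q (r • X) = r ^ 2 * Q X) {a b c : A} {c1 c1' c2 c2' : ℝ → A}
    (H1 : IsC1Curve G a b c1 c1') (H2 : IsC1Curve G b c c2 c2') :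
    ∃ w w' : ℝ → A, IsC1Curve G a c w w' ∧
      leftLength Q w w' = leftLength Q c1 c1' + leftLength Q c2 c2' := by
  obtain ⟨m1, d1, k1, l1⟩ := rdt_piece hQ hQ2 H1 0 0 (1 / 2) (by norm_num) (by norm_num)
  obtain ⟨m2, d2, k2, l2⟩ := rdt_piece hQ hQ2 H2 (-1) (1 / 2) 1 (by norm_num) (by norm_num)
  set w : ℝ → A := fun t => if t ≤ 1 / 2 then c1 (rdt_s (2 * t + 0)) else c2 (rdt_s (2 * t + -1))
    with hw
  set w' : ℝ → A := fun t => if t ≤ 1 / 2 then (2 * rdt_d (2 * t + 0)) • c1' (rdt_s (2 * t + 0))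
    else (2 * rdt_d (2 * t + -1)) • c2' (rdt_s (2 * t + -1)) with hw'
  have e1 : ∀ t ∈ Icc (0:ℝ) (1 / 2), w t = c1 (rdt_s (2 * t + 0)) := fun t ht => if_pos ht.2
  have e1' : ∀ t ∈ Icc (0:ℝ) (1 / 2), w' t = (2 * rdt_d (2 * t + 0)) • c1' (rdt_s (2 * t + 0)) :=
    fun t ht => if_pos ht.2
  have hc1 : c1 1 = b := H1.target
  have hc2 : c2 0 = b := H2.source
  have e2 : ∀ t ∈ Icc (1 / 2 : ℝ) 1, w t = c2 (rdt_s (2 * t + -1)) := by
    intro t ht
    rcases eq_or_lt_of_le ht.1 with h | h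
    · subst h
      have h1 : (2:ℝ) * (1 / 2) + 0 = 1 := by norm_num
      have h2 : (2:ℝ) * (1 / 2) + -1 = 0 := by norm_num
      simp only [hw, le_refl, if_true, h1, h2, rdt_s_one, rdt_s_zero, hc1, hc2]
    · exact if_neg (not_le.mpr h)
  have e2' : ∀ t ∈ Icc (1 / 2 : ℝ) 1,
      w' t = (2 * rdt_d (2 * t + -1)) • c2' (rdt_s (2 * t + -1)) := by
    intro t ht
    rcases eq_or_lt_of_le ht.1 with h | h
    · subst h
      have h1 : (2:ℝ) * (1 / 2) + 0 = 1 := by norm_num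
      have h2 : (2:ℝ) * (1 / 2) + -1 = 0 := by norm_num
      simp only [hw', le_refl, if_true, h1, h2, rdt_d_one, rdt_d_zero, mul_zero, zero_smul]
    · exact if_neg (not_le.mpr h)
  have hU : Icc (0:ℝ) (1 / 2) ∪ Icc (1 / 2) 1 = Icc 0 1 :=
    Icc_union_Icc_eq_Icc (by norm_num) (by norm_num)
  have D1 : ∀ t ∈ Icc (0:ℝ) (1 / 2), HasDerivWithinAt w (w' t) (Icc 0 (1 / 2)) t := by
    intro t ht
    rw [e1' t ht]
    exact (d1 t ht).congr (fun x hx => e1 x hx) (e1 t ht)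
  have D2 : ∀ t ∈ Icc (1 / 2 : ℝ) 1, HasDerivWithinAt w (w' t) (Icc (1 / 2) 1) t := by
    intro t ht
    rw [e2' t ht]
    exact (d2 t ht).congr (fun x hx => e2 x hx) (e2 t ht)
  have hder : ∀ t ∈ Icc (0 : ℝ) 1, HasDerivWithinAt w (w' t) (Icc 0 1) t := by
    intro t ht
    rcases lt_trichotomy t (1 / 2) with h | h | h
    · refine (D1 t ⟨ht.1, h.le⟩).mono_of_mem_nhdsWithin ?_
      rw [mem_nhdsWithin]
      refine ⟨Iio (1 / 2), isOpen_Iio, h, ?_⟩
      rintro x ⟨hx1, hx2⟩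
      exact ⟨hx2.1, le_of_lt hx1⟩
    · have ht1 : t ∈ Icc (0:ℝ) (1 / 2) := ⟨ht.1, h.le⟩
      have ht2 : t ∈ Icc (1 / 2 : ℝ) 1 := ⟨h.ge, ht.2⟩
      rw [← hU]
      exact (D1 t ht1).union (D2 t ht2)
    · refine (D2 t ⟨h.le, ht.2⟩).mono_of_mem_nhdsWithin ?_
      rw [mem_nhdsWithin]
      refine ⟨Ioi (1 / 2), isOpen_Ioi, h, ?_⟩
      rintro x ⟨hx1, hx2⟩
      exact ⟨le_of_lt hx1, hx2.2⟩
  have hcw' : ContinuousOn w' (Icc 0 1) := by
    rw [← hU]
    exact (k1.congr e1').union_of_isClosed (k2.congr e2') isClosed_Icc isClosed_Icc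
  have hC : IsC1Curve G a c w w' := by
    refine ⟨?_, hder, hcw', ?_, ?_⟩
    · intro t ht
      rw [← hU] at ht
      rcases ht with ht | ht
      · rw [e1 t ht]; exact m1 t ht
      · rw [e2 t ht]; exact m2 t ht
    · rw [e1 0 ⟨le_rfl, by norm_num⟩, mul_zero, add_zero, rdt_s_zero]; exact H1.source
    · rw [e2 1 ⟨by norm_num, le_rfl⟩]
      have h2 : (2:ℝ) * 1 + -1 = 1 := by norm_num
      rw [h2, rdt_s_one]; exact H2.target
  refine ⟨w, w', hC, ?_⟩
  have hg := rdt_gcont hQ hC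
  have i1 : IntervalIntegrable (fun t => √(Q (star (w t) * w' t))) volume 0 (1 / 2) :=
    (hg.mono (Icc_subset_Icc le_rfl (by norm_num))).intervalIntegrable_of_Icc (by norm_num)
  have i2 : IntervalIntegrable (fun t => √(Q (star (w t) * w' t))) volume (1 / 2) 1 :=
    (hg.mono (Icc_subset_Icc (by norm_num) le_rfl)).intervalIntegrable_of_Icc (by norm_num)
  rw [leftLength, ← intervalIntegral.integral_add_adjacent_intervals i1 i2, ← l1, ← l2]
  congr 1
  · apply intervalIntegral.integral_congr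
    intro t ht
    rw [uIcc_of_le (by norm_num)] at ht
    simp only
    rw [e1 t ht, e1' t ht]
  · apply intervalIntegral.integral_congr
    intro t ht
    rw [uIcc_of_le (by norm_num)] at ht
    simp only
    rw [e2 t ht, e2' t ht]

theorem rdt_nonneg {A : Type*} [NormedRing A] [Star A] (Q : A → ℝ) (c c' : ℝ → A) :
    0 ≤ leftLength Q c c' :=
  intervalIntegral.integral_nonneg zero_le_one (fun _ _ => Real.sqrt_nonneg _)

theorem riemDist_triangle {A : Type*} [NormedRing A] [NormedAlgebra ℝ A] [StarRing A]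
    [NormedStarGroup A] [CompleteSpace A] (G : Set A) (Q : A → ℝ)
    (hQ : Continuous Q) (hQ2 : ∀ (r : ℝ) X, Q (r • X) = r ^ 2 * Q X) (a b c : A) :
    riemDist G Q a c ≤ riemDist G Q a b + riemDist G Q b c := by
  have key : ∀ c1 c1' (_ : IsC1Curve G a b c1 c1') c2 c2' (_ : IsC1Curve G b c c2 c2'),
      riemDist G Q a c ≤ ENNReal.ofReal (leftLength Q c1 c1') +
        ENNReal.ofReal (leftLength Q c2 c2') := by
    intro c1 c1' H1 c2 c2' H2
    obtain ⟨w, w', hC, hlen⟩ := rdt_concat hQ hQ2 H1 H2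
    rw [← ENNReal.ofReal_add (rdt_nonneg Q _ _) (rdt_nonneg Q _ _), ← hlen]
    exact iInf_le_of_le w (iInf_le_of_le w' (iInf_le_of_le hC le_rfl))
  conv_rhs => rw [riemDist, riemDist]
  simp only [ENNReal.iInf_add, ENNReal.add_iInf]
  refine le_iInf fun x1 => le_iInf fun x2 => le_iInf fun x3 => le_iInf fun x4 =>
    le_iInf fun x5 => le_iInf fun x6 => ?_
  first
    | exact key _ _ x3 _ _ x6
    | exact key _ _ x6 _ _ x3

end HQ
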