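import Pool.Agent.Helper831.HQ.Defs
import Pool.Agent.Helper831.HQ.P_matSet_basic
import Pool.Agent.Helper831.HQ.P_mem_LieSet_of_hasDerivAt
import Pool.Agent.Helper831.HQ.P_LieSet_closed_ops

open scoped Quaternion Matrix.Norms.L2Operator ENNReal
open Set MeasureTheory

noncomputable section

namespace HQ



theorem velocity_mem {N : ℕ} (G : Subgroup (Matrix.unitaryGroup (Fin N) ℂ))
    (hG : IsClosed (matSet G)) (g h : Matrix (Fin N) (Fin N) ℂ) (c c' : ℝ → Matrix (Fin N) (Fin N) ℂ)
    (hc : IsC1Curve (matSet G) g h c c') : ∀ t ∈ Icc (0 : ℝ) 1, star (c t) * c' t ∈ LieSet G := by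
  obtain ⟨b1, b2, b3, b4⟩ := matSet_basic G
  obtain ⟨-, -, -, -, -, l6, -⟩ := LieSet_closed_ops G hG
  have hint : ∀ t ∈ Ioo (0 : ℝ) 1, star (c t) * c' t ∈ LieSet G := by
    intro t ht
    have hd : HasDerivAt c (c' t) t :=
      (hc.deriv t (Ioo_subset_Icc_self ht)).hasDerivAt (Icc_mem_nhds ht.1 ht.2)
    have hct : c t ∈ matSet G := hc.mem t (Ioo_subset_Icc_self ht)
    refine mem_LieSet_of_hasDerivAt G hG (fun s => star (c t) * c (t + s)) _ ?_ ?_ ?_
    · have h1 : Filter.Tendsto (fun s : ℝ => t + s) (nhds 0) (nhds t) := by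
        have : Continuous fun s : ℝ => t + s := by fun_prop
        have h2 := this.tendsto 0
        rwa [add_zero] at h2
      filter_upwards [h1 (Icc_mem_nhds ht.1 ht.2)] with s hs
      exact b2 _ (b3 _ hct) _ (hc.mem _ hs)
    · show star (c t) * c (t + 0) = 1
      rw [add_zero]
      exact (b4 _ hct).2.1
    · have h1 : HasDerivAt c (c' t) (t + 0) := by rwa [add_zero]
      exact (h1.comp_const_add t 0).const_mul (star (c t))
  have hcont : ContinuousOn (fun t => star (c t) * c' t) (Icc 0 1) := by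
    have hcc : ContinuousOn c (Icc 0 1) := fun t ht => (hc.deriv t ht).continuousWithinAt
    exact hcc.star.mul hc.cont
  intro t ht
  have hcl : t ∈ closure (Ioo (0 : ℝ) 1) := by
    rw [closure_Ioo zero_ne_one]; exact ht
  haveI : (nhdsWithin t (Ioo (0 : ℝ) 1)).NeBot := mem_closure_iff_nhdsWithin_neBot.mp hcl
  have h1 : Filter.Tendsto (fun t => star (c t) * c' t) (nhdsWithin t (Ioo (0 : ℝ) 1))
      (nhds (star (c t) * c' t)) := (hcont t ht).mono Ioo_subset_Icc_self
  exact l6.mem_of_tendsto h1 (by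
    filter_upwards [self_mem_nhdsWithin] with s hs
    exact hint s hs)

end HQ
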