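import Pool.Agent.Helper831.HQ.Defs
import Pool.Agent.Helper831.HQ.P_matSet_basic
import Pool.Agent.Helper831.HQ.P_riemDist_triangle
import Pool.Agent.Helper831.HQ.P_velocity_mem

open scoped Quaternion Matrix.Norms.L2Operator ENNReal
open Set MeasureTheory

noncomputable section

namespace HQ



theorem dG_left_le {N : ℕ} (G : Subgroup (Matrix.unitaryGroup (Fin N) ℂ))
    (B : Matrix (Fin N) (Fin N) ℂ →ₗ[ℝ] Matrix (Fin N) (Fin N) ℂ →ₗ[ℝ] ℝ)
    (a b c : G) : dG G B (a * b) (a * c) ≤ dG G B b c := by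
  obtain ⟨h1, hmul, hstar, hun⟩ := matSet_basic G
  unfold dG riemDist
  refine le_iInf fun γ => le_iInf fun γ' => le_iInf fun hγ => ?_
  obtain ⟨α, hα⟩ : ∃ α : Matrix (Fin N) (Fin N) ℂ,
    α = ((a : Matrix.unitaryGroup (Fin N) ℂ) : Matrix (Fin N) (Fin N) ℂ) := ⟨_, rfl⟩
  have hαG : α ∈ matSet G := by rw [hα]; exact ⟨a, a.2, rfl⟩
  have hcurve : IsC1Curve (matSet G)
      (((a * b : G) : Matrix.unitaryGroup (Fin N) ℂ) : Matrix (Fin N) (Fin N) ℂ)
      (((a * c : G) : Matrix.unitaryGroup (Fin N) ℂ) : Matrix (Fin N) (Fin N) ℂ)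
      (fun t => α * γ t) (fun t => α * γ' t) := by
    refine ⟨fun t ht => hmul _ hαG _ (hγ.mem t ht), fun t ht => (hγ.deriv t ht).const_mul α,
      continuousOn_const.mul hγ.cont, ?_, ?_⟩
    · simp only [hγ.source, hα]; rfl
    · simp only [hγ.target, hα]; rfl
  refine (iInf_le _ (fun t => α * γ t)).trans ((iInf_le _ (fun t => α * γ' t)).trans
    ((iInf_le _ hcurve).trans (le_of_eq ?_)))
  congr 1
  unfold leftLength
  congr 1
  funext t
  have : star (α * γ t) * (α * γ' t) = star (γ t) * γ' t := by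
    rw [star_mul, mul_assoc, ← mul_assoc (star α), (hun α hαG).2.1, one_mul]
  rw [this]

theorem dG_right_le {N : ℕ} (G : Subgroup (Matrix.unitaryGroup (Fin N) ℂ))
    (hG : IsClosed (matSet G))
    (B : Matrix (Fin N) (Fin N) ℂ →ₗ[ℝ] Matrix (Fin N) (Fin N) ℂ →ₗ[ℝ] ℝ) (hB : IsBiinvariant G B)
    (a b c : G) : dG G B (b * a) (c * a) ≤ dG G B b c := by
  obtain ⟨h1, hmul, hstar, hun⟩ := matSet_basic G
  unfold dG riemDist
  refine le_iInf fun γ => le_iInf fun γ' => le_iInf fun hγ => ?_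
  obtain ⟨α, hα⟩ : ∃ α : Matrix (Fin N) (Fin N) ℂ,
    α = ((a : Matrix.unitaryGroup (Fin N) ℂ) : Matrix (Fin N) (Fin N) ℂ) := ⟨_, rfl⟩
  have hαG : α ∈ matSet G := by rw [hα]; exact ⟨a, a.2, rfl⟩
  have hcurve : IsC1Curve (matSet G)
      (((b * a : G) : Matrix.unitaryGroup (Fin N) ℂ) : Matrix (Fin N) (Fin N) ℂ)
      (((c * a : G) : Matrix.unitaryGroup (Fin N) ℂ) : Matrix (Fin N) (Fin N) ℂ)
      (fun t => γ t * α) (fun t => γ' t * α) := by
    refine ⟨fun t ht => hmul _ (hγ.mem t ht) _ hαG, fun t ht => (hγ.deriv t ht).mul_const α,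
      hγ.cont.mul continuousOn_const, ?_, ?_⟩
    · simp only [hγ.source, hα]; rfl
    · simp only [hγ.target, hα]; rfl
  refine (iInf_le _ (fun t => γ t * α)).trans ((iInf_le _ (fun t => γ' t * α)).trans
    ((iInf_le _ hcurve).trans (le_of_eq ?_)))
  congr 1
  unfold leftLength
  refine intervalIntegral.integral_congr fun t ht => ?_
  rw [Set.uIcc_of_le zero_le_one] at ht
  have e : star (γ t * α) * (γ' t * α) = star α * (star (γ t) * γ' t) * star (star α) := by
    rw [star_mul, star_star]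
    simp only [mul_assoc]
  have hX := velocity_mem G hG _ _ γ γ' hγ t ht
  simp only
  rw [e, hB.inv (star α) (hstar α hαG) _ hX _ hX]

theorem dG_invariant {N : ℕ} (G : Subgroup (Matrix.unitaryGroup (Fin N) ℂ))
    (hG : IsClosed (matSet G))
    (B : Matrix (Fin N) (Fin N) ℂ →ₗ[ℝ] Matrix (Fin N) (Fin N) ℂ →ₗ[ℝ] ℝ) (hB : IsBiinvariant G B)
    (a b c : G) : dG G B (a * b) (a * c) = dG G B b c ∧ dG G B (b * a) (c * a) = dG G B b c ∧
      dG G B a c ≤ dG G B a b + dG G B b c := by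
  refine ⟨le_antisymm (dG_left_le G B a b c) ?_, le_antisymm (dG_right_le G hG B hB a b c) ?_, ?_⟩
  · have := dG_left_le G B a⁻¹ (a * b) (a * c)
    rwa [inv_mul_cancel_left, inv_mul_cancel_left] at this
  · have := dG_right_le G hG B hB a⁻¹ (b * a) (c * a)
    rwa [mul_inv_cancel_right, mul_inv_cancel_right] at this
  · have hfd : FiniteDimensional ℝ (Matrix (Fin N) (Fin N) ℂ) := inferInstance
    have hcs : CompleteSpace (Matrix (Fin N) (Fin N) ℂ) := FiniteDimensional.complete ℝ _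
    let Bc : Matrix (Fin N) (Fin N) ℂ →ₗ[ℝ] (Matrix (Fin N) (Fin N) ℂ →L[ℝ] ℝ) :=
      (LinearMap.toContinuousLinearMap :
        (Matrix (Fin N) (Fin N) ℂ →ₗ[ℝ] ℝ) ≃ₗ[ℝ] (Matrix (Fin N) (Fin N) ℂ →L[ℝ] ℝ)).toLinearMap ∘ₗ B
    have hBc : Continuous Bc := LinearMap.continuous_of_finiteDimensional Bc
    have hcont : Continuous (fun X : Matrix (Fin N) (Fin N) ℂ => B X X) := by
      have h2 : Continuous (fun X : Matrix (Fin N) (Fin N) ℂ => (Bc X) X) :=
        hBc.clm_apply continuous_id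
      exact h2
    refine riemDist_triangle (matSet G) (fun X => B X X) hcont ?_ _ _ _
    intro r X
    simp only [map_smul, LinearMap.smul_apply, smul_eq_mul]
    ring

end HQ
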