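import Pool.Agent.Helper831.HQ.Defs
import Pool.Agent.Helper831.HQ.P_E_basic
import Pool.Agent.Helper831.HQ.P_exists_log

open scoped Quaternion Matrix.Norms.L2Operator ENNReal
open Set MeasureTheory

noncomputable section

namespace HQ



theorem riem_le_dF_norm_exp (Z : ℍ) (hZ : Z.re = 0) (t : ℝ) :
    ‖NormedSpace.exp (t • Z)‖ = 1 := by
  rw [Quaternion.norm_exp]
  simp [hZ]

theorem riem_le_dF_star (a : ℍ) (ha : ‖a‖ = 1) : star a * a = 1 := by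
  rw [Quaternion.star_mul_self, Quaternion.normSq_eq_norm_mul_self, ha]
  simp

theorem riem_le_dF_normsq (a : ℍ) : ‖a‖ ^ 2 = a.re ^ 2 + a.imI ^ 2 + a.imJ ^ 2 + a.imK ^ 2 := by
  rw [sq, ← Quaternion.normSq_eq_norm_mul_self, Quaternion.normSq_def']

/-- one component of the curve -/
def riem_le_dF_c (p Z : ℍ) (k t : ℝ) : ℍ := p * NormedSpace.exp (t • Z) * E (k * t)

/-- its derivative -/
def riem_le_dF_c' (p Z : ℍ) (k t : ℝ) : ℍ :=
  p * (NormedSpace.exp (t • Z) * Z) * E (k * t) +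
    p * NormedSpace.exp (t • Z) * (k • (E (k * t) * Iq))

theorem riem_le_dF_deriv (p Z : ℍ) (k t : ℝ) :
    HasDerivAt (riem_le_dF_c p Z k) (riem_le_dF_c' p Z k t) t := by
  have h1 : HasDerivAt (fun u : ℝ => NormedSpace.exp (u • Z)) (NormedSpace.exp (t • Z) * Z) t :=
    hasDerivAt_exp_smul_const Z t
  exact (h1.const_mul p).mul (E_basic.2.2.2.2.2.2.1 k t)

theorem riem_le_dF_cont (p Z : ℍ) (k : ℝ) : Continuous (riem_le_dF_c' p Z k) := by
  unfold riem_le_dF_c'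
  have h1 : Continuous (fun t : ℝ => NormedSpace.exp (t • Z)) :=
    continuous_iff_continuousAt.2 fun t => (hasDerivAt_exp_smul_const Z t).continuousAt
  have h2 : Continuous (fun t : ℝ => E (k * t)) :=
    E_basic.2.2.2.2.2.1.comp (continuous_const.mul continuous_id)
  exact ((continuous_const.mul (h1.mul continuous_const)).mul h2).add
    ((continuous_const.mul h1).mul ((h2.mul continuous_const).const_smul k))

theorem riem_le_dF_norm (p Z : ℍ) (hp : ‖p‖ = 1) (hZ : Z.re = 0) (k t : ℝ) :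
    ‖riem_le_dF_c p Z k t‖ = 1 := by
  unfold riem_le_dF_c
  rw [norm_mul, norm_mul, hp, riem_le_dF_norm_exp Z hZ, E_basic.2.1]
  norm_num

theorem riem_le_dF_W (p Z : ℍ) (hp : ‖p‖ = 1) (hZ : Z.re = 0) (k t : ℝ) :
    ∃ W : ℍ, ‖W‖ = ‖Z‖ ∧
      star (riem_le_dF_c p Z k t) * riem_le_dF_c' p Z k t = W + k • Iq := by
  refine ⟨star (E (k * t)) * Z * E (k * t), ?_, ?_⟩
  · rw [norm_mul, norm_mul, norm_star, E_basic.2.1]
    ring
  · have hP : star (p * NormedSpace.exp (t • Z)) * (p * NormedSpace.exp (t • Z)) = 1 := by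
      apply riem_le_dF_star
      rw [norm_mul, hp, riem_le_dF_norm_exp Z hZ, one_mul]
    have hE : star (E (k * t)) * E (k * t) = 1 := riem_le_dF_star _ (E_basic.2.1 _)
    unfold riem_le_dF_c riem_le_dF_c'
    generalize NormedSpace.exp (t • Z) = X at *
    generalize E (k * t) = Y at *
    calc star (p * X * Y) * (p * (X * Z) * Y + p * X * (k • (Y * Iq)))
        = star Y * ((star (p * X) * (p * X)) * Z) * Y +
          star Y * (star (p * X) * (p * X)) * (k • (Y * Iq)) := by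
          rw [star_mul (p * X) Y]
          noncomm_ring
      _ = star Y * Z * Y + star Y * (k • (Y * Iq)) := by
          rw [hP, one_mul, mul_one]
      _ = star Y * Z * Y + k • ((star Y * Y) * Iq) := by
          rw [mul_smul_comm, ← mul_assoc (star Y) Y Iq]
      _ = star Y * Z * Y + k • Iq := by
          rw [hE, one_mul]

theorem riem_le_dF_QM (W1 W2 : ℍ) (θ : ℝ) :
    QM (W1 + (-θ) • Iq, W2 + (-(√2 * θ)) • Iq) ≤ ‖W1‖ ^ 2 + ‖W2‖ ^ 2 + θ ^ 2 := by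
  have hr : (√2 : ℝ) ^ 2 = 2 := Real.sq_sqrt (by norm_num)
  unfold QM
  rw [riem_le_dF_normsq, riem_le_dF_normsq, riem_le_dF_normsq W1, riem_le_dF_normsq W2]
  simp only [Iq, Quaternion.re_add, Quaternion.imI_add, Quaternion.imJ_add, Quaternion.imK_add,
    Quaternion.re_smul, Quaternion.imI_smul, Quaternion.imJ_smul, Quaternion.imK_smul,
    smul_eq_mul, mul_zero, mul_one, add_zero]
  generalize (√2 : ℝ) = r at *
  have key : (W1.re ^ 2 + W1.imI ^ 2 + W1.imJ ^ 2 + W1.imK ^ 2 +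
      (W2.re ^ 2 + W2.imI ^ 2 + W2.imJ ^ 2 + W2.imK ^ 2) + θ ^ 2) -
      (W1.re ^ 2 + (W1.imI + -θ) ^ 2 + W1.imJ ^ 2 + W1.imK ^ 2 +
      (W2.re ^ 2 + (W2.imI + -(r * θ)) ^ 2 + W2.imJ ^ 2 + W2.imK ^ 2) -
      (W1.imI + -θ + r * (W2.imI + -(r * θ))) ^ 2 / 4) =
      (W1.imI + r * W2.imI + θ) ^ 2 / 4 := by
    linear_combination (-θ * (W1.imI + r * W2.imI) / 2 + θ ^ 2 * r ^ 2 / 4) * hr
  have h0 : 0 ≤ (W1.imI + r * W2.imI + θ) ^ 2 / 4 := by positivity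
  linarith

theorem riem_le_dF (p q : ℍ × ℍ) (hp : p ∈ S33) (hq : q ∈ S33) (θ : ℝ) :
    riemDist S33 QM p q ≤ ENNReal.ofReal
      (√(ang p.1 (q.1 * E θ) ^ 2 + ang p.2 (q.2 * E (√2 * θ)) ^ 2 + θ ^ 2)) := by
  have hE := E_basic
  have hq1 : ‖q.1 * E θ‖ = 1 := by rw [norm_mul, hq.1, hE.2.1, one_mul]
  have hq2 : ‖q.2 * E (√2 * θ)‖ = 1 := by rw [norm_mul, hq.2, hE.2.1, one_mul]
  obtain ⟨⟨Z1, hZ1, hn1, he1⟩, -⟩ := exists_log p.1 (q.1 * E θ) hp.1 hq1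
  obtain ⟨⟨Z2, hZ2, hn2, he2⟩, -⟩ := exists_log p.2 (q.2 * E (√2 * θ)) hp.2 hq2
  have hcurve : IsC1Curve S33 p q
      (fun t => (riem_le_dF_c p.1 Z1 (-θ) t, riem_le_dF_c p.2 Z2 (-(√2 * θ)) t))
      (fun t => (riem_le_dF_c' p.1 Z1 (-θ) t, riem_le_dF_c' p.2 Z2 (-(√2 * θ)) t)) := by
    refine ⟨?_, ?_, ?_, ?_, ?_⟩
    · intro t _
      exact ⟨riem_le_dF_norm _ _ hp.1 hZ1 _ _, riem_le_dF_norm _ _ hp.2 hZ2 _ _⟩
    · intro t _
      exact ((riem_le_dF_deriv p.1 Z1 (-θ) t).prodMk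
        (riem_le_dF_deriv p.2 Z2 (-(√2 * θ)) t)).hasDerivWithinAt
    · exact ((riem_le_dF_cont _ _ _).prodMk (riem_le_dF_cont _ _ _)).continuousOn
    · unfold riem_le_dF_c
      simp only [zero_smul, NormedSpace.exp_zero, mul_one, mul_zero, hE.2.2.1]
    · unfold riem_le_dF_c
      simp only [one_smul, mul_one]
      rw [he1, he2, mul_assoc, mul_assoc, ← hE.1, ← hE.1, add_neg_cancel, add_neg_cancel,
        hE.2.2.1, mul_one, mul_one]
  refine iInf_le_of_le _ (iInf_le_of_le _ (iInf_le_of_le hcurve (ENNReal.ofReal_le_ofReal ?_)))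
  unfold leftLength
  set C : ℝ := √(ang p.1 (q.1 * E θ) ^ 2 + ang p.2 (q.2 * E (√2 * θ)) ^ 2 + θ ^ 2) with hC
  have hb := intervalIntegral.norm_integral_le_of_norm_le_const (a := 0) (b := 1) (C := C)
    (f := fun t : ℝ => √(QM (star (riem_le_dF_c p.1 Z1 (-θ) t,
      riem_le_dF_c p.2 Z2 (-(√2 * θ)) t) *
      (riem_le_dF_c' p.1 Z1 (-θ) t, riem_le_dF_c' p.2 Z2 (-(√2 * θ)) t)))) (by
    intro t _
    rw [Real.norm_of_nonneg (Real.sqrt_nonneg _)]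
    apply Real.sqrt_le_sqrt
    obtain ⟨W1, hW1, hW1'⟩ := riem_le_dF_W p.1 Z1 hp.1 hZ1 (-θ) t
    obtain ⟨W2, hW2, hW2'⟩ := riem_le_dF_W p.2 Z2 hp.2 hZ2 (-(√2 * θ)) t
    have h1 : star (riem_le_dF_c p.1 Z1 (-θ) t, riem_le_dF_c p.2 Z2 (-(√2 * θ)) t) *
        (riem_le_dF_c' p.1 Z1 (-θ) t, riem_le_dF_c' p.2 Z2 (-(√2 * θ)) t) =
        (W1 + (-θ) • Iq, W2 + (-(√2 * θ)) • Iq) := by
      rw [← hW1', ← hW2']
      rfl
    rw [h1, ← hn1, ← hn2, ← hW1, ← hW2]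
    exact riem_le_dF_QM W1 W2 θ)
  rw [sub_zero, abs_one, mul_one] at hb
  exact (Real.le_norm_self _).trans hb

end HQ
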