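import Pool.Agent.Helper831.HQ.Defs
import Pool.Agent.Helper831.HQ.P_dF_le_length
import Pool.Agent.Helper831.HQ.P_riem_le_dF

open scoped Quaternion Matrix.Norms.L2Operator ENNReal
open Set MeasureTheory

noncomputable section

namespace HQ



theorem dM_eq (p q : S33) : dM p q = ENNReal.ofReal (dF p q) := by
  apply le_antisymm
  · apply ENNReal.le_of_forall_pos_le_add
    intro ε hε _
    have hε' : (0 : ℝ) < ε := by exact_mod_cast hε
    obtain ⟨θ, hθ⟩ := exists_lt_of_ciInf_lt (show dF p q < dF p q + ε by linarith)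
    have h1 := riem_le_dF (p : ℍ × ℍ) (q : ℍ × ℍ) p.2 q.2 θ
    calc dM p q ≤ _ := h1
      _ ≤ ENNReal.ofReal (dF p q + ε) := ENNReal.ofReal_le_ofReal hθ.le
      _ ≤ ENNReal.ofReal (dF p q) + ENNReal.ofReal ε := ENNReal.ofReal_add_le
      _ = _ := by rw [ENNReal.ofReal_coe_nnreal]
  · unfold dM riemDist
    refine le_iInf fun c => le_iInf fun c' => le_iInf fun h => ?_
    exact ENNReal.ofReal_le_ofReal (dF_le_length _ _ c c' h)

end HQ
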