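import Pool.Agent.Helper831.HQ.Defs
import Pool.Agent.Helper831.HQ.P_ang_inv
import Pool.Agent.Helper831.HQ.P_ang_le_integral
import Pool.Agent.Helper831.HQ.P_sol_norm

open scoped Quaternion Matrix.Norms.L2Operator ENNReal
open Set MeasureTheory

noncomputable section

namespace HQ



theorem sol_ang_aux_im (q : ℍ) : ‖q.im‖ ≤ ‖q‖ := by
  have h1 : ‖q.im‖ * ‖q.im‖ ≤ ‖q‖ * ‖q‖ := by
    rw [← Quaternion.normSq_eq_norm_mul_self, ← Quaternion.normSq_eq_norm_mul_self,
      Quaternion.normSq_def', Quaternion.normSq_def']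
    simp only [Quaternion.re_im, Quaternion.imI_im, Quaternion.imJ_im, Quaternion.imK_im]
    nlinarith [sq_nonneg q.re]
  exact (mul_self_le_mul_self_iff (norm_nonneg _) (norm_nonneg _)).mpr h1

theorem sol_ang_aux_int (φ : ℝ → ℝ) (hφ : Continuous φ) :
    (∫ t in (0 : ℝ)..1, φ t) ^ 2 ≤ ∫ t in (0 : ℝ)..1, φ t ^ 2 := by
  set I := ∫ t in (0 : ℝ)..1, φ t with hI
  have h0 : 0 ≤ ∫ t in (0 : ℝ)..1, (φ t - I) ^ 2 :=
    intervalIntegral.integral_nonneg zero_le_one fun t _ => sq_nonneg _
  have h1 : ∫ t in (0 : ℝ)..1, (φ t - I) ^ 2 =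
      (∫ t in (0 : ℝ)..1, φ t ^ 2) - 2 * I * I + I ^ 2 := by
    have e : (fun t => (φ t - I) ^ 2) = fun t => (φ t ^ 2 - 2 * I * φ t) + I ^ 2 := by
      funext t; ring
    rw [e, intervalIntegral.integral_add, intervalIntegral.integral_sub,
      intervalIntegral.integral_const_mul, intervalIntegral.integral_const, ← hI]
    · simp
    · exact (hφ.pow 2).intervalIntegrable _ _
    · exact (continuous_const.mul hφ).intervalIntegrable _ _
    · exact ((hφ.pow 2).sub (continuous_const.mul hφ)).intervalIntegrable _ _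
    · exact intervalIntegrable_const
  rw [h1] at h0
  nlinarith

theorem sol_ang (ξ η : C(Set.Icc (0 : ℝ) 1, ℍ)) (c d : ℝ → ℍ) (hc : IsSol ξ c) (hd : IsSol η d) :
    ang (c 1) (d 1) ^ 2 ≤ ip (ξ - η) (ξ - η) := by
  have hcn := sol_norm ξ c hc
  have hdn := sol_norm η d hd
  set f : ℝ → ℍ := fun t => ξ (projIcc 0 1 zero_le_one t) with hf
  set g : ℝ → ℍ := fun t => η (projIcc 0 1 zero_le_one t) with hg
  have hfc : Continuous f := ξ.continuous.comp continuous_projIcc
  have hgc : Continuous g := η.continuous.comp continuous_projIcc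
  have him : Continuous fun q : ℍ => q.im := Quaternion.continuous_im
  have : StarModule ℝ ℍ := ⟨fun r a => by
    rw [Quaternion.star_smul, star_trivial r]⟩
  have hder : ∀ t ∈ Icc (0 : ℝ) 1, HasDerivWithinAt (fun t => c t * star (d t))
      (c t * ((f t).im - (g t).im) * star (d t)) (Icc 0 1) t := by
    intro t ht
    have h1 := (hc.2 t ht).mul (hd.2 t ht).star
    have e : c t * (ξ (projIcc 0 1 zero_le_one t)).im * star (d t) +
        c t * star (d t * (η (projIcc 0 1 zero_le_one t)).im) =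
        c t * ((f t).im - (g t).im) * star (d t) := by
      rw [star_mul, Quaternion.star_im]
      simp only [hf, hg]
      rw [mul_sub, sub_mul, neg_mul, mul_neg, ← mul_assoc, ← sub_eq_add_neg]
    rw [← e]
    exact h1
  have hcc : ContinuousOn c (Icc 0 1) := fun t ht => (hc.2 t ht).continuousWithinAt
  have hdc : ContinuousOn d (Icc 0 1) := fun t ht => (hd.2 t ht).continuousWithinAt
  have hcont : ContinuousOn (fun t => c t * ((f t).im - (g t).im) * star (d t)) (Icc 0 1) :=
    (hcc.mul ((him.comp hfc).sub (him.comp hgc)).continuousOn).mul hdc.star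
  have hnorm : ∀ t ∈ Icc (0 : ℝ) 1, ‖c t * star (d t)‖ = 1 := by
    intro t ht
    rw [norm_mul, Quaternion.norm_star, hcn t ht, hdn t ht, one_mul]
  have hkey := ang_le_integral (fun t => c t * star (d t))
    (fun t => c t * ((f t).im - (g t).im) * star (d t)) 0 1 zero_le_one hder hcont hnorm
  have h1mem : (1 : ℝ) ∈ Icc (0 : ℝ) 1 := ⟨zero_le_one, le_rfl⟩
  have hang : ang (c 0 * star (d 0)) (c 1 * star (d 1)) = ang (c 1) (d 1) := by
    have e0 : d 1 * star (d 1) = 1 := by
      rw [Quaternion.self_mul_star, Quaternion.normSq_eq_norm_mul_self, hdn 1 h1mem]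
      simp
    have e1 : c 0 * star (d 0) = d 1 * star (d 1) := by
      rw [e0, hc.1, hd.1, star_one, mul_one]
    have hs : ‖star (d 1)‖ = 1 := by rw [Quaternion.norm_star, hdn 1 h1mem]
    rw [e1, (ang_inv (star (d 1)) (d 1) (c 1) hs).2]
    exact InnerProductGeometry.angle_comm _ _
  have hkey' : ang (c 1) (d 1) ≤
      ∫ t in (0 : ℝ)..1, ‖c t * ((f t).im - (g t).im) * star (d t)‖ := by
    rw [← hang]; exact hkey
  have hle : ∫ t in (0 : ℝ)..1, ‖c t * ((f t).im - (g t).im) * star (d t)‖ ≤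
      ∫ t in (0 : ℝ)..1, ‖f t - g t‖ := by
    apply intervalIntegral.integral_mono_on zero_le_one
    · apply ContinuousOn.intervalIntegrable
      rw [uIcc_of_le zero_le_one]
      exact hcont.norm
    · exact (hfc.sub hgc).norm.intervalIntegrable _ _
    · intro t ht
      rw [norm_mul, norm_mul, Quaternion.norm_star, hcn t ht, hdn t ht, one_mul, mul_one]
      have : (f t).im - (g t).im = (f t - g t).im := by
        ext <;> simp
      rw [this]
      exact sol_ang_aux_im _
  have h0 : 0 ≤ ang (c 1) (d 1) := InnerProductGeometry.angle_nonneg _ _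
  have hfin := sol_ang_aux_int (fun t => ‖f t - g t‖) (hfc.sub hgc).norm
  have hip : ip (ξ - η) (ξ - η) = ∫ t in (0 : ℝ)..1, ‖f t - g t‖ ^ 2 := by
    unfold ip
    congr 1
    funext t
    rw [real_inner_self_eq_norm_sq]
    rfl
  rw [hip]
  refine le_trans ?_ hfin
  exact pow_le_pow_left₀ h0 (hkey'.trans hle) 2

end HQ
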