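import Pool.Agent.Helper831.HQ.Defs
import Pool.Agent.Helper831.HQ.P_E_basic
import Pool.Agent.Helper831.HQ.P_ang_inv
import Pool.Agent.Helper831.HQ.P_sol_norm
import Pool.Agent.Helper831.HQ.P_sol_ang

open scoped Quaternion Matrix.Norms.L2Operator ENNReal
open Set MeasureTheory

noncomputable section

namespace HQ



theorem end_dist (x y : Ctrl) (p q : ℍ × ℍ) (hp : IsEnd x p) (hq : IsEnd y q) :
    dF p q ≤ ‖x - y‖ ∧ p ∈ S33 := by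
  obtain ⟨c1, c2, hc1, hc2, rfl⟩ := hp
  obtain ⟨d1, d2, hd1, hd2, rfl⟩ := hq
  obtain ⟨hE, hEn, -⟩ := E_basic
  have h1 : (1 : ℝ) ∈ Icc (0 : ℝ) 1 := ⟨zero_le_one, le_rfl⟩
  constructor
  · have hb : BddBelow (range (fun θ : ℝ =>
        √(ang (c1 1 * E (-x.2.2)) (d1 1 * E (-y.2.2) * E θ) ^ 2 +
          ang (c2 1 * E (-(√2 * x.2.2))) (d2 1 * E (-(√2 * y.2.2)) * E (√2 * θ)) ^ 2 + θ ^ 2))) := by
      refine ⟨0, ?_⟩
      rintro _ ⟨θ, rfl⟩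
      exact Real.sqrt_nonneg _
    refine (ciInf_le hb (y.2.2 - x.2.2)).trans ?_
    have e1 : d1 1 * E (-y.2.2) * E (y.2.2 - x.2.2) = d1 1 * E (-x.2.2) := by
      rw [mul_assoc, ← hE]
      congr 2
      ring
    have e2 : d2 1 * E (-(√2 * y.2.2)) * E (√2 * (y.2.2 - x.2.2)) = d2 1 * E (-(√2 * x.2.2)) := by
      rw [mul_assoc, ← hE]
      congr 2
      ring
    rw [e1, e2, (ang_inv _ _ _ (hEn _)).2, (ang_inv _ _ _ (hEn _)).2]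
    rw [Real.sqrt_le_left (norm_nonneg _), ctrl_norm_sq]
    have s1 : ang (c1 1) (d1 1) ^ 2 ≤ ip (x - y).1 (x - y).1 := sol_ang x.1 y.1 c1 d1 hc1 hd1
    have s2 : ang (c2 1) (d2 1) ^ 2 ≤ ip (x - y).2.1 (x - y).2.1 :=
      sol_ang x.2.1 y.2.1 c2 d2 hc2 hd2
    have s3 : (x - y).2.2 = x.2.2 - y.2.2 := rfl
    rw [s3]
    nlinarith [s1, s2]
  · refine ⟨?_, ?_⟩
    · show ‖c1 1 * E (-x.2.2)‖ = 1
      rw [norm_mul, sol_norm _ _ hc1 1 h1, hEn, mul_one]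
    · show ‖c2 1 * E (-(√2 * x.2.2))‖ = 1
      rw [norm_mul, sol_norm _ _ hc2 1 h1, hEn, mul_one]

end HQ
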