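import Pool.Agent.Helper831.HQ.Defs
import Pool.Agent.Helper831.HQ.P_LieSet_closed_ops

open scoped Quaternion Matrix.Norms.L2Operator ENNReal
open Set MeasureTheory

noncomputable section

namespace HQ



@[reducible] def isoCore {V : Type*} [AddCommGroup V] [Module ℝ V] (b : V →ₗ[ℝ] V →ₗ[ℝ] ℝ)
    (hs : ∀ x y, b x y = b y x) (hp : ∀ x, x ≠ 0 → 0 < b x x) : InnerProductSpace.Core ℝ V where
  inner x y := b x y
  conj_inner_symm x y := by
    show b y x = b x y
    exact hs y x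
  re_inner_nonneg x := by
    show 0 ≤ b x x
    by_cases hx : x = 0
    · rw [hx]; simp
    · exact (hp x hx).le
  add_left x y z := by
    show b (x + y) z = b x z + b y z
    simp
  smul_left x y r := by
    show b (r • x) y = r * b x y
    simp
  definite x h := by
    have h' : b x x = 0 := h
    by_contra hx
    exact (hp x hx).ne' h'

theorem exists_isometry_aux {V : Type*} [AddCommGroup V] [Module ℝ V] [FiniteDimensional ℝ V]
    (b : V →ₗ[ℝ] V →ₗ[ℝ] ℝ) (hs : ∀ x y, b x y = b y x) (hp : ∀ x, x ≠ 0 → 0 < b x x) :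
    ∃ (n : ℕ) (L : EuclideanSpace ℝ (Fin n) ≃ₗ[ℝ] V), ∀ x y, b (L x) (L y) = inner ℝ x y := by
  letI : NormedAddCommGroup V := (isoCore b hs hp).toNormedAddCommGroup
  letI : InnerProductSpace ℝ V := InnerProductSpace.ofCore (isoCore b hs hp).toCore
  refine ⟨Module.finrank ℝ V, (stdOrthonormalBasis ℝ V).repr.symm.toLinearEquiv, ?_⟩
  intro x y
  exact (stdOrthonormalBasis ℝ V).repr.symm.inner_map_map x y

theorem exists_isometry {N : ℕ} (G : Subgroup (Matrix.unitaryGroup (Fin N) ℂ))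
    (hG : IsClosed (matSet G))
    (B : Matrix (Fin N) (Fin N) ℂ →ₗ[ℝ] Matrix (Fin N) (Fin N) ℂ →ₗ[ℝ] ℝ) (hB : IsBiinvariant G B) :
    ∃ (n : ℕ) (L : EuclideanSpace ℝ (Fin n) →ₗ[ℝ] Matrix (Fin N) (Fin N) ℂ),
      (∀ X, X ∈ LieSet G ↔ ∃ x, L x = X) ∧ ∀ x y, B (L x) (L y) = inner ℝ x y := by
  obtain ⟨h0, hsm, hadd, -, -, -, -⟩ := LieSet_closed_ops G hG
  let V : Submodule ℝ (Matrix (Fin N) (Fin N) ℂ) :=
    { carrier := LieSet G
      add_mem' := fun {a b} ha hb => hadd a ha b hb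
      zero_mem' := h0
      smul_mem' := fun r X hX => hsm r X hX }
  obtain ⟨n, L, hL⟩ := exists_isometry_aux (V := V) (B.compl₁₂ V.subtype V.subtype)
    (fun x y => hB.symm x x.2 y y.2)
    (fun x hx => hB.pos x x.2 (fun h => hx (Subtype.ext h)))
  refine ⟨n, V.subtype ∘ₗ L.toLinearMap, ?_, ?_⟩
  · intro X
    constructor
    · intro hX
      refine ⟨L.symm ⟨X, hX⟩, ?_⟩
      simp
    · rintro ⟨x, rfl⟩
      exact (L x).2
  · intro x y
    exact hL x y

end HQ
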