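import Pool.Agent.Helper831.HQ.Defs
import Pool.Agent.Helper831.HQ.P_matSet_basic
import Pool.Agent.Helper831.HQ.P_LieSet_closed_ops

open scoped Quaternion Matrix.Norms.L2Operator ENNReal
open Set MeasureTheory

noncomputable section

namespace HQ



theorem riem_exp {N : ℕ} (G : Subgroup (Matrix.unitaryGroup (Fin N) ℂ))
    (hG : IsClosed (matSet G))
    (B : Matrix (Fin N) (Fin N) ℂ →ₗ[ℝ] Matrix (Fin N) (Fin N) ℂ →ₗ[ℝ] ℝ) (hB : IsBiinvariant G B)
    (X Y : Matrix (Fin N) (Fin N) ℂ) (hX : X ∈ LieSet G) (hY : Y ∈ LieSet G) :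
    riemDist (matSet G) (fun Z => B Z Z) (NormedSpace.exp X) (NormedSpace.exp Y) ≤
      ENNReal.ofReal (√(B (X - Y) (X - Y))) := by
  obtain ⟨h1, hmul, hstar, hun⟩ := matSet_basic G
  obtain ⟨-, hsm, hadd, -, -, -, -⟩ := LieSet_closed_ops G hG
  have hXe : ∀ t : ℝ, NormedSpace.exp (t • (-X)) ∈ matSet G := by
    intro t
    have := hX (-t)
    rwa [neg_smul, ← smul_neg] at this
  have hX1 : NormedSpace.exp X ∈ matSet G := by simpa using hX 1
  have hYX : Y - X ∈ LieSet G := by
    rw [sub_eq_add_neg]
    apply hadd _ hY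
    have := hsm (-1) X hX
    rwa [neg_one_smul] at this
  set c : ℝ → Matrix (Fin N) (Fin N) ℂ := fun s =>
    NormedSpace.exp (s • Y) * NormedSpace.exp (s • (-X)) * NormedSpace.exp X with hc
  set c' : ℝ → Matrix (Fin N) (Fin N) ℂ := fun s =>
    NormedSpace.exp (s • Y) * (Y - X) * (NormedSpace.exp (s • (-X)) * NormedSpace.exp X) with hc'
  have hderY : ∀ (Z : Matrix (Fin N) (Fin N) ℂ) (t : ℝ),
      HasDerivAt (fun u : ℝ => NormedSpace.exp (u • Z)) (NormedSpace.exp (t • Z) * Z) t :=
    fun Z t => hasDerivAt_exp_smul_const Z t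
  have hderX : ∀ (Z : Matrix (Fin N) (Fin N) ℂ) (t : ℝ),
      HasDerivAt (fun u : ℝ => NormedSpace.exp (u • Z)) (Z * NormedSpace.exp (t • Z)) t :=
    fun Z t => hasDerivAt_exp_smul_const' Z t
  have hcY : ∀ (Z : Matrix (Fin N) (Fin N) ℂ), Continuous (fun u : ℝ => NormedSpace.exp (u • Z)) :=
    fun Z => continuous_iff_continuousAt.mpr fun t => (hderY Z t).continuousAt
  have hcurve : IsC1Curve (matSet G) (NormedSpace.exp X) (NormedSpace.exp Y) c c' := by
    refine ⟨?_, ?_, ?_, ?_, ?_⟩
    · intro t _
      exact hmul _ (hmul _ (hY t) _ (hXe t)) _ hX1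
    · intro t _
      have h := (((hderY Y t).mul (hderX (-X) t)).mul_const (NormedSpace.exp X)).hasDerivWithinAt
        (s := Icc (0:ℝ) 1)
      refine h.congr_deriv ?_
      simp only [hc']
      noncomm_ring
    · apply Continuous.continuousOn
      exact ((hcY Y).mul continuous_const).mul ((hcY (-X)).mul continuous_const)
    · simp [hc]
    · simp only [hc, one_smul]
      rw [mul_assoc, ← Matrix.exp_add_of_commute _ _ (Commute.neg_left (Commute.refl X))]
      simp
  have hlen : leftLength (fun Z => B Z Z) c c' = √(B (X - Y) (X - Y)) := by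
    unfold leftLength
    have hconst : ∀ t : ℝ, B (star (c t) * c' t) (star (c t) * c' t) = B (X - Y) (X - Y) := by
      intro t
      set k := NormedSpace.exp (t • (-X)) * NormedSpace.exp X with hk
      have hkm : k ∈ matSet G := hmul _ (hXe t) _ hX1
      have e1 : star (c t) * c' t = star k * (Y - X) * star (star k) := by
        have hYu := (hun _ (hY t)).2.1
        have : c t = NormedSpace.exp (t • Y) * k := by simp only [hc, hk, mul_assoc]
        rw [this, star_mul, star_star]
        simp only [hc', ← hk]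
        calc star k * star (NormedSpace.exp (t • Y)) * (NormedSpace.exp (t • Y) * (Y - X) * k)
            = star k * (star (NormedSpace.exp (t • Y)) * NormedSpace.exp (t • Y)) * (Y - X) * k := by
              noncomm_ring
          _ = star k * (Y - X) * k := by rw [hYu, mul_one]
      rw [e1, hB.inv _ (hstar _ hkm) _ hYX _ hYX]
      have : X - Y = -(Y - X) := by abel
      rw [this]
      simp only [map_neg, LinearMap.neg_apply, neg_neg]
    simp only [hconst]
    simp
  calc riemDist (matSet G) (fun Z => B Z Z) (NormedSpace.exp X) (NormedSpace.exp Y)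
      ≤ ENNReal.ofReal (leftLength (fun Z => B Z Z) c c') := by
        unfold riemDist
        exact iInf_le_of_le c (iInf_le_of_le c' (iInf_le_of_le hcurve le_rfl))
    _ = _ := by rw [hlen]

end HQ
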