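import Pool.Agent.Helper831.HQ.Defs
import Pool.Agent.Helper831.HQ.P_matSet_basic
import Pool.Agent.Helper831.HQ.P_LieSet_closed_ops
import Pool.Agent.Helper831.HQ.P_velocity_mem

open scoped Quaternion Matrix.Norms.L2Operator ENNReal
open Set MeasureTheory

noncomputable section

namespace HQ



theorem rsp_curve {A : Type*} [NormedRing A] [NormedAlgebra ℝ A] [CompleteSpace A]
    (c c' : ℝ → A) (hd : ∀ t ∈ Icc (0 : ℝ) 1, HasDerivWithinAt c (c' t) (Icc 0 1) t)
    (hc' : ContinuousOn c' (Icc 0 1)) (ξ : A) (s t : ℝ) (hs : 0 ≤ s) (hst : s ≤ t) (ht : t ≤ 1) :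
    (∀ τ ∈ Icc (0 : ℝ) 1, HasDerivWithinAt
      (fun τ : ℝ => c (t - τ * (t - s)) * NormedSpace.exp ((τ * (t - s)) • ξ))
      ((-(t - s)) • c' (t - τ * (t - s)) * NormedSpace.exp ((τ * (t - s)) • ξ)
        + c (t - τ * (t - s)) * ((t - s) • (NormedSpace.exp ((τ * (t - s)) • ξ) * ξ)))
      (Icc 0 1) τ) ∧
    ContinuousOn (fun τ : ℝ => (-(t - s)) • c' (t - τ * (t - s)) * NormedSpace.exp ((τ * (t - s)) • ξ)
        + c (t - τ * (t - s)) * ((t - s) • (NormedSpace.exp ((τ * (t - s)) • ξ) * ξ))) (Icc 0 1) := by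
  have hmap : MapsTo (fun τ : ℝ => t - τ * (t - s)) (Icc 0 1) (Icc 0 1) := by
    intro τ hτ
    have h0 := hτ.1
    have h1 := hτ.2
    constructor
    · show 0 ≤ t - τ * (t - s)
      nlinarith
    · show t - τ * (t - s) ≤ 1
      nlinarith
  have hcc : ContinuousOn c (Icc 0 1) := fun x hx => (hd x hx).continuousWithinAt
  have hexp : ∀ τ : ℝ, HasDerivAt (fun τ : ℝ => NormedSpace.exp ((τ * (t - s)) • ξ))
      ((t - s) • (NormedSpace.exp ((τ * (t - s)) • ξ) * ξ)) τ := by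
    intro τ
    have h1 := hasDerivAt_exp_smul_const (𝕂 := ℝ) ξ (τ * (t - s))
    have h2 : HasDerivAt (fun τ : ℝ => τ * (t - s)) (t - s) τ := by
      simpa using (hasDerivAt_id τ).mul_const (t - s)
    exact h1.scomp τ h2
  have hr : ∀ τ : ℝ, HasDerivAt (fun τ : ℝ => t - τ * (t - s)) (-(t - s)) τ := by
    intro τ
    have h2 : HasDerivAt (fun τ : ℝ => τ * (t - s)) (t - s) τ := by
      simpa using (hasDerivAt_id τ).mul_const (t - s)
    exact h2.const_sub t
  constructor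
  · intro τ hτ
    have h3 : HasDerivWithinAt (fun τ : ℝ => c (t - τ * (t - s))) ((-(t - s)) • c' (t - τ * (t - s)))
        (Icc 0 1) τ := by
      exact HasDerivWithinAt.scomp (g₁ := c) (h := fun τ : ℝ => t - τ * (t - s)) τ
        (hd _ (hmap hτ)) (hr τ).hasDerivWithinAt hmap
    exact h3.mul (hexp τ).hasDerivWithinAt
  · have hce : Continuous (fun τ : ℝ => NormedSpace.exp ((τ * (t - s)) • ξ)) :=
      continuous_iff_continuousAt.2 fun τ => (hexp τ).continuousAt
    have hcr : ContinuousOn (fun τ : ℝ => t - τ * (t - s)) (Icc 0 1) := by fun_prop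
    have k1 : ContinuousOn (fun τ : ℝ => c' (t - τ * (t - s))) (Icc 0 1) := hc'.comp hcr hmap
    have k2 : ContinuousOn (fun τ : ℝ => c (t - τ * (t - s))) (Icc 0 1) := hcc.comp hcr hmap
    exact ((k1.const_smul _).mul hce.continuousOn).add
      (k2.mul ((hce.continuousOn.mul continuousOn_const).const_smul _))

theorem rsp_alg {A : Type*} [Ring A] [Algebra ℝ A] [StarRing A] (a : ℝ) (x x' e ξ : A)
    (hx : star x * x = 1) (he : star e * e = 1) (hc : e * ξ = ξ * e) :
    star (x * e) * ((-a) • x' * e + x * (a • (e * ξ))) =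
      (-a) • (star e * (star x * x' - ξ) * e) := by
  rw [star_mul, mul_add]
  have h1 : star e * star x * ((-a) • x' * e) = (-a) • (star e * (star x * x') * e) := by
    simp only [smul_mul_assoc, mul_smul_comm, mul_assoc]
  have h2 : star e * star x * (x * (a • (e * ξ))) = a • ξ := by
    have : star e * star x * (x * (a • (e * ξ))) = a • (star e * (star x * x) * (e * ξ)) := by
      simp only [mul_smul_comm, mul_assoc]
    rw [this, hx, mul_one, ← mul_assoc, he, one_mul]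
  have h3 : star e * ξ * e = ξ := by
    rw [mul_assoc, ← hc, ← mul_assoc, he, one_mul]
  rw [h1, h2, mul_sub, sub_mul, h3, smul_sub, neg_smul a ξ, sub_neg_eq_add]

theorem riem_short_piece {N : ℕ} (G : Subgroup (Matrix.unitaryGroup (Fin N) ℂ))
    (hG : IsClosed (matSet G))
    (B : Matrix (Fin N) (Fin N) ℂ →ₗ[ℝ] Matrix (Fin N) (Fin N) ℂ →ₗ[ℝ] ℝ) (hB : IsBiinvariant G B)
    (g h : Matrix (Fin N) (Fin N) ℂ) (c c' : ℝ → Matrix (Fin N) (Fin N) ℂ)
    (hc : IsC1Curve (matSet G) g h c c') (s t η : ℝ) (hs : 0 ≤ s) (hst : s ≤ t) (ht : t ≤ 1)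
    (hη : ∀ r ∈ Icc s t, √(B (star (c r) * c' r - star (c s) * c' s) (star (c r) * c' r - star (c s) * c' s)) ≤ η) :
    riemDist (matSet G) (fun Z => B Z Z) (c t) (c s * NormedSpace.exp ((t - s) • (star (c s) * c' s))) ≤
      ENNReal.ofReal (η * (t - s)) := by
  obtain ⟨m1, m2, m3, m4⟩ := matSet_basic G
  obtain ⟨l0, l1, l2, l3, l4, -, -⟩ := LieSet_closed_ops G hG
  have hv := velocity_mem G hG g h c c' hc
  set ξ : Matrix (Fin N) (Fin N) ℂ := star (c s) * c' s with hξ
  have hξL : ξ ∈ LieSet G := hv s ⟨hs, hst.trans ht⟩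
  have hts : 0 ≤ t - s := by linarith
  obtain ⟨hd, hcont⟩ := rsp_curve c c' hc.deriv hc.cont ξ s t hs hst ht
  have hmap : ∀ τ ∈ Icc (0 : ℝ) 1, t - τ * (t - s) ∈ Icc s t := by
    intro τ hτ
    have h0 := hτ.1
    have h1 := hτ.2
    constructor <;> nlinarith
  have hmap1 : ∀ τ ∈ Icc (0 : ℝ) 1, t - τ * (t - s) ∈ Icc (0 : ℝ) 1 := fun τ hτ =>
    ⟨hs.trans (hmap τ hτ).1, (hmap τ hτ).2.trans ht⟩
  have hcurve : IsC1Curve (matSet G) (c t) (c s * NormedSpace.exp ((t - s) • ξ))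
      (fun τ : ℝ => c (t - τ * (t - s)) * NormedSpace.exp ((τ * (t - s)) • ξ))
      (fun τ : ℝ => (-(t - s)) • c' (t - τ * (t - s)) * NormedSpace.exp ((τ * (t - s)) • ξ)
        + c (t - τ * (t - s)) * ((t - s) • (NormedSpace.exp ((τ * (t - s)) • ξ) * ξ))) := by
    refine ⟨?_, hd, hcont, ?_, ?_⟩
    · intro τ hτ
      exact m2 _ (hc.mem _ (hmap1 τ hτ)) _ (hξL _)
    · simp [NormedSpace.exp_zero]
    · simp
  have hlen : leftLength (fun Z => B Z Z)
      (fun τ : ℝ => c (t - τ * (t - s)) * NormedSpace.exp ((τ * (t - s)) • ξ))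
      (fun τ : ℝ => (-(t - s)) • c' (t - τ * (t - s)) * NormedSpace.exp ((τ * (t - s)) • ξ)
        + c (t - τ * (t - s)) * ((t - s) • (NormedSpace.exp ((τ * (t - s)) • ξ) * ξ)))
      ≤ η * (t - s) := by
    unfold leftLength
    have hb := intervalIntegral.norm_integral_le_of_norm_le_const (a := (0:ℝ)) (b := 1)
      (C := η * (t - s)) (f := fun τ : ℝ => √(B
        (star (c (t - τ * (t - s)) * NormedSpace.exp ((τ * (t - s)) • ξ)) *
          ((-(t - s)) • c' (t - τ * (t - s)) * NormedSpace.exp ((τ * (t - s)) • ξ)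
            + c (t - τ * (t - s)) * ((t - s) • (NormedSpace.exp ((τ * (t - s)) • ξ) * ξ))))
        (star (c (t - τ * (t - s)) * NormedSpace.exp ((τ * (t - s)) • ξ)) *
          ((-(t - s)) • c' (t - τ * (t - s)) * NormedSpace.exp ((τ * (t - s)) • ξ)
            + c (t - τ * (t - s)) * ((t - s) • (NormedSpace.exp ((τ * (t - s)) • ξ) * ξ)))))) ?_
    · refine (le_abs_self _).trans ?_
      rw [← Real.norm_eq_abs]
      refine hb.trans ?_
      simp
    · intro τ hτ
      rw [uIoc_of_le zero_le_one] at hτ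
      have hτ' : τ ∈ Icc (0 : ℝ) 1 := ⟨hτ.1.le, hτ.2⟩
      set r : ℝ := t - τ * (t - s) with hr
      set e : Matrix (Fin N) (Fin N) ℂ := NormedSpace.exp ((τ * (t - s)) • ξ) with he
      have heG : e ∈ matSet G := hξL _
      have hcG : c r ∈ matSet G := hc.mem _ (hmap1 τ hτ')
      have hcomm : e * ξ = ξ * e := by
        have : Commute ((τ * (t - s)) • ξ) ξ := (Commute.refl ξ).smul_left _
        exact (this.exp_left).eq
      have halg := rsp_alg (t - s) (c r) (c' r) e ξ (m4 _ hcG).2.1 (m4 _ heG).2.1 hcomm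
      show ‖√(B (star (c r * e) * ((-(t - s)) • c' r * e + c r * ((t - s) • (e * ξ))))
        (star (c r * e) * ((-(t - s)) • c' r * e + c r * ((t - s) • (e * ξ)))))‖ ≤ η * (t - s)
      rw [halg]
      have hX : star (c r) * c' r - ξ ∈ LieSet G := by
        rw [sub_eq_add_neg, ← neg_one_smul ℝ ξ]
        exact l2 _ (hv r (hmap1 τ hτ')) _ (l1 _ _ hξL)
      have hinv := hB.inv (star e) (m3 _ heG) _ hX _ hX
      rw [star_star] at hinv
      rw [map_smul, map_smul, LinearMap.smul_apply, hinv, smul_eq_mul, smul_eq_mul]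
      rw [Real.norm_eq_abs, abs_of_nonneg (Real.sqrt_nonneg _)]
      have e2 : -(t - s) * (-(t - s) * (B (star (c r) * c' r - ξ)) (star (c r) * c' r - ξ))
          = (t - s) ^ 2 * (B (star (c r) * c' r - ξ)) (star (c r) * c' r - ξ) := by ring
      rw [e2, Real.sqrt_mul (sq_nonneg _), Real.sqrt_sq hts, mul_comm]
      exact mul_le_mul_of_nonneg_right (hη r (hmap τ hτ')) hts
  unfold riemDist
  exact iInf_le_of_le _ (iInf_le_of_le _ (iInf_le_of_le hcurve (ENNReal.ofReal_le_ofReal hlen)))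

end HQ
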