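import Pool.Agent.Helper831.HQ.Defs
import Pool.Agent.Helper831.HQ.P_matSet_basic
import Pool.Agent.Helper831.HQ.P_LieSet_closed_ops
import Pool.Agent.Helper831.HQ.P_velocity_mem
import Pool.Agent.Helper831.HQ.P_dG_invariant
import Pool.Agent.Helper831.HQ.P_riem_short_piece

open scoped Quaternion Matrix.Norms.L2Operator ENNReal
open Set MeasureTheory

noncomputable section

namespace HQ



theorem woc_symm {A : Type*} [NormedRing A] [NormedAlgebra ℝ A] [Star A] (G : Set A) (Q : A → ℝ)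
    (hQ : ∀ x, Q (-x) = Q x) (g h : A) : riemDist G Q h g ≤ riemDist G Q g h := by
  unfold riemDist
  refine le_iInf fun c => le_iInf fun c' => le_iInf fun hc => ?_
  refine iInf_le_of_le (fun t => c (1 - t)) (iInf_le_of_le (fun t => - c' (1 - t))
    (iInf_le_of_le ?_ ?_))
  · refine ⟨?_, ?_, ?_, ?_, ?_⟩
    · intro t ht
      exact hc.mem (1 - t) ⟨by linarith [ht.2], by linarith [ht.1]⟩
    · intro t ht
      have h1 := hc.deriv (1 - t) ⟨by linarith [ht.2], by linarith [ht.1]⟩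
      have h2 : HasDerivWithinAt (fun s : ℝ => 1 - s) (-1) (Icc 0 1) t :=
        ((hasDerivAt_id t).const_sub 1).hasDerivWithinAt
      have h3 := HasDerivWithinAt.scomp t h1 h2
        (fun s hs => ⟨by linarith [hs.2], by linarith [hs.1]⟩)
      rw [neg_one_smul] at h3
      exact h3
    · refine (hc.cont.comp (continuous_const.sub continuous_id).continuousOn
        (fun s hs => ?_)).neg
      exact ⟨by show (0:ℝ) ≤ 1 - s; linarith [hs.2], by show 1 - s ≤ (1:ℝ); linarith [hs.1]⟩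
    · show c (1 - 0) = h
      rw [sub_zero]
      exact hc.target
    · show c (1 - 1) = g
      rw [sub_self]
      exact hc.source
  · apply le_of_eq
    congr 1
    unfold leftLength
    have e1 : (fun t : ℝ => √(Q (star (c (1 - t)) * -c' (1 - t)))) =
        fun t => (fun s => √(Q (star (c s) * c' s))) (1 - t) := by
      funext t
      rw [mul_neg, hQ]
    rw [e1, intervalIntegral.integral_comp_sub_left (fun s => √(Q (star (c s) * c' s))) 1,
      sub_self, sub_zero]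

theorem woc_self {A : Type*} [NormedRing A] [NormedAlgebra ℝ A] [Star A] (G : Set A) (Q : A → ℝ)
    (hQ : Q 0 = 0) (g : A) (hg : g ∈ G) : riemDist G Q g g = 0 := by
  unfold riemDist
  refine le_antisymm ?_ bot_le
  refine iInf_le_of_le (fun _ => g) (iInf_le_of_le (fun _ => 0) (iInf_le_of_le ?_ ?_))
  · exact ⟨fun _ _ => hg, fun t _ => hasDerivWithinAt_const _ _ _, continuousOn_const, rfl, rfl⟩
  · unfold leftLength
    simp [hQ]

theorem woc_cont {N : ℕ}
    (B : Matrix (Fin N) (Fin N) ℂ →ₗ[ℝ] Matrix (Fin N) (Fin N) ℂ →ₗ[ℝ] ℝ) :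
    Continuous fun X : Matrix (Fin N) (Fin N) ℂ => √(B X X) := by
  have h1 : Continuous fun X : Matrix (Fin N) (Fin N) ℂ => LinearMap.toContinuousLinearMap (B X) :=
    LinearMap.continuous_of_finiteDimensional
      ((LinearMap.toContinuousLinearMap :
        (Matrix (Fin N) (Fin N) ℂ →ₗ[ℝ] ℝ) ≃ₗ[ℝ] (Matrix (Fin N) (Fin N) ℂ →L[ℝ] ℝ)).toLinearMap ∘ₗ B)
  exact Real.continuous_sqrt.comp (h1.clm_apply continuous_id)

theorem word_of_curve {N : ℕ} (G : Subgroup (Matrix.unitaryGroup (Fin N) ℂ))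
    (hG : IsClosed (matSet G))
    (B : Matrix (Fin N) (Fin N) ℂ →ₗ[ℝ] Matrix (Fin N) (Fin N) ℂ →ₗ[ℝ] ℝ) (hB : IsBiinvariant G B)
    (g h : G) (r ε : ℝ) (hr : 0 < r) (hε : 0 < ε) (hd : dG G B g h < ENNReal.ofReal r) :
    ∃ (n : ℕ) (X : Fin n → Matrix (Fin N) (Fin N) ℂ) (a : Fin n → G), 0 < n ∧ (∀ i, X i ∈ LieSet G) ∧
      (∀ i, ((a i : Matrix.unitaryGroup (Fin N) ℂ) : Matrix (Fin N) (Fin N) ℂ) = NormedSpace.exp (X i)) ∧
      ∑ i, √(B (X i) (X i)) ≤ r ∧ dG G B (g * (List.ofFn a).prod) h ≤ ENNReal.ofReal ε := by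
  unfold dG riemDist at hd
  rw [iInf_lt_iff] at hd
  obtain ⟨c, hd⟩ := hd
  rw [iInf_lt_iff] at hd
  obtain ⟨c', hd⟩ := hd
  rw [iInf_lt_iff] at hd
  obtain ⟨hc, hd⟩ := hd
  have hlen : leftLength (fun X => B X X) c c' < r := (ENNReal.ofReal_lt_ofReal_iff hr).1 hd
  obtain ⟨ξ, hξ⟩ : ∃ ξ : ℝ → Matrix (Fin N) (Fin N) ℂ, ξ = fun t => star (c t) * c' t := ⟨_, rfl⟩
  obtain ⟨q, hq⟩ : ∃ q : Matrix (Fin N) (Fin N) ℂ → ℝ, q = fun X => √(B X X) := ⟨_, rfl⟩
  have hqc : Continuous q := hq ▸ woc_cont B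
  have hq0 : q 0 = 0 := by rw [hq]; simp
  have hcc : ContinuousOn c (Icc 0 1) := fun t ht => (hc.deriv t ht).continuousWithinAt
  have hξc : ContinuousOn ξ (Icc 0 1) := by
    rw [hξ]
    exact (continuous_star.comp_continuousOn hcc).mul hc.cont
  have hfc : ContinuousOn (fun t => q (ξ t)) (Icc 0 1) := hqc.comp_continuousOn hξc
  have hlen' : ∫ t in (0:ℝ)..1, q (ξ t) < r := by
    rw [hq, hξ]
    exact hlen
  obtain ⟨η, hη0, hη1, hη2⟩ : ∃ η : ℝ, 0 < η ∧ η ≤ ε ∧ η ≤ r - ∫ t in (0:ℝ)..1, q (ξ t) :=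
    ⟨min ε (r - ∫ t in (0:ℝ)..1, q (ξ t)), lt_min hε (by linarith), min_le_left _ _,
      min_le_right _ _⟩
  -- uniform continuity
  have hu1 := Metric.uniformContinuousOn_iff.1 (isCompact_Icc.uniformContinuousOn_of_continuous hξc)
  have hu2 := Metric.uniformContinuousOn_iff.1 (isCompact_Icc.uniformContinuousOn_of_continuous hfc)
  obtain ⟨ε', hε', hqε⟩ := Metric.continuous_iff.1 hqc 0 η hη0
  obtain ⟨δ1, hδ1, hu1⟩ := hu1 ε' hε'
  obtain ⟨δ2, hδ2, hu2⟩ := hu2 η hη0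
  obtain ⟨n', hn'⟩ := exists_nat_one_div_lt (lt_min hδ1 hδ2)
  obtain ⟨n, hn⟩ : ∃ n, n = n' + 1 := ⟨_, rfl⟩
  have hnp : 0 < n := by omega
  have hnr : (0:ℝ) < n := by exact_mod_cast hnp
  have hnδ : 1 / (n:ℝ) < min δ1 δ2 := by
    rw [hn]
    push_cast
    exact hn'
  have hnδ1 : 1 / (n:ℝ) < δ1 := hnδ.trans_le (min_le_left _ _)
  have hnδ2 : 1 / (n:ℝ) < δ2 := hnδ.trans_le (min_le_right _ _)
  obtain ⟨tk, htk⟩ : ∃ tk : ℕ → ℝ, tk = fun k : ℕ => (k:ℝ) / n := ⟨_, rfl⟩
  have ht0 : tk 0 = 0 := by rw [htk]; simp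
  have htn : tk n = 1 := by rw [htk]; exact div_self hnr.ne'
  have htd : ∀ k, tk (k + 1) - tk k = 1 / n := by
    intro k
    rw [htk]
    show ((k + 1 : ℕ) : ℝ) / n - (k:ℝ) / n = 1 / n
    push_cast
    ring
  have htl : ∀ k, tk k ≤ tk (k + 1) := by
    intro k
    have := htd k
    have h1 : 0 < 1 / (n:ℝ) := by positivity
    linarith
  have htnn : ∀ k, 0 ≤ tk k := by
    intro k
    rw [htk]
    positivity
  have ht1 : ∀ k, k ≤ n → tk k ≤ 1 := by
    intro k hk
    rw [htk]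
    show (k:ℝ) / n ≤ 1
    rw [div_le_one hnr]
    exact_mod_cast hk
  have hosc : ∀ k, k < n → ∀ s ∈ Icc (tk k) (tk (k + 1)), q (ξ s - ξ (tk k)) ≤ η ∧
      q (ξ (tk k)) ≤ q (ξ s) + η := by
    intro k hk s hs
    have hs1 : s ∈ Icc (0:ℝ) 1 := ⟨(htnn k).trans hs.1, hs.2.trans (ht1 _ hk)⟩
    have hs2 : tk k ∈ Icc (0:ℝ) 1 := ⟨htnn k, ht1 k hk.le⟩
    have hd1 : dist s (tk k) ≤ 1 / n := by
      rw [Real.dist_eq, abs_of_nonneg (by linarith [hs.1])]
      linarith [hs.2, htd k]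
    have h1 := hu1 s hs1 (tk k) hs2 (hd1.trans_lt hnδ1)
    have h2 := hu2 s hs1 (tk k) hs2 (hd1.trans_lt hnδ2)
    have h3 := hqε (ξ s - ξ (tk k)) (by rw [dist_zero_right, ← dist_eq_norm]; exact h1)
    rw [hq0, Real.dist_eq, sub_zero] at h3
    rw [Real.dist_eq] at h2
    have h4 := abs_lt.1 h2
    exact ⟨(le_abs_self _).trans h3.le, by linarith [h4.1]⟩
  -- the Lie algebra elements
  obtain ⟨-, hLs, -⟩ := LieSet_closed_ops G hG
  have hvel : ∀ k, k ≤ n → ξ (tk k) ∈ LieSet G := by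
    intro k hk
    rw [hξ]
    exact velocity_mem G hG _ _ c c' hc (tk k) ⟨htnn k, ht1 k hk⟩
  have hX : ∀ k, k ≤ n → (1 / (n:ℝ)) • ξ (tk k) ∈ LieSet G := fun k hk => hLs _ _ (hvel k hk)
  have hexa : ∀ k : ℕ, ∃ a : G, k < n → ((a : Matrix.unitaryGroup (Fin N) ℂ) :
      Matrix (Fin N) (Fin N) ℂ) = NormedSpace.exp ((1 / (n:ℝ)) • ξ (tk k)) := by
    intro k
    by_cases hk : k < n
    · have h1 := hX k hk.le 1
      rw [one_smul] at h1
      obtain ⟨u, hu, hu2⟩ := h1
      exact ⟨⟨u, hu⟩, fun _ => hu2⟩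
    · exact ⟨1, fun h => absurd h hk⟩
  choose a ha using hexa
  have hexp : ∀ k : ℕ, ∃ p : G, k ≤ n → ((p : Matrix.unitaryGroup (Fin N) ℂ) :
      Matrix (Fin N) (Fin N) ℂ) = c (tk k) := by
    intro k
    by_cases hk : k ≤ n
    · obtain ⟨u, hu, hu2⟩ := hc.mem (tk k) ⟨htnn k, ht1 k hk⟩
      exact ⟨⟨u, hu⟩, fun _ => hu2⟩
    · exact ⟨1, fun h => absurd h hk⟩
  choose p hp using hexp
  have hinj : ∀ x y : G, ((x : Matrix.unitaryGroup (Fin N) ℂ) : Matrix (Fin N) (Fin N) ℂ) =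
      ((y : Matrix.unitaryGroup (Fin N) ℂ) : Matrix (Fin N) (Fin N) ℂ) → x = y :=
    fun x y hxy => Subtype.ext (Subtype.ext hxy)
  have hp0 : p 0 = g := hinj _ _ (by rw [hp 0 (Nat.zero_le _), ht0]; exact hc.source)
  have hpn : p n = h := hinj _ _ (by rw [hp n le_rfl, htn]; exact hc.target)
  have hstep : ∀ k, k < n → dG G B (p (k + 1)) (p k * a k) ≤ ENNReal.ofReal (η * (1 / n)) := by
    intro k hk
    have h1 := riem_short_piece G hG B hB _ _ c c' hc (tk k) (tk (k + 1)) η (htnn k) (htl k)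
      (ht1 _ hk) (by
        intro s hs
        have := (hosc k hk s hs).1
        rw [hq, hξ] at this
        exact this)
    rw [htd k] at h1
    have e1 : ((p k * a k : G) : Matrix.unitaryGroup (Fin N) ℂ).1 =
        c (tk k) * NormedSpace.exp ((1 / (n:ℝ)) • (star (c (tk k)) * c' (tk k))) := by
      have e2 : ((p k * a k : G) : Matrix.unitaryGroup (Fin N) ℂ).1 =
        ((p k : Matrix.unitaryGroup (Fin N) ℂ) : Matrix (Fin N) (Fin N) ℂ) *
          ((a k : Matrix.unitaryGroup (Fin N) ℂ) : Matrix (Fin N) (Fin N) ℂ) := rfl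
      rw [e2, hp k hk.le, ha k hk, hξ]
    unfold dG
    rw [hp (k + 1) hk, e1]
    exact h1
  have hind : ∀ k, k ≤ n → dG G B (p k) (g * (List.ofFn (fun i : Fin k => a i)).prod) ≤
      k * ENNReal.ofReal (η * (1 / n)) := by
    intro k
    induction k with
    | zero =>
      intro _
      rw [List.ofFn_zero, List.prod_nil, mul_one, hp0]
      have : dG G B g g = 0 := woc_self _ _ (by simp) _ ⟨_, g.2, rfl⟩
      rw [this]
      exact bot_le
    | succ k ih =>
      intro hk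
      have h1 := ih (by omega)
      have h2 := hstep k (by omega)
      have e1 : (List.ofFn (fun i : Fin (k + 1) => a i)).prod =
          (List.ofFn (fun i : Fin k => a i)).prod * a k := by
        rw [List.ofFn_succ', List.concat_eq_append, List.prod_append, List.prod_singleton]
        rfl
      rw [e1, ← mul_assoc]
      have h3 := (dG_invariant G hG B hB (p (k + 1)) (p k * a k)
        (g * (List.ofFn (fun i : Fin k => a i)).prod * a k)).2.2
      have h4 := (dG_invariant G hG B hB (a k) (p k)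
        (g * (List.ofFn (fun i : Fin k => a i)).prod)).2.1
      rw [h4] at h3
      refine h3.trans ?_
      rw [Nat.cast_succ, add_mul, one_mul, add_comm ((k:ENNReal) * _)]
      exact add_le_add h2 h1
  refine ⟨n, fun i => (1 / (n:ℝ)) • ξ (tk i), fun i => a i, hnp, fun i => hX i i.2.le,
    fun i => ha i i.2, ?_, ?_⟩
  · -- the Riemann sum
    have e1 : ∀ k : ℕ, √(B ((1 / (n:ℝ)) • ξ (tk k)) ((1 / (n:ℝ)) • ξ (tk k))) =
        (1 / (n:ℝ)) * q (ξ (tk k)) := by
      intro k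
      rw [map_smul, map_smul, LinearMap.smul_apply, smul_eq_mul, smul_eq_mul, ← mul_assoc, hq]
      have h1 : (0:ℝ) ≤ 1 / n := by positivity
      rw [Real.sqrt_mul (mul_self_nonneg _), Real.sqrt_mul_self h1]
    have e2 : ∑ i : Fin n, √(B ((1 / (n:ℝ)) • ξ (tk i)) ((1 / (n:ℝ)) • ξ (tk i))) =
        ∑ k ∈ Finset.range n, (1 / (n:ℝ)) * q (ξ (tk k)) := by
      rw [← Fin.sum_univ_eq_sum_range (fun k => (1 / (n:ℝ)) * q (ξ (tk k))) n]
      exact Finset.sum_congr rfl fun i _ => e1 i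
    show ∑ i : Fin n, √(B ((1 / (n:ℝ)) • ξ (tk i)) ((1 / (n:ℝ)) • ξ (tk i))) ≤ r
    rw [e2]
    have hint : ∀ k < n, IntervalIntegrable (fun t => q (ξ t)) volume (tk k) (tk (k + 1)) := by
      intro k hk
      refine ContinuousOn.intervalIntegrable (hfc.mono ?_)
      rw [uIcc_of_le (htl k)]
      exact Icc_subset_Icc (htnn k) (ht1 _ hk)
    have e3 : ∀ k ∈ Finset.range n, (1 / (n:ℝ)) * q (ξ (tk k)) ≤
        (∫ t in (tk k)..(tk (k + 1)), q (ξ t)) + η * (1 / n) := by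
      intro k hk
      have hk' : k < n := Finset.mem_range.1 hk
      have h1 : ∫ _t in (tk k)..(tk (k + 1)), q (ξ (tk k)) ≤
          ∫ t in (tk k)..(tk (k + 1)), (q (ξ t) + η) :=
        intervalIntegral.integral_mono_on (htl k) intervalIntegrable_const
          ((hint k hk').add intervalIntegrable_const) fun s hs => (hosc k hk' s hs).2
      rw [intervalIntegral.integral_const, intervalIntegral.integral_add (hint k hk')
        intervalIntegrable_const, intervalIntegral.integral_const, htd k, smul_eq_mul,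
        smul_eq_mul] at h1
      linarith
    refine (Finset.sum_le_sum e3).trans ?_
    rw [Finset.sum_add_distrib, intervalIntegral.sum_integral_adjacent_intervals hint, ht0, htn,
      Finset.sum_const, Finset.card_range, nsmul_eq_mul]
    have h2 : (n:ℝ) * (η * (1 / n)) = η := by field_simp
    rw [h2]
    linarith
  · have h1 := hind n le_rfl
    rw [hpn] at h1
    have h2 : (n:ENNReal) * ENNReal.ofReal (η * (1 / n)) = ENNReal.ofReal η := by
      rw [← ENNReal.ofReal_natCast, ← ENNReal.ofReal_mul (Nat.cast_nonneg n)]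
      congr 1
      field_simp
    rw [h2] at h1
    refine le_trans ?_ (h1.trans (ENNReal.ofReal_le_ofReal hη1))
    exact woc_symm _ _ (fun x => by rw [map_neg, map_neg, LinearMap.neg_apply, neg_neg]) _ _

end HQ
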