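import Pool.Agent.Helper831.HQ.Defs

open scoped Quaternion Matrix.Norms.L2Operator ENNReal
open Set MeasureTheory

noncomputable section

namespace HQ



theorem word_refine {N : ℕ} (G : Subgroup (Matrix.unitaryGroup (Fin N) ℂ))
    (B : Matrix (Fin N) (Fin N) ℂ →ₗ[ℝ] Matrix (Fin N) (Fin N) ℂ →ₗ[ℝ] ℝ) (n : ℕ) (hn : 0 < n)
    (X : Fin n → Matrix (Fin N) (Fin N) ℂ) (a : Fin n → G) (hX : ∀ i, X i ∈ LieSet G)
    (ha : ∀ i, ((a i : Matrix.unitaryGroup (Fin N) ℂ) : Matrix (Fin N) (Fin N) ℂ) = NormedSpace.exp (X i))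
    (r R : ℝ) (hr : ∑ i, √(B (X i) (X i)) ≤ r) (hR : r < R) :
    ∃ (m : ℕ) (Y : Fin m → Matrix (Fin N) (Fin N) ℂ) (b : Fin m → G), 0 < m ∧ (∀ i, Y i ∈ LieSet G) ∧
      (∀ i, ((b i : Matrix.unitaryGroup (Fin N) ℂ) : Matrix (Fin N) (Fin N) ℂ) = NormedSpace.exp (Y i)) ∧
      (List.ofFn b).prod = (List.ofFn a).prod ∧ m * ∑ i, B (Y i) (Y i) ≤ R ^ 2 := by
  classical
  have hr0 : 0 ≤ r := le_trans (Finset.sum_nonneg (fun i _ => Real.sqrt_nonneg _)) hr
  have hRr : 0 < R ^ 2 - r ^ 2 := by nlinarith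
  obtain ⟨M0, hM0⟩ := exists_nat_ge (2 * n * r / (R ^ 2 - r ^ 2))
  obtain ⟨M, hM1, hM⟩ : ∃ M : ℕ, 0 < M ∧ 2 * n * r ≤ M * (R ^ 2 - r ^ 2) := by
    refine ⟨M0 + 1, Nat.succ_pos _, ?_⟩
    rw [div_le_iff₀ hRr] at hM0
    push_cast
    nlinarith
  have hMpos : (0 : ℝ) < M := by exact_mod_cast hM1
  set ℓ : Fin n → ℝ := fun i => √(B (X i) (X i)) with hℓ
  have hℓ0 : ∀ i, 0 ≤ ℓ i := fun i => Real.sqrt_nonneg _
  have hBℓ : ∀ i, B (X i) (X i) ≤ ℓ i ^ 2 := by
    intro i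
    rcases le_or_gt 0 (B (X i) (X i)) with h | h
    · rw [hℓ]; simp only; rw [Real.sq_sqrt h]
    · exact h.le.trans (sq_nonneg _)
  set k : Fin n → ℕ := fun i => ⌈(M : ℝ) * ℓ i⌉₊ + 1 with hk
  have hk1 : ∀ i, (M : ℝ) * ℓ i ≤ k i := by
    intro i
    have := Nat.le_ceil ((M : ℝ) * ℓ i)
    rw [hk]; push_cast; linarith
  have hk2 : ∀ i, (k i : ℝ) ≤ M * ℓ i + 2 := by
    intro i
    have := Nat.ceil_lt_add_one (a := (M : ℝ) * ℓ i) (by have := hℓ0 i; positivity)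
    rw [hk]; push_cast; linarith
  have hkpos : ∀ i, (0 : ℝ) < k i := by
    intro i
    rw [hk]; positivity
  have hkne : ∀ i, (k i : ℝ) ≠ 0 := fun i => (hkpos i).ne'
  choose g hgG hg using fun i => hX i (1 / (k i : ℝ))
  let Y0 : Fin n → Matrix (Fin N) (Fin N) ℂ := fun i => (1 / (k i : ℝ)) • X i
  let b0 : Fin n → G := fun i => ⟨g i, hgG i⟩
  have hY0 : ∀ i, Y0 i ∈ LieSet G := by
    intro i t
    show NormedSpace.exp (t • ((1 / (k i : ℝ)) • X i)) ∈ matSet G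
    rw [smul_smul]
    exact hX i _
  have hb0 : ∀ i, ((b0 i : Matrix.unitaryGroup (Fin N) ℂ) : Matrix (Fin N) (Fin N) ℂ) =
      NormedSpace.exp (Y0 i) := fun i => hg i
  have hpow : ∀ i, b0 i ^ k i = a i := by
    intro i
    apply Subtype.ext
    apply Subtype.ext
    have h1 : (((b0 i ^ k i : G) : Matrix.unitaryGroup (Fin N) ℂ) : Matrix (Fin N) (Fin N) ℂ) =
        ((b0 i : Matrix.unitaryGroup (Fin N) ℂ) : Matrix (Fin N) (Fin N) ℂ) ^ k i := by
      push_cast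
      rfl
    rw [h1, hb0, ha, ← Matrix.exp_nsmul]
    congr 1
    show k i • ((1 / (k i : ℝ)) • X i) = X i
    rw [← Nat.cast_smul_eq_nsmul ℝ, smul_smul, mul_one_div_cancel (hkne i), one_smul]
  let W : List (Matrix (Fin N) (Fin N) ℂ × G) :=
    (List.ofFn (fun i : Fin n => List.replicate (k i) (Y0 i, b0 i))).flatten
  have hWmem : ∀ p ∈ W, ∃ i, p = (Y0 i, b0 i) := by
    intro p hp
    obtain ⟨l, hl, hpl⟩ := List.mem_flatten.1 hp
    obtain ⟨i, rfl⟩ := List.mem_ofFn.1 hl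
    exact ⟨i, List.eq_of_mem_replicate hpl⟩
  have hWlen : (W.length : ℝ) = ∑ i, (k i : ℝ) := by
    show (((List.ofFn (fun i : Fin n => List.replicate (k i) (Y0 i, b0 i))).flatten).length : ℝ) = _
    rw [List.length_flatten, List.map_ofFn, List.sum_ofFn]
    simp
  have hWprod : (W.map Prod.snd).prod = (List.ofFn a).prod := by
    show (List.map Prod.snd
      (List.ofFn (fun i : Fin n => List.replicate (k i) (Y0 i, b0 i))).flatten).prod = _
    rw [List.map_flatten, List.prod_flatten, List.map_map, List.map_ofFn]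
    congr 2
    funext i
    simp only [Function.comp, List.map_replicate, List.prod_replicate]
    exact hpow i
  have hWsum : (W.map (fun p => B p.1 p.1)).sum = ∑ i, (k i : ℝ) * B (Y0 i) (Y0 i) := by
    show (List.map (fun p : Matrix (Fin N) (Fin N) ℂ × G => B p.1 p.1)
      (List.ofFn (fun i : Fin n => List.replicate (k i) (Y0 i, b0 i))).flatten).sum = _
    rw [List.map_flatten, List.sum_flatten, List.map_map, List.map_ofFn, List.sum_ofFn]
    refine Finset.sum_congr rfl (fun i _ => ?_)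
    simp only [Function.comp, List.map_replicate, List.sum_replicate, nsmul_eq_mul]
  refine ⟨W.length, fun j => (W.get j).1, fun j => (W.get j).2, ?_, ?_, ?_, ?_, ?_⟩
  · have h1 : (0 : ℝ) < W.length := by
      rw [hWlen]
      haveI : Nonempty (Fin n) := ⟨⟨0, hn⟩⟩
      exact Finset.sum_pos (fun i _ => hkpos i) Finset.univ_nonempty
    exact_mod_cast h1
  · intro j
    obtain ⟨i, hi⟩ := hWmem _ (List.get_mem W j)
    show (W.get j).1 ∈ LieSet G
    rw [hi]
    exact hY0 i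
  · intro j
    obtain ⟨i, hi⟩ := hWmem _ (List.get_mem W j)
    show (((W.get j).2 : Matrix.unitaryGroup (Fin N) ℂ) : Matrix (Fin N) (Fin N) ℂ) =
      NormedSpace.exp (W.get j).1
    rw [hi]
    exact hb0 i
  · rw [← hWprod]
    congr 1
    conv_rhs => rw [← List.ofFn_get W, List.map_ofFn]
    rfl
  · have h1 : ∑ j, B (W.get j).1 (W.get j).1 = (W.map (fun p => B p.1 p.1)).sum := by
      conv_rhs => rw [← List.ofFn_get W, List.map_ofFn, List.sum_ofFn]
      rfl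
    show (W.length : ℝ) * ∑ j, B (W.get j).1 (W.get j).1 ≤ R ^ 2
    rw [h1, hWsum, hWlen]
    have h2 : ∀ i, (k i : ℝ) * B (Y0 i) (Y0 i) ≤ ℓ i / M := by
      intro i
      have h3 : B (Y0 i) (Y0 i) = (1 / (k i : ℝ)) * ((1 / (k i : ℝ)) * B (X i) (X i)) := by
        show B ((1 / (k i : ℝ)) • X i) ((1 / (k i : ℝ)) • X i) = _
        rw [map_smul, map_smul, LinearMap.smul_apply, smul_eq_mul, smul_eq_mul]
      rw [h3, ← mul_assoc, mul_one_div_cancel (hkne i), one_mul, one_div_mul_eq_div,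
        div_le_div_iff₀ (hkpos i) hMpos]
      have h4 := hBℓ i
      have h5 := hk1 i
      have h6 := hℓ0 i
      nlinarith
    have h3 : ∑ i, (k i : ℝ) * B (Y0 i) (Y0 i) ≤ r / M := by
      calc ∑ i, (k i : ℝ) * B (Y0 i) (Y0 i) ≤ ∑ i, ℓ i / M := Finset.sum_le_sum (fun i _ => h2 i)
        _ = (∑ i, ℓ i) / M := by rw [Finset.sum_div]
        _ ≤ r / M := div_le_div_of_nonneg_right hr hMpos.le
    have h4 : ∑ i, (k i : ℝ) ≤ M * r + 2 * n := by
      calc ∑ i, (k i : ℝ) ≤ ∑ i, (M * ℓ i + 2) := Finset.sum_le_sum (fun i _ => hk2 i)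
        _ = M * (∑ i, ℓ i) + 2 * n := by
            rw [Finset.sum_add_distrib, ← Finset.mul_sum]
            simp
            ring
        _ ≤ M * r + 2 * n := by
            have := mul_le_mul_of_nonneg_left hr hMpos.le
            linarith
    have h5 : 0 ≤ ∑ i, (k i : ℝ) := Finset.sum_nonneg (fun i _ => (hkpos i).le)
    have h6 : 0 ≤ r / M := div_nonneg hr0 hMpos.le
    calc (∑ i, (k i : ℝ)) * ∑ i, (k i : ℝ) * B (Y0 i) (Y0 i)
        ≤ (∑ i, (k i : ℝ)) * (r / M) := mul_le_mul_of_nonneg_left h3 h5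
      _ ≤ (M * r + 2 * n) * (r / M) := mul_le_mul_of_nonneg_right h4 h6
      _ = r ^ 2 + 2 * n * r / M := by field_simp
      _ ≤ R ^ 2 := by
          have : 2 * n * r / M ≤ R ^ 2 - r ^ 2 := by
            rw [div_le_iff₀ hMpos]
            linarith
          linarith

end HQ
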