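import Pool.Agent.Helper831.HQ.Defs
import Pool.Agent.Helper831.HQ.P_LieSet_closed_ops
import Pool.Agent.Helper831.HQ.P_exists_isometry
import Pool.Agent.Helper831.HQ.P_dG_invariant
import Pool.Agent.Helper831.HQ.P_riem_exp
import Pool.Agent.Helper831.HQ.P_word_of_curve
import Pool.Agent.Helper831.HQ.P_word_refine

open scoped Quaternion Matrix.Norms.L2Operator ENNReal
open Set MeasureTheory

noncomputable section

namespace HQ



theorem exists_biGrp {N : ℕ} (G : Subgroup (Matrix.unitaryGroup (Fin N) ℂ))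
    (hG : IsClosed (matSet G))
    (B : Matrix (Fin N) (Fin N) ℂ →ₗ[ℝ] Matrix (Fin N) (Fin N) ℂ →ₗ[ℝ] ℝ) (hB : IsBiinvariant G B) :
    ∃ (n : ℕ) (L : EuclideanSpace ℝ (Fin n) →ₗ[ℝ] Matrix (Fin N) (Fin N) ℂ)
      (e : EuclideanSpace ℝ (Fin n) → G),
      (∀ X, X ∈ LieSet G ↔ ∃ x, L x = X) ∧ (∀ x y, B (L x) (L y) = inner ℝ x y) ∧
      (∀ x, ((e x : Matrix.unitaryGroup (Fin N) ℂ) : Matrix (Fin N) (Fin N) ℂ) = NormedSpace.exp (L x)) ∧
      BiGrp (dG G B) e := by
  obtain ⟨n, L, hL, hLi⟩ := exists_isometry G hG B hB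
  have hmem : ∀ x, L x ∈ LieSet G := fun x => (hL _).2 ⟨x, rfl⟩
  have hex : ∀ x, ∃ g : G, ((g : Matrix.unitaryGroup (Fin N) ℂ) : Matrix (Fin N) (Fin N) ℂ) =
      NormedSpace.exp (L x) := by
    intro x
    have h := hmem x 1
    rw [one_smul] at h
    obtain ⟨g, hg, hgx⟩ := h
    exact ⟨⟨g, hg⟩, hgx⟩
  choose e he using hex
  have hBn : ∀ x, B (L x) (L x) = ‖x‖ ^ 2 := fun x => by
    rw [hLi, real_inner_self_eq_norm_sq]
  refine ⟨n, L, e, hL, hLi, he, ?_, ?_, ?_, ?_, ?_, ?_⟩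
  · intro s t x
    apply Subtype.ext
    apply Subtype.ext
    show ((e ((s + t) • x) : Matrix.unitaryGroup (Fin N) ℂ) : Matrix (Fin N) (Fin N) ℂ) =
      ((e (s • x) : Matrix.unitaryGroup (Fin N) ℂ) : Matrix (Fin N) (Fin N) ℂ) *
      ((e (t • x) : Matrix.unitaryGroup (Fin N) ℂ) : Matrix (Fin N) (Fin N) ℂ)
    rw [he, he, he, map_smul, map_smul, map_smul, add_smul]
    apply Matrix.exp_add_of_commute
    exact ((Commute.refl (L x)).smul_left s).smul_right t
  · intro x y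
    have h1 := riem_exp G hG B hB (L x) (L y) (hmem x) (hmem y)
    rw [← map_sub, hBn, Real.sqrt_sq (norm_nonneg _)] at h1
    unfold dG
    rw [he, he]
    exact h1
  · intro a b c
    exact (dG_invariant G hG B hB a b c).2.2
  · intro a b c
    exact (dG_invariant G hG B hB a b c).1
  · intro a b c
    exact (dG_invariant G hG B hB a b c).2.1
  · intro g h r hr hlt ε hε
    have hnt : dG G B g h ≠ ⊤ := (hlt.trans ENNReal.ofReal_lt_top).ne
    obtain ⟨q, hq⟩ : ∃ q, q = (dG G B g h).toReal := ⟨_, rfl⟩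
    have hq0 : 0 ≤ q := by rw [hq]; exact ENNReal.toReal_nonneg
    have hqe : ENNReal.ofReal q = dG G B g h := by rw [hq, ENNReal.ofReal_toReal hnt]
    rw [← hqe, ENNReal.ofReal_lt_ofReal_iff hr] at hlt
    have hr' : 0 < (q + r) / 2 := by linarith
    have hlt' : dG G B g h < ENNReal.ofReal ((q + r) / 2) := by
      rw [← hqe, ENNReal.ofReal_lt_ofReal_iff hr']
      linarith
    obtain ⟨k, X, a, hk, hX, ha, hsum, hd⟩ :=
      word_of_curve G hG B hB g h ((q + r) / 2) ε hr' hε hlt'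
    obtain ⟨m, Y, b, hm, hY, hb, hprod, hY2⟩ :=
      word_refine G B k hk X a hX ha ((q + r) / 2) r hsum (by linarith)
    have hx : ∀ i, ∃ x, L x = Y i := fun i => (hL _).1 (hY i)
    choose x hx using hx
    have heb : (fun i => e (x i)) = b := by
      funext i
      apply Subtype.ext
      apply Subtype.ext
      rw [he, hx, hb]
    refine ⟨m, x, hm, ?_, ?_⟩
    · have h1 : ∑ i, ‖x i‖ ^ 2 = ∑ i, B (Y i) (Y i) := by
        apply Finset.sum_congr rfl
        intro i _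
        rw [← hBn, hx]
      rw [h1]
      exact hY2
    · rw [heb, hprod]
      exact hd

end HQ
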