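import Pool.Agent.Helper831.HQ.Defs
import Pool.Agent.Helper831.HQ.P_matSet_basic
import Pool.Agent.Helper831.HQ.P_LieSet_closed_ops
import Pool.Agent.Helper831.HQ.P_LieSet_bracket
import Pool.Agent.Helper831.HQ.P_ad_inv

open scoped Quaternion Matrix.Norms.L2Operator ENNReal
open Set MeasureTheory

noncomputable section

namespace HQ



theorem exists_commute {N : ℕ} (G : Subgroup (Matrix.unitaryGroup (Fin N) ℂ))
    (hG : IsCompact (matSet G))
    (B : Matrix (Fin N) (Fin N) ℂ →ₗ[ℝ] Matrix (Fin N) (Fin N) ℂ →ₗ[ℝ] ℝ) (hB : IsBiinvariant G B)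
    (v w : Matrix (Fin N) (Fin N) ℂ) (hv : v ∈ LieSet G) (hw : w ∈ LieSet G) :
    ∃ k ∈ matSet G, (k * v * star k) * w = w * (k * v * star k) := by
  have hcl : IsClosed (matSet G) := hG.isClosed
  obtain ⟨h1, hmul, hstar, hun⟩ := matSet_basic G
  obtain ⟨hz0, hsmul, hadd, hconj, hconj', hLcl, hLstar⟩ := LieSet_closed_ops G hcl
  let L : Matrix (Fin N) (Fin N) ℂ →L[ℝ] ℝ := LinearMap.toContinuousLinearMap (B.flip w)
  have hL : ∀ X, L X = B X w := fun X => rfl
  have hcont : Continuous (fun k : Matrix (Fin N) (Fin N) ℂ => L (k * v * star k)) := by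
    apply L.continuous.comp
    exact (continuous_id.mul continuous_const).mul continuous_star
  obtain ⟨k, hk, hmax⟩ := hG.exists_isMaxOn ⟨1, h1⟩ hcont.continuousOn
  refine ⟨k, hk, ?_⟩
  set v' := k * v * star k with hv'
  have hv'L : v' ∈ LieSet G := hconj k hk v hv
  have key : ∀ z ∈ LieSet G, B (z * v' - v' * z) w = 0 := by
    intro z hz
    have he : HasDerivAt (fun t : ℝ => NormedSpace.exp (t • z)) z 0 := by
      have := hasDerivAt_exp_smul_const (𝕂 := ℝ) z (0 : ℝ)
      simpa using this
    have hes : HasDerivAt (fun t : ℝ => star (NormedSpace.exp (t • z))) (star z) 0 := he.star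
    have hd : HasDerivAt (fun t : ℝ => NormedSpace.exp (t • z) * v' * star (NormedSpace.exp (t • z)))
        (z * v' - v' * z) 0 := by
      have := (he.mul_const v').mul hes
      have e0 : z * v' * star (NormedSpace.exp ((0:ℝ) • z)) + NormedSpace.exp ((0:ℝ) • z) * v' * star z
          = z * v' - v' * z := by
        rw [hLstar z hz]
        simp [sub_eq_add_neg]
      rw [e0] at this
      exact this
    have hd2 : HasDerivAt (fun t : ℝ => L (NormedSpace.exp (t • z) * v' * star (NormedSpace.exp (t • z))))
        (L (z * v' - v' * z)) 0 := L.hasFDerivAt.comp_hasDerivAt 0 hd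
    have hloc : IsLocalMax (fun t : ℝ => L (NormedSpace.exp (t • z) * v' * star (NormedSpace.exp (t • z)))) 0 := by
      apply Filter.Eventually.of_forall
      intro t
      have hm : NormedSpace.exp (t • z) * k ∈ matSet G := hmul _ (hz t) _ hk
      have := hmax hm
      simp only [Set.mem_setOf_eq] at this
      simp only [zero_smul, NormedSpace.exp_zero, one_mul, star_one, mul_one]
      rw [star_mul] at this
      convert this using 2
      rw [hv']
      noncomm_ring
    have := hloc.hasDerivAt_eq_zero hd2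
    rwa [hL] at this
  have hzL : v' * w - w * v' ∈ LieSet G := LieSet_bracket G hcl v' w hv'L hw
  have e1 := key _ hzL
  have e2 := ad_inv G hcl B hB (v' * w - w * v') w v' hzL hw hv'L
  have e3 : B (v' * (v' * w - w * v') - (v' * w - w * v') * v') w = 0 := by
    have : v' * (v' * w - w * v') - (v' * w - w * v') * v' = -((v' * w - w * v') * v' - v' * (v' * w - w * v')) := by
      noncomm_ring
    rw [this, map_neg, LinearMap.neg_apply, e1, neg_zero]
  rw [e3, zero_add] at e2
  by_contra hne
  have hne' : v' * w - w * v' ≠ 0 := sub_ne_zero.mpr hne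
  exact absurd e2 (hB.pos _ hzL hne').ne'

end HQ
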