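import Pool.Agent.Helper831.HQ.Defs
import Pool.Agent.Helper831.HQ.P_LieSet_closed_ops

open scoped Quaternion Matrix.Norms.L2Operator ENNReal
open Set MeasureTheory

noncomputable section

namespace HQ



open Module.End in
/-- the Hermitian operator `i z` -/
def hqL {N : ℕ} (z : Matrix (Fin N) (Fin N) ℂ) : Module.End ℂ (EuclideanSpace ℂ (Fin N)) :=
  Matrix.toEuclideanLin (Complex.I • z)

theorem hqL_apply {N : ℕ} (z : Matrix (Fin N) (Fin N) ℂ) (v : EuclideanSpace ℂ (Fin N)) :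
    hqL z v = WithLp.toLp 2 ((Complex.I • z).mulVec (WithLp.ofLp v)) := rfl

theorem hqL_add_smul {N : ℕ} (w x : Matrix (Fin N) (Fin N) ℂ) (r : ℝ)
    (v : EuclideanSpace ℂ (Fin N)) : hqL (w + r • x) v = hqL w v + (r : ℂ) • hqL x v := by
  have h : Complex.I • (w + r • x) = Complex.I • w + (r : ℂ) • (Complex.I • x) := by
    rw [smul_add]
    congr 1
    ext i j
    simp only [Matrix.smul_apply, smul_eq_mul, Complex.real_smul]
    ring
  show Matrix.toEuclideanLin (Complex.I • (w + r • x)) v =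
    Matrix.toEuclideanLin (Complex.I • w) v + (r : ℂ) • Matrix.toEuclideanLin (Complex.I • x) v
  rw [h, map_add Matrix.toEuclideanLin (Complex.I • w) ((r : ℂ) • (Complex.I • x)),
    map_smul Matrix.toEuclideanLin (r : ℂ) (Complex.I • x)]
  rfl

theorem hqL_herm {N : ℕ} {z : Matrix (Fin N) (Fin N) ℂ} (hz : star z = -z) :
    (Complex.I • z).IsHermitian := by
  unfold Matrix.IsHermitian
  rw [Matrix.conjTranspose_smul]
  have h : z.conjTranspose = -z := hz
  rw [h]
  simp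

theorem hqL_symm {N : ℕ} {z : Matrix (Fin N) (Fin N) ℂ} (hz : star z = -z) :
    (hqL z).IsSymmetric :=
  Matrix.isSymmetric_toEuclideanLin_iff.2 (hqL_herm hz)

theorem hqL_comm {N : ℕ} {w x : Matrix (Fin N) (Fin N) ℂ} (h : x * w = w * x) :
    Commute (hqL w) (hqL x) := by
  apply LinearMap.ext
  intro v
  show hqL w (hqL x v) = hqL x (hqL w v)
  rw [hqL_apply, hqL_apply, hqL_apply, hqL_apply]
  congr 1
  simp only [Matrix.mulVec_mulVec, Matrix.smul_mul, Matrix.mul_smul]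
  rw [h]

/-- number of eigenvalues -/
def hqn {N : ℕ} (z : Matrix (Fin N) (Fin N) ℂ) : ℕ :=
  ((hqL z).finite_hasEigenvalue).toFinset.card

theorem hqn_le {N : ℕ} (z : Matrix (Fin N) (Fin N) ℂ) : hqn z ≤ N := by
  unfold hqn
  set F := ((hqL z).finite_hasEigenvalue).toFinset with hF
  have h1 : ∀ μ : F, ∃ v, (hqL z).HasEigenvector (μ : ℂ) v := by
    intro μ
    have h : (μ : ℂ) ∈ ((hqL z).finite_hasEigenvalue).toFinset := μ.2
    have h' : (hqL z).HasEigenvalue (μ : ℂ) := (Set.Finite.mem_toFinset _).1 h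
    exact h'.exists_hasEigenvector
  choose v hv using h1
  have h2 : LinearIndependent ℂ v :=
    Module.End.eigenvectors_linearIndependent' (hqL z) (fun μ : F => (μ : ℂ))
      Subtype.coe_injective v hv
  have h3 := h2.fintype_card_le_finrank
  rw [finrank_euclideanSpace, Fintype.card_fin, Fintype.card_coe] at h3
  exact h3

theorem hq_ge {N : ℕ} (z : Matrix (Fin N) (Fin N) ℂ) (F : Finset ℂ)
    (hF : ∀ μ ∈ F, (hqL z).HasEigenvalue μ) : F.card ≤ hqn z := by
  unfold hqn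
  apply Finset.card_le_card
  intro μ hμ
  rw [Set.Finite.mem_toFinset]
  exact hF μ hμ

theorem hq_eps (L : Finset (ℂ × ℂ)) : ∃ ε : ℝ, ∀ p ∈ L, ∀ q ∈ L, p ≠ q →
    p.1 + (ε : ℂ) * p.2 ≠ q.1 + (ε : ℂ) * q.2 := by
  have hfin : (⋃ p ∈ L, ⋃ q ∈ L, {ε : ℝ | p ≠ q ∧ p.1 + (ε : ℂ) * p.2 = q.1 + (ε : ℂ) * q.2}).Finite := by
    refine Set.Finite.biUnion L.finite_toSet (fun p _ => Set.Finite.biUnion L.finite_toSet
      (fun q _ => Set.Subsingleton.finite ?_))
    rintro ε ⟨hpq, h1⟩ ε' ⟨_, h2⟩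
    by_contra hne
    have hne' : ((ε : ℂ) - (ε' : ℂ)) ≠ 0 := by
      rw [sub_ne_zero]
      exact fun h => hne (by exact_mod_cast h)
    have h3 : ((ε : ℂ) - (ε' : ℂ)) * (p.2 - q.2) = 0 := by linear_combination h1 - h2
    have h4 : p.2 = q.2 := by
      rcases mul_eq_zero.1 h3 with h | h
      · exact absurd h hne'
      · exact sub_eq_zero.1 h
    have h5 : p.1 = q.1 := by
      rw [h4] at h1
      exact add_right_cancel h1
    exact hpq (Prod.ext h5 h4)
  obtain ⟨ε, hε⟩ := hfin.exists_notMem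
  refine ⟨ε, ?_⟩
  intro p hp q hq hpq h
  apply hε
  simp only [Set.mem_iUnion]
  exact ⟨p, hp, q, hq, hpq, h⟩

open Module.End in
theorem hq_unique {N : ℕ} {S : Set (Matrix (Fin N) (Fin N) ℂ)}
    (hadd : ∀ X ∈ S, ∀ Y ∈ S, X + Y ∈ S) (hsmul : ∀ (r : ℝ), ∀ X ∈ S, r • X ∈ S)
    (hskew : ∀ X ∈ S, star X = -X) {w x : Matrix (Fin N) (Fin N) ℂ} (hw : w ∈ S) (hx : x ∈ S)
    (hcomm : x * w = w * x) (hmax : ∀ z ∈ S, hqn z ≤ hqn w) (α γ₁ γ₂ : ℂ)
    (h1 : eigenspace (hqL w) α ⊓ eigenspace (hqL x) γ₁ ≠ ⊥)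
    (h2 : eigenspace (hqL w) α ⊓ eigenspace (hqL x) γ₂ ≠ ⊥) : γ₁ = γ₂ := by
  classical
  by_contra hne
  have hsup : ∀ a, (⨆ γ, eigenspace (hqL w) a ⊓ eigenspace (hqL x) γ) = eigenspace (hqL w) a :=
    fun a => (hqL_symm (hskew x hx)).iSup_eigenspace_inf_eigenspace_of_commute (hqL_comm hcomm)
  have hex : ∀ a, (hqL w).HasEigenvalue a → ∃ c, eigenspace (hqL w) a ⊓ eigenspace (hqL x) c ≠ ⊥ := by
    intro a ha
    by_contra hcon
    push Not at hcon
    have h3 := hsup a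
    simp only [hcon, iSup_bot] at h3
    exact ha h3.symm
  have hex' : ∀ a, ∃ c, (hqL w).HasEigenvalue a → eigenspace (hqL w) a ⊓ eigenspace (hqL x) c ≠ ⊥ := by
    intro a
    by_cases ha : (hqL w).HasEigenvalue a
    · obtain ⟨c, hc⟩ := hex a ha
      exact ⟨c, fun _ => hc⟩
    · exact ⟨0, fun h => absurd h ha⟩
  choose c hc using hex'
  obtain ⟨δ, hδ, hδc⟩ : ∃ δ, eigenspace (hqL w) α ⊓ eigenspace (hqL x) δ ≠ ⊥ ∧ δ ≠ c α := by
    by_cases h : γ₁ = c α
    · exact ⟨γ₂, h2, fun h' => hne (h.trans h'.symm)⟩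
    · exact ⟨γ₁, h1, h⟩
  set F := ((hqL w).finite_hasEigenvalue).toFinset with hF
  set L : Finset (ℂ × ℂ) := insert (α, δ) (F.image (fun a => (a, c a))) with hL
  have hLcard : L.card = F.card + 1 := by
    rw [hL, Finset.card_insert_of_notMem, Finset.card_image_of_injective]
    · intro a b hab
      exact congrArg Prod.fst hab
    · intro hmem
      rw [Finset.mem_image] at hmem
      obtain ⟨a, _, ha⟩ := hmem
      have e1 : a = α := congrArg Prod.fst ha
      have e2 : c a = δ := congrArg Prod.snd ha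
      rw [e1] at e2
      exact hδc e2.symm
  have hLv : ∀ p ∈ L, ∃ v : EuclideanSpace ℂ (Fin N), v ≠ 0 ∧ hqL w v = p.1 • v ∧ hqL x v = p.2 • v := by
    have key : ∀ a b : ℂ, eigenspace (hqL w) a ⊓ eigenspace (hqL x) b ≠ ⊥ →
        ∃ v : EuclideanSpace ℂ (Fin N), v ≠ 0 ∧ hqL w v = a • v ∧ hqL x v = b • v := by
      intro a b hab
      obtain ⟨v, hv, hv0⟩ := Submodule.exists_mem_ne_zero_of_ne_bot hab
      exact ⟨v, hv0, mem_eigenspace_iff.1 hv.1, mem_eigenspace_iff.1 hv.2⟩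
    intro p hp
    rw [hL, Finset.mem_insert, Finset.mem_image] at hp
    rcases hp with rfl | ⟨a, ha, rfl⟩
    · exact key α δ hδ
    · rw [hF, Set.Finite.mem_toFinset] at ha
      exact key a (c a) (hc a ha)
  obtain ⟨ε, hε⟩ := hq_eps L
  have hz : w + ε • x ∈ S := hadd w hw _ (hsmul ε x hx)
  have hbig : (L.image (fun p => p.1 + (ε : ℂ) * p.2)).card ≤ hqn (w + ε • x) := by
    apply hq_ge
    intro μ hμ
    rw [Finset.mem_image] at hμ
    obtain ⟨p, hp, rfl⟩ := hμ
    obtain ⟨v, hv0, hv1, hv2⟩ := hLv p hp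
    apply hasEigenvalue_of_hasEigenvector (x := v)
    refine ⟨mem_eigenspace_iff.2 ?_, hv0⟩
    rw [hqL_add_smul, hv1, hv2, smul_smul, ← add_smul]
  rw [Finset.card_image_of_injOn] at hbig
  · have h3 := hmax _ hz
    have h4 : hqn w = F.card := rfl
    omega
  · intro p hp q hq hpq
    by_contra hne'
    exact hε p hp q hq hne' hpq

open Module.End in
theorem hq_scalar {N : ℕ} {S : Set (Matrix (Fin N) (Fin N) ℂ)}
    (hadd : ∀ X ∈ S, ∀ Y ∈ S, X + Y ∈ S) (hsmul : ∀ (r : ℝ), ∀ X ∈ S, r • X ∈ S)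
    (hskew : ∀ X ∈ S, star X = -X) {w x : Matrix (Fin N) (Fin N) ℂ} (hw : w ∈ S) (hx : x ∈ S)
    (hcomm : x * w = w * x) (hmax : ∀ z ∈ S, hqn z ≤ hqn w) (α : ℂ) :
    ∃ γ : ℂ, ∀ v, hqL w v = α • v → hqL x v = γ • v := by
  have hsup : (⨆ γ, eigenspace (hqL w) α ⊓ eigenspace (hqL x) γ) = eigenspace (hqL w) α :=
    (hqL_symm (hskew x hx)).iSup_eigenspace_inf_eigenspace_of_commute (hqL_comm hcomm)
  by_cases h : ∃ γ, eigenspace (hqL w) α ⊓ eigenspace (hqL x) γ ≠ ⊥
  · obtain ⟨γ, hγ⟩ := h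
    refine ⟨γ, ?_⟩
    intro v hv
    have hle : eigenspace (hqL w) α ≤ eigenspace (hqL x) γ := by
      rw [← hsup]
      apply iSup_le
      intro γ'
      by_cases h' : eigenspace (hqL w) α ⊓ eigenspace (hqL x) γ' = ⊥
      · rw [h']
        exact bot_le
      · have := hq_unique hadd hsmul hskew hw hx hcomm hmax α γ' γ h' hγ
        rw [this]
        exact inf_le_right
    exact mem_eigenspace_iff.1 (hle (mem_eigenspace_iff.2 hv))
  · push Not at h
    refine ⟨0, ?_⟩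
    intro v hv
    simp only [h, iSup_bot] at hsup
    have hv' : v ∈ eigenspace (hqL w) α := mem_eigenspace_iff.2 hv
    rw [← hsup, Submodule.mem_bot] at hv'
    rw [hv', map_zero, smul_zero]

theorem exists_regular {N : ℕ} (G : Subgroup (Matrix.unitaryGroup (Fin N) ℂ))
    (hG : IsClosed (matSet G)) : ∃ w ∈ LieSet G, ∃ u ∈ Matrix.unitaryGroup (Fin N) ℂ,
      ∀ x ∈ LieSet G, x * w = w * x → ∃ l : Fin N → ℝ, x = Xd u l := by
  classical
  obtain ⟨g0, g1, g2, _, _, _, g6⟩ := LieSet_closed_ops G hG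
  have hP : ∃ w ∈ LieSet G, ∀ z ∈ LieSet G, hqn z ≤ hqn w := by
    have h1 : (fun n => ∃ z ∈ LieSet G, hqn z = n) (Nat.findGreatest (fun n => ∃ z ∈ LieSet G, hqn z = n) N) :=
      Nat.findGreatest_spec (P := fun n => ∃ z ∈ LieSet G, hqn z = n) (hqn_le 0) ⟨0, g0, rfl⟩
    obtain ⟨w, hw, hwn⟩ := h1
    refine ⟨w, hw, ?_⟩
    intro z hz
    rw [hwn]
    exact Nat.le_findGreatest (hqn_le z) ⟨z, hz, rfl⟩
  obtain ⟨w, hw, hmax⟩ := hP
  have hA := hqL_herm (g6 w hw)
  refine ⟨w, hw, (hA.eigenvectorUnitary : Matrix (Fin N) (Fin N) ℂ), hA.eigenvectorUnitary.2, ?_⟩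
  intro x hx hcomm
  have hsc := fun j => hq_scalar g2 g1 g6 hw hx hcomm hmax ((hA.eigenvalues j : ℝ) : ℂ)
  choose γ hγ using hsc
  have hcol : ∀ j, (Complex.I • x).mulVec (WithLp.ofLp (hA.eigenvectorBasis j)) =
      γ j • WithLp.ofLp (hA.eigenvectorBasis j) := by
    intro j
    have h1 : hqL w (hA.eigenvectorBasis j) = ((hA.eigenvalues j : ℝ) : ℂ) • hA.eigenvectorBasis j := by
      rw [hqL_apply, hA.mulVec_eigenvectorBasis]
      ext i
      simp
    have h2 := hγ j _ h1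
    rw [hqL_apply] at h2
    have h3 := congrArg WithLp.ofLp h2
    simpa using h3
  set u : Matrix (Fin N) (Fin N) ℂ := (hA.eigenvectorUnitary : Matrix (Fin N) (Fin N) ℂ) with hu
  have huu : u * star u = 1 := by
    have := hA.eigenvectorUnitary.2
    exact (Matrix.mem_unitaryGroup_iff).1 this
  have huu' : star u * u = 1 := by
    have := hA.eigenvectorUnitary.2
    exact (Matrix.mem_unitaryGroup_iff').1 this
  have hxu : (Complex.I • x) * u = u * Matrix.diagonal γ := by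
    ext i j
    rw [Matrix.mul_diagonal]
    have h1 := congrFun (hcol j) i
    have h2 : (Complex.I • x).mulVec (WithLp.ofLp (hA.eigenvectorBasis j)) i = ((Complex.I • x) * u) i j := by
      rw [Matrix.mul_apply, Matrix.mulVec, dotProduct]
      rfl
    rw [← h2, h1]
    show γ j * u i j = u i j * γ j
    ring
  have hdiag : Matrix.diagonal γ = star u * (Complex.I • x) * u := by
    rw [mul_assoc, hxu, ← mul_assoc, huu', one_mul]
  have hHx : (Complex.I • x).IsHermitian := hqL_herm (g6 x hx)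
  have hreal : ∀ j, γ j = ((γ j).re : ℂ) := by
    intro j
    have h1 : star (Matrix.diagonal γ) = Matrix.diagonal γ := by
      rw [hdiag, star_mul, star_mul, star_star]
      have : star (Complex.I • x) = Complex.I • x := hHx
      rw [this, mul_assoc]
    have h2 := congrFun (congrFun h1 j) j
    rw [Matrix.star_apply, Matrix.diagonal_apply_eq] at h2
    exact (Complex.conj_eq_iff_real.1 h2).elim (fun r hr => by rw [hr]; simp)
  refine ⟨fun j => -(γ j).re, ?_⟩
  have hx1 : Complex.I • x = u * Matrix.diagonal γ * star u := by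
    rw [← hxu, mul_assoc, huu, mul_one]
  have hx2 : x = (-Complex.I) • (Complex.I • x) := by
    rw [smul_smul]
    simp
  have hd2 : (-Complex.I) • Matrix.diagonal γ =
      Matrix.diagonal (fun j => (((-(γ j).re : ℝ) : ℂ) * Complex.I)) := by
    ext i j
    rw [Matrix.smul_apply, Matrix.diagonal_apply, Matrix.diagonal_apply]
    split_ifs with h
    · rw [smul_eq_mul]
      conv_lhs => rw [hreal i]
      push_cast
      ring
    · simp
  unfold Xd
  rw [hx2, hx1, ← hd2, Matrix.mul_smul, Matrix.smul_mul]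

end HQ
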