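import Pool.Agent.Helper831.HQ.Defs

open scoped Quaternion Matrix.Norms.L2Operator ENNReal
open Set MeasureTheory

noncomputable section

namespace HQ



/-- the imaginary part of the control -/
def exIm (ξ : C(Set.Icc (0 : ℝ) 1, ℍ)) : C(Set.Icc (0 : ℝ) 1, ℍ) :=
  ⟨fun t => (ξ t).im, Quaternion.continuous_im.comp ξ.continuous⟩

/-- integrand of the weighted Picard operator -/
def exG (K : ℝ) (η d : C(Set.Icc (0 : ℝ) 1, ℍ)) (s : ℝ) : ℍ :=
  Real.exp (2 * K * s) • (d (projIcc 0 1 zero_le_one s) * η (projIcc 0 1 zero_le_one s))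

theorem exG_cont (K : ℝ) (η d : C(Set.Icc (0 : ℝ) 1, ℍ)) : Continuous (exG K η d) := by
  unfold exG
  have h1 : Continuous fun s : ℝ => d (projIcc 0 1 zero_le_one s) :=
    d.continuous.comp continuous_projIcc
  have h2 : Continuous fun s : ℝ => η (projIcc 0 1 zero_le_one s) :=
    η.continuous.comp continuous_projIcc
  fun_prop

theorem exG_prim (K : ℝ) (η d : C(Set.Icc (0 : ℝ) 1, ℍ)) :
    Continuous fun t : ℝ => ∫ s in (0 : ℝ)..t, exG K η d s :=
  intervalIntegral.continuous_primitive (fun a b => (exG_cont K η d).intervalIntegrable a b) 0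

/-- weighted Picard operator -/
def exT (K : ℝ) (η d : C(Set.Icc (0 : ℝ) 1, ℍ)) : C(Set.Icc (0 : ℝ) 1, ℍ) :=
  ⟨fun t => Real.exp (-(2 * K * (t : ℝ))) • (1 + ∫ s in (0 : ℝ)..(t : ℝ), exG K η d s), by
    have h := (exG_prim K η d).comp (continuous_subtype_val (p := fun t : ℝ => t ∈ Icc (0 : ℝ) 1))
    have h' : Continuous fun t : Set.Icc (0 : ℝ) 1 => ∫ s in (0 : ℝ)..(t : ℝ), exG K η d s := h
    fun_prop⟩

theorem exT_contr (K : ℝ) (hK : 0 < K) (η : C(Set.Icc (0 : ℝ) 1, ℍ)) (hη : ‖η‖ ≤ K) :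
    ContractingWith (1 / 2) (exT K η) := by
  refine ⟨by rw [one_div]; exact inv_lt_one_of_one_lt₀ (by norm_num), ?_⟩
  refine LipschitzWith.of_dist_le_mul (fun d d' => ?_)
  have hD : 0 ≤ dist d d' := dist_nonneg
  have hcoe : (((1 / 2 : NNReal)) : ℝ) = 1 / 2 := by norm_num
  rw [hcoe]
  rw [ContinuousMap.dist_le (by positivity)]
  intro t
  have ht0 : (0 : ℝ) ≤ (t : ℝ) := t.2.1
  rw [dist_eq_norm]
  have hsub : exT K η d t - exT K η d' t =
      Real.exp (-(2 * K * (t : ℝ))) • ∫ s in (0 : ℝ)..(t : ℝ), (exG K η d s - exG K η d' s) := by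
    rw [intervalIntegral.integral_sub ((exG_cont K η d).intervalIntegrable _ _)
      ((exG_cont K η d').intervalIntegrable _ _)]
    show Real.exp (-(2 * K * (t : ℝ))) • (1 + ∫ s in (0 : ℝ)..(t : ℝ), exG K η d s) -
      Real.exp (-(2 * K * (t : ℝ))) • (1 + ∫ s in (0 : ℝ)..(t : ℝ), exG K η d' s) = _
    rw [← smul_sub]
    congr 1
    abel
  rw [hsub, norm_smul, Real.norm_eq_abs, Real.abs_exp]
  have hbd : ‖∫ s in (0 : ℝ)..(t : ℝ), (exG K η d s - exG K η d' s)‖ ≤
      ∫ s in (0 : ℝ)..(t : ℝ), (dist d d' / 2) * (Real.exp (2 * K * s) * (2 * K)) := by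
    refine intervalIntegral.norm_integral_le_of_norm_le ht0 ?_ ?_
    · refine Filter.Eventually.of_forall (fun s _ => ?_)
      have h1 : exG K η d s - exG K η d' s = Real.exp (2 * K * s) •
          ((d (projIcc 0 1 zero_le_one s) - d' (projIcc 0 1 zero_le_one s)) *
            η (projIcc 0 1 zero_le_one s)) := by
        unfold exG
        rw [← smul_sub, sub_mul]
      rw [h1, norm_smul, Real.norm_eq_abs, Real.abs_exp, norm_mul]
      have h2 : ‖d (projIcc 0 1 zero_le_one s) - d' (projIcc 0 1 zero_le_one s)‖ ≤ dist d d' := by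
        rw [← dist_eq_norm]
        exact ContinuousMap.dist_apply_le_dist _
      have h3 : ‖η (projIcc 0 1 zero_le_one s)‖ ≤ K := (η.norm_coe_le_norm _).trans hη
      have h4 := Real.exp_pos (2 * K * s)
      calc Real.exp (2 * K * s) * (‖d (projIcc 0 1 zero_le_one s) - d' (projIcc 0 1 zero_le_one s)‖ *
            ‖η (projIcc 0 1 zero_le_one s)‖) ≤ Real.exp (2 * K * s) * (dist d d' * K) := by
            gcongr
        _ = (dist d d' / 2) * (Real.exp (2 * K * s) * (2 * K)) := by ring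
    · exact Continuous.intervalIntegrable (by fun_prop) _ _
  have hint : ∫ s in (0 : ℝ)..(t : ℝ), (dist d d' / 2) * (Real.exp (2 * K * s) * (2 * K)) =
      (dist d d' / 2) * (Real.exp (2 * K * (t : ℝ)) - 1) := by
    rw [intervalIntegral.integral_const_mul]
    congr 1
    have h5 : ∀ s ∈ uIcc (0 : ℝ) (t : ℝ), HasDerivAt (fun s : ℝ => Real.exp (2 * K * s))
        (Real.exp (2 * K * s) * (2 * K)) s := by
      intro s _
      have h6 : HasDerivAt (fun s : ℝ => 2 * K * s) (2 * K) s := by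
        simpa using (hasDerivAt_id s).const_mul (2 * K)
      exact h6.exp
    rw [intervalIntegral.integral_eq_sub_of_hasDerivAt h5
      (Continuous.intervalIntegrable (by fun_prop) _ _)]
    simp
  rw [hint] at hbd
  have h7 : Real.exp (-(2 * K * (t : ℝ))) * Real.exp (2 * K * (t : ℝ)) = 1 := by
    rw [← Real.exp_add]; simp
  have h8 := Real.exp_pos (-(2 * K * (t : ℝ)))
  calc Real.exp (-(2 * K * (t : ℝ))) * ‖∫ s in (0 : ℝ)..(t : ℝ), (exG K η d s - exG K η d' s)‖
      ≤ Real.exp (-(2 * K * (t : ℝ))) * ((dist d d' / 2) * (Real.exp (2 * K * (t : ℝ)) - 1)) :=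
        mul_le_mul_of_nonneg_left hbd h8.le
    _ = (dist d d' / 2) * (Real.exp (-(2 * K * (t : ℝ))) * Real.exp (2 * K * (t : ℝ))) -
        (dist d d' / 2) * Real.exp (-(2 * K * (t : ℝ))) := by ring
    _ ≤ 1 / 2 * dist d d' := by
        rw [h7]
        have : 0 ≤ (dist d d' / 2) * Real.exp (-(2 * K * (t : ℝ))) := by positivity
        linarith

theorem exists_sol (ξ : C(Set.Icc (0 : ℝ) 1, ℍ)) : ∃ c : ℝ → ℍ, IsSol ξ c := by
  set K : ℝ := ‖exIm ξ‖ + 1 with hKdef
  have hK : 0 < K := by positivity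
  have hη : ‖exIm ξ‖ ≤ K := by linarith
  have hc := exT_contr K hK (exIm ξ) hη
  obtain ⟨d, hd, -⟩ := hc.exists_fixedPoint (0 : C(Set.Icc (0 : ℝ) 1, ℍ)) (edist_ne_top _ _)
  refine ⟨fun t => 1 + ∫ s in (0 : ℝ)..t, exG K (exIm ξ) d s, by simp, ?_⟩
  intro t ht
  have hder : HasDerivAt (fun t : ℝ => 1 + ∫ s in (0 : ℝ)..t, exG K (exIm ξ) d s)
      (exG K (exIm ξ) d t) t :=
    (((exG_cont K (exIm ξ) d).integral_hasStrictDerivAt 0 t).hasDerivAt).const_add 1
  have hfix : Real.exp (2 * K * t) • d (projIcc 0 1 zero_le_one t) =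
      1 + ∫ s in (0 : ℝ)..t, exG K (exIm ξ) d s := by
    have h1 : d (projIcc 0 1 zero_le_one t) = exT K (exIm ξ) d (projIcc 0 1 zero_le_one t) := by
      conv_lhs => rw [← hd]
    rw [h1]
    show Real.exp (2 * K * t) • (Real.exp (-(2 * K * ((projIcc 0 1 zero_le_one t : Set.Icc (0:ℝ) 1) : ℝ))) •
      (1 + ∫ s in (0 : ℝ)..((projIcc 0 1 zero_le_one t : Set.Icc (0:ℝ) 1) : ℝ), exG K (exIm ξ) d s)) = _
    rw [projIcc_of_mem zero_le_one ht, smul_smul, ← Real.exp_add]
    simp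
  have hval : exG K (exIm ξ) d t =
      (1 + ∫ s in (0 : ℝ)..t, exG K (exIm ξ) d s) * (ξ (projIcc 0 1 zero_le_one t)).im := by
    rw [← hfix]
    unfold exG
    rw [smul_mul_assoc]
    rfl
  rw [hval] at hder
  exact hder.hasDerivWithinAt

end HQ
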