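import Pool.Agent.Helper831.HQ.Defs
import Pool.Agent.Helper831.HQ.P_E_basic
import Pool.Agent.Helper831.HQ.P_exists_log

open scoped Quaternion Matrix.Norms.L2Operator ENNReal
open Set MeasureTheory

noncomputable section

namespace HQ



theorem im_eq_self' {Z : ℍ} (h : Z.re = 0) : Z.im = Z := by
  have := Quaternion.re_add_im Z
  rw [h] at this
  simpa using this

theorem isSol_const' {Z : ℍ} (h : Z.re = 0) :
    IsSol (ContinuousMap.const _ Z) (fun t : ℝ => NormedSpace.exp (t • Z)) := by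
  refine ⟨by simp, fun t _ => ?_⟩
  have h1 : HasDerivAt (fun t : ℝ => NormedSpace.exp (t • Z)) (NormedSpace.exp (t • Z) * Z) t :=
    hasDerivAt_exp_smul_const Z t
  rw [ContinuousMap.const_apply, im_eq_self' h]
  exact h1.hasDerivWithinAt

theorem end_surj (q : ℍ × ℍ) (hq : q ∈ S33) : ∃ x : Ctrl, IsEnd x q := by
  obtain ⟨Z1, hZ1, -, h1⟩ := (exists_log 1 q.1 norm_one hq.1).1
  obtain ⟨Z2, hZ2, -, h2⟩ := (exists_log 1 q.2 norm_one hq.2).1
  refine ⟨(ContinuousMap.const _ Z1, ContinuousMap.const _ Z2, 0), _, _, isSol_const' hZ1,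
    isSol_const' hZ2, ?_⟩
  have hE : E 0 = 1 := E_basic.2.2.1
  rw [one_mul] at h1 h2
  refine Prod.ext ?_ ?_
  · show q.1 = NormedSpace.exp ((1 : ℝ) • Z1) * E (-0)
    rw [neg_zero, hE, mul_one, one_smul, h1]
  · show q.2 = NormedSpace.exp ((1 : ℝ) • Z2) * E (-(√2 * 0))
    rw [mul_zero, neg_zero, hE, mul_one, one_smul, h2]

end HQ
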