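import Pool.Agent.Helper831.HQ.Defs
import Pool.Agent.Helper831.HQ.P_dM_eq
import Pool.Agent.Helper831.HQ.P_dF_metric
import Pool.Agent.Helper831.HQ.P_exists_sol
import Pool.Agent.Helper831.HQ.P_end_dist
import Pool.Agent.Helper831.HQ.P_end_surj
import Pool.Agent.Helper831.HQ.P_ctrl_move

open scoped Quaternion Matrix.Norms.L2Operator ENNReal
open Set MeasureTheory

noncomputable section

namespace HQ



/-- the space `S³ × S³` with the metric `dF` -/
def HpRS : Type := S33

/-- underlying pair of quaternions -/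
def HpRS.val (p : HpRS) : ℍ × ℍ := (show S33 from p).1

theorem HpRS.mem (p : HpRS) : p.val ∈ S33 := (show S33 from p).2

/-- constructor -/
def HpRS.mk (q : ℍ × ℍ) (h : q ∈ S33) : HpRS := (⟨q, h⟩ : S33)

theorem HpRS.val_mk (q : ℍ × ℍ) (h : q ∈ S33) : (HpRS.mk q h).val = q := rfl

theorem HpRS.ext' {p q : HpRS} (h : p.val = q.val) : p = q := Subtype.ext h

theorem hp_eq_of_dF_le {p q : ℍ × ℍ} (hp : p ∈ S33) (hq : q ∈ S33) (h : dF p q ≤ 0) : p = q := by
  have h1 := dF_metric p q q hp hq hq
  have e1 : ‖p.1 - q.1‖ ≤ 0 := by linarith [h1.2.2.2.2.1]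
  have e2 : ‖p.2 - q.2‖ ≤ 0 := by linarith [h1.2.2.2.2.2]
  have e1' := norm_le_zero_iff.1 e1
  have e2' := norm_le_zero_iff.1 e2
  exact Prod.ext (sub_eq_zero.1 e1') (sub_eq_zero.1 e2')

instance : MetricSpace HpRS where
  dist p q := dF p.val q.val
  dist_self p := (dF_metric p.val p.val p.val p.mem p.mem p.mem).2.1
  dist_comm p q := (dF_metric p.val q.val q.val p.mem q.mem q.mem).2.2.1
  dist_triangle p q r := (dF_metric p.val q.val r.val p.mem q.mem r.mem).2.2.2.1
  eq_of_dist_eq_zero := by
    intro p q h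
    exact HpRS.ext' (hp_eq_of_dF_le p.mem q.mem (le_of_eq h))

theorem HpRS.dist_eq (p q : HpRS) : dist p q = dF p.val q.val := rfl

theorem hp_E_zero : E 0 = 1 := by
  unfold E
  simp only [Real.cos_zero, Real.sin_zero]
  rfl

theorem hp_dF_le_ang (p q : ℍ × ℍ) : dF p q ≤ √(ang p.1 q.1 ^ 2 + ang p.2 q.2 ^ 2) := by
  unfold dF
  refine (ciInf_le ⟨0, ?_⟩ (0 : ℝ)).trans (le_of_eq ?_)
  · rintro _ ⟨θ, rfl⟩
    exact Real.sqrt_nonneg _
  · rw [mul_zero, hp_E_zero, mul_one, mul_one]
    congr 1
    ring

instance : CompleteSpace HpRS := by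
  apply Metric.complete_of_cauchySeq_tendsto
  intro u hu
  have hc : CauchySeq (fun n => (u n).val) := by
    rw [Metric.cauchySeq_iff] at hu ⊢
    intro ε hε
    obtain ⟨N, hN⟩ := hu (ε / 4) (by positivity)
    refine ⟨N, fun m hm n hn => ?_⟩
    have h1 := hN m hm n hn
    rw [HpRS.dist_eq] at h1
    have h2 := dF_metric (u m).val (u n).val (u n).val (u m).mem (u n).mem (u n).mem
    rw [Prod.dist_eq, dist_eq_norm, dist_eq_norm]
    apply max_lt
    · have := h2.2.2.2.2.1
      have h0 := h2.1
      linarith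
    · have := h2.2.2.2.2.2
      have h0 := h2.1
      linarith
  obtain ⟨a, ha⟩ := cauchySeq_tendsto_of_complete hc
  have hclosed : IsClosed S33 := by
    have : S33 = {q : ℍ × ℍ | ‖q.1‖ = 1} ∩ {q : ℍ × ℍ | ‖q.2‖ = 1} := rfl
    rw [this]
    exact (isClosed_eq (continuous_fst.norm) continuous_const).inter
      (isClosed_eq (continuous_snd.norm) continuous_const)
  have haS : a ∈ S33 := hclosed.mem_of_tendsto ha (Filter.Eventually.of_forall fun n => (u n).mem)
  refine ⟨HpRS.mk a haS, ?_⟩
  rw [tendsto_iff_dist_tendsto_zero]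
  have ha1 : a.1 ≠ 0 := by
    intro h
    have := haS.1
    rw [h, norm_zero] at this
    exact zero_ne_one this
  have ha2 : a.2 ≠ 0 := by
    intro h
    have := haS.2
    rw [h, norm_zero] at this
    exact zero_ne_one this
  have t1 : Filter.Tendsto (fun n => ang (u n).val.1 a.1) Filter.atTop (nhds 0) := by
    have hca := InnerProductGeometry.continuousAt_angle (x := (a.1, a.1)) ha1 ha1
    have h1 : Filter.Tendsto (fun n => ((u n).val.1, a.1)) Filter.atTop (nhds (a.1, a.1)) :=
      ((continuous_fst.tendsto a).comp ha).prodMk_nhds tendsto_const_nhds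
    have h2 := hca.tendsto.comp h1
    have h3 : InnerProductGeometry.angle a.1 a.1 = 0 := InnerProductGeometry.angle_self ha1
    simp only [h3] at h2
    exact h2
  have t2 : Filter.Tendsto (fun n => ang (u n).val.2 a.2) Filter.atTop (nhds 0) := by
    have hca := InnerProductGeometry.continuousAt_angle (x := (a.2, a.2)) ha2 ha2
    have h1 : Filter.Tendsto (fun n => ((u n).val.2, a.2)) Filter.atTop (nhds (a.2, a.2)) :=
      ((continuous_snd.tendsto a).comp ha).prodMk_nhds tendsto_const_nhds
    have h2 := hca.tendsto.comp h1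
    have h3 : InnerProductGeometry.angle a.2 a.2 = 0 := InnerProductGeometry.angle_self ha2
    simp only [h3] at h2
    exact h2
  have t3 : Filter.Tendsto (fun n => √(ang (u n).val.1 a.1 ^ 2 + ang (u n).val.2 a.2 ^ 2))
      Filter.atTop (nhds 0) := by
    have h := ((t1.pow 2).add (t2.pow 2)).sqrt
    simpa using h
  refine squeeze_zero (fun n => dist_nonneg) (fun n => ?_) t3
  exact hp_dF_le_ang _ _

theorem hp_exists_end (x : Ctrl) : ∃ q : ℍ × ℍ, IsEnd x q := by
  obtain ⟨c₁, h1⟩ := exists_sol x.1
  obtain ⟨c₂, h2⟩ := exists_sol x.2.1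
  exact ⟨_, c₁, c₂, h1, h2, rfl⟩

/-- the endpoint map -/
def hpPhi0 (x : Ctrl) : HpRS :=
  HpRS.mk (hp_exists_end x).choose (end_dist x x _ _ (hp_exists_end x).choose_spec
    (hp_exists_end x).choose_spec).2

theorem hpPhi0_spec (x : Ctrl) : IsEnd x (hpPhi0 x).val := (hp_exists_end x).choose_spec

theorem hpPhi0_eq {x : Ctrl} {q : ℍ × ℍ} (h : IsEnd x q) : (hpPhi0 x).val = q := by
  have h1 := end_dist x x _ _ (hpPhi0_spec x) h
  have h2 := end_dist x x _ _ h h
  refine hp_eq_of_dF_le h1.2 h2.2 ?_
  simpa using h1.1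

theorem hpPhi0_lip : LipschitzWith 1 hpPhi0 := by
  apply LipschitzWith.of_dist_le_mul
  intro x y
  rw [HpRS.dist_eq, dist_eq_norm, NNReal.coe_one, one_mul]
  exact (end_dist x y _ _ (hpPhi0_spec x) (hpPhi0_spec y)).1

/-- the extension to the completion -/
def hpPhi : UniformSpace.Completion Ctrl → HpRS := UniformSpace.Completion.extension hpPhi0

theorem hpPhi_coe (x : Ctrl) : hpPhi (x : UniformSpace.Completion Ctrl) = hpPhi0 x :=
  UniformSpace.Completion.extension_coe hpPhi0_lip.uniformContinuous x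

theorem hpPhi_lip : LipschitzWith 1 hpPhi := hpPhi0_lip.completion_extension

/-- the group of isometries preserving the endpoint -/
def HpGam : Subgroup (Equiv.Perm (UniformSpace.Completion Ctrl)) where
  carrier := {γ | Isometry γ ∧ ∀ x, hpPhi (γ x) = hpPhi x}
  one_mem' := ⟨isometry_id, fun x => rfl⟩
  mul_mem' := by
    rintro a b ⟨ha, ha'⟩ ⟨hb, hb'⟩
    refine ⟨ha.comp hb, fun x => ?_⟩
    rw [Equiv.Perm.mul_apply, ha', hb']
  inv_mem' := by
    rintro a ⟨ha, ha'⟩
    refine ⟨?_, fun x => ?_⟩
    · intro x y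
      have := ha (a⁻¹ x) (a⁻¹ y)
      have e : ∀ z, a (a⁻¹ z) = z := fun z => Equiv.apply_symm_apply a z
      rw [e, e] at this
      exact this.symm
    · have := ha' (a⁻¹ x)
      have e : ∀ z, a (a⁻¹ z) = z := fun z => Equiv.apply_symm_apply a z
      rw [e] at this
      exact this.symm

theorem hp_mem_Gam (γ : Equiv.Perm (UniformSpace.Completion Ctrl)) :
    γ ∈ HpGam ↔ Isometry γ ∧ ∀ x, hpPhi (γ x) = hpPhi x := Iff.rfl

theorem hp_exists_ext_Gam (γ : Ctrl ≃ Ctrl) (h1 : ∀ u v, ‖γ u - γ v‖ = ‖u - v‖)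
    (h2 : ∀ u r, IsEnd u r → IsEnd (γ u) r) :
    ∃ g ∈ HpGam, ∀ u : Ctrl, g (u : UniformSpace.Completion Ctrl) = (γ u : Ctrl) := by
  have hi : Isometry γ := Isometry.of_dist_eq (fun u v => by
    rw [dist_eq_norm, dist_eq_norm]; exact h1 u v)
  have hi' : Isometry γ.symm := Isometry.of_dist_eq (fun u v => by
    have := hi.dist_eq (γ.symm u) (γ.symm v)
    rw [Equiv.apply_symm_apply, Equiv.apply_symm_apply] at this
    exact this.symm)
  have e1 : UniformSpace.Completion.map γ.symm ∘ UniformSpace.Completion.map γ = id := by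
    rw [UniformSpace.Completion.map_comp hi'.uniformContinuous hi.uniformContinuous]
    simp
  have e2 : UniformSpace.Completion.map γ ∘ UniformSpace.Completion.map γ.symm = id := by
    rw [UniformSpace.Completion.map_comp hi.uniformContinuous hi'.uniformContinuous]
    simp
  refine ⟨⟨UniformSpace.Completion.map γ, UniformSpace.Completion.map γ.symm,
    fun x => congrFun e1 x, fun x => congrFun e2 x⟩, ⟨hi.completion_map, ?_⟩, ?_⟩
  · intro x
    have h3 : hpPhi ∘ UniformSpace.Completion.map γ = hpPhi := by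
      apply UniformSpace.Completion.ext (hpPhi_lip.continuous.comp
        UniformSpace.Completion.continuous_map) hpPhi_lip.continuous
      intro u
      rw [Function.comp_apply, UniformSpace.Completion.map_coe hi.uniformContinuous, hpPhi_coe,
        hpPhi_coe]
      exact HpRS.ext' (hpPhi0_eq (h2 u _ (hpPhi0_spec u)))
    exact congrFun h3 x
  · intro u
    exact UniformSpace.Completion.map_coe hi.uniformContinuous u

theorem hilbert_part : ∃ Γ : Subgroup (Equiv.Perm (UniformSpace.Completion Ctrl)),
    IsIsometryGroup (fun x y => edist x y) Γ ∧ IsQuotient (fun x y => edist x y) Γ dM := by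
  refine ⟨HpGam, ?_, ?_⟩
  · intro γ hγ x y
    exact hγ.1 x y
  · refine ⟨hpPhi, ?_, ?_⟩
    · intro p
      obtain ⟨x, hx⟩ := end_surj p.1 p.2
      refine ⟨(x : UniformSpace.Completion Ctrl), ?_⟩
      rw [hpPhi_coe]
      exact HpRS.ext' (hpPhi0_eq hx)
    · intro x y
      have e : dM (hpPhi x) (hpPhi y) = edist (hpPhi x) (hpPhi y) :=
        (dM_eq (hpPhi x) (hpPhi y)).trans (edist_dist (hpPhi x) (hpPhi y)).symm
      refine e.trans ?_
      apply le_antisymm
      · refine le_iInf fun γ => le_iInf fun hγ => ?_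
        rw [← hγ.2 y]
        have := hpPhi_lip x (γ y)
        simpa using this
      · apply ENNReal.le_of_forall_pos_le_add
        intro ε hε _
        have hε' : (0 : ℝ) < ε := by exact_mod_cast hε
        obtain ⟨x', hx'⟩ := UniformSpace.Completion.denseRange_coe.exists_dist_lt x
          (show (0 : ℝ) < ε / 5 by positivity)
        obtain ⟨y', hy'⟩ := UniformSpace.Completion.denseRange_coe.exists_dist_lt y
          (show (0 : ℝ) < ε / 5 by positivity)
        obtain ⟨γ, g1, g2, g3⟩ := ctrl_move x' y' _ _ (hpPhi0_spec x') (hpPhi0_spec y') (ε / 5)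
          (by positivity)
        obtain ⟨g, hg, hg2⟩ := hp_exists_ext_Gam γ g1 g2
        refine (iInf₂_le g hg).trans ?_
        have a1 : dist x (g y) ≤ dist x (x' : UniformSpace.Completion Ctrl) +
            dist (x' : UniformSpace.Completion Ctrl) (g (y' : UniformSpace.Completion Ctrl)) +
            dist (g (y' : UniformSpace.Completion Ctrl)) (g y) := dist_triangle4 _ _ _ _
        have a2 : dist (g (y' : UniformSpace.Completion Ctrl)) (g y) =
            dist (y' : UniformSpace.Completion Ctrl) y := hg.1.dist_eq _ _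
        have a3 : dist (x' : UniformSpace.Completion Ctrl)
            (g (y' : UniformSpace.Completion Ctrl)) = ‖x' - γ y'‖ := by
          rw [hg2, UniformSpace.Completion.dist_eq, dist_eq_norm]
        have a4 : dF (hpPhi0 x').val (hpPhi0 y').val = dist (hpPhi (x' : UniformSpace.Completion Ctrl))
            (hpPhi (y' : UniformSpace.Completion Ctrl)) := by
          rw [hpPhi_coe, hpPhi_coe]; rfl
        have a5 : dist (hpPhi (x' : UniformSpace.Completion Ctrl))
            (hpPhi (y' : UniformSpace.Completion Ctrl)) ≤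
            dist (hpPhi (x' : UniformSpace.Completion Ctrl)) (hpPhi x) + dist (hpPhi x) (hpPhi y) +
            dist (hpPhi y) (hpPhi (y' : UniformSpace.Completion Ctrl)) := dist_triangle4 _ _ _ _
        have a6 : dist (hpPhi (x' : UniformSpace.Completion Ctrl)) (hpPhi x) ≤
            dist (x' : UniformSpace.Completion Ctrl) x := by
          have := hpPhi_lip.dist_le_mul (x' : UniformSpace.Completion Ctrl) x
          simpa using this
        have a7 : dist (hpPhi y) (hpPhi (y' : UniformSpace.Completion Ctrl)) ≤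
            dist y (y' : UniformSpace.Completion Ctrl) := by
          have := hpPhi_lip.dist_le_mul y (y' : UniformSpace.Completion Ctrl)
          simpa using this
        rw [dist_comm (x' : UniformSpace.Completion Ctrl) x] at a6
        rw [dist_comm (y' : UniformSpace.Completion Ctrl) y] at a2
        have a8 : dist x (g y) ≤ dist (hpPhi x) (hpPhi y) + ε := by
          rw [a2, a3] at a1
          rw [a4] at g3
          linarith
        show edist x (g y) ≤ _
        rw [edist_dist, edist_dist]
        have : (ε : ENNReal) = ENNReal.ofReal ε := (ENNReal.ofReal_coe_nnreal).symm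
        rw [this, ← ENNReal.ofReal_add dist_nonneg hε'.le]
        exact ENNReal.ofReal_le_ofReal a8

end HQ
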