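import Pool.Agent.Helper831.HQ.Defs
import Pool.Agent.Helper831.HQ.P_kron

open scoped Quaternion Matrix.Norms.L2Operator ENNReal
open Set MeasureTheory

noncomputable section

namespace HQ



theorem kron_strong_near (θ ε : ℝ) (hε : 0 < ε)
    (h : ‖Complex.exp ((θ : ℂ) * Complex.I) - 1‖ < ε / 2) :
    ∃ k : ℤ, |θ - 2 * Real.pi * k| < ε := by
  have hπ := Real.pi_pos
  have h1 := Complex.norm_exp_I_mul_ofReal_sub_one θ
  rw [mul_comm] at h1
  rw [h1, Real.norm_eq_abs, abs_mul, abs_two] at h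
  refine ⟨round (θ / (2 * Real.pi)), ?_⟩
  have h2 := abs_sub_round (θ / (2 * Real.pi))
  generalize round (θ / (2 * Real.pi)) = k at h2 ⊢
  obtain ⟨r, hr⟩ : ∃ r, r = θ - 2 * Real.pi * k := ⟨_, rfl⟩
  rw [← hr]
  have h3 : |r| ≤ Real.pi := by
    have e : r = 2 * Real.pi * (θ / (2 * Real.pi) - k) := by
      rw [hr]
      field_simp
    rw [e, abs_mul, abs_of_pos (by positivity)]
    calc 2 * Real.pi * |θ / (2 * Real.pi) - k| ≤ 2 * Real.pi * (1 / 2) :=
          mul_le_mul_of_nonneg_left h2 (by positivity)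
      _ = Real.pi := by ring
  have h4 : |Real.sin (θ / 2)| = |Real.sin (r / 2)| := by
    have e : θ / 2 = r / 2 + k * Real.pi := by
      rw [hr]
      ring
    rw [e, Real.sin_add_int_mul_pi, abs_mul, abs_zpow, abs_neg, abs_one, one_zpow, one_mul]
  have h5 : |r / 2| ≤ Real.pi / 2 := by
    rw [abs_div, abs_two]
    linarith
  have h6 := Real.mul_abs_le_abs_sin h5
  rw [← h4, abs_div, abs_two] at h6
  have h7 : 2 / Real.pi * (|r| / 2) = |r| / Real.pi := by
    field_simp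
  rw [h7] at h6
  have h8 : |r| / Real.pi < ε / 4 := by linarith
  rw [div_lt_iff₀ hπ] at h8
  have h9 := Real.pi_lt_four
  nlinarith

theorem kron_strong (n : ℕ) (v w : Fin n → ℝ)
    (h : ∀ m : Fin n → ℤ, ∑ j, (m j : ℝ) * v j = 0 → ∑ j, (m j : ℝ) * w j = 0) (ε : ℝ) (hε : 0 < ε) :
    ∃ (t : ℝ) (k : Fin n → ℤ),
      (∀ m : Fin n → ℤ, ∑ j, (m j : ℝ) * v j = 0 → ∑ j, (m j : ℝ) * (k j : ℝ) = 0) ∧
      ∀ j, |t * v j - w j - 2 * Real.pi * k j| < ε := by
  classical
  let φ : (Fin n → ℤ) →ₗ[ℤ] ℝ :=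
    { toFun := fun m => ∑ j, (m j : ℝ) * v j
      map_add' := by
        intro m m'
        rw [← Finset.sum_add_distrib]
        refine Finset.sum_congr rfl fun j _ => ?_
        rw [Pi.add_apply]
        push_cast
        ring
      map_smul' := by
        intro c m
        rw [RingHom.id_apply, Finset.smul_sum]
        refine Finset.sum_congr rfl fun j _ => ?_
        rw [Pi.smul_apply, smul_eq_mul, zsmul_eq_mul]
        push_cast
        ring }
  obtain ⟨S, hS⟩ := (IsNoetherian.noetherian (LinearMap.ker φ))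
  have hSv : ∀ m ∈ S, ∑ j, (m j : ℝ) * v j = 0 := by
    intro m hm
    have h1 : m ∈ LinearMap.ker φ := by
      rw [← hS]
      exact Submodule.subset_span hm
    exact h1
  obtain ⟨C, hC⟩ : ∃ C : ℝ, C = 1 + ∑ m ∈ S, ∑ j, |(m j : ℝ)| := ⟨_, rfl⟩
  have hC1 : 1 ≤ C := by
    rw [hC]
    have : 0 ≤ ∑ m ∈ S, ∑ j, |(m j : ℝ)| :=
      Finset.sum_nonneg fun m _ => Finset.sum_nonneg fun j _ => abs_nonneg _
    linarith
  have hCm : ∀ m ∈ S, ∑ j, |(m j : ℝ)| ≤ C := by
    intro m hm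
    rw [hC]
    have := Finset.single_le_sum (f := fun m : Fin n → ℤ => ∑ j, |(m j : ℝ)|)
      (fun m _ => Finset.sum_nonneg fun j _ => abs_nonneg _) hm
    linarith
  obtain ⟨δ, hδ⟩ : ∃ δ : ℝ, δ = min ε (1 / C) := ⟨_, rfl⟩
  have hδ0 : 0 < δ := by
    rw [hδ]
    exact lt_min hε (by positivity)
  have hδC : C * δ ≤ 1 := by
    have h1 : δ ≤ 1 / C := by
      rw [hδ]
      exact min_le_right _ _
    calc C * δ ≤ C * (1 / C) := mul_le_mul_of_nonneg_left h1 (by linarith)
      _ = 1 := by field_simp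
  obtain ⟨t, ht⟩ := kron n v w h (δ / 2) (by linarith)
  choose k hk using fun j => kron_strong_near (t * v j - w j) δ hδ0 (ht j)
  refine ⟨t, k, ?_, fun j => lt_of_lt_of_le (hk j) (hδ ▸ min_le_left _ _)⟩
  let ψ : (Fin n → ℤ) →ₗ[ℤ] ℤ :=
    { toFun := fun m => ∑ j, m j * k j
      map_add' := by
        intro m m'
        rw [← Finset.sum_add_distrib]
        refine Finset.sum_congr rfl fun j _ => ?_
        rw [Pi.add_apply]
        ring
      map_smul' := by
        intro c m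
        rw [RingHom.id_apply, smul_eq_mul, Finset.mul_sum]
        refine Finset.sum_congr rfl fun j _ => ?_
        rw [Pi.smul_apply, smul_eq_mul]
        ring }
  have hSψ : ∀ m ∈ S, ψ m = 0 := by
    intro m hm
    by_contra hne
    have e1 : ∑ j, (m j : ℝ) * (t * v j - w j - 2 * Real.pi * k j) =
        -(2 * Real.pi * ((ψ m : ℤ) : ℝ)) := by
      have e2 : ((ψ m : ℤ) : ℝ) = ∑ j, (m j : ℝ) * (k j : ℝ) := by
        change (((∑ j, m j * k j : ℤ)) : ℝ) = _
        push_cast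
        rfl
      have e3 : ∀ j, (m j : ℝ) * (t * v j - w j - 2 * Real.pi * k j) =
          t * ((m j : ℝ) * v j) - (m j : ℝ) * w j - 2 * Real.pi * ((m j : ℝ) * (k j : ℝ)) := by
        intro j
        ring
      simp_rw [e3]
      rw [Finset.sum_sub_distrib, Finset.sum_sub_distrib, ← Finset.mul_sum, ← Finset.mul_sum,
        hSv m hm, h m (hSv m hm), e2]
      ring
    have e2 : |∑ j, (m j : ℝ) * (t * v j - w j - 2 * Real.pi * k j)| ≤ 1 := by
      calc |∑ j, (m j : ℝ) * (t * v j - w j - 2 * Real.pi * k j)|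
          ≤ ∑ j, |(m j : ℝ) * (t * v j - w j - 2 * Real.pi * k j)| := Finset.abs_sum_le_sum_abs _ _
        _ ≤ ∑ j, |(m j : ℝ)| * δ := by
            refine Finset.sum_le_sum fun j _ => ?_
            rw [abs_mul]
            exact mul_le_mul_of_nonneg_left (hk j).le (abs_nonneg _)
        _ = (∑ j, |(m j : ℝ)|) * δ := by rw [Finset.sum_mul]
        _ ≤ C * δ := mul_le_mul_of_nonneg_right (hCm m hm) hδ0.le
        _ ≤ 1 := hδC
    rw [e1, abs_neg, abs_mul, abs_of_pos Real.two_pi_pos] at e2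
    have e3 : (1 : ℝ) ≤ |((ψ m : ℤ) : ℝ)| := by
      rw [← Int.cast_abs]
      exact_mod_cast Int.one_le_abs hne
    have e4 := Real.pi_gt_three
    nlinarith
  intro m hm
  have h1 : m ∈ LinearMap.ker φ := hm
  have h2 : LinearMap.ker φ ≤ LinearMap.ker ψ := by
    rw [← hS, Submodule.span_le]
    exact fun m hm => hSψ m hm
  have h3 : ψ m = 0 := h2 h1
  have h4 : (((∑ j, m j * k j : ℤ)) : ℝ) = 0 := by
    change ∑ j, m j * k j = 0 at h3
    rw [h3]
    simp
  push_cast at h4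
  exact h4

end HQ
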