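import Pool.Agent.Helper831.HQ.Defs

open scoped Quaternion Matrix.Norms.L2Operator ENNReal
open Set MeasureTheory

noncomputable section

namespace HQ



theorem word_basic {G : Type*} [Group G] {d : G → G → ℝ≥0∞} {V : Type*} [NormedAddCommGroup V]
    [InnerProductSpace ℝ V] {e : V → G} (h : BiGrp d e) : e 0 = 1 ∧ (∀ a, d a a = 0) ∧
    (∀ x, e (-x) = (e x)⁻¹) ∧
    (∀ (n : ℕ) (x : V), (List.ofFn (fun _ : Fin n => e x)).prod = e ((n : ℝ) • x)) ∧
    (∀ (n : ℕ) (b : Fin n → ℝ) (u : V), (List.ofFn (fun i => e (b i • u))).prod = e ((∑ i, b i) • u)) ∧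
    (∀ (n : ℕ) (x y : Fin n → V), d (List.ofFn (fun i => e (x i))).prod (List.ofFn (fun i => e (y i))).prod
      ≤ ENNReal.ofReal (∑ i, ‖x i - y i‖)) := by
  have h0 : e 0 = 1 := by
    have h1 := h.e_add 0 0 0
    simp only [smul_zero] at h1
    exact (left_eq_mul.1 h1)
  have hd : ∀ a, d a a = 0 := by
    intro a
    have h1 := h.left a 1 1
    rw [mul_one] at h1
    rw [h1]
    have h2 := h.d_exp 0 0
    rw [h0, sub_zero, norm_zero, ENNReal.ofReal_zero] at h2
    exact le_antisymm h2 bot_le
  have hneg : ∀ x, e (-x) = (e x)⁻¹ := by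
    intro x
    have h1 := h.e_add 1 (-1) x
    rw [add_neg_cancel, zero_smul, one_smul, neg_smul, one_smul, h0] at h1
    exact eq_inv_of_mul_eq_one_right h1.symm
  have hdir : ∀ (n : ℕ) (b : Fin n → ℝ) (u : V),
      (List.ofFn (fun i => e (b i • u))).prod = e ((∑ i, b i) • u) := by
    intro n
    induction n with
    | zero =>
      intro b u
      simp [h0]
    | succ n ih =>
      intro b u
      rw [List.ofFn_succ, List.prod_cons, Fin.sum_univ_succ, h.e_add, ih]
  refine ⟨h0, hd, hneg, ?_, hdir, ?_⟩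
  · intro n x
    have h1 := hdir n (fun _ => 1) x
    simpa using h1
  · intro n
    induction n with
    | zero =>
      intro x y
      simp [hd]
    | succ n ih =>
      intro x y
      rw [List.ofFn_succ, List.prod_cons, List.ofFn_succ, List.prod_cons, Fin.sum_univ_succ,
        ENNReal.ofReal_add (norm_nonneg _) (Finset.sum_nonneg fun i _ => norm_nonneg _)]
      refine (h.tri _ (e (x 0) * (List.ofFn (fun i : Fin n => e (y i.succ))).prod) _).trans ?_
      rw [h.left, h.right, add_comm]
      exact add_le_add (h.d_exp _ _) (ih (fun i => x i.succ) (fun i => y i.succ))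

end HQ
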