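import Pool.Agent.Helper831.HQ.Defs
import Pool.Agent.Helper831.HQ.P_word_basic

open scoped Quaternion Matrix.Norms.L2Operator ENNReal
open Set MeasureTheory

noncomputable section

namespace HQ



theorem word_variance {G : Type*} [Group G] {d : G → G → ℝ≥0∞} {V : Type*} [NormedAddCommGroup V]
    [InnerProductSpace ℝ V] {e : V → G} (h : BiGrp d e) {M : Type*} [MetricSpace M] (f : G → M)
    (hlip : ∀ x y, ENNReal.ofReal (dist (f x) (f y)) ≤ d x y) (g : G) (n : ℕ) (hn : 0 < n)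
    (x : Fin n → V) (u : V) (hu : ‖u‖ = 1) :
    dist (f g) (f (g * (List.ofFn (fun i => e (x i))).prod)) ^ 2 +
      n * ∑ i, (inner ℝ (x i - (n : ℝ)⁻¹ • ∑ j, x j) u) ^ 2 ≤ n * ∑ i, ‖x i‖ ^ 2 := by
  obtain ⟨h0, -, -, -, h5, h6⟩ := word_basic h
  have hn' : (n : ℝ) ≠ 0 := by exact_mod_cast hn.ne'
  obtain ⟨b, hb⟩ : ∃ b : Fin n → ℝ, b = fun i => inner ℝ (x i - (n : ℝ)⁻¹ • ∑ j, x j) u := ⟨_, rfl⟩
  obtain ⟨c, hc⟩ : ∃ c : ℝ, c = inner ℝ ((n : ℝ)⁻¹ • ∑ j, x j) u := ⟨_, rfl⟩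
  have hbi : ∀ i, inner ℝ (x i) u = b i + c := by
    intro i
    rw [hb, hc]
    simp only
    rw [inner_sub_left]
    ring
  have hsum : ∑ i, b i = 0 := by
    rw [hb]
    simp only
    rw [← sum_inner, Finset.sum_sub_distrib, Finset.sum_const, Finset.card_univ, Fintype.card_fin,
      ← Nat.cast_smul_eq_nsmul ℝ, smul_smul, mul_inv_cancel₀ hn', one_smul, sub_self, inner_zero_left]
  have hw : (List.ofFn (fun i => e (b i • u))).prod = 1 := by
    rw [h5, hsum, zero_smul, h0]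
  have hD : dist (f g) (f (g * (List.ofFn (fun i => e (x i))).prod)) ≤ ∑ i, ‖b i • u - x i‖ := by
    have hS : 0 ≤ ∑ i, ‖b i • u - x i‖ := Finset.sum_nonneg fun i _ => norm_nonneg _
    rw [← ENNReal.ofReal_le_ofReal_iff hS]
    calc ENNReal.ofReal (dist (f g) (f (g * (List.ofFn (fun i => e (x i))).prod)))
        ≤ d g (g * (List.ofFn (fun i => e (x i))).prod) := hlip _ _
      _ = d (g * (List.ofFn (fun i => e (b i • u))).prod) (g * (List.ofFn (fun i => e (x i))).prod) := by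
          rw [hw, mul_one]
      _ = d (List.ofFn (fun i => e (b i • u))).prod (List.ofFn (fun i => e (x i))).prod := h.left _ _ _
      _ ≤ ENNReal.ofReal (∑ i, ‖b i • u - x i‖) := h6 n _ _
  have hD2 : dist (f g) (f (g * (List.ofFn (fun i => e (x i))).prod)) ^ 2 ≤
      n * ∑ i, ‖b i • u - x i‖ ^ 2 := by
    have h7 : (∑ i, ‖b i • u - x i‖) ^ 2 ≤ (Finset.univ : Finset (Fin n)).card * ∑ i, ‖b i • u - x i‖ ^ 2 :=
      sq_sum_le_card_mul_sum_sq
    rw [Finset.card_univ, Fintype.card_fin] at h7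
    exact (pow_le_pow_left₀ dist_nonneg hD 2).trans h7
  have hsq : ∀ i, ‖b i • u - x i‖ ^ 2 = ‖x i‖ ^ 2 - b i ^ 2 - 2 * c * b i := by
    intro i
    rw [norm_sub_sq_real, norm_smul, hu, inner_smul_left, real_inner_comm, hbi i, mul_one,
      Real.norm_eq_abs, sq_abs]
    simp only [conj_trivial]
    ring
  have hsum2 : ∑ i, ‖b i • u - x i‖ ^ 2 = ∑ i, ‖x i‖ ^ 2 - ∑ i, b i ^ 2 := by
    rw [Finset.sum_congr rfl fun i _ => hsq i, Finset.sum_sub_distrib, Finset.sum_sub_distrib,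
      ← Finset.mul_sum, hsum, mul_zero, sub_zero]
  rw [hsum2] at hD2
  have hbb : ∑ i, (inner ℝ (x i - (n : ℝ)⁻¹ • ∑ j, x j) u) ^ 2 = ∑ i, b i ^ 2 := by
    rw [hb]
  rw [hbb]
  linarith

end HQ
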