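import Pool.Agent.Helper831.HQ.Defs
import Pool.Agent.Helper831.HQ.P_word_basic
import Pool.Agent.Helper831.HQ.P_word_variance

open scoped Quaternion Matrix.Norms.L2Operator ENNReal
open Set MeasureTheory

noncomputable section

namespace HQ



/-! helper lemmas for `step_exists` -/

theorem SE_cs {V : Type*} [NormedAddCommGroup V] {n : ℕ} (x : Fin n → V) :
    (∑ i, ‖x i‖) ^ 2 ≤ n * ∑ i, ‖x i‖ ^ 2 := by
  have h := sq_sum_le_card_mul_sum_sq (s := (Finset.univ : Finset (Fin n))) (f := fun i => ‖x i‖)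
  simpa using h

theorem SE_lip {G : Type*} [Group G] {d : G → G → ℝ≥0∞} {V : Type*} [NormedAddCommGroup V]
    [InnerProductSpace ℝ V] {e : V → G} (h : BiGrp d e) {M : Type*}
    [MetricSpace M] (f : G → M)
    (hlip : ∀ x y, ENNReal.ofReal (dist (f x) (f y)) ≤ d x y) (g : G) (x y : V) :
    dist (f (g * e x)) (f (g * e y)) ≤ ‖x - y‖ := by
  have h1 := hlip (g * e x) (g * e y)
  rw [h.left] at h1
  exact (ENNReal.ofReal_le_ofReal_iff (norm_nonneg _)).mp (h1.trans (h.d_exp x y))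

theorem SE_approx {G : Type*} [Group G] {d : G → G → ℝ≥0∞} {V : Type*} [NormedAddCommGroup V]
    [InnerProductSpace ℝ V] [FiniteDimensional ℝ V] {e : V → G} (h : BiGrp d e) {M : Type*}
    [MetricSpace M] (f : G → M)
    (hlip : ∀ x y, ENNReal.ofReal (dist (f x) (f y)) ≤ d x y)
    (hsub : ∀ (x : G) (q : M) (ε : ℝ), 0 < ε → ∃ y, f y = q ∧ d x y < ENNReal.ofReal (dist (f x) q + ε))
    (g : G) (q : M) (ε : ℝ) (hε : 0 < ε) :
    ∃ v : V, ‖v‖ ≤ dist (f g) q + ε ∧ dist (f (g * e v)) q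
      ≤ ε + √(Module.finrank ℝ V * (4 * dist (f g) q * ε + 8 * ε ^ 2)) := by
  set D := dist (f g) q with hD
  have hD0 : 0 ≤ D := dist_nonneg
  obtain ⟨y, hy, hdy⟩ := hsub g q ε hε
  obtain ⟨n, x, hn, hx, hw⟩ := h.word g y (D + ε) (by linarith) hdy ε hε
  set w := (List.ofFn (fun i => e (x i))).prod with hwdef
  set μ : V := (n : ℝ)⁻¹ • ∑ j, x j with hμ
  have hn0 : (0 : ℝ) < n := by exact_mod_cast hn
  -- distance from `f (g * w)` to `q`
  have h1 : dist (f (g * w)) q ≤ ε := by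
    rw [← hy]
    exact (ENNReal.ofReal_le_ofReal_iff hε.le).mp ((hlip _ _).trans hw)
  set t := dist (f g) (f (g * w)) with ht
  have ht0 : 0 ≤ t := dist_nonneg
  have h2 : D ≤ t + ε := (dist_triangle (f g) (f (g * w)) q).trans (by linarith)
  have h3 : t ≤ D + ε := by
    have := dist_triangle (f g) q (f (g * w))
    rw [dist_comm q] at this
    linarith
  -- the variance
  have h4 : ∀ k : Fin (Module.finrank ℝ V), n * ∑ i, (inner ℝ (x i - μ) (stdOrthonormalBasis ℝ V k)) ^ 2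
      ≤ 4 * D * ε + 8 * ε ^ 2 := by
    intro k
    have h5 := word_variance h f hlip g n hn x (stdOrthonormalBasis ℝ V k)
      ((stdOrthonormalBasis ℝ V).orthonormal.1 k)
    rw [← hμ, ← hwdef, ← ht] at h5
    nlinarith
  have h6 : n * ∑ i, ‖x i - μ‖ ^ 2 ≤ Module.finrank ℝ V * (4 * D * ε + 8 * ε ^ 2) := by
    have h7 : ∀ i, ‖x i - μ‖ ^ 2 = ∑ k, (inner ℝ (x i - μ) (stdOrthonormalBasis ℝ V k)) ^ 2 :=
      fun i => ((stdOrthonormalBasis ℝ V).sum_sq_inner_left (x i - μ)).symm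
    calc n * ∑ i, ‖x i - μ‖ ^ 2
        = ∑ k, n * ∑ i, (inner ℝ (x i - μ) (stdOrthonormalBasis ℝ V k)) ^ 2 := by
          simp only [h7]
          rw [Finset.sum_comm, Finset.mul_sum]
      _ ≤ ∑ k : Fin (Module.finrank ℝ V), (4 * D * ε + 8 * ε ^ 2) :=
          Finset.sum_le_sum (fun k _ => h4 k)
      _ = _ := by simp [mul_add]
  have h8 : ∑ i, ‖x i - μ‖ ≤ √(Module.finrank ℝ V * (4 * D * ε + 8 * ε ^ 2)) :=
    Real.le_sqrt_of_sq_le ((SE_cs (fun i => x i - μ)).trans h6)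
  obtain ⟨-, -, -, hb4, -, hb6⟩ := word_basic h
  refine ⟨∑ i, x i, ?_, ?_⟩
  · have h9 : (∑ i, ‖x i‖) ^ 2 ≤ (D + ε) ^ 2 := (SE_cs x).trans hx
    have h10 : ∑ i, ‖x i‖ ≤ D + ε := by
      have := abs_le_of_sq_le_sq h9 (by linarith)
      exact (abs_le.mp this).2
    exact (norm_sum_le _ _).trans h10
  · have h11 : (n : ℝ) • μ = ∑ i, x i := by
      rw [hμ, smul_smul, mul_inv_cancel₀ hn0.ne', one_smul]
    have h12 : d w (e (∑ i, x i)) ≤ ENNReal.ofReal (∑ i, ‖x i - μ‖) := by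
      have h13 := hb6 n x (fun _ => μ)
      rw [hb4 n μ, h11] at h13
      exact h13
    have h14 : dist (f (g * w)) (f (g * e (∑ i, x i))) ≤ ∑ i, ‖x i - μ‖ := by
      have h15 := hlip (g * w) (g * e (∑ i, x i))
      rw [h.left] at h15
      exact (ENNReal.ofReal_le_ofReal_iff (Finset.sum_nonneg (fun i _ => norm_nonneg _))).mp
        (h15.trans h12)
    have h16 := dist_triangle (f (g * e (∑ i, x i))) (f (g * w)) q
    rw [dist_comm (f (g * e (∑ i, x i))) (f (g * w))] at h16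
    linarith

theorem step_exists {G : Type*} [Group G] {d : G → G → ℝ≥0∞} {V : Type*} [NormedAddCommGroup V]
    [InnerProductSpace ℝ V] [FiniteDimensional ℝ V] {e : V → G} (h : BiGrp d e) {M : Type*}
    [MetricSpace M] (f : G → M)
    (hlip : ∀ x y, ENNReal.ofReal (dist (f x) (f y)) ≤ d x y)
    (hsub : ∀ (x : G) (q : M) (ε : ℝ), 0 < ε → ∃ y, f y = q ∧ d x y < ENNReal.ofReal (dist (f x) q + ε))
    (g : G) (q : M) : ∃ v : V, ‖v‖ = dist (f g) q ∧ f (g * e v) = q := by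
  obtain ⟨hb1, -⟩ := word_basic h
  set D := dist (f g) q with hD
  have hD0 : 0 ≤ D := dist_nonneg
  have hε : ∀ k : ℕ, (0 : ℝ) < 1 / ((k : ℝ) + 1) := fun k => by positivity
  choose v hv1 hv2 using fun k : ℕ => SE_approx h f hlip hsub g q (1 / ((k : ℝ) + 1)) (hε k)
  have hball : ∀ k, v k ∈ Metric.closedBall (0 : V) (D + 1) := by
    intro k
    rw [mem_closedBall_zero_iff]
    refine (hv1 k).trans ?_
    have : 1 / ((k : ℝ) + 1) ≤ 1 := by
      rw [div_le_one (by positivity)]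
      have : (0 : ℝ) ≤ k := Nat.cast_nonneg k
      linarith
    linarith
  obtain ⟨a, -, φ, hφ, hlim⟩ := (isCompact_closedBall (0 : V) (D + 1)).tendsto_subseq hball
  have hε0 : Filter.Tendsto (fun k => 1 / (((φ k : ℕ) : ℝ) + 1)) Filter.atTop (nhds 0) :=
    tendsto_one_div_add_atTop_nhds_zero_nat.comp hφ.tendsto_atTop
  have hcont : Continuous (fun x : V => f (g * e x)) := by
    refine (LipschitzWith.of_dist_le_mul (K := 1) (fun x y => ?_)).continuous
    rw [NNReal.coe_one, one_mul, dist_eq_norm x y]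
    exact SE_lip h f hlip g x y
  have hfa : f (g * e a) = q := by
    have h1 : Filter.Tendsto (fun k => dist (f (g * e (v (φ k)))) q) Filter.atTop
        (nhds (dist (f (g * e a)) q)) :=
      ((hcont.tendsto a).comp hlim).dist tendsto_const_nhds
    have h2 : Filter.Tendsto (fun k => 1 / (((φ k : ℕ) : ℝ) + 1) +
        √(Module.finrank ℝ V * (4 * D * (1 / (((φ k : ℕ) : ℝ) + 1))
          + 8 * (1 / (((φ k : ℕ) : ℝ) + 1)) ^ 2))) Filter.atTop (nhds 0) := by
      have h3 : Filter.Tendsto (fun s : ℝ => s + √(Module.finrank ℝ V * (4 * D * s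
          + 8 * s ^ 2))) (nhds 0) (nhds 0) := by
        have h4 : Continuous (fun s : ℝ => s + √(Module.finrank ℝ V * (4 * D * s
          + 8 * s ^ 2))) := by fun_prop
        have h5 := h4.tendsto 0
        simpa using h5
      exact h3.comp hε0
    have h6 : dist (f (g * e a)) q ≤ 0 := le_of_tendsto_of_tendsto' h1 h2 (fun k => hv2 (φ k))
    exact dist_le_zero.mp h6
  refine ⟨a, le_antisymm ?_ ?_, hfa⟩
  · have h1 : Filter.Tendsto (fun k => ‖v (φ k)‖) Filter.atTop (nhds ‖a‖) := hlim.norm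
    have h2 : Filter.Tendsto (fun k => D + 1 / (((φ k : ℕ) : ℝ) + 1)) Filter.atTop
        (nhds (D + 0)) := tendsto_const_nhds.add hε0
    rw [add_zero] at h2
    exact le_of_tendsto_of_tendsto' h1 h2 (fun k => hv1 (φ k))
  · have h1 := SE_lip h f hlip g 0 a
    rw [hb1, mul_one, hfa, zero_sub, norm_neg] at h1
    exact h1

end HQ
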