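import Pool.Agent.Helper831.HQ.Defs
import Pool.Agent.Helper831.HQ.P_word_basic
import Pool.Agent.Helper831.HQ.P_step_exists

open scoped Quaternion Matrix.Norms.L2Operator ENNReal
open Set MeasureTheory

noncomputable section

namespace HQ



theorem lift_geodesic {G : Type*} [Group G] {d : G → G → ℝ≥0∞} {V : Type*} [NormedAddCommGroup V]
    [InnerProductSpace ℝ V] [FiniteDimensional ℝ V] {e : V → G} (h : BiGrp d e) {M : Type*}
    [MetricSpace M] (f : G → M)
    (hlip : ∀ x y, ENNReal.ofReal (dist (f x) (f y)) ≤ d x y)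
    (hsub : ∀ (x : G) (q : M) (ε : ℝ), 0 < ε → ∃ y, f y = q ∧ d x y < ENNReal.ofReal (dist (f x) q + ε))
    (γ : ℝ → M) (N δ : ℝ) (hN : 0 < N) (hδ : 0 < δ)
    (hγ : ∀ s t, |s - t| ≤ δ → dist (γ s) (γ t) = N * |s - t|) (g : G) (hg : f g = γ 0) :
    ∃ v : V, ‖v‖ = N ∧ ∀ t : ℝ, f (g * e (t • v)) = γ t := by
  obtain ⟨e0, -, eneg, -, -, -⟩ := word_basic h
  have hL : ∀ (g : G) (x y : V), dist (f (g * e x)) (f (g * e y)) ≤ ‖x - y‖ := by
    intro g x y
    have h1 := (hlip (g * e x) (g * e y)).trans ((h.left g (e x) (e y)).le.trans (h.d_exp x y))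
    exact (ENNReal.ofReal_le_ofReal_iff (norm_nonneg _)).1 h1
  have hadd : ∀ (g : G) (s t : ℝ) (x : V), g * e (s • x) * e (t • x) = g * e ((s + t) • x) := by
    intro g s t x
    rw [h.e_add, mul_assoc]
  have he1 : ∀ (g : G) (s : ℝ) (x : V), g * e (s • x) * e x = g * e ((s + 1) • x) := by
    intro g s x
    have h1 := hadd g s 1 x
    rwa [one_smul] at h1
  have he2 : ∀ (g : G) (s : ℝ) (x : V), g * e (s • x) * e (-x) = g * e ((s - 1) • x) := by
    intro g s x
    have h1 := hadd g s (-1) x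
    rwa [neg_one_smul, ← sub_eq_add_neg] at h1
  have key : ∀ (g : G) (t0 δ' : ℝ) (a b : V), 0 < δ' → δ' ≤ δ / 2 →
      f (g * e (-a)) = γ (t0 - δ') → f (g * e b) = γ (t0 + δ') → ‖a‖ = N * δ' → ‖b‖ = N * δ' →
      a = b := by
    intro g t0 δ' a b h0 h1 ha hb hna hnb
    have h2 : dist (γ (t0 - δ')) (γ (t0 + δ')) = N * (2 * δ') := by
      have h7 : |t0 - δ' - (t0 + δ')| = 2 * δ' := by
        rw [show t0 - δ' - (t0 + δ') = -(2 * δ') by ring, abs_neg, abs_of_pos (by linarith)]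
      rw [hγ _ _ (by rw [h7]; linarith), h7]
    have h3 := hL g (-a) b
    rw [ha, hb, h2] at h3
    have h4 : ‖-a - b‖ = ‖a + b‖ := by
      rw [← norm_neg]
      congr 1
      abel
    rw [h4] at h3
    have h5 := parallelogram_law_with_norm ℝ a b
    have h8 : 0 ≤ N * (2 * δ') := by positivity
    have h9 : N * (2 * δ') * (N * (2 * δ')) ≤ ‖a + b‖ * ‖a + b‖ := mul_self_le_mul_self h8 h3
    have h6 : ‖a - b‖ * ‖a - b‖ ≤ 0 := by
      rw [hna, hnb] at h5
      nlinarith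
    have h7 : ‖a - b‖ = 0 := by
      have := mul_self_nonneg ‖a - b‖
      exact mul_self_eq_zero.1 (le_antisymm h6 this)
    exact sub_eq_zero.1 (norm_eq_zero.1 h7)
  have step : ∀ (g : G) (t0 δ' : ℝ), 0 < δ' → δ' ≤ δ / 2 → f g = γ t0 →
      ∃ v : V, ‖v‖ = N * δ' ∧ f (g * e v) = γ (t0 + δ') ∧ f (g * e (-v)) = γ (t0 - δ') := by
    intro g t0 δ' h0 h1 hg
    obtain ⟨v, hv1, hv2⟩ := step_exists h f hlip hsub g (γ (t0 + δ'))
    obtain ⟨v', hv1', hv2'⟩ := step_exists h f hlip hsub g (γ (t0 - δ'))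
    have a1 : |t0 - (t0 + δ')| = δ' := by
      rw [show t0 - (t0 + δ') = -δ' by ring, abs_neg, abs_of_pos h0]
    have a2 : |t0 - (t0 - δ')| = δ' := by
      rw [show t0 - (t0 - δ') = δ' by ring, abs_of_pos h0]
    have n1 : ‖v‖ = N * δ' := by
      rw [hv1, hg, hγ _ _ (by rw [a1]; linarith), a1]
    have n2 : ‖v'‖ = N * δ' := by
      rw [hv1', hg, hγ _ _ (by rw [a2]; linarith), a2]
    have h2 := key g t0 δ' (-v') v h0 h1 (by rw [neg_neg]; exact hv2') hv2
      (by rw [norm_neg]; exact n2) n1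
    refine ⟨v, n1, hv2, ?_⟩
    rw [← h2, neg_neg]
    exact hv2'
  have chain : ∀ (g : G) (t0 δ' : ℝ) (v : V), 0 < δ' → δ' ≤ δ / 2 → f g = γ t0 → ‖v‖ = N * δ' →
      f (g * e v) = γ (t0 + δ') → ∀ k : ℤ, f (g * e ((k : ℝ) • v)) = γ (t0 + k * δ') ∧
        f (g * e (((k : ℝ) + 1) • v)) = γ (t0 + (k + 1) * δ') := by
    intro g t0 δ' v h0 h1 hg hv hgv k
    induction k using Int.induction_on with
    | zero =>
      constructor
      · rw [Int.cast_zero, zero_smul, e0, mul_one, hg]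
        congr 1
        ring
      · rw [Int.cast_zero, zero_add, one_smul, hgv]
        congr 1
        ring
    | succ k ih =>
      obtain ⟨ih1, ih2⟩ := ih
      have c1 : (((k : ℤ) + 1 : ℤ) : ℝ) = ((k : ℤ) : ℝ) + 1 := by push_cast; rfl
      rw [c1]
      refine ⟨ih2, ?_⟩
      obtain ⟨v1, hv1, hv2, hv3⟩ := step (g * e ((((k : ℤ) : ℝ) + 1) • v))
        (t0 + (((k : ℤ) : ℝ) + 1) * δ') δ' h0 h1 ih2
      have h2 := key (g * e ((((k : ℤ) : ℝ) + 1) • v)) (t0 + (((k : ℤ) : ℝ) + 1) * δ') δ' v v1 h0 h1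
        (by
          rw [he2, add_sub_cancel_right, ih1]
          congr 1
          ring) hv2 hv hv1
      rw [← h2, he1] at hv2
      rw [hv2]
      congr 1
      ring
    | pred k ih =>
      obtain ⟨ih1, ih2⟩ := ih
      have c1 : ((-(k : ℤ) - 1 : ℤ) : ℝ) = ((-(k : ℤ) : ℤ) : ℝ) - 1 := by push_cast; rfl
      rw [c1]
      constructor
      · obtain ⟨v1, hv1, hv2, hv3⟩ := step (g * e (((-(k : ℤ) : ℤ) : ℝ) • v))
          (t0 + ((-(k : ℤ) : ℤ) : ℝ) * δ') δ' h0 h1 ih1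
        have h2 := key (g * e (((-(k : ℤ) : ℤ) : ℝ) • v)) (t0 + ((-(k : ℤ) : ℤ) : ℝ) * δ') δ' v1 v
          h0 h1 hv3 (by
            rw [he1, ih2]
            congr 1
            ring) hv1 hv
        rw [h2, he2] at hv3
        rw [hv3]
        congr 1
        ring
      · rw [sub_add_cancel, ih1]
  have hδ0 : 0 < δ / 2 := by linarith
  obtain ⟨v, hv1, hv2, hv3⟩ := step g 0 (δ / 2) hδ0 le_rfl hg
  have hrat : ∀ q : ℚ, f (g * e ((q : ℝ) • v)) = γ (q * (δ / 2)) := by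
    intro q
    have hm : (0 : ℝ) < q.den := by exact_mod_cast q.den_pos
    have hm1 : (1 : ℝ) ≤ q.den := by exact_mod_cast q.den_pos
    obtain ⟨δ', hδ'⟩ : ∃ δ', δ' = δ / 2 / q.den := ⟨_, rfl⟩
    have hδ'0 : 0 < δ' := by rw [hδ']; positivity
    have hδ'1 : δ' ≤ δ / 2 := by rw [hδ']; exact div_le_self hδ0.le hm1
    have hδ'm : q.den * δ' = δ / 2 := by rw [hδ']; field_simp
    obtain ⟨u, hu1, hu2, hu3⟩ := step g 0 δ' hδ'0 hδ'1 hg
    have hch := chain g 0 δ' u hδ'0 hδ'1 hg hu1 hu2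
    have h2 : v = (q.den : ℝ) • u := by
      apply key g 0 (δ / 2) v ((q.den : ℝ) • u) hδ0 le_rfl hv3 ?_ hv1 ?_
      · have h3 := (hch (q.den : ℤ)).1
        rw [Int.cast_natCast, hδ'm] at h3
        exact h3
      · rw [norm_smul, hu1, Real.norm_of_nonneg hm.le, ← hδ'm]
        ring
    have h3 := (hch q.num).1
    rw [h2, smul_smul]
    have h4 : (q : ℝ) * q.den = q.num := by
      rw [Rat.cast_def]
      field_simp
    rw [h4, h3]
    congr 1
    rw [← hδ'm, ← h4]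
    ring
  have hc1 : Continuous fun s : ℝ => f (g * e (s • v)) := by
    have h2 : Continuous fun x : V => f (g * e x) := by
      have h3 : LipschitzWith 1 fun x : V => f (g * e x) := by
        apply LipschitzWith.of_dist_le_mul
        intro x y
        rw [NNReal.coe_one, one_mul, dist_eq_norm]
        exact hL g x y
      exact h3.continuous
    exact h2.comp (continuous_id.smul continuous_const)
  have hc2 : Continuous γ := by
    rw [Metric.continuous_iff]
    intro b ε hε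
    refine ⟨min δ (ε / N), lt_min hδ (div_pos hε hN), fun a ha => ?_⟩
    rw [Real.dist_eq] at ha
    rw [hγ a b (ha.le.trans (min_le_left _ _))]
    calc N * |a - b| < N * (ε / N) := mul_lt_mul_of_pos_left (ha.trans_le (min_le_right _ _)) hN
      _ = ε := by field_simp
  have hc3 : Continuous fun s : ℝ => γ (s * (δ / 2)) := hc2.comp (continuous_id.mul continuous_const)
  have heq : (fun s : ℝ => f (g * e (s • v))) = fun s : ℝ => γ (s * (δ / 2)) :=
    (Rat.denseRange_cast (𝕜 := ℝ)).equalizer hc1 hc3 (funext hrat)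
  refine ⟨(δ / 2)⁻¹ • v, ?_, fun t => ?_⟩
  · rw [norm_smul, hv1, norm_inv, Real.norm_of_nonneg hδ0.le]
    field_simp
  · have h2 : f (g * e ((t * (δ / 2)⁻¹) • v)) = γ (t * (δ / 2)⁻¹ * (δ / 2)) :=
      congrFun heq (t * (δ / 2)⁻¹)
    rw [smul_smul, h2]
    congr 1
    field_simp

end HQ
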