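import Pool.Agent.Helper831.HQ.Defs

open scoped Quaternion Matrix.Norms.L2Operator ENNReal
open Set MeasureTheory

noncomputable section

namespace HQ



theorem rational_vector (n : ℕ) (v : Fin n → ℝ) (j₀ : Fin n) (h0 : v j₀ ≠ 0) :
    ∃ x : Fin n → ℚ, x j₀ ≠ 0 ∧
      ∀ m : Fin n → ℤ, ∑ j, (m j : ℝ) * v j = 0 → ∑ j, (m j : ℝ) * (x j : ℝ) = 0 := by
  have h1 : ¬ ∀ φ : Module.Dual ℚ ℝ, φ (v j₀) = 0 := by
    rw [Module.forall_dual_apply_eq_zero_iff]
    exact h0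
  push Not at h1
  obtain ⟨φ, hφ⟩ := h1
  refine ⟨fun j => φ (v j), hφ, ?_⟩
  intro m hm
  have h2 : φ (∑ j, (m j : ℝ) * v j) = 0 := by rw [hm, map_zero]
  rw [map_sum] at h2
  have h3 : ∀ j, φ ((m j : ℝ) * v j) = (m j : ℚ) * φ (v j) := by
    intro j
    have : (m j : ℝ) * v j = (m j : ℚ) • v j := by
      rw [Rat.smul_def]
      push_cast
      rfl
    rw [this, map_smul, smul_eq_mul]
  simp only [h3] at h2
  have h4 := congrArg (fun q : ℚ => (q : ℝ)) h2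
  push_cast at h4
  exact h4

end HQ
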