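import Pool.Agent.Helper831.HQ.Defs

open scoped Quaternion Matrix.Norms.L2Operator ENNReal
open Set MeasureTheory

noncomputable section

namespace HQ



theorem three_share_countable (n : ℕ) : Countable (Submodule ℤ (Fin n → ℤ)) := by
  have hs : Function.Surjective (fun s : Finset (Fin n → ℤ) => Submodule.span ℤ (s : Set (Fin n → ℤ))) := by
    intro S
    obtain ⟨s, hs⟩ := (isNoetherian_def.mp (inferInstance : IsNoetherian ℤ (Fin n → ℤ))) S
    exact ⟨s, hs⟩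
  exact hs.countable

/-- the relation module -/
def three_share_R (n : ℕ) (v : ℝ → Fin n → ℝ) (t : ℝ) : Submodule ℤ (Fin n → ℤ) where
  carrier := {m | ∑ j, (m j : ℝ) * v t j = 0}
  add_mem' := by
    intro a b ha hb
    show ∑ j, (((a + b) j : ℤ) : ℝ) * v t j = 0
    have h1 : ∑ j, (((a + b) j : ℤ) : ℝ) * v t j = ∑ j, (a j : ℝ) * v t j + ∑ j, (b j : ℝ) * v t j := by
      rw [← Finset.sum_add_distrib]
      refine Finset.sum_congr rfl fun j _ => ?_
      rw [Pi.add_apply]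
      push_cast
      ring
    rw [h1]
    have ha' : ∑ j, (a j : ℝ) * v t j = 0 := ha
    have hb' : ∑ j, (b j : ℝ) * v t j = 0 := hb
    rw [ha', hb', add_zero]
  zero_mem' := by
    show ∑ j, (((0 : Fin n → ℤ) j : ℤ) : ℝ) * v t j = 0
    simp
  smul_mem' := by
    intro c a ha
    show ∑ j, (((c • a) j : ℤ) : ℝ) * v t j = 0
    have ha' : ∑ j, (a j : ℝ) * v t j = 0 := ha
    have h1 : ∑ j, (((c • a) j : ℤ) : ℝ) * v t j = c * ∑ j, (a j : ℝ) * v t j := by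
      rw [Finset.mul_sum]
      refine Finset.sum_congr rfl fun j _ => ?_
      rw [Pi.smul_apply, smul_eq_mul]
      push_cast
      ring
    rw [h1, ha', mul_zero]

theorem three_share_mem (n : ℕ) (v : ℝ → Fin n → ℝ) (t : ℝ) (m : Fin n → ℤ) :
    m ∈ three_share_R n v t ↔ ∑ j, (m j : ℝ) * v t j = 0 := Iff.rfl

theorem three_share (n : ℕ) (v : ℝ → Fin n → ℝ) :
    ∃ t₁ t₂ t₃ : ℝ, t₁ ∈ Ioo (0 : ℝ) 1 ∧ t₂ ∈ Ioo (0 : ℝ) 1 ∧ t₃ ∈ Ioo (0 : ℝ) 1 ∧ t₁ < t₂ ∧ t₂ < t₃ ∧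
      (∀ m : Fin n → ℤ, ∑ j, (m j : ℝ) * v t₁ j = 0 ↔ ∑ j, (m j : ℝ) * v t₂ j = 0) ∧
      (∀ m : Fin n → ℤ, ∑ j, (m j : ℝ) * v t₂ j = 0 ↔ ∑ j, (m j : ℝ) * v t₃ j = 0) := by
  haveI := three_share_countable n
  have h1 : ∃ S : Submodule ℤ (Fin n → ℤ), (Ioo (0 : ℝ) 1 ∩ three_share_R n v ⁻¹' {S}).Infinite := by
    by_contra hcon
    push Not at hcon
    have h2 : (Ioo (0 : ℝ) 1).Countable := by
      have h3 : Ioo (0 : ℝ) 1 ⊆ ⋃ S : Submodule ℤ (Fin n → ℤ), Ioo (0 : ℝ) 1 ∩ three_share_R n v ⁻¹' {S} := by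
        intro t ht
        exact mem_iUnion.mpr ⟨three_share_R n v t, ht, rfl⟩
      refine Set.Countable.mono h3 (Set.countable_iUnion fun S => ?_)
      have h4 := hcon S
      exact h4.countable
    have h5 := Cardinal.mk_Ioo_real (zero_lt_one' ℝ)
    have h6 := Cardinal.le_aleph0_iff_set_countable.mpr h2
    rw [h5] at h6
    exact absurd h6 (not_le.mpr Cardinal.aleph0_lt_continuum)
  obtain ⟨S, hS⟩ := h1
  obtain ⟨F, hF, hcard⟩ := hS.exists_subset_card_eq 3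
  have hmem : ∀ i : Fin 3, F.orderEmbOfFin hcard i ∈ Ioo (0 : ℝ) 1 ∩ three_share_R n v ⁻¹' {S} := fun i =>
    hF (Finset.orderEmbOfFin_mem F hcard i)
  have hRS : ∀ i : Fin 3, three_share_R n v (F.orderEmbOfFin hcard i) = S := fun i => (hmem i).2
  refine ⟨F.orderEmbOfFin hcard 0, F.orderEmbOfFin hcard 1, F.orderEmbOfFin hcard 2, (hmem 0).1, (hmem 1).1,
    (hmem 2).1, (F.orderEmbOfFin hcard).strictMono (by decide), (F.orderEmbOfFin hcard).strictMono (by decide),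
    fun m => ?_, fun m => ?_⟩
  · rw [← three_share_mem, ← three_share_mem, hRS, hRS]
  · rw [← three_share_mem, ← three_share_mem, hRS, hRS]

end HQ
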