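import Pool.Agent.Helper831.HQ.Defs

/-! Simple connectedness of `S³` (adapted from the team file for MP_82af14_an). -/

open scoped Manifold ContDiff Topology
open Set Metric MeasureTheory

noncomputable section

namespace HQ.SC

/-- Euclidean space `ℝ^4`. -/
abbrev E4 := EuclideanSpace ℝ (Fin 4)
/-- The unit sphere `S^3` in `ℝ^4`. -/
abbrev S3 := sphere (0 : E4) 1

local instance factE4 : Fact (Module.finrank ℝ E4 = 3 + 1) := ⟨finrank_euclideanSpace_fin⟩

/-! ## `S^3` is simply connected -/

section SimplyConnected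

open scoped unitInterval

/-- normalisation to the sphere -/
def nrm (v : E4) (h : v ≠ 0) : S3 := ⟨‖v‖⁻¹ • v, by
  rw [mem_sphere_zero_iff_norm, norm_smul, norm_inv, norm_norm,
    inv_mul_cancel₀ (norm_ne_zero_iff.2 h)]⟩

lemma punctured_simplyConnected (p : S3) : SimplyConnectedSpace ({p}ᶜ : Set S3) := by
  have hp : ‖(p : E4)‖ = 1 := by simp
  have e := (stereographic hp).toHomeomorphSourceTarget
  have hs : (stereographic hp).source = {p}ᶜ := by
    rw [stereographic_source]
  have ht : (stereographic hp).target = univ := stereographic_target hp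
  rw [hs, ht] at e
  have e2 : ({p}ᶜ : Set S3) ≃ₜ (ℝ ∙ (p : E4))ᗮ := e.trans (Homeomorph.Set.univ _)
  exact e2.toHomotopyEquiv.simplyConnectedSpace

lemma exists_smooth_loop (x : S3) (γ : Path x x) :
    ∃ w : ℝ → E4, ContDiff ℝ 1 w ∧ w 0 = x ∧ w 1 = x ∧
      ∀ t : I, ‖w t - (γ t : E4)‖ < 1 := by
  have hf : Continuous (fun t : ℝ => ((γ.extend t : S3) : E4)) :=
    continuous_subtype_val.comp γ.continuous_extend
  obtain ⟨g, hg, hga, -⟩ := hf.exists_contDiff_approx (ε := fun _ => 1 / 2) 1
    continuous_const (fun _ => by norm_num)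
  refine ⟨fun t => g t - ((1 - t) • (g 0 - x) + t • (g 1 - x)), ?_, ?_, ?_, ?_⟩
  · have : ContDiff ℝ 1 g := by simpa using hg
    fun_prop
  · simp
  · simp
  · intro t
    have h0 := hga 0
    have h1 := hga 1
    have ht := hga t
    simp only [Path.extend_zero, Path.extend_one, dist_eq_norm] at h0 h1 ht
    rw [Path.extend_apply γ t.2] at ht
    have e : g t - ((1 - (t : ℝ)) • (g 0 - (x : E4)) + (t : ℝ) • (g 1 - (x : E4))) - (γ t : E4)
        = (g t - γ t) - ((1 - (t : ℝ)) • (g 0 - (x : E4)) + (t : ℝ) • (g 1 - (x : E4))) := by abel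
    rw [e]
    have t0 : 0 ≤ (t : ℝ) := t.2.1
    have t1 : 0 ≤ 1 - (t : ℝ) := by linarith [t.2.2]
    calc ‖(g t - γ t) - ((1 - (t : ℝ)) • (g 0 - (x : E4)) + (t : ℝ) • (g 1 - (x : E4)))‖
        ≤ ‖g t - γ t‖ + ‖(1 - (t : ℝ)) • (g 0 - (x : E4)) + (t : ℝ) • (g 1 - (x : E4))‖ :=
          norm_sub_le _ _
      _ ≤ ‖g t - γ t‖ + (‖(1 - (t : ℝ)) • (g 0 - (x : E4))‖ + ‖(t : ℝ) • (g 1 - (x : E4))‖) := by
          gcongr; exact norm_add_le _ _
      _ = ‖g t - γ t‖ + ((1 - (t : ℝ)) * ‖g 0 - (x : E4)‖ + t * ‖g 1 - (x : E4)‖) := by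
          rw [norm_smul, norm_smul, Real.norm_eq_abs, Real.norm_eq_abs, abs_of_nonneg t0,
            abs_of_nonneg t1]
      _ < 1 / 2 + ((1 - (t : ℝ)) * (1 / 2) + t * (1 / 2)) := by
          apply add_lt_add_of_lt_of_le ht
          gcongr
      _ = 1 := by ring


lemma exists_missed (w : ℝ → E4) (hw : ContDiff ℝ 1 w) :
    ∃ p : S3, ∀ r t : ℝ, r • w t ≠ (p : E4) := by
  have hf : ContDiff ℝ 1 (fun z : ℝ × ℝ => z.1 • w z.2) :=
    contDiff_fst.smul (hw.comp contDiff_snd)
  have hd := hf.dense_compl_range_of_finrank_lt_finrank (by simp)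
  have ho : IsOpen ({0}ᶜ : Set E4) := isOpen_compl_singleton
  have hne : ({0}ᶜ : Set E4).Nonempty := ⟨EuclideanSpace.single 0 1, by simp⟩
  obtain ⟨z, hz0, hz⟩ := hd.inter_open_nonempty _ ho hne
  have hz0' : z ≠ 0 := hz0
  refine ⟨nrm z hz0', fun r t h => hz ⟨(‖z‖ * r, t), ?_⟩⟩
  have h' : r • w t = ‖z‖⁻¹ • z := h
  show (‖z‖ * r) • w t = z
  rw [mul_smul, h', smul_inv_smul₀ (norm_ne_zero_iff.2 hz0')]

lemma loops_null (x : S3) (γ : Path x x) : Path.Homotopic γ (Path.refl x) := by
  obtain ⟨w, hw, hw0, hw1, hwγ⟩ := exists_smooth_loop x γ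
  obtain ⟨p, hp⟩ := exists_missed w hw
  have hγn : ∀ t : I, ‖(γ t : E4)‖ = 1 := fun t => by simp
  -- the straight line homotopy never vanishes
  have hne : ∀ (s t : I), (γ t : E4) + (s : ℝ) • (w t - (γ t : E4)) ≠ 0 := by
    intro s t h
    have h1 : (γ t : E4) = -((s : ℝ) • (w t - (γ t : E4))) := eq_neg_of_add_eq_zero_left h
    have h2 := hγn t
    rw [h1, norm_neg, norm_smul, Real.norm_eq_abs, abs_of_nonneg s.2.1] at h2
    have h3 := hwγ t
    have h4 : (s : ℝ) ≤ 1 := s.2.2
    have h5 : 0 ≤ (s : ℝ) := s.2.1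
    nlinarith [norm_nonneg (w t - (γ t : E4))]
  have hwne : ∀ t : I, w t ≠ 0 := by
    intro t
    have := hne 1 t
    simpa using this
  have hwc : Continuous (fun t : I => w t) := hw.continuous.comp continuous_subtype_val
  have hγc : Continuous (fun t : I => (γ t : E4)) := continuous_subtype_val.comp γ.continuous
  -- the normalised loop
  have hxn : ‖(x : E4)‖ = 1 := by simp
  let N : Path x x :=
    { toFun := fun t => nrm (w t) (hwne t)
      continuous_toFun := by
        apply Continuous.subtype_mk
        exact (hwc.norm.inv₀ (fun t => norm_ne_zero_iff.2 (hwne t))).smul hwc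
      source' := by
        apply Subtype.ext
        simp [nrm, hw0]
      target' := by
        apply Subtype.ext
        simp [nrm, hw1] }
  have h1 : Path.Homotopic γ N := by
    refine ⟨{ toFun := fun z => nrm _ (hne z.1 z.2)
              continuous_toFun := ?_
              map_zero_left := ?_
              map_one_left := ?_
              prop' := ?_ }⟩
    · apply Continuous.subtype_mk
      have hc : Continuous (fun z : I × I =>
          (γ z.2 : E4) + ((z.1 : I) : ℝ) • (w z.2 - (γ z.2 : E4))) := by
        have h1 : Continuous (fun z : I × I => (γ z.2 : E4)) := hγc.comp continuous_snd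
        have h2 : Continuous (fun z : I × I => w z.2) := hwc.comp continuous_snd
        have h3 : Continuous (fun z : I × I => ((z.1 : I) : ℝ)) :=
          continuous_subtype_val.comp continuous_fst
        exact h1.add (h3.smul (h2.sub h1))
      exact (hc.norm.inv₀ (fun z => norm_ne_zero_iff.2 (hne z.1 z.2))).smul hc
    · intro t
      apply Subtype.ext
      simp [nrm]
    · intro t
      apply Subtype.ext
      simp [nrm, N]
    · intro s t ht
      apply Subtype.ext
      rcases ht with rfl | ht
      · simp [nrm, hw0]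
      · rw [Set.mem_singleton_iff] at ht
        subst ht
        simp [nrm, hw1]
  -- the normalised loop avoids `p`
  have hNp : ∀ t : I, N t ∈ ({p}ᶜ : Set S3) := by
    intro t h
    have h' : N t = p := h
    exact hp (‖w t‖⁻¹) t (congrArg Subtype.val h')
  have hx : x ∈ ({p}ᶜ : Set S3) := by
    have := hNp 0
    simpa using this
  have := punctured_simplyConnected p
  let N' : Path (⟨x, hx⟩ : ({p}ᶜ : Set S3)) ⟨x, hx⟩ :=
    { toFun := fun t => ⟨N t, hNp t⟩
      continuous_toFun := N.continuous.subtype_mk _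
      source' := by simp
      target' := by simp }
  have h2 : Path.Homotopic N' (Path.refl _) := SimplyConnectedSpace.paths_homotopic _ _
  have h3 := h2.map ⟨Subtype.val, continuous_subtype_val⟩
  have h4 : Path.Homotopic N (Path.refl x) := by
    convert! h3 using 1
  exact h1.trans h4

theorem simplyConnected_S3 : SimplyConnectedSpace S3 := by
  rw [simply_connected_iff_loops_nullhomotopic]
  refine ⟨?_, loops_null⟩
  rw [← isPathConnected_iff_pathConnectedSpace]
  apply isPathConnected_sphere _ _ zero_le_one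
  rw [← Module.finrank_eq_rank]
  simp

end SimplyConnected

end HQ.SC

namespace HQ

open scoped Quaternion

/-- pairs of unit quaternions are pairs of points of `S³ ⊂ ℝ⁴` -/
def homeoS33 : S33 ≃ₜ HQ.SC.S3 × HQ.SC.S3 where
  toFun q := (⟨Quaternion.linearIsometryEquivTuple q.1.1, by
      rw [mem_sphere_zero_iff_norm, LinearIsometryEquiv.norm_map]; exact q.2.1⟩,
    ⟨Quaternion.linearIsometryEquivTuple q.1.2, by
      rw [mem_sphere_zero_iff_norm, LinearIsometryEquiv.norm_map]; exact q.2.2⟩)
  invFun p := ⟨(Quaternion.linearIsometryEquivTuple.symm p.1.1, Quaternion.linearIsometryEquivTuple.symm p.2.1),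
    by
      constructor
      · show ‖Quaternion.linearIsometryEquivTuple.symm p.1.1‖ = 1
        rw [LinearIsometryEquiv.norm_map]; exact mem_sphere_zero_iff_norm.1 p.1.2
      · show ‖Quaternion.linearIsometryEquivTuple.symm p.2.1‖ = 1
        rw [LinearIsometryEquiv.norm_map]; exact mem_sphere_zero_iff_norm.1 p.2.2⟩
  left_inv q := by
    apply Subtype.ext
    apply Prod.ext
    · exact LinearIsometryEquiv.symm_apply_apply _ _
    · exact LinearIsometryEquiv.symm_apply_apply _ _
  right_inv p := by
    apply Prod.ext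
    · apply Subtype.ext
      exact LinearIsometryEquiv.apply_symm_apply _ _
    · apply Subtype.ext
      exact LinearIsometryEquiv.apply_symm_apply _ _
  continuous_toFun := by
    apply Continuous.prodMk
    · exact (Quaternion.linearIsometryEquivTuple.continuous.comp
        (continuous_fst.comp continuous_subtype_val)).subtype_mk _
    · exact (Quaternion.linearIsometryEquivTuple.continuous.comp
        (continuous_snd.comp continuous_subtype_val)).subtype_mk _
  continuous_invFun := by
    apply Continuous.subtype_mk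
    exact (Quaternion.linearIsometryEquivTuple.symm.continuous.comp
      (continuous_subtype_val.comp continuous_fst)).prodMk
      (Quaternion.linearIsometryEquivTuple.symm.continuous.comp
      (continuous_subtype_val.comp continuous_snd))

theorem simplyConnected_prod {X Y : Type} [TopologicalSpace X] [TopologicalSpace Y]
    [SimplyConnectedSpace X] [SimplyConnectedSpace Y] : SimplyConnectedSpace (X × Y) := by
  rw [simply_connected_iff_loops_nullhomotopic]
  refine ⟨inferInstance, ?_⟩
  rintro ⟨x, y⟩ γ
  have h1 : Path.Homotopic (γ.map continuous_fst) (Path.refl x) := SimplyConnectedSpace.paths_homotopic _ _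
  have h2 : Path.Homotopic (γ.map continuous_snd) (Path.refl y) := SimplyConnectedSpace.paths_homotopic _ _
  obtain ⟨F⟩ := h1
  obtain ⟨G⟩ := h2
  have e1 : γ = (γ.map continuous_fst).prod (γ.map continuous_snd) := by
    ext t <;> rfl
  have e2 : Path.refl (x, y) = (Path.refl x).prod (Path.refl y) := by
    ext t <;> rfl
  rw [e1, e2]
  exact ⟨Path.Homotopic.prodHomotopy F G⟩

theorem S33_top : CompactSpace S33 ∧ SimplyConnectedSpace S33 := by
  constructor
  · exact homeoS33.symm.compactSpace
  · have : SimplyConnectedSpace HQ.SC.S3 := HQ.SC.simplyConnected_S3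
    have := simplyConnected_prod (X := HQ.SC.S3) (Y := HQ.SC.S3)
    exact homeoS33.toHomotopyEquiv.simplyConnectedSpace

end HQ
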