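import Pool.Agent.Helper831.HQ.P_E_basic
import Pool.Agent.Helper831.HQ.P_LieSet_bracket
import Pool.Agent.Helper831.HQ.P_LieSet_closed_ops
import Pool.Agent.Helper831.HQ.P_Xd_exp
import Pool.Agent.Helper831.HQ.P_Xd_mem
import Pool.Agent.Helper831.HQ.P_ad_inv
import Pool.Agent.Helper831.HQ.P_ang_inv
import Pool.Agent.Helper831.HQ.P_ang_jensen
import Pool.Agent.Helper831.HQ.P_ang_le_integral
import Pool.Agent.Helper831.HQ.P_ang_upper
import Pool.Agent.Helper831.HQ.P_chord_le_ang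
import Pool.Agent.Helper831.HQ.P_ctrl_infinite
import Pool.Agent.Helper831.HQ.P_ctrl_move
import Pool.Agent.Helper831.HQ.P_dF_Psi
import Pool.Agent.Helper831.HQ.P_dF_geod
import Pool.Agent.Helper831.HQ.P_dF_le_length
import Pool.Agent.Helper831.HQ.P_dF_lower
import Pool.Agent.Helper831.HQ.P_dF_metric
import Pool.Agent.Helper831.HQ.P_dG_invariant
import Pool.Agent.Helper831.HQ.P_dM_eq
import Pool.Agent.Helper831.HQ.P_end_dist
import Pool.Agent.Helper831.HQ.P_end_surj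
import Pool.Agent.Helper831.HQ.P_exists_biGrp
import Pool.Agent.Helper831.HQ.P_exists_commute
import Pool.Agent.Helper831.HQ.P_exists_isometry
import Pool.Agent.Helper831.HQ.P_exists_log
import Pool.Agent.Helper831.HQ.P_exists_regular
import Pool.Agent.Helper831.HQ.P_exists_sol
import Pool.Agent.Helper831.HQ.P_gauge
import Pool.Agent.Helper831.HQ.P_gauge_move
import Pool.Agent.Helper831.HQ.P_hilbert_part
import Pool.Agent.Helper831.HQ.P_hop_abs_le
import Pool.Agent.Helper831.HQ.P_isClosed_matSet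
import Pool.Agent.Helper831.HQ.P_kron
import Pool.Agent.Helper831.HQ.P_kron_strong
import Pool.Agent.Helper831.HQ.P_lift_geodesic
import Pool.Agent.Helper831.HQ.P_matSet_basic
import Pool.Agent.Helper831.HQ.P_mem_LieSet_of_hasDerivAt
import Pool.Agent.Helper831.HQ.P_rational_vector
import Pool.Agent.Helper831.HQ.P_riemDist_triangle
import Pool.Agent.Helper831.HQ.P_riem_exp
import Pool.Agent.Helper831.HQ.P_riem_le_dF
import Pool.Agent.Helper831.HQ.P_riem_short_piece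
import Pool.Agent.Helper831.HQ.P_sol_ang
import Pool.Agent.Helper831.HQ.P_sol_norm
import Pool.Agent.Helper831.HQ.P_step_exists
import Pool.Agent.Helper831.HQ.P_three_share
import Pool.Agent.Helper831.HQ.P_velocity_mem
import Pool.Agent.Helper831.HQ.P_word_basic
import Pool.Agent.Helper831.HQ.P_word_of_curve
import Pool.Agent.Helper831.HQ.P_word_refine
import Pool.Agent.Helper831.HQ.P_word_variance
import Pool.Agent.Helper831.HQ.Top

open scoped Quaternion Matrix.Norms.L2Operator ENNReal Topology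
open Set MeasureTheory

noncomputable section

namespace HQ

/-- `S³ × S³` with the distance `dF` -/
def MM : Type := S33

instance : MetricSpace MM where
  dist p q := dF p.1 q.1
  dist_self p := (dF_metric p.1 p.1 p.1 p.2 p.2 p.2).2.1
  dist_comm p q := (dF_metric p.1 q.1 p.1 p.2 q.2 p.2).2.2.1
  dist_triangle p q r := (dF_metric p.1 q.1 r.1 p.2 q.2 r.2).2.2.2.1
  eq_of_dist_eq_zero {p q} h := by
    have h1 := (dF_metric p.1 q.1 p.1 p.2 q.2 p.2).2.2.2.2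
    have h0 : dF p.1 q.1 = 0 := h
    rw [h0] at h1
    apply Subtype.ext
    apply Prod.ext
    · have := norm_le_zero_iff.1 (by simpa using h1.1 : ‖p.1.1 - q.1.1‖ ≤ 0)
      exact sub_eq_zero.1 this
    · have := norm_le_zero_iff.1 (by simpa using h1.2 : ‖p.1.2 - q.1.2‖ ≤ 0)
      exact sub_eq_zero.1 this

theorem MM_dist (p q : MM) : dist p q = dF p.1 q.1 := rfl

/-- the curves `Ψ(s f) q` -/
def gam (q : MM) (κ : ℝ) (s : ℝ) : MM :=
  ⟨Psi (s * 1) (s * 1) (s * κ) (s * (√2 * κ)) q.1, (dF_Psi _ _ _ _ q.1 q.1 q.2 q.2).2.1⟩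

theorem dF_Psi_diff (q : ℍ × ℍ) (hq : q ∈ S33) (a b c d a' b' c' d' : ℝ) :
    dF (Psi a b c d q) (Psi a' b' c' d' q) = dF q (Psi (a' - a) (b' - b) (c' - c) (d' - d) q) := by
  have h1 := (dF_Psi a b c d q (Psi (a' - a) (b' - b) (c' - c) (d' - d) q) hq
    (dF_Psi _ _ _ _ q q hq hq).2.1).1
  rw [← h1, (dF_Psi a b c d q q hq hq).2.2.1]
  congr 2 <;> ring

theorem gam_zero (q : MM) (κ : ℝ) : gam q κ 0 = q := by
  apply Subtype.ext
  have h0 : E 0 = 1 := E_basic.2.2.1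
  simp [gam, Psi, h0]

theorem gam_dist (q : MM) (κ : ℝ) (hκ : κ = hop q.1.1 + √2 * hop q.1.2) (s s' : ℝ)
    (h : |s - s'| ≤ 1 / (20 * (1 + |κ|) * 2)) :
    dist (gam q κ s) (gam q κ s') = √(2 + κ ^ 2) * |s - s'| := by
  have hq := q.2
  have hN : 0 < √(2 + κ ^ 2) := Real.sqrt_pos.2 (by positivity)
  have hN2 : √(2 + κ ^ 2) ^ 2 = 2 + κ ^ 2 := Real.sq_sqrt (by positivity)
  have hs2 : √2 ≤ 2 := by
    rw [Real.sqrt_le_left (by norm_num)]; norm_num
  -- basic estimate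
  have key : ∀ τ : ℝ, 0 ≤ τ → τ ≤ 1 / (20 * (1 + |κ|) * 2) →
      √(2 + κ ^ 2) * τ ≤ dF q.1 (Psi (τ * 1) (τ * 1) (τ * κ) (τ * (√2 * κ)) q.1) := by
    intro τ h0 h1
    have hk : 0 < 1 + |κ| := by positivity
    have h2 : τ * (20 * (1 + |κ|) * 2) ≤ 1 := by
      rwa [le_div_iff₀ (by positivity)] at h1
    have hS : |τ * 1| + |τ * 1| + |τ * κ| + |τ * (√2 * κ)| ≤ 1 / 10 := by
      rw [abs_mul, abs_mul, abs_mul, abs_mul, abs_of_nonneg h0, abs_of_nonneg (Real.sqrt_nonneg 2)]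
      have : τ * (√2 * |κ|) ≤ τ * (2 * |κ|) := by gcongr
      simp only [abs_one, mul_one]
      nlinarith [abs_nonneg κ]
    have h3 := dF_lower q.1 hq 1 1 _ _ _ _ hS
    have h4 : (1 : ℝ) ^ 2 + 1 ^ 2 + (1 * hop q.1.1 + √2 * (1 * hop q.1.2)) ^ 2 = 2 + κ ^ 2 := by
      rw [hκ]; ring
    rw [h4] at h3
    have h5 : 1 * (τ * 1) + 1 * (τ * 1) + 1 * hop q.1.1 * (τ * κ) + 1 * hop q.1.2 * (τ * (√2 * κ)) =
        √(2 + κ ^ 2) * (√(2 + κ ^ 2) * τ) := by
      have : √(2 + κ ^ 2) * (√(2 + κ ^ 2) * τ) = √(2 + κ ^ 2) ^ 2 * τ := by ring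
      rw [this, hN2, hκ]; ring
    rw [h5] at h3
    exact le_of_mul_le_mul_left h3 hN
  have hup : ∀ τ : ℝ, dF q.1 (Psi (τ * 1) (τ * 1) (τ * κ) (τ * (√2 * κ)) q.1) ≤
      √(2 + κ ^ 2) * |τ| := by
    intro τ
    have := dF_geod q.1 hq 1 1 κ τ
    have e1 : (1 : ℝ) ^ 2 + 1 ^ 2 + κ ^ 2 = 2 + κ ^ 2 := by norm_num
    rw [e1] at this
    linarith [mul_comm (√(2 + κ ^ 2)) |τ|]
  have hd : ∀ a b : ℝ, dist (gam q κ a) (gam q κ b) =
      dF q.1 (Psi ((b - a) * 1) ((b - a) * 1) ((b - a) * κ) ((b - a) * (√2 * κ)) q.1) := by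
    intro a b
    rw [MM_dist]
    show dF (Psi _ _ _ _ q.1) (Psi _ _ _ _ q.1) = _
    rw [dF_Psi_diff q.1 hq]
    congr 2 <;> ring
  have main : ∀ a b : ℝ, a ≤ b → |a - b| ≤ 1 / (20 * (1 + |κ|) * 2) →
      dist (gam q κ a) (gam q κ b) = √(2 + κ ^ 2) * |a - b| := by
    intro a b hab h
    rw [hd]
    have e : |a - b| = b - a := by rw [abs_sub_comm]; exact abs_of_nonneg (by linarith)
    apply le_antisymm
    · have := hup (b - a)
      rwa [abs_sub_comm b a] at this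
    · rw [e] at h ⊢
      exact key _ (by linarith) h
  rcases le_total s s' with h1 | h1
  · exact main s s' h1 h
  · rw [dist_comm, abs_sub_comm]
    exact main s' s h1 (by rwa [abs_sub_comm])

/-- all solutions of the integer relations of `v` -/
def hull {n : ℕ} (v : Fin n → ℝ) : Set (Fin n → ℝ) :=
  {x | ∀ m : Fin n → ℤ, ∑ j, (m j : ℝ) * v j = 0 → ∑ j, (m j : ℝ) * x j = 0}

theorem hull_self {n : ℕ} (v : Fin n → ℝ) : v ∈ hull v := fun _ h => h

theorem hull_comb {n : ℕ} (v x y : Fin n → ℝ) (hx : x ∈ hull v) (hy : y ∈ hull v) (r s : ℝ) :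
    (fun j => r * x j + s * y j) ∈ hull v := by
  intro m hm
  have h1 := hx m hm
  have h2 := hy m hm
  have : ∑ j, (m j : ℝ) * (r * x j + s * y j) = r * ∑ j, (m j : ℝ) * x j + s * ∑ j, (m j : ℝ) * y j := by
    rw [Finset.mul_sum, Finset.mul_sum, ← Finset.sum_add_distrib]
    apply Finset.sum_congr rfl
    intro j _
    ring
  rw [this, h1, h2]
  ring

theorem hull_append {N : ℕ} (l w : Fin N → ℝ) (f y : Fin 4 → ℝ)
    (h : Fin.append w y ∈ hull (Fin.append l f)) : w ∈ hull l := by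
  intro m hm
  have := h (Fin.append m 0) (by
    rw [Fin.sum_univ_add]
    simp [Fin.append_left, Fin.append_right, hm])
  rw [Fin.sum_univ_add] at this
  simpa [Fin.append_left, Fin.append_right] using this

theorem exists_k {N : ℕ} (G : Subgroup (Matrix.unitaryGroup (Fin N) ℂ))
    (hG : IsClosed (matSet G)) (hGc : IsCompact (matSet G))
    (B : Matrix (Fin N) (Fin N) ℂ →ₗ[ℝ] Matrix (Fin N) (Fin N) ℂ →ₗ[ℝ] ℝ) (hB : IsBiinvariant G B) :
    ∃ u ∈ Matrix.unitaryGroup (Fin N) ℂ, ∀ v ∈ LieSet G, ∃ k : G, ∃ l : Fin N → ℝ,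
      ((k : Matrix.unitaryGroup (Fin N) ℂ) : Matrix (Fin N) (Fin N) ℂ) * v *
        star ((k : Matrix.unitaryGroup (Fin N) ℂ) : Matrix (Fin N) (Fin N) ℂ) = Xd u l := by
  obtain ⟨w, hw, u, hu, h⟩ := exists_regular G hG
  refine ⟨u, hu, ?_⟩
  intro v hv
  obtain ⟨k, ⟨k', hk', rfl⟩, hk2⟩ := exists_commute G hGc B hB v w hv hw
  obtain ⟨l, hl⟩ := h _ ((LieSet_closed_ops G hG).2.2.2.1 _ ⟨k', hk', rfl⟩ v hv) hk2
  exact ⟨⟨k', hk'⟩, l, hl⟩

/-- matrix of an element of `G` -/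
def mt {N : ℕ} {G : Subgroup (Matrix.unitaryGroup (Fin N) ℂ)} (a : G) : Matrix (Fin N) (Fin N) ℂ :=
  ((a : Matrix.unitaryGroup (Fin N) ℂ) : Matrix (Fin N) (Fin N) ℂ)

theorem mt_inj {N : ℕ} {G : Subgroup (Matrix.unitaryGroup (Fin N) ℂ)} {a b : G} (h : mt a = mt b) :
    a = b := Subtype.ext (Subtype.ext h)

theorem mt_mul {N : ℕ} {G : Subgroup (Matrix.unitaryGroup (Fin N) ℂ)} (a b : G) :
    mt (a * b) = mt a * mt b := rfl

theorem mt_inv {N : ℕ} {G : Subgroup (Matrix.unitaryGroup (Fin N) ℂ)} (a : G) :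
    mt a⁻¹ = star (mt a) := rfl

theorem mt_mem {N : ℕ} {G : Subgroup (Matrix.unitaryGroup (Fin N) ℂ)} (a : G) : mt a ∈ matSet G :=
  ⟨a.1, a.2, rfl⟩

theorem mt_star {N : ℕ} {G : Subgroup (Matrix.unitaryGroup (Fin N) ℂ)} (a : G) :
    star (mt a) * mt a = 1 ∧ mt a * star (mt a) = 1 :=
  ⟨(matSet_basic G).2.2.2 _ (mt_mem a) |>.2.1, (matSet_basic G).2.2.2 _ (mt_mem a) |>.1⟩

/-- The data attached to one geodesic. -/
theorem data {N : ℕ} (G : Subgroup (Matrix.unitaryGroup (Fin N) ℂ))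
    (hG : IsClosed (matSet G))
    (B : Matrix (Fin N) (Fin N) ℂ →ₗ[ℝ] Matrix (Fin N) (Fin N) ℂ →ₗ[ℝ] ℝ) (hB : IsBiinvariant G B)
    (f : G → MM) (hsurj : Function.Surjective f)
    (hlip : ∀ x y, ENNReal.ofReal (dist (f x) (f y)) ≤ dG G B x y)
    (hsub : ∀ (x : G) (q : MM) (ε : ℝ), 0 < ε →
      ∃ y, f y = q ∧ dG G B x y < ENNReal.ofReal (dist (f x) q + ε))
    (u : Matrix (Fin N) (Fin N) ℂ) (hu : ∀ v ∈ LieSet G, ∃ k : G, ∃ l : Fin N → ℝ,
      mt k * v * star (mt k) = Xd u l)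
    (q : MM) (κ : ℝ) (hκ : κ = hop q.1.1 + √2 * hop q.1.2) :
    ∃ l : Fin N → ℝ, Xd u l ∈ LieSet G ∧ B (Xd u l) (Xd u l) = 2 + κ ^ 2 ∧
      ∃ F : G → MM, (∀ a b, ENNReal.ofReal (dist (F a) (F b)) ≤ dG G B a b) ∧
        ∀ (s : ℝ) (a : G), mt a = NormedSpace.exp (s • Xd u l) → F a = gam q κ s := by
  obtain ⟨n, L, e, hL, hLB, he, hbi⟩ := exists_biGrp G hG B hB
  have hN : 0 < √(2 + κ ^ 2) := Real.sqrt_pos.2 (by positivity)
  have hN2 : √(2 + κ ^ 2) ^ 2 = 2 + κ ^ 2 := Real.sq_sqrt (by positivity)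
  obtain ⟨g, hg⟩ := hsurj q
  have hδ : 0 < 1 / (20 * (1 + |κ|) * 2) := by positivity
  obtain ⟨v, hv, hv2⟩ := lift_geodesic hbi f hlip hsub (gam q κ) (√(2 + κ ^ 2)) _ hN hδ
    (fun s t h => gam_dist q κ hκ s t h) g (by rw [hg, gam_zero])
  have hLv : L v ∈ LieSet G := (hL _).2 ⟨v, rfl⟩
  obtain ⟨k, l, hkl⟩ := hu _ hLv
  have hk1 := (mt_star k).1
  have hk2 := (mt_star k).2
  refine ⟨l, ?_, ?_, fun a => f (g * (k⁻¹ * a * k)), ?_, ?_⟩
  · rw [← hkl]
    exact (LieSet_closed_ops G hG).2.2.2.1 _ (mt_mem k) _ hLv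
  · rw [← hkl, hB.inv _ (mt_mem k) _ hLv _ hLv, hLB, real_inner_self_eq_norm_sq, hv, hN2]
  · intro a b
    refine (hlip _ _).trans ?_
    rw [hbi.left, hbi.right, hbi.left]
  · intro s a ha
    show f (g * (k⁻¹ * a * k)) = _
    rw [← hv2 s]
    congr 2
    apply mt_inj
    have h1 : mt (e (s • v)) = NormedSpace.exp (s • L v) := by
      rw [← map_smul]
      exact he _
    rw [h1, mt_mul, mt_mul, mt_inv, ha, ← hkl]
    have h2 : s • (mt k * L v * star (mt k)) = mt k * (s • L v) * star (mt k) := by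
      rw [mul_smul_comm, smul_mul_assoc]
    rw [h2]
    have h3 : NormedSpace.exp (mt k * (s • L v) * star (mt k)) =
        mt k * NormedSpace.exp (s • L v) * star (mt k) := by
      let U : (Matrix (Fin N) (Fin N) ℂ)ˣ := ⟨mt k, star (mt k), hk2, hk1⟩
      exact Matrix.exp_units_conj U (s • L v)
    rw [h3]
    calc star (mt k) * (mt k * NormedSpace.exp (s • L v) * star (mt k)) * mt k
        = (star (mt k) * mt k) * NormedSpace.exp (s • L v) * (star (mt k) * mt k) := by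
          simp only [mul_assoc]
      _ = NormedSpace.exp (s • L v) := by rw [hk1, one_mul, mul_one]

/-- the frequency vector -/
def fr (κ : ℝ) : Fin 4 → ℝ := ![1, 1, κ, √2 * κ]

theorem append_smul {N : ℕ} (w : Fin N → ℝ) (y : Fin 4 → ℝ) (s : ℝ) :
    (fun j => s * Fin.append w y j) = Fin.append (fun j => s * w j) (fun j => s * y j) := by
  funext j
  refine Fin.addCases (fun i => ?_) (fun i => ?_) j <;> simp

theorem Xd_mem' {N : ℕ} (G : Subgroup (Matrix.unitaryGroup (Fin N) ℂ))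
    (hG : IsClosed (matSet G)) (u : Matrix (Fin N) (Fin N) ℂ) (hu : u ∈ Matrix.unitaryGroup (Fin N) ℂ)
    (l : Fin N → ℝ) (hl : Xd u l ∈ LieSet G) (f : Fin 4 → ℝ) (x : Fin (N + 4) → ℝ)
    (hx : x ∈ hull (Fin.append l f)) : Xd u (fun j => x (Fin.castAdd 4 j)) ∈ LieSet G := by
  apply Xd_mem G hG u hu l _ hl
  apply hull_append l _ f (fun j => x (Fin.natAdd N j))
  have : Fin.append (fun j => x (Fin.castAdd 4 j)) (fun j => x (Fin.natAdd N j)) = x := by
    funext j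
    refine Fin.addCases (fun i => ?_) (fun i => ?_) j <;> simp
  rwa [this]

theorem Psi_periodic (a b c d : ℝ) (k : Fin 4 → ℤ) (q : ℍ × ℍ) :
    Psi (a + 2 * Real.pi * k 0) (b + 2 * Real.pi * k 1) (c + 2 * Real.pi * k 2)
      (d + 2 * Real.pi * k 3) q = Psi a b c d q := by
  have h := E_basic
  unfold Psi
  rw [h.1, h.1, h.1, h.1, h.2.2.2.2.1, h.2.2.2.2.1, h.2.2.2.2.1, h.2.2.2.2.1]
  simp

/-- On the hull of `(l, f)` the map `F` is the linear flow. -/
theorem flow_on_hull {N : ℕ} (G : Subgroup (Matrix.unitaryGroup (Fin N) ℂ))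
    (hG : IsClosed (matSet G))
    (B : Matrix (Fin N) (Fin N) ℂ →ₗ[ℝ] Matrix (Fin N) (Fin N) ℂ →ₗ[ℝ] ℝ) (hB : IsBiinvariant G B)
    (u : Matrix (Fin N) (Fin N) ℂ) (hu : u ∈ Matrix.unitaryGroup (Fin N) ℂ)
    (l : Fin N → ℝ) (hl : Xd u l ∈ LieSet G) (q : MM) (κ : ℝ) (F : G → MM)
    (hF : ∀ a b, ENNReal.ofReal (dist (F a) (F b)) ≤ dG G B a b)
    (hF2 : ∀ (s : ℝ) (a : G), mt a = NormedSpace.exp (s • Xd u l) → F a = gam q κ s)
    (x : Fin (N + 4) → ℝ) (hx : x ∈ hull (Fin.append l (fr κ))) (a : G)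
    (ha : mt a = NormedSpace.exp (Xd u (fun j => x (Fin.castAdd 4 j)))) :
    (F a).1 = Psi (x (Fin.natAdd N 0)) (x (Fin.natAdd N 1)) (x (Fin.natAdd N 2))
      (x (Fin.natAdd N 3)) q.1 := by
  have hq := q.2
  set P : MM := ⟨Psi (x (Fin.natAdd N 0)) (x (Fin.natAdd N 1)) (x (Fin.natAdd N 2))
      (x (Fin.natAdd N 3)) q.1, (dF_Psi _ _ _ _ q.1 q.1 hq hq).2.1⟩ with hP
  suffices h : F a = P by rw [h]
  rw [← dist_le_zero]
  -- continuity of the norm of `Xd u θ`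
  have hcont : Continuous fun θ : Fin (N + 4) → ℝ =>
      √(B (Xd u (fun j => θ (Fin.castAdd 4 j))) (Xd u (fun j => θ (Fin.castAdd 4 j)))) := by
    have h1 : Continuous fun θ : Fin (N + 4) → ℝ => Xd u (fun j => θ (Fin.castAdd 4 j)) := by
      unfold Xd
      refine (continuous_const.matrix_mul ?_).matrix_mul continuous_const
      apply Continuous.matrix_diagonal
      apply continuous_pi
      intro j
      exact (Complex.continuous_ofReal.comp (continuous_apply _)).mul continuous_const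
    have h2 : Continuous fun p : Matrix (Fin N) (Fin N) ℂ × Matrix (Fin N) (Fin N) ℂ => B p.1 p.2 := by
      have h3 : Continuous fun X : Matrix (Fin N) (Fin N) ℂ => LinearMap.toContinuousLinearMap (B X) :=
        (LinearMap.toContinuousLinearMap.toLinearMap ∘ₗ B).continuous_of_finiteDimensional
      exact (h3.comp continuous_fst).clm_apply continuous_snd
    exact (h2.comp (h1.prodMk h1)).sqrt
  apply le_of_forall_pos_le_add
  intro ε hε
  rw [zero_add]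
  have h0 : √(B (Xd u (fun j => (0 : Fin (N + 4) → ℝ) (Fin.castAdd 4 j)))
      (Xd u (fun j => (0 : Fin (N + 4) → ℝ) (Fin.castAdd 4 j)))) = 0 := by
    simp [Xd]
  obtain ⟨η, hη, hη2⟩ := Metric.continuousAt_iff.1 (hcont.continuousAt (x := 0)) (ε / 2) (half_pos hε)
  rw [h0] at hη2
  set η' := min η (ε / 8) with hη'
  have hη'0 : 0 < η' := lt_min hη (by positivity)
  obtain ⟨τ, k, hk, hτ⟩ := kron_strong (N + 4) (Fin.append l (fr κ)) x hx (η' / 2) (by positivity)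
  set θ : Fin (N + 4) → ℝ := fun j => τ * Fin.append l (fr κ) j - x j - 2 * Real.pi * k j with hθ
  have hθh : θ ∈ hull (Fin.append l (fr κ)) := by
    intro m hm
    have h1 := hx m hm
    have h2 := hk m hm
    have : ∑ j, (m j : ℝ) * θ j = τ * ∑ j, (m j : ℝ) * Fin.append l (fr κ) j -
        ∑ j, (m j : ℝ) * x j - 2 * Real.pi * ∑ j, (m j : ℝ) * k j := by
      rw [Finset.mul_sum, Finset.mul_sum, ← Finset.sum_sub_distrib, ← Finset.sum_sub_distrib]
      apply Finset.sum_congr rfl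
      intro j _
      simp only [hθ]
      ring
    rw [this, hm, h1, h2]
    ring
  have hθ0 : dist θ 0 < η := by
    rw [dist_pi_lt_iff hη]
    intro j
    rw [Pi.zero_apply, Real.dist_eq, sub_zero]
    calc |θ j| < η' / 2 := hτ j
      _ < η' := by linarith
      _ ≤ η := min_le_left _ _
  have hθ1 := hη2 hθ0
  rw [Real.dist_eq, sub_zero, abs_of_nonneg (Real.sqrt_nonneg _)] at hθ1
  -- the elements
  have hXθ := Xd_mem' G hG u hu l hl (fr κ) θ hθh
  obtain ⟨gθ, hgθ, hgθ2⟩ : ∃ g ∈ G, (g : Matrix (Fin N) (Fin N) ℂ) =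
      NormedSpace.exp (Xd u (fun j => θ (Fin.castAdd 4 j))) := by
    have := hXθ 1
    rw [one_smul] at this
    exact this
  obtain ⟨gτ, hgτ, hgτ2⟩ : ∃ g ∈ G, (g : Matrix (Fin N) (Fin N) ℂ) =
      NormedSpace.exp (τ • Xd u l) := hl τ
  set bθ : G := ⟨gθ, hgθ⟩ with hbθ
  set bτ : G := ⟨gτ, hgτ⟩ with hbτ
  have hbθm : mt bθ = NormedSpace.exp (Xd u (fun j => θ (Fin.castAdd 4 j))) := hgθ2
  have hbτm : mt bτ = NormedSpace.exp (τ • Xd u l) := hgτ2
  have hu1 : star u * u = 1 := (Matrix.mem_unitaryGroup_iff'.1 hu)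
  have hprod : bτ = a * bθ := by
    apply mt_inj
    rw [mt_mul, hbτm, ha, hbθm]
    have e1 := (Xd_exp u hu l τ).1
    have e2 := (Xd_exp u hu (fun j => x (Fin.castAdd 4 j)) 1).1
    have e3 := (Xd_exp u hu (fun j => θ (Fin.castAdd 4 j)) 1).1
    rw [one_smul] at e2 e3
    rw [e1, e2, e3]
    have : u * Matrix.diagonal (fun j => Complex.exp (((1 * x (Fin.castAdd 4 j) : ℝ) : ℂ) * Complex.I)) * star u *
        (u * Matrix.diagonal (fun j => Complex.exp (((1 * θ (Fin.castAdd 4 j) : ℝ) : ℂ) * Complex.I)) * star u) =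
        u * (Matrix.diagonal (fun j => Complex.exp (((1 * x (Fin.castAdd 4 j) : ℝ) : ℂ) * Complex.I)) *
          (star u * u) * Matrix.diagonal (fun j => Complex.exp (((1 * θ (Fin.castAdd 4 j) : ℝ) : ℂ) * Complex.I))) * star u := by
      simp only [mul_assoc]
    rw [this, hu1, mul_one, Matrix.diagonal_mul_diagonal]
    congr 3
    funext j
    rw [← Complex.exp_add]
    have h3 : (((τ * l j : ℝ) : ℂ) * Complex.I) = (((1 * x (Fin.castAdd 4 j) : ℝ) : ℂ) * Complex.I +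
        ((1 * θ (Fin.castAdd 4 j) : ℝ) : ℂ) * Complex.I) + (k (Fin.castAdd 4 j) : ℂ) * (2 * Real.pi * Complex.I) := by
      have : τ * l j = x (Fin.castAdd 4 j) + θ (Fin.castAdd 4 j) + 2 * Real.pi * k (Fin.castAdd 4 j) := by
        simp only [hθ, Fin.append_left]
        ring
      rw [this]
      push_cast
      ring
    rw [h3]
    exact Complex.exp_periodic.int_mul (k (Fin.castAdd 4 j)) _
  -- first distance
  have hd1 : dist (F a) (F bτ) < ε / 2 := by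
    obtain ⟨n, L, e, hL, hLB, he, hbi⟩ := exists_biGrp G hG B hB
    obtain ⟨y, hy⟩ := (hL _).1 hXθ
    have hey : e y = bθ := by
      apply mt_inj
      rw [hbθm, ← hy]
      exact he y
    have e0 : e 0 = 1 := (word_basic hbi).1
    have h1 := hF a bτ
    have h2 : dG G B a bτ ≤ ENNReal.ofReal ‖y‖ := by
      rw [hprod]
      have : dG G B a (a * bθ) = dG G B (a * 1) (a * bθ) := by rw [mul_one]
      rw [this, hbi.left, ← e0, ← hey]
      refine (hbi.d_exp 0 y).trans ?_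
      rw [zero_sub, norm_neg]
    have h3 := h1.trans h2
    rw [ENNReal.ofReal_le_ofReal_iff (norm_nonneg _)] at h3
    have h4 : ‖y‖ = √(B (Xd u (fun j => θ (Fin.castAdd 4 j))) (Xd u (fun j => θ (Fin.castAdd 4 j)))) := by
      rw [← hy, hLB, real_inner_self_eq_norm_sq, Real.sqrt_sq (norm_nonneg _)]
    rw [h4] at h3
    exact lt_of_le_of_lt h3 hθ1
  -- second distance
  have hd2 : dist (F bτ) P ≤ ε / 2 := by
    rw [hF2 τ bτ hbτm, dist_comm, MM_dist]
    show dF (Psi _ _ _ _ q.1) (Psi _ _ _ _ q.1) ≤ _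
    have hper := Psi_periodic (x (Fin.natAdd N 0) + θ (Fin.natAdd N 0)) (x (Fin.natAdd N 1) + θ (Fin.natAdd N 1))
      (x (Fin.natAdd N 2) + θ (Fin.natAdd N 2)) (x (Fin.natAdd N 3) + θ (Fin.natAdd N 3))
      (fun i => k (Fin.natAdd N i)) q.1
    have hfr : ∀ i : Fin 4, x (Fin.natAdd N i) + θ (Fin.natAdd N i) + 2 * Real.pi * k (Fin.natAdd N i) =
        τ * fr κ i := by
      intro i
      simp only [hθ, Fin.append_right]
      ring
    have e0 : x (Fin.natAdd N 0) + θ (Fin.natAdd N 0) + 2 * Real.pi * k (Fin.natAdd N 0) = τ * 1 := hfr 0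
    have e1 : x (Fin.natAdd N 1) + θ (Fin.natAdd N 1) + 2 * Real.pi * k (Fin.natAdd N 1) = τ * 1 := hfr 1
    have e2 : x (Fin.natAdd N 2) + θ (Fin.natAdd N 2) + 2 * Real.pi * k (Fin.natAdd N 2) = τ * κ := hfr 2
    have e3 : x (Fin.natAdd N 3) + θ (Fin.natAdd N 3) + 2 * Real.pi * k (Fin.natAdd N 3) = τ * (√2 * κ) := hfr 3
    simp only [e0, e1, e2, e3] at hper
    rw [hper, dF_Psi_diff q.1 hq]
    refine ((dF_Psi _ _ _ _ q.1 q.1 hq hq).2.2.2).trans ?_
    have hb : ∀ j, |θ j| ≤ ε / 8 := by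
      intro j
      have := hτ j
      have h2 : η' ≤ ε / 8 := min_le_right _ _
      have h3 : |θ j| < η' / 2 := this
      linarith
    have hb0 := hb (Fin.natAdd N 0)
    have hb1 := hb (Fin.natAdd N 1)
    have hb2 := hb (Fin.natAdd N 2)
    have hb3 := hb (Fin.natAdd N 3)
    simp only [add_sub_cancel_left]
    linarith
  calc dist (F a) P ≤ dist (F a) (F bτ) + dist (F bτ) P := dist_triangle _ _ _
    _ ≤ ε := by linarith

/-- first variation: the inner product with a velocity is the momentum -/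
theorem momentum {N : ℕ} (G : Subgroup (Matrix.unitaryGroup (Fin N) ℂ))
    (hG : IsClosed (matSet G))
    (B : Matrix (Fin N) (Fin N) ℂ →ₗ[ℝ] Matrix (Fin N) (Fin N) ℂ →ₗ[ℝ] ℝ) (hB : IsBiinvariant G B)
    (u : Matrix (Fin N) (Fin N) ℂ) (hu : u ∈ Matrix.unitaryGroup (Fin N) ℂ)
    (l : Fin N → ℝ) (hl : Xd u l ∈ LieSet G) (q : MM) (κ : ℝ)
    (hκ : κ = hop q.1.1 + √2 * hop q.1.2) (hl2 : B (Xd u l) (Xd u l) = 2 + κ ^ 2) (F : G → MM)
    (hF : ∀ a b, ENNReal.ofReal (dist (F a) (F b)) ≤ dG G B a b)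
    (hF2 : ∀ (s : ℝ) (a : G), mt a = NormedSpace.exp (s • Xd u l) → F a = gam q κ s)
    (x : Fin (N + 4) → ℝ) (hx : x ∈ hull (Fin.append l (fr κ))) :
    B (Xd u l) (Xd u (fun j => x (Fin.castAdd 4 j))) =
      x (Fin.natAdd N 0) + x (Fin.natAdd N 1) + hop q.1.1 * x (Fin.natAdd N 2) +
        hop q.1.2 * x (Fin.natAdd N 3) := by
  have hq := q.2
  set w : Fin N → ℝ := fun j => x (Fin.castAdd 4 j) with hw
  set M0 := 2 + κ ^ 2 with hM0
  have hM0p : 0 < M0 := by positivity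
  set Py := x (Fin.natAdd N 0) + x (Fin.natAdd N 1) + hop q.1.1 * x (Fin.natAdd N 2) +
        hop q.1.2 * x (Fin.natAdd N 3) with hPy
  have hXw : Xd u w ∈ LieSet G := Xd_mem' G hG u hu l hl (fr κ) x hx
  obtain ⟨n, L, e, hL, hLB, he, hbi⟩ := exists_biGrp G hG B hB
  have e0 : e 0 = 1 := (word_basic hbi).1
  -- lower bound
  have key : ∀ r : ℝ, M0 + r * Py ≤ √M0 * √(B (Xd u l + r • Xd u w) (Xd u l + r • Xd u w)) := by
    intro r
    -- the vector
    set z : Fin (N + 4) → ℝ := fun j => 1 * Fin.append l (fr κ) j + r * x j with hz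
    have hzh : z ∈ hull (Fin.append l (fr κ)) :=
      hull_comb _ _ _ (hull_self _) hx 1 r
    set C := |z (Fin.natAdd N 0)| + |z (Fin.natAdd N 1)| + |z (Fin.natAdd N 2)| + |z (Fin.natAdd N 3)| with hC
    have hC0 : 0 ≤ C := by positivity
    set s : ℝ := 1 / (10 * (C + 1)) with hs
    have hs0 : 0 < s := by positivity
    have hsC : s * C ≤ 1 / 10 := by
      rw [hs, div_mul_eq_mul_div, div_le_div_iff₀ (by positivity) (by norm_num)]
      nlinarith
    have hsz : (fun j => s * z j) ∈ hull (Fin.append l (fr κ)) := by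
      have := hull_comb _ _ _ hzh (hull_self (Fin.append l (fr κ))) s 0
      simpa using this
    have hzX : Xd u (fun j => (fun j => s * z j) (Fin.castAdd 4 j)) = s • (Xd u l + r • Xd u w) := by
      rw [(Xd_exp u hu w r).2.1, (Xd_exp u hu l 1).2.2, (Xd_exp u hu _ s).2.1]
      congr 1
      funext j
      simp [hz, hw, Fin.append_left]
    have hsXm := Xd_mem' G hG u hu l hl (fr κ) _ hsz
    obtain ⟨y, hy⟩ := (hL _).1 hsXm
    have hflow := flow_on_hull G hG B hB u hu l hl q κ F hF hF2 _ hsz (e y) (by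
      show mt (e y) = _
      rw [← hy]
      exact he y)
    have hone : F 1 = q := by
      have := hF2 0 1 (by rw [zero_smul, NormedSpace.exp_zero]; rfl)
      rw [this, gam_zero]
    have h1 : dist (F 1) (F (e y)) ≤ ‖y‖ := by
      have h2 := hF 1 (e y)
      rw [← e0] at h2
      have h3 := h2.trans (hbi.d_exp 0 y)
      rw [zero_sub, norm_neg, ENNReal.ofReal_le_ofReal_iff (norm_nonneg _)] at h3
      rwa [e0] at h3
    rw [hone, MM_dist, hflow] at h1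
    have h4 : ‖y‖ = s * √(B (Xd u l + r • Xd u w) (Xd u l + r • Xd u w)) := by
      have : ‖y‖ ^ 2 = s ^ 2 * B (Xd u l + r • Xd u w) (Xd u l + r • Xd u w) := by
        rw [← real_inner_self_eq_norm_sq, ← hLB, hy, hzX, map_smul, map_smul, LinearMap.smul_apply,
          smul_eq_mul, smul_eq_mul]
        ring
      rw [← Real.sqrt_sq (norm_nonneg y), this, Real.sqrt_mul (sq_nonneg s), Real.sqrt_sq hs0.le]
    have hS : |s * z (Fin.natAdd N 0)| + |s * z (Fin.natAdd N 1)| + |s * z (Fin.natAdd N 2)| +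
        |s * z (Fin.natAdd N 3)| ≤ 1 / 10 := by
      rw [abs_mul, abs_mul, abs_mul, abs_mul, abs_of_pos hs0]
      calc _ = s * C := by rw [hC]; ring
        _ ≤ 1 / 10 := hsC
    have h5 := dF_lower q.1 hq 1 1 _ _ _ _ hS
    have h6 : (1 : ℝ) ^ 2 + 1 ^ 2 + (1 * hop q.1.1 + √2 * (1 * hop q.1.2)) ^ 2 = M0 := by
      rw [hM0, hκ]; ring
    rw [h6] at h5
    have h7 : 1 * (s * z (Fin.natAdd N 0)) + 1 * (s * z (Fin.natAdd N 1)) +
        1 * hop q.1.1 * (s * z (Fin.natAdd N 2)) + 1 * hop q.1.2 * (s * z (Fin.natAdd N 3)) =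
        s * (M0 + r * Py) := by
      have z0 : z (Fin.natAdd N 0) = 1 + r * x (Fin.natAdd N 0) := by
        simp [hz, Fin.append_right, fr]
      have z1 : z (Fin.natAdd N 1) = 1 + r * x (Fin.natAdd N 1) := by
        simp [hz, Fin.append_right, fr]
      have z2 : z (Fin.natAdd N 2) = κ + r * x (Fin.natAdd N 2) := by
        simp [hz, Fin.append_right, fr]
      have z3 : z (Fin.natAdd N 3) = √2 * κ + r * x (Fin.natAdd N 3) := by
        simp [hz, Fin.append_right, fr]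
      rw [z0, z1, z2, z3, hPy, hM0]
      have : hop q.1.1 = κ - √2 * hop q.1.2 := by rw [hκ]; ring
      rw [this]
      ring
    rw [h7] at h5
    have h8 : s * (M0 + r * Py) ≤ s * (√M0 * √(B (Xd u l + r • Xd u w) (Xd u l + r • Xd u w))) := by
      refine h5.trans ?_
      have h9 : √M0 * dF q.1 (Psi (s * z (Fin.natAdd N 0)) (s * z (Fin.natAdd N 1)) (s * z (Fin.natAdd N 2))
          (s * z (Fin.natAdd N 3)) q.1) ≤ √M0 * ‖y‖ := by
        apply mul_le_mul_of_nonneg_left _ (Real.sqrt_nonneg _)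
        exact h1
      refine h9.trans ?_
      rw [h4]
      apply le_of_eq
      ring
    exact le_of_mul_le_mul_left h8 hs0
  -- expand
  have hsymm : B (Xd u w) (Xd u l) = B (Xd u l) (Xd u w) := hB.symm _ hXw _ hl
  have hexp : ∀ r : ℝ, B (Xd u l + r • Xd u w) (Xd u l + r • Xd u w) =
      M0 + 2 * r * B (Xd u l) (Xd u w) + r ^ 2 * B (Xd u w) (Xd u w) := by
    intro r
    simp only [map_add, map_smul, LinearMap.add_apply, LinearMap.smul_apply, smul_eq_mul]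
    rw [hsymm, hl2]
    ring
  have hnn : ∀ r : ℝ, 0 ≤ B (Xd u l + r • Xd u w) (Xd u l + r • Xd u w) := by
    intro r
    have hmem : Xd u l + r • Xd u w ∈ LieSet G :=
      (LieSet_closed_ops G hG).2.2.1 _ hl _ ((LieSet_closed_ops G hG).2.1 r _ hXw)
    by_cases h0 : Xd u l + r • Xd u w = 0
    · rw [h0]; simp
    · exact (hB.pos _ hmem h0).le
  have key2 : ∀ r : ℝ, 0 ≤ M0 + r * Py →
      2 * r * M0 * (Py - B (Xd u l) (Xd u w)) ≤ r ^ 2 * (M0 * B (Xd u w) (Xd u w) - Py ^ 2) := by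
    intro r hr
    have h1 := key r
    have h2 : (M0 + r * Py) ^ 2 ≤ (√M0 * √(B (Xd u l + r • Xd u w) (Xd u l + r • Xd u w))) ^ 2 :=
      pow_le_pow_left₀ hr h1 2
    rw [mul_pow, Real.sq_sqrt hM0p.le, Real.sq_sqrt (hnn r), hexp] at h2
    nlinarith
  set D := M0 * B (Xd u w) (Xd u w) - Py ^ 2 with hD
  set c := Py - B (Xd u l) (Xd u w) with hc
  suffices hc0 : c = 0 by linarith
  by_contra hne
  -- choose small r of the sign of c
  set r0 : ℝ := min (M0 / (|Py| + 1)) (M0 * |c| / (|D| + 1)) with hr0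
  have hcpos : 0 < |c| := abs_pos.2 hne
  have hr0p : 0 < r0 := lt_min (by positivity) (by positivity)
  have hr1 : r0 * (|Py| + 1) ≤ M0 := by
    rw [← le_div_iff₀ (by positivity)]; exact min_le_left _ _
  have hr2 : r0 * (|D| + 1) ≤ M0 * |c| := by
    rw [← le_div_iff₀ (by positivity)]; exact min_le_right _ _
  have hP1 := abs_le.1 (le_refl |Py|)
  have hD1 := le_abs_self D
  rcases lt_or_gt_of_ne hne with hneg | hpos
  · have hcabs : |c| = -c := abs_of_neg hneg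
    have h3 := key2 (-r0) (by nlinarith)
    rw [hcabs] at hr2
    nlinarith [mul_pos hr0p hr0p, mul_pos hr0p (mul_pos hM0p (neg_pos.2 hneg))]
  · have hcabs : |c| = c := abs_of_pos hpos
    have h3 := key2 r0 (by nlinarith)
    rw [hcabs] at hr2
    nlinarith [mul_pos hr0p hr0p, mul_pos hr0p (mul_pos hM0p hpos)]

theorem not_submetry {N : ℕ} (G : Subgroup (Matrix.unitaryGroup (Fin N) ℂ))
    (hG : IsClosed (matSet G)) (hGc : IsCompact (matSet G))
    (B : Matrix (Fin N) (Fin N) ℂ →ₗ[ℝ] Matrix (Fin N) (Fin N) ℂ →ₗ[ℝ] ℝ) (hB : IsBiinvariant G B)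
    (f : G → MM) (hsurj : Function.Surjective f)
    (hlip : ∀ x y, ENNReal.ofReal (dist (f x) (f y)) ≤ dG G B x y)
    (hsub : ∀ (x : G) (q : MM) (ε : ℝ), 0 < ε →
      ∃ y, f y = q ∧ dG G B x y < ENNReal.ofReal (dist (f x) q + ε)) : False := by
  obtain ⟨u, hu, huk⟩ := exists_k G hG hGc B hB
  -- points
  have hpt : ∀ t : ℝ, t ∈ Ioo (0 : ℝ) 1 → ∃ q : MM, hop q.1.1 = t ∧ hop q.1.2 = t ^ 2 := by
    intro t ht
    have h1 : |t| ≤ 1 := by rw [abs_of_pos ht.1]; exact ht.2.le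
    have h2 : |t ^ 2| ≤ 1 := by
      rw [abs_of_nonneg (sq_nonneg t)]
      nlinarith [ht.1, ht.2]
    obtain ⟨p₁, hp1, hp1'⟩ := (hop_abs_le 1 (by simp)).2 t h1
    obtain ⟨p₂, hp2, hp2'⟩ := (hop_abs_le 1 (by simp)).2 (t ^ 2) h2
    exact ⟨⟨(p₁, p₂), hp1, hp2⟩, hp1', hp2'⟩
  have hdata : ∀ t : ℝ, t ∈ Ioo (0 : ℝ) 1 → ∃ l : Fin N → ℝ, Xd u l ∈ LieSet G ∧
      ∀ x ∈ hull (Fin.append l (fr (t + √2 * t ^ 2))),
        B (Xd u l) (Xd u (fun j => x (Fin.castAdd 4 j))) =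
          x (Fin.natAdd N 0) + x (Fin.natAdd N 1) + t * x (Fin.natAdd N 2) +
            t ^ 2 * x (Fin.natAdd N 3) := by
    intro t ht
    obtain ⟨q, hq1, hq2⟩ := hpt t ht
    obtain ⟨l, hl, hl2, F, hF, hF2⟩ := data G hG B hB f hsurj hlip hsub u huk q (t + √2 * t ^ 2)
      (by rw [hq1, hq2])
    refine ⟨l, hl, ?_⟩
    intro x hx
    have := momentum G hG B hB u hu l hl q (t + √2 * t ^ 2) (by rw [hq1, hq2]) hl2 F hF hF2 x hx
    rw [hq1, hq2] at this
    exact this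
  classical
  let lt : ℝ → Fin N → ℝ := fun t => if h : t ∈ Ioo (0 : ℝ) 1 then (hdata t h).choose else 0
  have hlt : ∀ t, t ∈ Ioo (0 : ℝ) 1 → Xd u (lt t) ∈ LieSet G ∧
      ∀ x ∈ hull (Fin.append (lt t) (fr (t + √2 * t ^ 2))),
        B (Xd u (lt t)) (Xd u (fun j => x (Fin.castAdd 4 j))) =
          x (Fin.natAdd N 0) + x (Fin.natAdd N 1) + t * x (Fin.natAdd N 2) +
            t ^ 2 * x (Fin.natAdd N 3) := by
    intro t ht
    have : lt t = (hdata t ht).choose := dif_pos ht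
    rw [this]
    exact (hdata t ht).choose_spec
  obtain ⟨t₁, t₂, t₃, h1, h2, h3, h12, h23, hr12, hr23⟩ :=
    three_share (N + 4) (fun t => Fin.append (lt t) (fr (t + √2 * t ^ 2)))
  set V₁ := Fin.append (lt t₁) (fr (t₁ + √2 * t₁ ^ 2)) with hV1
  set V₂ := Fin.append (lt t₂) (fr (t₂ + √2 * t₂ ^ 2)) with hV2
  set V₃ := Fin.append (lt t₃) (fr (t₃ + √2 * t₃ ^ 2)) with hV3
  have hh2 : hull V₂ = hull V₁ := by
    ext x
    exact ⟨fun h m hm => h m ((hr12 m).1 hm), fun h m hm => h m ((hr12 m).2 hm)⟩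
  have hh3 : hull V₃ = hull V₂ := by
    ext x
    exact ⟨fun h m hm => h m ((hr23 m).1 hm), fun h m hm => h m ((hr23 m).2 hm)⟩
  -- coefficients
  have hd12 : t₁ - t₂ ≠ 0 := by intro h; linarith
  have hd13 : t₁ - t₃ ≠ 0 := by intro h; linarith
  have hd23 : t₂ - t₃ ≠ 0 := by intro h; linarith
  obtain ⟨a₁, a₂, a₃, ha0, ha1, ha2⟩ : ∃ a₁ a₂ a₃ : ℝ, a₁ + a₂ + a₃ = 0 ∧
      a₁ * t₁ + a₂ * t₂ + a₃ * t₃ = √2 ∧ a₁ * t₁ ^ 2 + a₂ * t₂ ^ 2 + a₃ * t₃ ^ 2 = -1 := by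
    refine ⟨(-1 - √2 * (t₂ + t₃)) / ((t₁ - t₂) * (t₁ - t₃)),
      -((-1 - √2 * (t₁ + t₃)) / ((t₁ - t₂) * (t₂ - t₃))),
      (-1 - √2 * (t₁ + t₂)) / ((t₁ - t₃) * (t₂ - t₃)), ?_, ?_, ?_⟩ <;> field_simp <;> ring
  have hs2 : √2 * √2 = 2 := Real.mul_self_sqrt (by norm_num)
  -- the vector Y
  set z : Fin (N + 4) → ℝ := fun j => 1 * (a₁ * V₁ j + a₂ * V₂ j) + a₃ * V₃ j with hz
  have hm1 : V₁ ∈ hull V₁ := hull_self _
  have hm2 : V₂ ∈ hull V₁ := by rw [← hh2]; exact hull_self _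
  have hm3 : V₃ ∈ hull V₁ := by rw [← hh2, ← hh3]; exact hull_self _
  have hzm : z ∈ hull V₁ := hull_comb _ _ _ (hull_comb _ _ _ hm1 hm2 a₁ a₂) hm3 1 a₃
  have hzX : Xd u (fun j => z (Fin.castAdd 4 j)) =
      a₁ • Xd u (lt t₁) + a₂ • Xd u (lt t₂) + a₃ • Xd u (lt t₃) := by
    rw [(Xd_exp u hu _ a₁).2.1, (Xd_exp u hu _ a₂).2.1, (Xd_exp u hu _ a₃).2.1,
      (Xd_exp u hu _ 1).2.2, (Xd_exp u hu _ 1).2.2]
    congr 1
    funext j
    simp [hz, hV1, hV2, hV3, Fin.append_left]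
  have hYB : ∀ x ∈ hull V₁, B (Xd u (fun j => z (Fin.castAdd 4 j)))
      (Xd u (fun j => x (Fin.castAdd 4 j))) = √2 * x (Fin.natAdd N 2) - x (Fin.natAdd N 3) := by
    intro x hx
    have e1 := (hlt t₁ h1).2 x hx
    have e2 := (hlt t₂ h2).2 x (by rw [← hV2, hh2]; exact hx)
    have e3 := (hlt t₃ h3).2 x (by rw [← hV3, hh3, hh2]; exact hx)
    rw [hzX]
    simp only [map_add, map_smul, LinearMap.add_apply, LinearMap.smul_apply, smul_eq_mul]
    rw [e1, e2, e3]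
    linear_combination (x (Fin.natAdd N 0) + x (Fin.natAdd N 1)) * ha0 + x (Fin.natAdd N 2) * ha1 +
      x (Fin.natAdd N 3) * ha2
  have hz2 : z (Fin.natAdd N 2) = 0 := by
    have : z (Fin.natAdd N 2) = a₁ * (t₁ + √2 * t₁ ^ 2) + a₂ * (t₂ + √2 * t₂ ^ 2) +
        a₃ * (t₃ + √2 * t₃ ^ 2) := by
      simp [hz, hV1, hV2, hV3, Fin.append_right, fr]
    rw [this]
    linear_combination ha1 + √2 * ha2
  have hz3 : z (Fin.natAdd N 3) = 0 := by
    have : z (Fin.natAdd N 3) = √2 * (a₁ * (t₁ + √2 * t₁ ^ 2) + a₂ * (t₂ + √2 * t₂ ^ 2) +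
        a₃ * (t₃ + √2 * t₃ ^ 2)) := by
      simp [hz, hV1, hV2, hV3, Fin.append_right, fr]
      ring
    rw [this]
    linear_combination √2 * (ha1 + √2 * ha2)
  have hXz : Xd u (fun j => z (Fin.castAdd 4 j)) ∈ LieSet G :=
    Xd_mem' G hG u hu (lt t₁) (hlt t₁ h1).1 _ z hzm
  have hYY := hYB z hzm
  rw [hz2, hz3] at hYY
  have hY0 : Xd u (fun j => z (Fin.castAdd 4 j)) = 0 := by
    by_contra hne
    have := hB.pos _ hXz hne
    rw [hYY] at this
    simp at this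
  -- the rational vector
  have hκ : V₁ (Fin.natAdd N 2) ≠ 0 := by
    have : V₁ (Fin.natAdd N 2) = t₁ + √2 * t₁ ^ 2 := by
      simp [hV1, Fin.append_right, fr]
    rw [this]
    have h0 := h1.1
    positivity
  obtain ⟨x, hx0, hx⟩ := rational_vector (N + 4) V₁ (Fin.natAdd N 2) hκ
  have hfin := hYB (fun j => (x j : ℝ)) hx
  rw [hY0] at hfin
  simp only [map_zero, LinearMap.zero_apply] at hfin
  have hirr : Irrational √2 := irrational_sqrt_two
  apply hirr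
  refine ⟨x (Fin.natAdd N 3) / x (Fin.natAdd N 2), ?_⟩
  have hx0' : (x (Fin.natAdd N 2) : ℝ) ≠ 0 := by exact_mod_cast hx0
  push_cast
  rw [div_eq_iff hx0']
  linarith

theorem not_biquotient {N : ℕ} (G : Subgroup (Matrix.unitaryGroup (Fin N) ℂ))
    (hG' : IsClosed (G : Set (Matrix.unitaryGroup (Fin N) ℂ)))
    (B : Matrix (Fin N) (Fin N) ℂ →ₗ[ℝ] Matrix (Fin N) (Fin N) ℂ →ₗ[ℝ] ℝ) (hB : IsBiinvariant G B)
    (Γ : Subgroup (Equiv.Perm G)) : ¬ IsQuotient (dG G B) Γ dM := by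
  rintro ⟨π, hsurj, hd⟩
  obtain ⟨hG, hGc⟩ := isClosed_matSet G hG'
  obtain ⟨n, L, e, hL, hLB, he, hbi⟩ := exists_biGrp G hG B hB
  have hself := (word_basic hbi).2.1
  let f : G → MM := π
  have hfd : ∀ x y, ENNReal.ofReal (dist (f x) (f y)) = ⨅ γ ∈ Γ, dG G B x (γ y) := by
    intro x y
    have h1 : ENNReal.ofReal (dist (f x) (f y)) = dM (π x) (π y) := by
      rw [dM_eq, MM_dist]
    rw [h1, hd]
  have hfs : Function.Surjective f := hsurj
  refine not_submetry G hG hGc B hB f hfs ?_ ?_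
  · intro x y
    rw [hfd]
    exact iInf₂_le_of_le 1 Γ.one_mem le_rfl
  · intro x q ε hε
    obtain ⟨y, hy⟩ := hfs q
    have h1 : ENNReal.ofReal (dist (f x) (f y)) < ENNReal.ofReal (dist (f x) q + ε) := by
      rw [hy]
      apply (ENNReal.ofReal_lt_ofReal_iff _).2
      · linarith
      · linarith [dist_nonneg (x := f x) (y := q)]
    rw [hfd] at h1
    obtain ⟨γ, hγ⟩ := iInf_lt_iff.1 h1
    obtain ⟨hγΓ, hγ2⟩ := iInf_lt_iff.1 hγ
    refine ⟨γ y, ?_, hγ2⟩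
    have h2 : ENNReal.ofReal (dist (f (γ y)) (f y)) = 0 := by
      rw [hfd, ← nonpos_iff_eq_zero]
      exact iInf₂_le_of_le γ hγΓ (by rw [hself])
    rw [ENNReal.ofReal_eq_zero] at h2
    rw [dist_le_zero.1 h2]
    exact hy

end HQ
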