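import Pool.Agent.Helper831.HQ.Defs

open scoped Quaternion Matrix.Norms.L2Operator ENNReal
open Set MeasureTheory

noncomputable section

namespace HQ



theorem isClosed_matSet {N : ℕ} (G : Subgroup (Matrix.unitaryGroup (Fin N) ℂ))
    (hG : IsClosed (G : Set (Matrix.unitaryGroup (Fin N) ℂ))) : IsClosed (matSet G) ∧
    IsCompact (matSet G) := by
  have hU : IsClosed ((Matrix.unitaryGroup (Fin N) ℂ : Submonoid (Matrix (Fin N) (Fin N) ℂ)) :
      Set (Matrix (Fin N) (Fin N) ℂ)) := by
    have e : ((Matrix.unitaryGroup (Fin N) ℂ : Submonoid (Matrix (Fin N) (Fin N) ℂ)) :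
      Set (Matrix (Fin N) (Fin N) ℂ)) = {A | star A * A = 1} := by
      ext A
      exact Matrix.mem_unitaryGroup_iff'
    rw [e]
    exact isClosed_eq (continuous_star.mul continuous_id) continuous_const
  have hemb := hU.isClosedEmbedding_subtypeVal
  have e : matSet G = Subtype.val '' (G : Set (Matrix.unitaryGroup (Fin N) ℂ)) := rfl
  have hcl : IsClosed (matSet G) := by
    rw [e]
    exact hemb.isClosedMap _ hG
  refine ⟨hcl, ?_⟩
  obtain ⟨K, hK⟩ : ∃ K : Set (Matrix (Fin N) (Fin N) ℂ), K = Set.pi Set.univ (fun _ : Fin N =>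
    Set.pi Set.univ (fun _ : Fin N => Metric.closedBall (0:ℂ) 1)) := ⟨_, rfl⟩
  have hc : IsCompact K := by
    rw [hK]
    exact isCompact_univ_pi fun _ => isCompact_univ_pi fun _ => isCompact_closedBall _ _
  refine hc.of_isClosed_subset hcl ?_
  rintro A ⟨g, hg, rfl⟩
  rw [hK]
  intro i _ j _
  rw [mem_closedBall_zero_iff]
  exact entry_norm_bound_of_unitary g.2 i j

end HQ
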